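import Pool.Agent.Helper850.TC.Word

namespace Pool.Agent.Helper850.TC

/-- chords are symmetric and join vertices that are not equal or adjacent -/
def ValidW {n : ℕ} (w : ZMod n → Env n) : Prop :=
  ∀ i j, w i = Env.chord j → w j = Env.chord i ∧ j ≠ i ∧ j ≠ i + 1 ∧ i ≠ j + 1

/-- weight of a letter -/
def wt {n : ℕ} : Env n → ℕ
  | .out => 0
  | .known _ => 2
  | .unk => 2
  | .chord _ => 1

def BadW (n : ℕ) (w : ZMod n → Env n) : Prop :=
  (n = 4 ∧ ∃ i, w i = .unk ∧ w (i+1) = .unk ∧ w (i+2) = .out ∧ w (i+3) = .out) ∨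
  (n = 5 ∧ ∃ i, w (i+3) = .out ∧ w (i+4) = .out ∧
    ((w (i+2) = .out ∧ ((w i = .unk ∧ w (i+1) = .unk) ∨
        (w i = .known false ∧ w (i+1) = .known true) ∨
        (w i = .known true ∧ w (i+1) = .known false))) ∨
      (w i = .chord (i+2) ∧ w (i+1) = .unk)))

def par {n : ℕ} (w : ZMod n → Env n) (i : ZMod n) : ZMod n :=
  match w i with
  | .chord j => j
  | _ => i

theorem par_spec {n : ℕ} {w : ZMod n → Env n} {i j : ZMod n} (h : w i = .chord j) : par w i = j := by
  unfold par; rw [h]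

end Pool.Agent.Helper850.TC
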