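import Pool.Agent.Helper850.TC.Orient2
import Pool.Agent.Helper850.TC.SmallDefs

namespace Pool.Agent.Helper850.TC

open Classical

set_option linter.unusedVariables false
set_option linter.unusedSimpArgs false
set_option linter.unusedSectionVars false

theorem cond_flip {n : ℕ} (hn : 4 ≤ n) (hn3 : n % 3 ≠ 0) (a : ZMod n) (τ : Bool)
    {l r pt out : ZMod n → Bool} (h1 : ∀ i, l i = if i = a then !τ else τ)
    (h2 : ∀ i, r i = !decide (i = a ∨ i = a + 1)) (h3 : pt a = τ) (h4 : pt (a+1) = τ)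
    (h5 : ∀ i, out i = true) : Cond n l r pt out := by
  have : NeZero n := ⟨by omega⟩
  have : Fact (1 < n) := ⟨by omega⟩
  have hone : (1 : ZMod n) ≠ 0 := one_ne_zero
  have hcast : ∀ m : ℕ, 0 < m → m < n → (m : ZMod n) ≠ 0 := by
    intro m hm hmn h
    rw [ZMod.natCast_eq_zero_iff] at h
    have := Nat.le_of_dvd hm h
    omega
  have ha1 : a + 1 ≠ a := by simpa using hone
  have ha2 : a - 1 ≠ a := by
    intro h; apply hone; linear_combination -h
  have mixa : l (a - 1) ≠ l a := by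
    rw [h1, h1, if_neg ha2, if_pos rfl]; cases τ <;> simp
  have mixa1 : l (a + 1 - 1) ≠ l (a + 1) := by
    rw [h1, h1, if_neg ha1, if_pos (by ring)]; cases τ <;> simp
  have hpure : ∀ i, i ≠ a → i ≠ a + 1 → l (i - 1) = l i := by
    intro i hi1 hi2
    rw [h1, h1, if_neg hi1, if_neg]
    intro h; apply hi2; rw [← h]; ring
  refine ⟨?_, ?_, ?_⟩
  · rintro i j ⟨hi1, hi2⟩ _
    exfalso
    rw [h2] at hi1
    simp only [Bool.not_eq_false', decide_eq_true_eq] at hi1
    rcases hi1 with rfl | rfl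
    · exact mixa hi2
    · exact mixa1 hi2
  · intro h; exact absurd (h a) mixa
  · intro x hx
    by_cases hxa : x = a
    · subst hxa
      right; right; left
      have e2 : x + 2 ≠ x := by
        intro h; apply hcast 2 (by omega) (by omega)
        push_cast; linear_combination h
      have e3 : x + 2 ≠ x + 1 := by
        intro h; apply hone; linear_combination h
      refine ⟨x + 2, ?_, ?_, h5 _⟩
      · rw [h2]; simp only [Bool.not_eq_true', decide_eq_false_iff_not]
        rintro (h | h)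
        · exact e2 h
        · exact e3 h
      · rw [h1, h1, if_neg e2, if_pos rfl]; cases τ <;> simp
    · have hxa1 : x = a + 1 := by
        by_contra h
        exact hx (hpure x hxa h)
      subst hxa1
      right; right; right
      have hlx : l (a + 1) = τ := by rw [h1, if_neg ha1]
      have hend : a + 1 + ((n - 1 : ℕ) : ZMod n) = a := by
        have : ((n - 1 : ℕ) : ZMod n) = -1 := by
          rw [Nat.cast_sub (by omega)]; simp
        rw [this]; ring
      refine ⟨n - 1, by omega, ?_, ?_, ?_⟩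
      · intro j hj
        rw [hlx, h1, if_neg]
        intro h
        apply hcast (j + 1) (by omega) (by omega)
        push_cast; linear_combination h
      · rw [hend, hlx, h1, if_pos rfl]; cases τ <;> simp
      · rw [hend, hlx, h3, h4]
        simp only [ne_eq, not_true_eq_false, if_false, add_zero]
        omega

section
variable {ι : Type*} {k : ι → ℕ} [∀ c, NeZero (k c)] [Fintype ι]

/-- local validity of a labelling -/
def LV (M : Vx k → Vx k) (l r : Vx k → Bool) : Prop :=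
  (∀ v, r (M v) = !r v) ∧ (∀ v, r v = true → l (pv v) = l v) ∧
  (∀ v, r v = false → l (pv v) = l v → l (M v) ≠ l v)

def CondAt (M : Vx k → Vx k) (l r : Vx k → Bool) (c : ι) : Prop :=
  Cond (k c) (fun i => l ⟨c, i⟩) (fun i => r ⟨c, i⟩) (fun i => l (M ⟨c, i⟩))
    (fun i => !decide ((M ⟨c, i⟩).1 = c))

/-- five-cycle without chords with exactly the two in-ends `i, i+1` -/
def YT (M : Vx k → Vx k) (inn : Vx k → Bool) (C : ι) (i : ZMod (k C)) : Prop :=
  k C = 5 ∧ inn ⟨C, i⟩ = true ∧ inn ⟨C, i+1⟩ = true ∧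
    (∀ v : Vx k, v.1 = C → v ≠ ⟨C, i⟩ → v ≠ ⟨C, i+1⟩ → inn v = false) ∧
    (∀ v : Vx k, v.1 = C → (M v).1 ≠ C)

/-- some further vertex of `C` already sees a pure processed vertex -/
def Bonus (M : Vx k → Vx k) (P : Finset ι) (r : Vx k → Bool) (C : ι) (i : ZMod (k C)) : Prop :=
  ∃ v : Vx k, v.1 = C ∧ v ≠ ⟨C, i⟩ ∧ v ≠ ⟨C, i+1⟩ ∧ (M v).1 ∈ P ∧ r (M v) = true

structure Inv (M : Vx k → Vx k) (inn : Vx k → Bool) (P : Finset ι) (l r : Vx k → Bool) : Prop where
  s1 : ∀ v : Vx k, v.1 ∈ P → r v = true → l (pv v) = l v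
  s2a : ∀ v : Vx k, v.1 ∈ P → (M v).1 ∈ P → r (M v) = !r v
  s2b : ∀ v : Vx k, v.1 ∈ P → (M v).1 ∈ P → r v = false → l (pv v) = l v → l (M v) ≠ l v
  s3 : ∀ v : Vx k, v.1 ∈ P → (M v).1 ∉ P → r v = true ∨ (r v = false ∧ l (pv v) ≠ l v ∧ inn v = true)
  s5 : ∀ l' r' : Vx k → Bool, (∀ v : Vx k, v.1 ∈ P → l' v = l v ∧ r' v = r v) → LV M l' r' →
    ∀ c ∈ P, CondAt M l' r' c
  i4 : ∀ (C : ι) (i : ZMod (k C)), C ∉ P → YT M inn C i → (M ⟨C, i⟩).1 ∈ P → (M ⟨C, i+1⟩).1 ∈ P →
    l (M ⟨C, i⟩) ≠ l (M ⟨C, i+1⟩) → Bonus M P r C i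

variable {M : Vx k → Vx k} {inn : Vx k → Bool} {P : Finset ι} {l r : Vx k → Bool}

/-- an in-end whose tail is processed sees a regular vertex -/
theorem Inv.tail (h : Inv M inn P l r) (hinv : ∀ v, M (M v) = v) (hinn : ∀ v, inn (M v) = !inn v)
    {v : Vx k} (h1 : v.1 ∉ P) (h2 : (M v).1 ∈ P) (h3 : inn v = true) : r (M v) = true := by
  rcases h.s3 (M v) h2 (by rw [hinv]; exact h1) with h4 | ⟨_, _, h4⟩
  · exact h4
  · rw [hinn, h3] at h4; exact absurd h4 (by simp)

noncomputable def comb (S : Finset ι) (f g : Vx k → Bool) (v : Vx k) : Bool := if v.1 ∈ S then f v else g v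

theorem comb_in {S : Finset ι} {f g : Vx k → Bool} {v : Vx k} (h : v.1 ∈ S) : comb S f g v = f v :=
  if_pos h
theorem comb_out {S : Finset ι} {f g : Vx k → Bool} {v : Vx k} (h : v.1 ∉ S) : comb S f g v = g v :=
  if_neg h
theorem comb_pv_in {S : Finset ι} {f g : Vx k → Bool} {v : Vx k} (h : v.1 ∈ S) :
    comb S f g (pv v) = f (pv v) := if_pos h
theorem comb_pv_out {S : Finset ι} {f g : Vx k → Bool} {v : Vx k} (h : v.1 ∉ S) :
    comb S f g (pv v) = g (pv v) := if_neg h

theorem Inv.extend (h : Inv M inn P l r) (hinv : ∀ v, M (M v) = v) (S : Finset ι)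
    (hdisj : ∀ c ∈ S, c ∉ P) (lS rS : Vx k → Bool)
    (n1 : ∀ v : Vx k, v.1 ∈ S → rS v = true → lS (pv v) = lS v)
    (n2 : ∀ v : Vx k, v.1 ∈ S → (M v).1 ∈ P → r (M v) = !rS v ∧
      (rS v = false → lS (pv v) = lS v → l (M v) ≠ lS v))
    (n2' : ∀ v : Vx k, v.1 ∈ S → (M v).1 ∈ S → rS (M v) = !rS v ∧
      (rS v = false → lS (pv v) = lS v → lS (M v) ≠ lS v))
    (n3 : ∀ v : Vx k, v.1 ∈ S → (M v).1 ∉ P → (M v).1 ∉ S →
      rS v = true ∨ (rS v = false ∧ lS (pv v) ≠ lS v ∧ inn v = true))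
    (n5 : ∀ l' r' : Vx k → Bool, (∀ v : Vx k, v.1 ∈ P → l' v = l v ∧ r' v = r v) →
      (∀ v : Vx k, v.1 ∈ S → l' v = lS v ∧ r' v = rS v) → LV M l' r' → ∀ c ∈ S, CondAt M l' r' c)
    (n4 : ∀ (C : ι) (i : ZMod (k C)), C ∉ P → C ∉ S → YT M inn C i →
      ((M ⟨C, i⟩).1 ∈ P ∨ (M ⟨C, i⟩).1 ∈ S) → ((M ⟨C, i+1⟩).1 ∈ P ∨ (M ⟨C, i+1⟩).1 ∈ S) →
      comb S lS l (M ⟨C, i⟩) ≠ comb S lS l (M ⟨C, i+1⟩) → Bonus M P r C i) :
    Inv M inn (P ∪ S) (comb S lS l) (comb S rS r) := by
  have hPS : ∀ c, c ∈ P → c ∉ S := fun c h1 h2 => hdisj c h2 h1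
  refine ⟨?_, ?_, ?_, ?_, ?_, ?_⟩
  · intro v hv
    by_cases hS : v.1 ∈ S
    · rw [comb_in hS, comb_in hS, comb_pv_in hS]; exact n1 v hS
    · rw [comb_out hS, comb_out hS, comb_pv_out hS]
      exact h.s1 v (by rcases Finset.mem_union.1 hv with h' | h'; exact h'; exact absurd h' hS)
  · intro v hv hMv
    by_cases hS : v.1 ∈ S
    · by_cases hMS : (M v).1 ∈ S
      · rw [comb_in hS, comb_in hMS]; exact (n2' v hS hMS).1
      · rw [comb_in hS, comb_out hMS]
        exact (n2 v hS (by rcases Finset.mem_union.1 hMv with h' | h'; exact h'; exact absurd h' hMS)).1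
    · have hvP : v.1 ∈ P := by rcases Finset.mem_union.1 hv with h' | h'; exact h'; exact absurd h' hS
      by_cases hMS : (M v).1 ∈ S
      · rw [comb_out hS, comb_in hMS]
        have := (n2 (M v) hMS (by rw [hinv]; exact hvP)).1
        rw [hinv] at this
        rw [this]; simp
      · rw [comb_out hS, comb_out hMS]
        exact h.s2a v hvP (by rcases Finset.mem_union.1 hMv with h' | h'; exact h'; exact absurd h' hMS)
  · intro v hv hMv
    by_cases hS : v.1 ∈ S
    · by_cases hMS : (M v).1 ∈ S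
      · rw [comb_in hS, comb_in hS, comb_in hMS, comb_pv_in hS]; exact (n2' v hS hMS).2
      · rw [comb_in hS, comb_in hS, comb_out hMS, comb_pv_in hS]
        exact (n2 v hS (by rcases Finset.mem_union.1 hMv with h' | h'; exact h'; exact absurd h' hMS)).2
    · have hvP : v.1 ∈ P := by rcases Finset.mem_union.1 hv with h' | h'; exact h'; exact absurd h' hS
      by_cases hMS : (M v).1 ∈ S
      · rw [comb_out hS, comb_out hS, comb_in hMS, comb_pv_out hS]
        intro h1 h2
        exfalso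
        rcases h.s3 v hvP (hdisj _ hMS) with h3 | ⟨_, h3, _⟩
        · rw [h1] at h3; exact absurd h3 (by simp)
        · exact h3 h2
      · rw [comb_out hS, comb_out hS, comb_out hMS, comb_pv_out hS]
        exact h.s2b v hvP (by rcases Finset.mem_union.1 hMv with h' | h'; exact h'; exact absurd h' hMS)
  · intro v hv hMv
    rw [Finset.mem_union, not_or] at hMv
    by_cases hS : v.1 ∈ S
    · rw [comb_in hS, comb_in hS, comb_pv_in hS]
      exact n3 v hS hMv.1 hMv.2
    · rw [comb_out hS, comb_out hS, comb_pv_out hS]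
      exact h.s3 v (by rcases Finset.mem_union.1 hv with h' | h'; exact h'; exact absurd h' hS) hMv.1
  · intro l' r' hag hLV c hc
    have hP' : ∀ v : Vx k, v.1 ∈ P → l' v = l v ∧ r' v = r v := by
      intro v hv
      have := hag v (Finset.mem_union_left _ hv)
      rw [comb_out (hPS _ hv), comb_out (hPS _ hv)] at this
      exact this
    have hS' : ∀ v : Vx k, v.1 ∈ S → l' v = lS v ∧ r' v = rS v := by
      intro v hv
      have := hag v (Finset.mem_union_right _ hv)
      rw [comb_in hv, comb_in hv] at this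
      exact this
    rcases Finset.mem_union.1 hc with h1 | h1
    · exact h.s5 l' r' hP' hLV c h1
    · exact n5 l' r' hP' hS' hLV c h1
  · intro C i hC hY h1 h2 h3
    rw [Finset.mem_union, not_or] at hC
    rw [Finset.mem_union] at h1 h2
    obtain ⟨v, hv1, hv2, hv3, hv4, hv5⟩ := n4 C i hC.1 hC.2 hY h1 h2 h3
    refine ⟨v, hv1, hv2, hv3, Finset.mem_union_left _ hv4, ?_⟩
    rw [comb_out (hPS _ hv4)]
    exact hv5

/-- simultaneous processing of a set of short cycles -/
theorem simul_inv (h : Inv M inn P l r) (hinv : ∀ v, M (M v) = v) (hinn : ∀ v, inn (M v) = !inn v)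
    (S : Finset ι) (hdisj : ∀ c ∈ S, c ∉ P) (i : ∀ C, ZMod (k C)) (τ : Bool)
    (hS : ∀ C ∈ S, 4 ≤ k C ∧ k C % 3 ≠ 0 ∧ inn ⟨C, i C⟩ = true ∧ inn ⟨C, i C + 1⟩ = true ∧
      (∀ v : Vx k, v.1 = C → v ≠ ⟨C, i C⟩ → v ≠ ⟨C, i C + 1⟩ → inn v = false) ∧
      (∀ v : Vx k, v.1 = C → (M v).1 ≠ C))
    (hP : ∀ v : Vx k, v.1 ∈ S → (M v).1 ∈ P → (inn v = true → r (M v) = true ∧ l (M v) = τ) ∧
      (inn v = false → r (M v) = false))
    (hout : ∀ v : Vx k, v.1 ∈ S → inn v = true → (M v).1 ∈ P ∨ (M v).1 ∈ S)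
    (n4 : ∀ (C : ι) (j : ZMod (k C)), C ∉ P → C ∉ S → YT M inn C j →
      ((M ⟨C, j⟩).1 ∈ P ∨ (M ⟨C, j⟩).1 ∈ S) → ((M ⟨C, j+1⟩).1 ∈ P ∨ (M ⟨C, j+1⟩).1 ∈ S) →
      comb S (fun _ => τ) l (M ⟨C, j⟩) ≠ comb S (fun _ => τ) l (M ⟨C, j+1⟩) → Bonus M P r C j) :
    ∃ l' r', Inv M inn (P ∪ S) l' r' := by
  set lS : Vx k → Bool := fun v => if v = ⟨v.1, i v.1⟩ then !τ else τ with hlS
  have hinn2 : ∀ v : Vx k, v.1 ∈ S → (inn v = true ↔ (v = ⟨v.1, i v.1⟩ ∨ v = nx ⟨v.1, i v.1⟩)) := by
    intro v hv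
    obtain ⟨a1, a2, a3, a4, a5, a6⟩ := hS v.1 hv
    constructor
    · intro h1
      by_contra hcon
      push Not at hcon
      have := a5 v rfl hcon.1 hcon.2
      rw [h1] at this; exact absurd this (by simp)
    · rintro (h1 | h1)
      · rw [h1]; exact a3
      · rw [h1]; exact a4
  have hlout : ∀ v : Vx k, v.1 ∈ S → inn v = false → lS v = τ := by
    intro v hv h1
    simp only [hlS]
    rw [if_neg]
    intro h2
    have := (hinn2 v hv).2 (Or.inl h2)
    rw [h1] at this; exact absurd this (by simp)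
  have hone : ∀ C ∈ S, (1 : ZMod (k C)) ≠ 0 := by
    intro C hC
    have : Fact (1 < k C) := ⟨by have := (hS C hC).1; omega⟩
    exact one_ne_zero
  have hmix : ∀ v : Vx k, v.1 ∈ S → inn v = true → lS (pv v) ≠ lS v := by
    intro v hv h1
    have h0 := hone v.1 hv
    obtain ⟨C, j⟩ := v
    rcases (hinn2 ⟨C, j⟩ hv).1 h1 with h2 | h2
    · have h3 : j = i C := vx_inj h2
      simp only [hlS]
      rw [if_pos h2, if_neg]
      · cases τ <;> simp
      · intro h4
        have h5 : j - 1 = i C := vx_inj h4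
        apply h0
        show (1 : ZMod (k C)) = 0
        rw [h3] at h5
        linear_combination -h5
    · have h3 : j = i C + 1 := vx_inj h2
      simp only [hlS]
      have h4 : pv (⟨C, j⟩ : Vx k) = ⟨C, i C⟩ := by
        rw [h3]
        show (⟨C, i C + 1 - 1⟩ : Vx k) = _
        rw [add_sub_cancel_right]
      rw [h4, if_pos rfl, if_neg]
      · cases τ <;> simp
      · intro h5
        have h6 : j = i C := vx_inj h5
        apply h0
        show (1 : ZMod (k C)) = 0
        rw [h3] at h6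
        linear_combination h6
  refine ⟨_, _, h.extend hinv S hdisj lS (fun v => !inn v) ?_ ?_ ?_ ?_ ?_ ?_⟩
  · intro v hv h1
    have h2 : inn v = false := by simpa using h1
    rw [hlout v hv h2]
    simp only [hlS]
    rw [if_neg]
    intro h3
    have : v = nx ⟨v.1, i v.1⟩ := by
      rw [← nx_pv v, h3]; rfl
    have := (hinn2 v hv).2 (Or.inr this)
    rw [h2] at this; exact absurd this (by simp)
  · intro v hv hMv
    obtain ⟨b1, b2⟩ := hP v hv hMv
    constructor
    · cases h1 : inn v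
      · rw [b2 h1]; rfl
      · rw [(b1 h1).1]; rfl
    · intro h1 h2
      exfalso
      exact hmix v hv (by simpa using h1) h2
  · intro v hv hMv
    refine ⟨by rw [hinn], ?_⟩
    intro h1 h2
    exfalso
    exact hmix v hv (by simpa using h1) h2
  · intro v hv h1 h2
    left
    by_contra h3
    have h4 : inn v = true := by simpa using h3
    rcases hout v hv h4 with h5 | h5
    · exact h1 h5
    · exact h2 h5
  · intro l' r' hl' hS' hLV C hC
    obtain ⟨a1, a2, a3, a4, a5, a6⟩ := hS C hC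
    have hpt : ∀ v : Vx k, v.1 = C → inn v = true → l' (M v) = τ := by
      intro v hv h1
      have hvS : v.1 ∈ S := by rw [hv]; exact hC
      rcases hout v hvS h1 with h5 | h5
      · rw [(hl' _ h5).1]; exact ((hP v hvS h5).1 h1).2
      · rw [(hS' _ h5).1]
        apply hlout _ h5
        rw [hinn, h1]; rfl
    apply cond_flip a1 a2 (i C) τ
    · intro j
      show l' ⟨C, j⟩ = _
      rw [(hS' ⟨C, j⟩ hC).1]
      simp only [hlS]
      by_cases hj : j = i C
      · rw [if_pos hj, if_pos (by rw [hj])]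
      · rw [if_neg hj, if_neg (fun h => hj (vx_inj h))]
    · intro j
      show r' ⟨C, j⟩ = _
      rw [(hS' ⟨C, j⟩ hC).2]
      congr 1
      have h1 := hinn2 ⟨C, j⟩ hC
      have h2 : (⟨C, j⟩ : Vx k) = nx ⟨C, i C⟩ ↔ j = i C + 1 := by
        constructor
        · intro h; exact vx_inj h
        · intro h; rw [h]; rfl
      have h3 : (⟨C, j⟩ : Vx k) = ⟨C, i C⟩ ↔ j = i C := by
        constructor
        · intro h; exact vx_inj h
        · intro h; rw [h]
      simp only at h1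
      rw [h2, h3] at h1
      by_cases h4 : inn ⟨C, j⟩ = true
      · rw [h4, decide_eq_true (h1.1 h4)]
      · have h5 : inn ⟨C, j⟩ = false := by simpa using h4
        rw [h5, decide_eq_false (fun h => h4 (h1.2 h))]
    · exact hpt ⟨C, i C⟩ rfl a3
    · exact hpt ⟨C, i C + 1⟩ rfl a4
    · intro j
      simpa using a6 ⟨C, j⟩ rfl
  · intro C j hC1 hC2 hY h1 h2 h3
    apply n4 C j hC1 hC2 hY h1 h2
    have e : ∀ v : Vx k, inn v = true → comb S lS l (M v) = comb S (fun _ => τ) l (M v) := by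
      intro v hv
      by_cases h4 : (M v).1 ∈ S
      · rw [comb_in h4, comb_in h4]
        apply hlout _ h4
        rw [hinn, hv]; rfl
      · rw [comb_out h4, comb_out h4]
    rw [e _ hY.2.1, e _ hY.2.2.1] at h3
    exact h3

end

end Pool.Agent.Helper850.TC
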