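import Pool.Agent.Helper850.TC.Algo

namespace Pool.Agent.Helper850.TC

open Classical

set_option linter.unusedVariables false
set_option linter.unusedSimpArgs false
set_option linter.unusedSectionVars false

section
variable {ι : Type*} {k : ι → ℕ} [∀ c, NeZero (k c)] [Fintype ι]

noncomputable def idxOf (C : ι) (x : Vx k) : ZMod (k C) := if h : x.1 = C then h ▸ x.2 else 0

theorem idxOf_spec {C : ι} {x : Vx k} (h : x.1 = C) : (⟨C, idxOf C x⟩ : Vx k) = x := by
  subst h; simp [idxOf]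
theorem idxOf_mk (C : ι) (i : ZMod (k C)) : idxOf C ⟨C, i⟩ = i := by simp [idxOf]

variable (M : Vx k → Vx k) (inn : Vx k → Bool) (P : Finset ι) (l r : Vx k → Bool)

noncomputable def wd (C : ι) (i : ZMod (k C)) : Env (k C) :=
  if (M ⟨C, i⟩).1 = C then .chord (idxOf C (M ⟨C, i⟩))
  else if (M ⟨C, i⟩).1 ∈ P then
    (if r (M ⟨C, i⟩) = true then .known (l (M ⟨C, i⟩)) else .out)
  else if inn ⟨C, i⟩ = true then .unk else .out

variable {M inn P l r}

theorem wd_chord {C : ι} {i j : ZMod (k C)} :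
    wd M inn P l r C i = .chord j ↔ M ⟨C, i⟩ = ⟨C, j⟩ := by
  unfold wd
  constructor
  · intro h
    split_ifs at h with h1
    · injection h with h2
      rw [← h2, idxOf_spec h1]
  · intro h
    rw [if_pos (by rw [h]), h, idxOf_mk]

theorem wd_known {C : ι} {i : ZMod (k C)} {t : Bool} :
    wd M inn P l r C i = .known t ↔ ((M ⟨C, i⟩).1 ≠ C ∧ (M ⟨C, i⟩).1 ∈ P ∧
      r (M ⟨C, i⟩) = true ∧ l (M ⟨C, i⟩) = t) := by
  unfold wd
  split_ifs with h1 h2 h3 h4
  · simp [h1]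
  · simp [h1, h2, h3]
  · simp [h1, h2, h3]
  · simp [h1, h2, h4]
  · simp [h1, h2, h4]

theorem wd_unk {C : ι} {i : ZMod (k C)} :
    wd M inn P l r C i = .unk ↔ ((M ⟨C, i⟩).1 ≠ C ∧ (M ⟨C, i⟩).1 ∉ P ∧ inn ⟨C, i⟩ = true) := by
  unfold wd
  split_ifs with h1 h2 h3 h4
  · simp [h1]
  · simp [h1, h2, h3]
  · simp [h1, h2, h3]
  · simp [h1, h2, h4]
  · simp [h1, h2, h4]

theorem wd_out {C : ι} {i : ZMod (k C)} :
    wd M inn P l r C i = .out ↔ ((M ⟨C, i⟩).1 ≠ C ∧
      (((M ⟨C, i⟩).1 ∈ P ∧ r (M ⟨C, i⟩) = false) ∨ ((M ⟨C, i⟩).1 ∉ P ∧ inn ⟨C, i⟩ = false))) := by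
  unfold wd
  split_ifs with h1 h2 h3 h4
  · simp [h1]
  · simp [h1, h2, h3]
  · simp [h1, h2, h3]
  · simp [h1, h2, h4]
  · simp [h1, h2, h4]

theorem valid_wd (hinv : ∀ v, M (M v) = v) (hfix : ∀ v, M v ≠ v) (hnx : ∀ v, M v ≠ nx v) (C : ι) :
    ValidW (wd M inn P l r C) := by
  intro i j h
  rw [wd_chord] at h
  have h2 : M ⟨C, j⟩ = ⟨C, i⟩ := by rw [← h, hinv]
  refine ⟨wd_chord.2 h2, ?_, ?_, ?_⟩
  · rintro rfl; exact hfix _ h
  · rintro rfl; exact hnx _ h
  · rintro rfl; exact hnx _ h2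

theorem weight_wd (h : Inv M inn P l r) (hinv : ∀ v, M (M v) = v) (hfix : ∀ v, M v ≠ v)
    (hnx : ∀ v, M v ≠ nx v) (hinn : ∀ v, inn (M v) = !inn v) {C : ι} (hC : C ∉ P)
    (hO : k C / 2 ≤ (Finset.univ.filter (fun i : ZMod (k C) => inn ⟨C, i⟩ = true)).card) :
    2 * (k C / 2) ≤ ∑ i, wt (wd M inn P l r C i) := by
  set w := wd M inn P l r C with hw
  have hv : ValidW w := valid_wd hinv hfix hnx C
  have hpar : Function.Involutive (par w) := by
    intro i
    unfold par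
    cases h1 : w i with
    | chord j => simp only; rw [(hv i j h1).1]
    | out => simp only; rw [h1]
    | unk => simp only; rw [h1]
    | known t => simp only; rw [h1]
  set f : ZMod (k C) → ℕ := fun i => if inn ⟨C, i⟩ = true then 1 else 0 with hf
  have hcard : (Finset.univ.filter (fun i : ZMod (k C) => inn ⟨C, i⟩ = true)).card = ∑ i, f i := by
    rw [Finset.card_filter]
  have hle : ∀ i, 2 * (f i + f (par w i)) ≤ wt (w i) + wt (w (par w i)) := by
    intro i
    by_cases hch : ∃ j, w i = .chord j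
    · obtain ⟨j, hj⟩ := hch
      have hj2 := (hv i j hj).1
      rw [par_spec hj, hj, hj2]
      rw [hw, wd_chord] at hj
      have h1 : inn ⟨C, j⟩ = !inn ⟨C, i⟩ := by rw [← hinn, hj]
      simp only [hf, h1, wt]
      cases inn ⟨C, i⟩ <;> simp
    · have hp : par w i = i := by
        unfold par
        cases h1 : w i with
        | chord j => exact absurd ⟨j, h1⟩ hch
        | out => rfl
        | unk => rfl
        | known t => rfl
      rw [hp]
      have hnC : (M ⟨C, i⟩).1 ≠ C := by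
        intro h1
        apply hch
        refine ⟨idxOf C (M ⟨C, i⟩), ?_⟩
        rw [hw, wd_chord]
        exact (idxOf_spec h1).symm
      by_cases hi : inn ⟨C, i⟩ = true
      · have h2 : wt (w i) = 2 := by
          by_cases h3 : (M ⟨C, i⟩).1 ∈ P
          · have h4 := h.tail hinv hinn (v := ⟨C, i⟩) hC h3 hi
            have h5 : w i = .known (l (M ⟨C, i⟩)) := wd_known.2 ⟨hnC, h3, h4, rfl⟩
            rw [h5]; rfl
          · have h5 : w i = .unk := wd_unk.2 ⟨hnC, h3, hi⟩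
            rw [h5]; rfl
        simp only [hf, hi, h2, if_true]
        omega
      · simp only [hf, if_neg hi]
        omega
  have hsum := Finset.sum_le_sum (fun i (_ : i ∈ Finset.univ) => hle i)
  rw [← Finset.mul_sum, Finset.sum_add_distrib, Finset.sum_add_distrib] at hsum
  have e1 : ∑ i, f (par w i) = ∑ i, f i := Equiv.sum_comp (hpar.toPerm) f
  have e2 : ∑ i, wt (w (par w i)) = ∑ i, wt (w i) := Equiv.sum_comp (hpar.toPerm) (fun i => wt (w i))
  rw [e1, e2] at hsum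
  rw [hcard] at hO
  omega

theorem single_inv (h : Inv M inn P l r) (hinv : ∀ v, M (M v) = v) (C : ι) (hC : C ∉ P)
    (hW : WOK (k C) (wd M inn P l r C))
    (h4 : ∀ (C' : ι) (j : ZMod (k C')), C' ∉ P → C' ≠ C → YT M inn C' j →
      ((M ⟨C', j⟩).1 ∈ P ∨ (M ⟨C', j⟩).1 = C) → ((M ⟨C', j+1⟩).1 ∈ P ∨ (M ⟨C', j+1⟩).1 = C) →
      ¬ ((M ⟨C', j⟩).1 ∈ P ∧ (M ⟨C', j+1⟩).1 ∈ P) → Bonus M P r C' j) :
    ∃ l' r', Inv M inn (P ∪ {C}) l' r' := by
  obtain ⟨lC, rC, hloc, hcond⟩ := hW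
  set lS : Vx k → Bool := fun v => lC (idxOf C v) with hlS
  set rS : Vx k → Bool := fun v => rC (idxOf C v) with hrS
  have hl1 : ∀ i, lS ⟨C, i⟩ = lC i := fun i => by simp only [hlS, idxOf_mk]
  have hr1 : ∀ i, rS ⟨C, i⟩ = rC i := fun i => by simp only [hrS, idxOf_mk]
  refine ⟨_, _, h.extend hinv {C} ?_ lS rS ?_ ?_ ?_ ?_ ?_ ?_⟩
  · intro c hc; rw [Finset.mem_singleton] at hc; rw [hc]; exact hC
  · intro v hv hrv
    rw [Finset.mem_singleton] at hv
    obtain ⟨i, rfl⟩ := vx_eq hv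
    show lS ⟨C, i - 1⟩ = lS ⟨C, i⟩
    rw [hl1, hl1]
    rw [hr1] at hrv
    have hL := hloc i
    unfold LocOK at hL
    cases hw : wd M inn P l r C i with
    | out => rw [hw] at hL; exact hL.2
    | known t => rw [hw] at hL; rw [hL.1] at hrv; exact absurd hrv (by simp)
    | unk => rw [hw] at hL; exact hL.1 hrv
    | chord j => rw [hw] at hL; exact hL.2.1 hrv
  · intro v hv hMv
    rw [Finset.mem_singleton] at hv
    obtain ⟨i, rfl⟩ := vx_eq hv
    have hnC : (M ⟨C, i⟩).1 ≠ C := fun h1 => hC (by rw [← h1]; exact hMv)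
    show r (M ⟨C, i⟩) = !rS ⟨C, i⟩ ∧ (rS ⟨C, i⟩ = false → lS ⟨C, i - 1⟩ = lS ⟨C, i⟩ → l (M ⟨C, i⟩) ≠ lS ⟨C, i⟩)
    rw [hl1, hl1, hr1]
    have hL := hloc i
    unfold LocOK at hL
    by_cases hr : r (M ⟨C, i⟩) = true
    · have hw : wd M inn P l r C i = .known (l (M ⟨C, i⟩)) := wd_known.2 ⟨hnC, hMv, hr, rfl⟩
      rw [hw] at hL
      refine ⟨by rw [hL.1, hr]; rfl, fun _ h2 => (hL.2 h2).symm⟩
    · have hr' : r (M ⟨C, i⟩) = false := by simpa using hr
      have hw : wd M inn P l r C i = .out := wd_out.2 ⟨hnC, Or.inl ⟨hMv, hr'⟩⟩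
      rw [hw] at hL
      refine ⟨by rw [hL.1, hr']; rfl, fun h1 => ?_⟩
      rw [hL.1] at h1; exact absurd h1 (by simp)
  · intro v hv hMv
    rw [Finset.mem_singleton] at hv hMv
    obtain ⟨i, rfl⟩ := vx_eq hv
    obtain ⟨j, hj⟩ := vx_eq hMv
    rw [hj]
    show rS ⟨C, j⟩ = !rS ⟨C, i⟩ ∧ (rS ⟨C, i⟩ = false → lS ⟨C, i - 1⟩ = lS ⟨C, i⟩ → lS ⟨C, j⟩ ≠ lS ⟨C, i⟩)
    rw [hl1, hl1, hl1, hr1, hr1]
    have hL := hloc i
    unfold LocOK at hL
    have hw : wd M inn P l r C i = .chord j := wd_chord.2 hj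
    rw [hw] at hL
    obtain ⟨g1, g2, g3⟩ := hL
    refine ⟨?_, fun h1 h2 => (g3 h1 h2).symm⟩
    cases e1 : rC i <;> cases e2 : rC j <;> simp_all
  · intro v hv hMP hMS
    rw [Finset.mem_singleton] at hv hMS
    obtain ⟨i, rfl⟩ := vx_eq hv
    show rS ⟨C, i⟩ = true ∨ (rS ⟨C, i⟩ = false ∧ lS ⟨C, i - 1⟩ ≠ lS ⟨C, i⟩ ∧ inn ⟨C, i⟩ = true)
    rw [hl1, hl1, hr1]
    have hL := hloc i
    unfold LocOK at hL
    by_cases hi : inn ⟨C, i⟩ = true
    · have hw : wd M inn P l r C i = .unk := wd_unk.2 ⟨hMS, hMP, hi⟩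
      rw [hw] at hL
      simp only at hL
      cases e1 : rC i
      · right
        refine ⟨rfl, ?_, hi⟩
        intro h2
        rw [hL.2 h2] at e1; exact absurd e1 (by simp)
      · left; rfl
    · have hw : wd M inn P l r C i = .out := wd_out.2 ⟨hMS, Or.inr ⟨hMP, by simpa using hi⟩⟩
      rw [hw] at hL
      exact Or.inl hL.1
  · intro l' r' hlP hlS' hLV c hc
    rw [Finset.mem_singleton] at hc
    subst hc
    have hpt : PtOK (wd M inn P l r c) lC (fun i => l' (M ⟨c, i⟩)) := by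
      intro i
      cases hw : wd M inn P l r c i with
      | out => trivial
      | unk => trivial
      | known t =>
        rw [wd_known] at hw
        simp only
        rw [(hlP _ hw.2.1).1]; exact hw.2.2.2
      | chord j =>
        rw [wd_chord] at hw
        simp only
        rw [hw, (hlS' ⟨c, j⟩ (Finset.mem_singleton_self c)).1, hl1]
    have := hcond _ hpt
    unfold CondAt
    have e1 : (fun i => l' (⟨c, i⟩ : Vx k)) = lC := by
      funext i; rw [(hlS' ⟨c, i⟩ (Finset.mem_singleton_self c)).1, hl1]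
    have e2 : (fun i => r' (⟨c, i⟩ : Vx k)) = rC := by
      funext i; rw [(hlS' ⟨c, i⟩ (Finset.mem_singleton_self c)).2, hr1]
    have e3 : (fun i => !decide ((M ⟨c, i⟩).1 = c)) = (fun i => isOut (wd M inn P l r c i)) := by
      funext i
      by_cases h1 : (M ⟨c, i⟩).1 = c
      · rw [decide_eq_true h1]
        have : wd M inn P l r c i = .chord (idxOf c (M ⟨c, i⟩)) := wd_chord.2 (idxOf_spec h1).symm
        rw [this]; rfl
      · rw [decide_eq_false h1]
        cases hw : wd M inn P l r c i with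
        | out => rfl
        | unk => rfl
        | known t => rfl
        | chord j =>
          rw [wd_chord] at hw
          exact absurd (by rw [hw]) h1
    rw [e1, e2, e3]
    exact this
  · intro C' j hC'P hC'S hY h1 h2 h3
    simp only [Finset.mem_singleton] at hC'S h1 h2
    by_cases hb : (M ⟨C', j⟩).1 ∈ P ∧ (M ⟨C', j+1⟩).1 ∈ P
    · rw [comb_out (by rw [Finset.mem_singleton]; intro h5; exact hC (by rw [← h5]; exact hb.1)),
        comb_out (by rw [Finset.mem_singleton]; intro h5; exact hC (by rw [← h5]; exact hb.2))] at h3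
      exact h.i4 C' j hC'P hY hb.1 hb.2 h3
    · exact h4 C' j hC'P hC'S hY h1 h2 hb

theorem option0_inv (h : Inv M inn P l r) (hinv : ∀ v, M (M v) = v) (hinn : ∀ v, inn (M v) = !inn v)
    (C : ι) (hC : C ∉ P) (h5 : k C = 5) (hch : ∀ v : Vx k, v.1 = C → (M v).1 ≠ C)
    (x : Vx k) (hx : x.1 = C) (hxi : inn x = true) (hxP : (M x).1 ∈ P)
    (hnb : ∀ v : Vx k, v.1 = C → v ≠ x → (M v).1 ∈ P → r (M v) = false)
    (h4 : ∀ (C' : ι) (j : ZMod (k C')), C' ∉ P → C' ≠ C → YT M inn C' j →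
      ((M ⟨C', j⟩).1 ∈ P ∨ (M ⟨C', j⟩).1 = C) → ((M ⟨C', j+1⟩).1 ∈ P ∨ (M ⟨C', j+1⟩).1 = C) →
      ¬ ((M ⟨C', j⟩).1 ∈ P ∧ (M ⟨C', j+1⟩).1 ∈ P) →
      comb {C} (fun _ => !l (M x)) l (M ⟨C', j⟩) ≠ comb {C} (fun _ => !l (M x)) l (M ⟨C', j+1⟩) →
      Bonus M P r C' j) :
    ∃ l' r', Inv M inn (P ∪ {C}) l' r' := by
  have hrx : r (M x) = true := h.tail hinv hinn (by rw [hx]; exact hC) hxP hxi
  refine ⟨_, _, h.extend hinv {C} ?_ (fun _ => !l (M x)) (fun v => !decide (v = x)) ?_ ?_ ?_ ?_ ?_ ?_⟩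
  · intro c hc; rw [Finset.mem_singleton] at hc; rw [hc]; exact hC
  · intro v hv hrv; rfl
  · intro v hv hMv
    rw [Finset.mem_singleton] at hv
    by_cases hvx : v = x
    · subst hvx
      refine ⟨by simp [hrx], fun _ _ => ?_⟩
      cases l (M v) <;> simp
    · refine ⟨by simp [hvx, hnb v hv hvx hMv], fun h1 => ?_⟩
      simp [hvx] at h1
  · intro v hv hMv
    rw [Finset.mem_singleton] at hv hMv
    exact absurd hMv (hch v hv)
  · intro v hv hMP hMS
    left
    have hvx : v ≠ x := by rintro rfl; exact hMP hxP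
    simp [hvx]
  · intro l' r' hlP hlS' hLV c hc
    rw [Finset.mem_singleton] at hc
    subst hc
    obtain ⟨i, rfl⟩ := vx_eq hx
    have hl1 : ∀ j, l' ⟨c, j⟩ = !l (M ⟨c, i⟩) := fun j => (hlS' ⟨c, j⟩ (Finset.mem_singleton_self c)).1
    have hr1 : ∀ j, r' ⟨c, j⟩ = !decide (j = i) := by
      intro j
      rw [(hlS' ⟨c, j⟩ (Finset.mem_singleton_self c)).2]
      by_cases hj : j = i
      · rw [decide_eq_true hj, hj]; simp
      · rw [decide_eq_false hj]
        have : (⟨c, j⟩ : Vx k) ≠ ⟨c, i⟩ := fun h => hj (vx_inj h)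
        simp [this]
    refine ⟨?_, ?_, ?_⟩
    · rintro a b ⟨ha, _⟩ ⟨hb, _⟩
      simp only at ha hb
      rw [hr1] at ha hb
      have ha' : a = i := by simpa using ha
      have hb' : b = i := by simpa using hb
      rw [ha', hb']
    · intro _
      refine ⟨fun _ => by rw [h5]; decide, fun h6 => ?_⟩
      have := h6 i
      simp only at this
      rw [hr1] at this
      simp at this
    · intro a ha
      simp only at ha
      rw [hl1, hl1] at ha
      exact absurd rfl ha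
  · intro C' j hC'P hC'S hY h1 h2 h3
    simp only [Finset.mem_singleton] at hC'S h1 h2
    by_cases hb : (M ⟨C', j⟩).1 ∈ P ∧ (M ⟨C', j+1⟩).1 ∈ P
    · rw [comb_out (by rw [Finset.mem_singleton]; intro h5; exact hC (by rw [← h5]; exact hb.1)),
        comb_out (by rw [Finset.mem_singleton]; intro h5; exact hC (by rw [← h5]; exact hb.2))] at h3
      exact h.i4 C' j hC'P hY hb.1 hb.2 h3
    · exact h4 C' j hC'P hC'S hY h1 h2 hb h3

end

end Pool.Agent.Helper850.TC
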