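import Pool.Agent.Helper850.TC.Low6

namespace Pool.Agent.Helper850.TC

open Classical

set_option linter.unusedSectionVars false
set_option linter.unusedVariables false
set_option linter.unusedSimpArgs false

section
variable {ι : Type*} {k : ι → ℕ} [∀ c, NeZero (k c)] [Fintype ι]

/-- palette colouring of the cubic structure given by the cycles and the involution `M` -/
def Pal (M : Vx k → Vx k) : Prop :=
  ∃ (F Mc A B T : Vx k → Bool × ZMod 3),
    (∀ v, Mc (M v) = Mc v) ∧
    (∀ v, Function.Injective (![F (pv v), F v, Mc v, A v, B v, T v] : Fin 6 → Bool × ZMod 3)) ∧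
    (∀ v, T v ≠ T (nx v) ∧ T v ≠ B (nx v) ∧ A v ≠ T (nx v) ∧ A v ≠ B (nx v)) ∧
    (∀ v, A v ≠ A (M v) ∧ A v ≠ B (M v) ∧ B v ≠ A (M v) ∧ B v ≠ B (M v))

theorem Good.not {M : Vx k → Vx k} {l r : Vx k → Bool} (hG : Good M l r) :
    Good M (fun v => !l v) r := by
  refine ⟨hG.inv, hG.hr, ?_, ?_, ?_⟩
  · intro v h; simp [hG.hp v h]
  · intro v h1 h2
    have := hG.ho v h1 (by simpa using h2)
    simpa using this
  · intro c
    exact (hG.hc c).not

theorem ml_not (M : Vx k → Vx k) (l r : Vx k → Bool) (v : Vx k) :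
    ml M (fun v => !l v) r v = !ml M l r v := by
  unfold ml; split_ifs <;> simp
theorem al_not (M : Vx k → Vx k) (l r : Vx k → Bool) (v : Vx k) :
    al M (fun v => !l v) r v = !al M l r v := by
  unfold al; split_ifs <;> simp
theorem tl_not (M : Vx k → Vx k) (l r : Vx k → Bool) (v : Vx k) :
    tl M (fun v => !l v) r v = !tl M l r v := by
  unfold tl; 
  by_cases h1 : r v = true
  · simp [h1]
  · by_cases h2 : l (pv v) = l v
    · simp [h1, h2]
    · simp [h1, h2]

theorem sl_not (M : Vx k → Vx k) (l r : Vx k → Bool) (v : Vx k) (i : Fin 6) :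
    sl M (fun v => !l v) r v i = !sl M l r v i := by
  unfold sl
  fin_cases i <;> simp [ml_not, al_not, tl_not]

theorem pal_of_good {M : Vx k → Vx k} {l r : Vx k → Bool} (hG : Good M l r)
    (hk : ∀ c, 3 ≤ k c) : Pal M := by
  obtain ⟨e, m, a, b, t, H1, H2, H3⟩ := low_solution hG hk
  obtain ⟨e', m', a', b', t', H1', H2', H3'⟩ := low_solution hG.not hk
  set mix : (Vx k → Bool) → (Vx k → ZMod 3) → (Vx k → ZMod 3) → Vx k → Bool × ZMod 3 :=
    fun s c c' v => (s v, bif s v then c v else c' v) with hmix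
  have hml : ∀ v, ml M l r (M v) = ml M l r v := by
    intro v
    unfold ml
    rw [hG.hr, hG.inv]
    cases h : r v <;> simp
  have hal : ∀ v, al M l r (M v) = !al M l r v := by
    intro v
    unfold al
    rw [hG.hr, hG.inv]
    cases h : r v <;> simp
  refine ⟨mix l e e', mix (ml M l r) m m', mix (al M l r) a a', mix (al M l r) b b',
    mix (tl M l r) t t', ?_, ?_, ?_, ?_⟩
  · intro v
    simp only [hmix, hml, H1, H1']
  · intro v
    have hval : ∀ i : Fin 6, (![mix l e e' (pv v), mix l e e' v, mix (ml M l r) m m' v,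
        mix (al M l r) a a' v, mix (al M l r) b b' v, mix (tl M l r) t t' v] :
        Fin 6 → Bool × ZMod 3) i =
        (sl M l r v i, bif sl M l r v i then cl e m a b t v i else cl e' m' a' b' t' v i) := by
      intro i
      fin_cases i <;> simp [hmix, sl, cl]
    intro i j hij
    rw [hval, hval] at hij
    by_contra hne
    have h1 := congrArg Prod.fst hij
    have h2 := congrArg Prod.snd hij
    simp only at h1 h2
    cases hs : sl M l r v i
    · rw [hs] at h1 h2
      rw [← h1] at h2
      simp only [cond_false] at h2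
      exact H2' v i j hne (by rw [sl_not, hs]; rfl) (by rw [sl_not, ← h1]; rfl) h2
    · rw [hs] at h1 h2
      rw [← h1] at h2
      simp only [cond_true] at h2
      exact H2 v i j hne hs h1.symm h2
  · intro v
    have gen : ∀ (s s' : Vx k → Bool) (c c' g g' : Vx k → ZMod 3),
        (s v = true → s' (nx v) = true → c v ≠ g (nx v)) →
        ((!s v) = true → (!s' (nx v)) = true → c' v ≠ g' (nx v)) →
        mix s c c' v ≠ mix s' g g' (nx v) := by
      intro s s' c c' g g' h1 h2 h
      simp only [hmix, Prod.mk.injEq] at h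
      obtain ⟨h3, h4⟩ := h
      cases hs : s v
      · rw [hs] at h3 h4
        rw [← h3] at h4
        simp only [cond_false] at h4
        exact h2 (by rw [hs]; rfl) (by rw [← h3]; rfl) h4
      · rw [hs] at h3 h4
        rw [← h3] at h4
        simp only [cond_true] at h4
        exact h1 hs h3.symm h4
    obtain ⟨g1, g2, g3, g4⟩ := H3 v
    obtain ⟨g1', g2', g3', g4'⟩ := H3' v
    simp only [al_not, tl_not] at g1' g2' g3' g4'
    exact ⟨gen _ _ _ _ _ _ g1 g1', gen _ _ _ _ _ _ g2 g2', gen _ _ _ _ _ _ g3 g3',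
      gen _ _ _ _ _ _ g4 g4'⟩
  · intro v
    have gen : ∀ (c c' g g' : Vx k → ZMod 3),
        mix (al M l r) c c' v ≠ mix (al M l r) g g' (M v) := by
      intro c c' g g' h
      simp only [hmix, Prod.mk.injEq] at h
      rw [hal] at h
      cases hs : al M l r v <;> simp [hs] at h
    exact ⟨gen _ _ _ _, gen _ _ _ _, gen _ _ _ _, gen _ _ _ _⟩

end

end Pool.Agent.Helper850.TC
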