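import Pool.Agent.Helper850.TC.Word

namespace Pool.Agent.Helper850.TC

set_option linter.unusedVariables false
set_option linter.unusedSimpArgs false

/-- packing a digit function -/
def pack (c : ℕ → ℕ) : ℕ → ℕ
  | 0 => 0
  | i+1 => pack c i + c i * 16 ^ i

theorem pack_lt {c : ℕ → ℕ} (hc : ∀ i, c i < 16) (n : ℕ) : pack c n < 16 ^ n := by
  induction n with
  | zero => simp [pack]
  | succ n ih =>
    unfold pack
    have h1 : c n * 16 ^ n ≤ 15 * 16 ^ n := Nat.mul_le_mul_right _ (by have := hc n; omega)
    calc pack c n + c n * 16 ^ n < 16 ^ n + 15 * 16 ^ n := by omega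
      _ = 16 ^ (n+1) := by ring

theorem cd_pack {c : ℕ → ℕ} (hc : ∀ i, c i < 16) {n i : ℕ} (hi : i < n) :
    cd (pack c n) i = c i := by
  induction n with
  | zero => omega
  | succ n ih =>
    unfold pack cd
    rcases Nat.lt_succ_iff_lt_or_eq.1 hi with h | h
    · have h1 := ih h
      unfold cd at h1
      obtain ⟨d, rfl⟩ : ∃ d, n = i + 1 + d := ⟨n - (i+1), by omega⟩
      have h2 : c (i + 1 + d) * 16 ^ (i + 1 + d) = 16 ^ i * (16 * (c (i+1+d) * 16 ^ d)) := by ring
      rw [h2, Nat.add_mul_div_left _ _ (by positivity), Nat.add_mul_mod_self_left]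
      exact h1
    · subst h
      rw [mul_comm, Nat.add_mul_div_left _ _ (by positivity), Nat.div_eq_of_lt (pack_lt hc i),
        zero_add]
      exact Nat.mod_eq_of_lt (hc i)

theorem pack_congr {c c' : ℕ → ℕ} {n : ℕ} (h : ∀ i < n, c i = c' i) : pack c n = pack c' n := by
  induction n with
  | zero => rfl
  | succ n ih =>
    unfold pack
    rw [ih (fun i hi => h i (by omega)), h n (by omega)]

theorem pack_update {c : ℕ → ℕ} {n i x : ℕ} (hi : i < n) (hci : c i = 0) :
    pack (fun j => if j = i then x else c j) n = pack c n + x * 16 ^ i := by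
  induction n with
  | zero => omega
  | succ n ih =>
    unfold pack
    rcases Nat.lt_succ_iff_lt_or_eq.1 hi with h | h
    · rw [ih h, if_neg (by omega)]; ring
    · subst h
      rw [pack_congr (c' := c) (fun j hj => if_neg (by omega))]
      simp [hci]

/-- skeleton -/
def sk (c : ℕ → ℕ) (i : ℕ) : ℕ := if c i < 4 then 0 else c i

theorem sk_lt {c : ℕ → ℕ} (hc : ∀ i, c i < 16) (i : ℕ) : sk c i < 16 := by
  unfold sk; split_ifs
  · omega
  · exact hc i

/-- mixed word: true digits before `i`, skeleton digits afterwards -/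
def mixw (c : ℕ → ℕ) (i j : ℕ) : ℕ := if j < i then c j else sk c j

theorem mixw_lt {c : ℕ → ℕ} (hc : ∀ i, c i < 16) (i j : ℕ) : mixw c i j < 16 := by
  unfold mixw; split_ifs
  · exact hc j
  · exact sk_lt hc j

/-- number of proper letters at places in `[i, i+f)` -/
def lets (c : ℕ → ℕ) : ℕ → ℕ → ℕ
  | _, 0 => 0
  | i, f+1 => (if 1 ≤ c i ∧ c i < 4 then 1 else 0) + lets c (i+1) f

theorem go2_sound {n : ℕ} {c : ℕ → ℕ} (hc : ∀ i, c i < 16) :
    ∀ f i bgt, i + f = n → lets c i f ≤ bgt → go2 n f i bgt (pack (mixw c i) n) = true →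
    (Nat.blt (tw (pack c n) n) (2 * (n/2)) || bad n (pack c n) || solve n (pack c n)) = true := by
  intro f
  induction f with
  | zero =>
    intro i bgt hi _ h
    have h1 : pack (mixw c i) n = pack c n := pack_congr (fun j hj => by
      unfold mixw; rw [if_pos (by omega)])
    rw [h1] at h
    exact h
  | succ f ih =>
    intro i bgt hi hb h
    unfold go2 at h
    rw [Bool.and_eq_true] at h
    obtain ⟨h1, h2⟩ := h
    rw [cd_pack (mixw_lt hc i) (by omega : i < n)] at h2
    have hmi : mixw c i i = sk c i := by unfold mixw; rw [if_neg (by omega)]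
    rw [hmi] at h2
    by_cases h3 : c i < 4
    · have hsk : sk c i = 0 := by unfold sk; rw [if_pos h3]
      rw [hsk] at h2 hmi
      simp only at h2
      have hupd : ∀ x, c i = x → pack (mixw c (i+1)) n = pack (mixw c i) n + x * 16 ^ i := by
        intro x hx
        rw [← pack_update (by omega : i < n) hmi]
        apply pack_congr
        intro j hj
        unfold mixw
        by_cases hji : j = i
        · rw [if_pos hji, if_pos (by omega), hji, hx]
        · rw [if_neg hji]
          by_cases hj2 : j < i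
          · rw [if_pos hj2, if_pos (by omega)]
          · rw [if_neg hj2, if_neg (by omega)]
      rcases Nat.eq_zero_or_pos (c i) with h4 | h4
      · apply ih (i+1) bgt (by omega)
        · unfold lets at hb; omega
        · rw [hupd 0 h4]
          simpa using h1
      · unfold lets at hb
        rw [if_pos ⟨h4, h3⟩] at hb
        obtain ⟨b, rfl⟩ : ∃ b, bgt = b + 1 := ⟨bgt - 1, by omega⟩
        simp only [Bool.and_eq_true] at h2
        obtain ⟨⟨g1, g2⟩, g3⟩ := h2
        apply ih (i+1) b (by omega) (by omega)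
        have h5 : c i = 1 ∨ c i = 2 ∨ c i = 3 := by omega
        rcases h5 with h5 | h5 | h5
        · rw [hupd 1 h5]; exact g1
        · rw [hupd 2 h5]; exact g2
        · rw [hupd 3 h5]; exact g3
    · apply ih (i+1) bgt (by omega)
      · unfold lets at hb; omega
      · have h4 : pack (mixw c (i+1)) n = pack (mixw c i) n := by
          apply pack_congr
          intro j hj
          unfold mixw
          by_cases hji : j = i
          · rw [if_pos (by omega), if_neg (by omega), hji]
            unfold sk; rw [if_neg h3]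
          · by_cases hj2 : j < i
            · rw [if_pos hj2, if_pos (by omega)]
            · rw [if_neg hj2, if_neg (by omega)]
        rw [h4]; exact h1

/-- validity of a digit function at place `i` -/
def ValidAt (n : ℕ) (c : ℕ → ℕ) (i : ℕ) : Prop :=
  ∀ j, c i = j + 4 → j < n ∧ j ≠ i ∧ j + 1 ≠ i ∧ i + 1 ≠ j ∧ ¬ (j = 0 ∧ i + 1 = n) ∧
    ¬ (i = 0 ∧ j + 1 = n) ∧ c j = i + 4

theorem okNew_of_valid {n : ℕ} {c : ℕ → ℕ} (hc : ∀ i, c i < 16) (hv : ∀ i < n, ValidAt n c i)
    {i : ℕ} (hi : i < n) : okNew n (pack (sk c) (i+1)) i = true := by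
  unfold okNew
  rw [Bool.and_eq_true]
  constructor
  · rw [cd_pack (sk_lt hc) (Nat.lt_succ_self i)]
    by_cases h : c i < 4
    · have : sk c i = 0 := by unfold sk; rw [if_pos h]
      rw [this]
    · obtain ⟨j, hj⟩ : ∃ j, c i = j + 4 := ⟨c i - 4, by omega⟩
      have hsk : sk c i = j + 4 := by unfold sk; rw [if_neg h, hj]
      rw [hsk]
      obtain ⟨h1, h2, h3, h4, h5, h6, h7⟩ := hv i hi j hj
      simp only [Bool.and_eq_true, Bool.not_eq_true', Bool.or_eq_true, beq_eq_false_iff_ne,
        Bool.and_eq_false_iff, beq_iff_eq]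
      refine ⟨⟨⟨⟨⟨⟨?_, h2⟩, h3⟩, h4⟩, ?_⟩, ?_⟩, ?_⟩
      · exact Nat.ble_eq_true_of_le h1
      · by_contra hcon
        push Not at hcon
        exact h5 hcon
      · by_contra hcon
        push Not at hcon
        exact h6 hcon
      · rcases lt_or_gt_of_ne h2 with h8 | h8
        · right
          rw [cd_pack (sk_lt hc) (by omega)]
          unfold sk
          rw [h7, if_neg (by omega)]
        · left
          exact Nat.ble_eq_true_of_le h8
  · rw [allB_iff]
    intro j hj
    rw [cd_pack (sk_lt hc) (by omega), cd_pack (sk_lt hc) (by omega)]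
    simp only [Bool.or_eq_true, Bool.not_eq_true', beq_eq_false_iff_ne, beq_iff_eq]
    by_cases h : sk c j = i + 4
    · right
      have h1 : c j = i + 4 := by
        unfold sk at h
        by_cases hh : c j < 4
        · rw [if_pos hh] at h; omega
        · rw [if_neg hh] at h; exact h
      obtain ⟨g1, g2, g3, g4, g5, g6, g7⟩ := hv j (by omega) i h1
      unfold sk
      rw [if_neg (by omega)]; exact g7
    · left; exact h

theorem go1_sound {n : ℕ} {c : ℕ → ℕ} (hc : ∀ i, c i < 16) (hv : ∀ i < n, ValidAt n c i) :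
    ∀ f i, i + f = n → go1 n f i (pack (sk c) i) = true →
    go2 n n 0 (3 - tw (pack (sk c) n) n / 2) (pack (sk c) n) = true := by
  intro f
  induction f with
  | zero =>
    intro i hi h
    have : i = n := by omega
    subst this
    exact h
  | succ f ih =>
    intro i hi h
    unfold go1 at h
    rw [Bool.and_eq_true] at h
    obtain ⟨h1, h2⟩ := h
    apply ih (i+1) (by omega)
    have hok := okNew_of_valid hc hv (by omega : i < n)
    by_cases h3 : c i < 4
    · have hsk : sk c i = 0 := by unfold sk; rw [if_pos h3]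
      have h4 : pack (sk c) (i+1) = pack (sk c) i := by
        show pack (sk c) i + sk c i * 16 ^ i = _
        rw [hsk]; simp
      rw [h4] at hok ⊢
      rw [hok] at h1
      simpa using h1
    · obtain ⟨j, hj⟩ : ∃ j, c i = j + 4 := ⟨c i - 4, by omega⟩
      have hsk : sk c i = j + 4 := by unfold sk; rw [if_neg h3, hj]
      rw [allB_iff] at h2
      have h5 := h2 j (hv i (by omega) j hj).1
      have h4 : pack (sk c) (i+1) = pack (sk c) i + (j+4) * 16 ^ i := by
        show pack (sk c) i + sk c i * 16 ^ i = _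
        rw [hsk]
      rw [← h4, hok] at h5
      simpa using h5

/-- number of chord ends -/
def ces (c : ℕ → ℕ) : ℕ → ℕ
  | 0 => 0
  | i+1 => ces c i + (if c i < 4 then 0 else 1)

theorem tw_sk {c : ℕ → ℕ} (hc : ∀ i, c i < 16) (n : ℕ) : ∀ m ≤ n, tw (pack (sk c) n) m = ces c m := by
  intro m
  induction m with
  | zero => intro _; rfl
  | succ m ih =>
    intro hm
    unfold tw ces
    rw [ih (by omega), cd_pack (sk_lt hc) (by omega)]
    by_cases h : c m < 4
    · have : sk c m = 0 := by unfold sk; rw [if_pos h]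
      rw [this, if_pos h]
    · obtain ⟨j, hj⟩ : ∃ j, c m = j + 4 := ⟨c m - 4, by omega⟩
      have : sk c m = j + 4 := by unfold sk; rw [if_neg h, hj]
      rw [this, if_neg h]

theorem lets_succ (c : ℕ → ℕ) : ∀ f i, lets c i (f+1) = lets c i f + (if 1 ≤ c (i+f) ∧ c (i+f) < 4 then 1 else 0) := by
  intro f
  induction f with
  | zero => intro i; simp [lets]
  | succ f ih =>
    intro i
    rw [lets, ih (i+1), lets]
    rw [show i + 1 + f = i + (f+1) by ring]
    ring

theorem tw_full {c : ℕ → ℕ} (hc : ∀ i, c i < 16) (n : ℕ) : ∀ m ≤ n,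
    tw (pack c n) m = ces c m + 2 * lets c 0 m := by
  intro m
  induction m with
  | zero => intro _; rfl
  | succ m ih =>
    intro hm
    unfold tw ces
    rw [ih (by omega), cd_pack hc (by omega), lets_succ, zero_add]
    rcases Nat.lt_or_ge (c m) 4 with h | h
    · have h5 : c m = 0 ∨ c m = 1 ∨ c m = 2 ∨ c m = 3 := by omega
      rcases h5 with h5 | h5 | h5 | h5 <;> simp [h5] <;> omega
    · obtain ⟨j, hj⟩ : ∃ j, c m = j + 4 := ⟨c m - 4, by omega⟩
      simp [hj]
      omega

/-- completeness of the enumeration -/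
theorem enum_sound {n : ℕ} (hgo : go1 n n 0 0 = true) {c : ℕ → ℕ} (hc : ∀ i, c i < 16)
    (hv : ∀ i < n, ValidAt n c i) (hT : ces c n + 2 * lets c 0 n ≤ 7)
    (hT2 : 2 * (n/2) ≤ ces c n + 2 * lets c 0 n)
    (hbad : bad n (pack c n) = false) : solve n (pack c n) = true := by
  have h1 := go1_sound hc hv n 0 (by omega) hgo
  have h2 : pack (sk c) n = pack (mixw c 0) n := pack_congr (fun j hj => by
    unfold mixw; rw [if_neg (by omega)])
  rw [tw_sk hc n n le_rfl, h2] at h1
  have h3 := go2_sound hc n 0 (3 - ces c n / 2) (by omega) (by omega) h1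
  rw [hbad, tw_full hc n n le_rfl] at h3
  simp only [Bool.or_eq_true, Bool.or_false, Bool.false_eq_true, or_false] at h3
  rcases h3 with h3 | h3
  · have := Nat.le_of_ble_eq_true h3
    omega
  · exact h3

end Pool.Agent.Helper850.TC
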