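import Pool.Agent.Helper850.TC.Chk

namespace Pool.Agent.Helper850.TC

theorem go3 : go1 3 3 0 0 = true := by decide +kernel
theorem go4 : go1 4 4 0 0 = true := by decide +kernel
theorem go5 : go1 5 5 0 0 = true := by decide +kernel
theorem go6 : go1 6 6 0 0 = true := by decide +kernel

end Pool.Agent.Helper850.TC
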