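import Pool.Agent.Helper850.TC.Chk

namespace Pool.Agent.Helper850.TC

theorem go7 : go1 7 7 0 0 = true := by decide +kernel

end Pool.Agent.Helper850.TC
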