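import Pool.Agent.Helper850.TC.SmallDefs
import Pool.Agent.Helper850.TC.Enum
import Pool.Agent.Helper850.TC.Enum2
import Pool.Agent.Helper850.TC.Enum3

namespace Pool.Agent.Helper850.TC

set_option linter.unusedVariables false
set_option linter.unusedSimpArgs false

def cw {n : ℕ} (w : ZMod n → Env n) (i : ℕ) : ℕ := if i < n then code (w (i : ZMod n)) else 0

theorem code_lt {n : ℕ} (hn : 0 < n) (e : Env n) : code e < n + 4 := by
  have : NeZero n := ⟨by omega⟩
  cases e with
  | out => simp [code]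
  | unk => simp only [code]; omega
  | known t => cases t <;> simp only [code] <;> omega
  | chord j => simp only [code]; have := ZMod.val_lt j; omega

theorem cw_lt {n : ℕ} (hn : 0 < n) (hn7 : n ≤ 7) (w : ZMod n → Env n) (i : ℕ) : cw w i < 16 := by
  unfold cw
  split_ifs
  · have := code_lt hn (w (i : ZMod n)); omega
  · omega

theorem code_chord {n : ℕ} {e : Env n} {j : ℕ} (h : code e = j + 4) :
    ∃ x : ZMod n, e = .chord x ∧ x.val = j := by
  cases e with
  | out => simp [code] at h
  | unk => simp only [code] at h; omega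
  | known t => cases t <;> simp only [code] at h <;> omega
  | chord x => exact ⟨x, rfl, by simp only [code] at h; omega⟩

theorem code_out {n : ℕ} {e : Env n} (h : code e = 0) : e = .out := by
  cases e with
  | out => rfl
  | unk => simp only [code] at h; omega
  | known t => cases t <;> simp only [code] at h <;> omega
  | chord x => simp only [code] at h; omega
theorem code_unk {n : ℕ} {e : Env n} (h : code e = 3) : e = .unk := by
  cases e with
  | out => simp only [code] at h; omega
  | unk => rfl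
  | known t => cases t <;> simp only [code] at h <;> omega
  | chord x => simp only [code] at h; omega
theorem code_kf {n : ℕ} {e : Env n} (h : code e = 1) : e = .known false := by
  cases e with
  | out => simp only [code] at h; omega
  | unk => simp only [code] at h; omega
  | known t => cases t <;> simp only [code] at h <;> first | rfl | omega
  | chord x => simp only [code] at h; omega
theorem code_kt {n : ℕ} {e : Env n} (h : code e = 2) : e = .known true := by
  cases e with
  | out => simp only [code] at h; omega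
  | unk => simp only [code] at h; omega
  | known t => cases t <;> simp only [code] at h <;> first | rfl | omega
  | chord x => simp only [code] at h; omega

theorem valid_cw {n : ℕ} (hn : 3 ≤ n) {w : ZMod n → Env n} (hv : ValidW w) (i : ℕ) (hi : i < n) :
    ValidAt n (cw w) i := by
  have : NeZero n := ⟨by omega⟩
  intro j hj
  unfold cw at hj
  rw [if_pos hi] at hj
  obtain ⟨x, hx1, hx2⟩ := code_chord hj
  obtain ⟨h1, h2, h3, h4⟩ := hv _ _ hx1
  have hxj : (j : ZMod n) = x := by rw [← hx2]; simp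
  have hjn : j < n := by rw [← hx2]; exact ZMod.val_lt x
  refine ⟨hjn, ?_, ?_, ?_, ?_, ?_, ?_⟩
  · intro h; apply h2; rw [← hxj, h]
  · intro h; apply h4; rw [← hxj, ← h]; push_cast; rfl
  · intro h; apply h3; rw [← hxj, ← h]; push_cast; rfl
  · rintro ⟨h5, h6⟩
    apply h3
    rw [← hxj, h5]
    have : ((i + 1 : ℕ) : ZMod n) = 0 := by rw [h6]; simp
    push_cast at this
    rw [this]; simp
  · rintro ⟨h5, h6⟩
    apply h4
    rw [← hxj, h5]
    have : ((j + 1 : ℕ) : ZMod n) = 0 := by rw [h6]; simp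
    push_cast at this
    rw [this]; simp
  · unfold cw
    rw [if_pos hjn, hxj, h1]
    simp only [code]
    rw [ZMod.val_natCast, Nat.mod_eq_of_lt hi]

theorem weight_eq {n : ℕ} (hn : 3 ≤ n) (w : ZMod n → Env n) : ∀ m ≤ n,
    ces (cw w) m + 2 * lets (cw w) 0 m = ∑ i ∈ Finset.range m, wt (w (i : ZMod n)) := by
  intro m
  induction m with
  | zero => intro _; rfl
  | succ m ih =>
    intro hm
    rw [Finset.sum_range_succ, ← ih (by omega), lets_succ, zero_add]
    have hc : cw w m = code (w (m : ZMod n)) := by unfold cw; rw [if_pos (by omega)]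
    have hces : ces (cw w) (m+1) = ces (cw w) m + (if cw w m < 4 then 0 else 1) := rfl
    rw [hces, hc]
    cases h : w (m : ZMod n) with
    | out => simp [code, wt]
    | unk => simp [code, wt]; omega
    | known t => cases t <;> simp [code, wt] <;> omega
    | chord x => simp [code, wt]; omega

theorem sum_range_zmod {n : ℕ} [NeZero n] (f : ZMod n → ℕ) :
    ∑ i ∈ Finset.range n, f (i : ZMod n) = ∑ i : ZMod n, f i := by
  apply Finset.sum_bij (fun (i : ℕ) _ => (i : ZMod n))
  · intro a _; exact Finset.mem_univ _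
  · intro a ha b hb h
    rw [Finset.mem_range] at ha hb
    have := congrArg ZMod.val h
    rwa [ZMod.val_natCast, ZMod.val_natCast, Nat.mod_eq_of_lt ha, Nat.mod_eq_of_lt hb] at this
  · intro b _
    exact ⟨b.val, Finset.mem_range.2 (ZMod.val_lt b), by simp⟩
  · intro a _; rfl

theorem cd_cw {n : ℕ} (hn : 3 ≤ n) (hn7 : n ≤ 7) (w : ZMod n → Env n) (i : ZMod n) :
    cd (pack (cw w) n) i.val = code (w i) := by
  have : NeZero n := ⟨by omega⟩
  rw [cd_pack (cw_lt (by omega) hn7 w) (ZMod.val_lt i)]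
  unfold cw
  rw [if_pos (ZMod.val_lt i)]
  simp

theorem cd_cw' {n : ℕ} (hn : 3 ≤ n) (hn7 : n ≤ 7) (w : ZMod n → Env n) (i j : ℕ) :
    cd (pack (cw w) n) ((i + j) % n) = code (w ((i : ZMod n) + (j : ZMod n))) := by
  have : NeZero n := ⟨by omega⟩
  rw [← cd_cw hn hn7 w]
  congr 1
  rw [← Nat.cast_add, ZMod.val_natCast]

theorem bad_cw {n : ℕ} (hn : 3 ≤ n) (hn7 : n ≤ 7) {w : ZMod n → Env n} (hb : ¬ BadW n w) :
    bad n (pack (cw w) n) = false := by
  rw [Bool.eq_false_iff]
  intro h
  apply hb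
  have hn' : n = 3 ∨ n = 4 ∨ n = 5 ∨ n = 6 ∨ n = 7 := by omega
  rcases hn' with rfl | rfl | rfl | rfl | rfl
  · simp [bad] at h
  · left
    refine ⟨rfl, ?_⟩
    simp only [bad] at h
    rw [anyB_iff] at h
    obtain ⟨i, hi, h⟩ := h
    unfold badAt4 at h
    simp only [Bool.and_eq_true, beq_iff_eq] at h
    obtain ⟨⟨⟨h1, h2⟩, h3⟩, h4⟩ := h
    have h1' := cd_cw' hn hn7 w i 0
    rw [add_zero, Nat.mod_eq_of_lt hi, h1] at h1'
    rw [cd_cw' hn hn7] at h2 h3 h4
    refine ⟨(i : ZMod 4), ?_, ?_, ?_, ?_⟩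
    · have := code_unk h1'.symm; simpa using this
    · have := code_unk h2; simpa using this
    · have := code_out h3; simpa using this
    · have := code_out h4; simpa using this
  · right
    refine ⟨rfl, ?_⟩
    simp only [bad] at h
    rw [anyB_iff] at h
    obtain ⟨i, hi, h⟩ := h
    unfold badAt5 at h
    simp only [Bool.and_eq_true, Bool.or_eq_true, beq_iff_eq] at h
    have h0 : cd (pack (cw w) 5) i = code (w (i : ZMod 5)) := by
      have := cd_cw' hn hn7 w i 0
      rw [add_zero, Nat.mod_eq_of_lt hi] at this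
      simpa using this
    rw [cd_cw' hn hn7 w i 1, cd_cw' hn hn7 w i 2, cd_cw' hn hn7 w i 3, cd_cw' hn hn7 w i 4, h0] at h
    push_cast at h
    obtain ⟨⟨h3, h4⟩, h5⟩ := h
    refine ⟨(i : ZMod 5), code_out h3, code_out h4, ?_⟩
    rcases h5 with ⟨h6, (⟨h7, h8⟩ | ⟨h7, h8⟩) | ⟨h7, h8⟩⟩ | ⟨h6, h7⟩
    · exact Or.inl ⟨code_out h6, Or.inl ⟨code_unk h7, code_unk h8⟩⟩
    · exact Or.inl ⟨code_out h6, Or.inr (Or.inl ⟨code_kf h7, code_kt h8⟩)⟩
    · exact Or.inl ⟨code_out h6, Or.inr (Or.inr ⟨code_kt h7, code_kf h8⟩)⟩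
    · refine Or.inr ⟨?_, code_unk h7⟩
      obtain ⟨x, hx1, hx2⟩ := code_chord h6
      rw [hx1]
      congr 1
      have : x = ((x.val : ℕ) : ZMod 5) := by simp
      rw [this, hx2]
      rw [ZMod.natCast_mod]
      push_cast; rfl
  · simp [bad] at h
  · simp [bad] at h

theorem WLsmall {n : ℕ} (hn : 3 ≤ n) (hn7 : n ≤ 7) {w : ZMod n → Env n} [NeZero n] (hv : ValidW w)
    (hT1 : 2 * (n/2) ≤ ∑ i, wt (w i)) (hT2 : ∑ i, wt (w i) ≤ 7) (hb : ¬ BadW n w) : WOK n w := by
  have hgo : go1 n n 0 0 = true := by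
    have hn' : n = 3 ∨ n = 4 ∨ n = 5 ∨ n = 6 ∨ n = 7 := by omega
    rcases hn' with rfl | rfl | rfl | rfl | rfl
    · exact go3
    · exact go4
    · exact go5
    · exact go6
    · exact go7
  have hw : ces (cw w) n + 2 * lets (cw w) 0 n = ∑ i, wt (w i) := by
    rw [weight_eq hn w n le_rfl, sum_range_zmod (fun i => wt (w i))]
  have hs := enum_sound hgo (cw_lt (by omega) hn7 w) (valid_cw hn hv) (by omega) (by omega)
    (bad_cw hn hn7 hb)
  have hW : ∀ i : ZMod n, cd (pack (cw w) n) i.val = code (w i) := cd_cw hn hn7 w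
  unfold solve cand at hs
  simp only [Bool.or_eq_true, anyB_iff, Bool.and_eq_true] at hs
  rcases hs with ((⟨x, _, _, y, _, _, h | h⟩ | h) | h) | ((⟨x, _, _, y, _, _, h | h⟩ | h) | h) <;>
    exact wok_of_chk hn w _ _ _ hW h

end Pool.Agent.Helper850.TC
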