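import Pool.Agent.Helper850.TC.Big3
import Pool.Agent.Helper850.TC.Small

namespace Pool.Agent.Helper850.TC

/-- the word lemma -/
theorem WL {n : ℕ} [NeZero n] (hn : 3 ≤ n) {w : ZMod n → Env n} (hv : ValidW w)
    (hT1 : 2 * (n/2) ≤ ∑ i, wt (w i)) (hb : ¬ BadW n w) : WOK n w := by
  by_cases h : ∑ i, wt (w i) ≤ 7
  · exact WLsmall hn (by omega) hv hT1 h hb
  · exact WLbig hn hv hT1 (by omega)

end Pool.Agent.Helper850.TC
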