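import Pool.Agent.Helper850.TC.Algo2
import Pool.Agent.Helper850.TC.Core1
import Pool.Agent.Helper850.TC.WLmain

namespace Pool.Agent.Helper850.TC

open Classical

set_option linter.unusedVariables false
set_option linter.unusedSimpArgs false
set_option linter.unusedSectionVars false

section
variable {ι : Type*} {k : ι → ℕ} [∀ c, NeZero (k c)] [Fintype ι]

theorem YT_unique {M : Vx k → Vx k} {inn : Vx k → Bool} {C : ι} {i j : ZMod (k C)}
    (h1 : YT M inn C i) (h2 : YT M inn C j) : i = j := by
  obtain ⟨a1, a2, a3, a4, a5⟩ := h1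
  obtain ⟨b1, b2, b3, b4, b5⟩ := h2
  have key : ∀ m, inn ⟨C, m⟩ = true → m = i ∨ m = i + 1 := by
    intro m hm
    by_contra hcon
    push Not at hcon
    have := a4 ⟨C, m⟩ rfl (fun h => hcon.1 (vx_inj h)) (fun h => hcon.2 (vx_inj h))
    rw [hm] at this; exact absurd this (by simp)
  have k1 := key j b2
  have k2 := key (j+1) b3
  clear * - a1 k1 k2
  revert i j
  generalize k C = n at a1
  subst a1
  decide

def RD (M : Vx k → Vx k) (inn : Vx k → Bool) (P : Finset ι) (r : Vx k → Bool) (C : ι)
    (j : ZMod (k C)) : Prop :=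
  C ∉ P ∧ YT M inn C j ∧ ((M ⟨C, j⟩).1 ∈ P ↔ ¬ (M ⟨C, j+1⟩).1 ∈ P) ∧ ¬ Bonus M P r C j

noncomputable def xk (M : Vx k → Vx k) (P : Finset ι) (C : ι) (j : ZMod (k C)) : Vx k :=
  if (M ⟨C, j⟩).1 ∈ P then ⟨C, j⟩ else ⟨C, j+1⟩
noncomputable def yk (M : Vx k → Vx k) (P : Finset ι) (C : ι) (j : ZMod (k C)) : Vx k :=
  if (M ⟨C, j⟩).1 ∈ P then ⟨C, j+1⟩ else ⟨C, j⟩

variable {M : Vx k → Vx k} {inn : Vx k → Bool} {P : Finset ι} {l r : Vx k → Bool}

theorem xy_spec {C : ι} {j : ZMod (k C)} (h : RD M inn P r C j) :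
    (xk M P C j).1 = C ∧ (yk M P C j).1 = C ∧ inn (xk M P C j) = true ∧ inn (yk M P C j) = true ∧
    (M (xk M P C j)).1 ∈ P ∧ (M (yk M P C j)).1 ∉ P ∧
    (∀ v : Vx k, v.1 = C → inn v = true → v = xk M P C j ∨ v = yk M P C j) ∧
    (∀ v : Vx k, v.1 = C → v ≠ xk M P C j → (M v).1 ∈ P → r (M v) = false) ∧
    ((xk M P C j = ⟨C, j⟩ ∧ yk M P C j = ⟨C, j+1⟩) ∨ (xk M P C j = ⟨C, j+1⟩ ∧ yk M P C j = ⟨C, j⟩)) := by
  obtain ⟨h1, ⟨a1, a2, a3, a4, a5⟩, h3, h4⟩ := h
  have hin : ∀ v : Vx k, v.1 = C → inn v = true → v = ⟨C, j⟩ ∨ v = ⟨C, j+1⟩ := by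
    intro v hv hi
    by_contra hcon
    push Not at hcon
    have := a4 v hv hcon.1 hcon.2
    rw [hi] at this; exact absurd this (by simp)
  have hbon : ∀ v : Vx k, v.1 = C → v ≠ ⟨C, j⟩ → v ≠ ⟨C, j+1⟩ → (M v).1 ∈ P → r (M v) = false := by
    intro v hv1 hv2 hv3 hv4
    by_contra hcon
    exact h4 ⟨v, hv1, hv2, hv3, hv4, by simpa using hcon⟩
  unfold xk yk
  by_cases hP : (M ⟨C, j⟩).1 ∈ P
  · have hnP := h3.1 hP
    rw [if_pos hP, if_pos hP]
    refine ⟨rfl, rfl, a2, a3, hP, hnP, hin, ?_, Or.inl ⟨rfl, rfl⟩⟩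
    intro v hv1 hv2 hv3
    by_cases hv4 : v = ⟨C, j+1⟩
    · rw [hv4] at hv3; exact absurd hv3 hnP
    · exact hbon v hv1 hv2 hv4 hv3
  · have hP2 : (M ⟨C, j+1⟩).1 ∈ P := by
      by_contra h5; exact hP (h3.2 h5)
    rw [if_neg hP, if_neg hP]
    refine ⟨rfl, rfl, a3, a2, hP2, hP, fun v hv hi => (hin v hv hi).symm, ?_, Or.inr ⟨rfl, rfl⟩⟩
    intro v hv1 hv2 hv3
    by_cases hv4 : v = ⟨C, j⟩
    · rw [hv4] at hv3; exact absurd hv3 hP
    · exact hbon v hv1 hv4 hv2 hv3

/-- from the data of `i4` for a cycle with exactly one tail in `P`: bonus or ready -/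
theorem bonus_or_RD {C : ι} {j : ZMod (k C)} (hC : C ∉ P) (hY : YT M inn C j) {T : ι → Prop}
    (hT : ∀ c, T c → c ∉ P)
    (h1 : (M ⟨C, j⟩).1 ∈ P ∨ T (M ⟨C, j⟩).1) (h2 : (M ⟨C, j+1⟩).1 ∈ P ∨ T (M ⟨C, j+1⟩).1)
    (h3 : ¬ ((M ⟨C, j⟩).1 ∈ P ∧ (M ⟨C, j+1⟩).1 ∈ P))
    (h4 : ¬ (T (M ⟨C, j⟩).1 ∧ T (M ⟨C, j+1⟩).1)) :
    Bonus M P r C j ∨ (RD M inn P r C j ∧ T (M (yk M P C j)).1) := by
  by_cases hB : Bonus M P r C j
  · exact Or.inl hB
  · right
    have hiff : ((M ⟨C, j⟩).1 ∈ P ↔ ¬ (M ⟨C, j+1⟩).1 ∈ P) := by tauto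
    refine ⟨⟨hC, hY, hiff, hB⟩, ?_⟩
    unfold yk
    by_cases hP : (M ⟨C, j⟩).1 ∈ P
    · rw [if_pos hP]
      have := hiff.1 hP
      tauto
    · rw [if_neg hP]
      tauto

theorem step_lemma (hk : ∀ c, 3 ≤ k c) (h : Inv M inn P l r) (hinv : ∀ v, M (M v) = v)
    (hfix : ∀ v, M v ≠ v) (hnx : ∀ v, M v ≠ nx v) (hinn : ∀ v, inn (M v) = !inn v)
    (hO1 : ∀ c, k c / 2 ≤ (Finset.univ.filter (fun i : ZMod (k c) => inn ⟨c, i⟩ = true)).card)
    (hO2 : ∀ (c : ι) (i : ZMod (k c)), k c = 5 → inn ⟨c, i⟩ = true → inn ⟨c, i+1⟩ = true →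
        (∀ v : Vx k, v.1 = c → v ≠ ⟨c, i⟩ → v ≠ ⟨c, i+1⟩ → inn v = false) →
        (∀ v : Vx k, v.1 = c → (M v).1 ≠ c) → (M ⟨c, i⟩).1 ≠ (M ⟨c, i+1⟩).1)
    (hO3 : ∀ (c : ι) (i : ZMod (k c)), k c = 5 → M ⟨c, i⟩ = ⟨c, i+2⟩ → (M ⟨c, i+3⟩).1 ≠ c →
        (M ⟨c, i+4⟩).1 ≠ c → inn ⟨c, i+3⟩ = true ∨ inn ⟨c, i+4⟩ = true)
    (hP : P ≠ Finset.univ) : ∃ (S : Finset ι) (l' r' : Vx k → Bool), S.Nonempty ∧ (∀ c ∈ S, c ∉ P) ∧
      Inv M inn (P ∪ S) l' r' := by
  have hYO2 : ∀ (C : ι) (j : ZMod (k C)), YT M inn C j → (M ⟨C, j⟩).1 ≠ (M ⟨C, j+1⟩).1 :=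
    fun C j hY => hO2 C j hY.1 hY.2.1 hY.2.2.1 hY.2.2.2.1 hY.2.2.2.2
  by_cases hR : ∃ C j, RD M inn P r C j
  · -- Case 1
    set R : Finset ι := Finset.univ.filter (fun C => ∃ j, RD M inn P r C j) with hRdef
    have hjj : ∀ C, ∃ j : ZMod (k C), C ∈ R → RD M inn P r C j := by
      intro C
      by_cases hC : C ∈ R
      · obtain ⟨j, hj⟩ := (Finset.mem_filter.1 hC).2
        exact ⟨j, fun _ => hj⟩
      · exact ⟨0, fun h => absurd h hC⟩
    choose jj hjj using hjj
    have hmemR : ∀ C j, RD M inn P r C j → C ∈ R ∧ jj C = j := by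
      intro C j hCj
      have h1 : C ∈ R := Finset.mem_filter.2 ⟨Finset.mem_univ _, j, hCj⟩
      exact ⟨h1, YT_unique (hjj C h1).2.1 hCj.2.1⟩
    set τf : ι → Bool := fun C => l (M (xk M P C (jj C))) with hτf
    set g : ι → ι := fun C => (M (yk M P C (jj C))).1 with hg
    by_cases hi : ∃ C ∈ R, ∀ C' ∈ R, g C' = C → τf C' ≠ τf C
    · -- option 0
      obtain ⟨C, hCR, hC⟩ := hi
      have hRD := hjj C hCR
      obtain ⟨x1, x2, x3, x4, x5, x6, x7, x8, x9⟩ := xy_spec hRD
      obtain ⟨l', r', hI⟩ := option0_inv h hinv hinn C hRD.1 hRD.2.1.1 hRD.2.1.2.2.2.2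
        (xk M P C (jj C)) x1 x3 x5 x8 (by
          intro C' j hC'P hC'C hY h1 h2 h3 h4
          have hnb : ¬ ((M ⟨C', j⟩).1 = C ∧ (M ⟨C', j+1⟩).1 = C) := by
            rintro ⟨e1, e2⟩
            exact hYO2 C' j hY (by rw [e1, e2])
          rcases bonus_or_RD (r := r) hC'P hY (T := fun c => c = C)
            (fun c hc => by rw [hc]; exact hRD.1) h1 h2 h3 hnb with hB | ⟨hRD', hT⟩
          · exact hB
          · exfalso
            obtain ⟨m1, m2⟩ := hmemR C' j hRD'
            have hne := hC C' m1 (by simp only [hg, m2]; exact hT)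
            obtain ⟨z1, z2, z3, z4, z5, z6, z7, z8, z9⟩ := xy_spec hRD'
            apply h4
            have hx' : comb {C} (fun _ => !l (M (xk M P C (jj C)))) l (M (xk M P C' j)) =
                l (M (xk M P C' j)) := by
              apply comb_out
              rw [Finset.mem_singleton]
              intro h5; exact hRD.1 (by rw [← h5]; exact z5)
            have hy' : comb {C} (fun _ => !l (M (xk M P C (jj C)))) l (M (yk M P C' j)) =
                !l (M (xk M P C (jj C))) := by
              apply comb_in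
              rw [Finset.mem_singleton]; exact hT
            have heq : comb {C} (fun _ => !l (M (xk M P C (jj C)))) l (M (xk M P C' j)) =
                comb {C} (fun _ => !l (M (xk M P C (jj C)))) l (M (yk M P C' j)) := by
              rw [hx', hy']
              simp only [hτf, m2] at hne
              exact (by decide : ∀ a b : Bool, a ≠ b → a = !b) _ _ hne
            rcases z9 with ⟨e1, e2⟩ | ⟨e1, e2⟩
            · rw [e1, e2] at heq; exact heq
            · rw [e1, e2] at heq; exact heq.symm)
      exact ⟨{C}, l', r', ⟨C, Finset.mem_singleton_self C⟩,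
        fun c hc => by rw [Finset.mem_singleton.1 hc]; exact hRD.1, hI⟩
    · -- simultaneous
      push Not at hi
      have hsub : R ⊆ R.image g := by
        intro C hC
        obtain ⟨C', h1, h2, _⟩ := hi C hC
        exact Finset.mem_image.2 ⟨C', h1, h2⟩
      have himg : R.image g = R :=
        (Finset.eq_of_subset_of_card_le hsub Finset.card_image_le).symm
      have hinj : Set.InjOn g R := by
        apply Finset.card_image_iff.1
        rw [himg]
      have hclosed : ∀ C ∈ R, g C ∈ R ∧ τf (g C) = τf C := by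
        intro C hC
        have h1 : g C ∈ R := by
          rw [← himg]; exact Finset.mem_image_of_mem g hC
        obtain ⟨C', h2, h3, h4⟩ := hi (g C) h1
        have h5 : C' = C := hinj h2 hC h3
        rw [h5] at h4
        exact ⟨h1, h4.symm⟩
      obtain ⟨C0, j0, hC0⟩ := hR
      obtain ⟨hC0R, _⟩ := hmemR C0 j0 hC0
      set τ := τf C0 with hτ
      set S : Finset ι := R.filter (fun C => τf C = τ) with hS
      have hSP : ∀ c ∈ S, c ∉ P := fun c hc => (hjj c (Finset.mem_filter.1 hc).1).1
      have hres := simul_inv h hinv hinn S hSP jj τ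
        (by
          intro C hC
          have hRD := hjj C (Finset.mem_filter.1 hC).1
          obtain ⟨a1, a2, a3, a4, a5⟩ := hRD.2.1
          exact ⟨by omega, by rw [a1]; decide, a2, a3, a4, a5⟩)
        (by
          intro v hv hMv
          have hRD := hjj v.1 (Finset.mem_filter.1 hv).1
          have hτv := (Finset.mem_filter.1 hv).2
          obtain ⟨x1, x2, x3, x4, x5, x6, x7, x8, x9⟩ := xy_spec hRD
          constructor
          · intro hiv
            have hvx : v = xk M P v.1 (jj v.1) := by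
              rcases x7 v rfl hiv with h1 | h1
              · exact h1
              · have e : (M v).1 = (M (yk M P v.1 (jj v.1))).1 := congrArg (fun z => (M z).1) h1
                rw [e] at hMv
                exact absurd hMv x6
            refine ⟨h.tail hinv hinn (hSP _ hv) hMv hiv, ?_⟩
            rw [← hτv]
            simp only [hτf]
            rw [← hvx]
          · intro hiv
            apply x8 v rfl _ hMv
            intro h1
            have e : inn v = inn (xk M P v.1 (jj v.1)) := congrArg inn h1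
            rw [e, x3] at hiv
            exact absurd hiv (by simp))
        (by
          intro v hv hiv
          have hvR := (Finset.mem_filter.1 hv).1
          have hτv := (Finset.mem_filter.1 hv).2
          have hRD := hjj v.1 hvR
          obtain ⟨x1, x2, x3, x4, x5, x6, x7, x8, x9⟩ := xy_spec hRD
          rcases x7 v rfl hiv with h1 | h1
          · left
            have e : (M v).1 = (M (xk M P v.1 (jj v.1))).1 := congrArg (fun z => (M z).1) h1
            rw [e]; exact x5
          · right
            obtain ⟨g1, g2⟩ := hclosed v.1 hvR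
            have h2 : (M v).1 = g v.1 := by
              simp only [hg]; rw [← h1]
            rw [h2]
            exact Finset.mem_filter.2 ⟨g1, by rw [g2]; exact hτv⟩)
        (by
          intro C' j hC'P hC'S hY h1 h2 h3
          by_cases hb : (M ⟨C', j⟩).1 ∈ P ∧ (M ⟨C', j+1⟩).1 ∈ P
          · rw [comb_out (fun h5 => hSP _ h5 hb.1), comb_out (fun h5 => hSP _ h5 hb.2)] at h3
            exact h.i4 C' j hC'P hY hb.1 hb.2 h3
          · by_cases hnb : (M ⟨C', j⟩).1 ∈ S ∧ (M ⟨C', j+1⟩).1 ∈ S
            · rw [comb_in hnb.1, comb_in hnb.2] at h3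
              exact absurd rfl h3
            · rcases bonus_or_RD (r := r) hC'P hY (T := fun c => c ∈ S) hSP h1 h2 hb hnb with hB | ⟨hRD', hT⟩
              · exact hB
              · exfalso
                obtain ⟨m1, m2⟩ := hmemR C' j hRD'
                apply hC'S
                apply Finset.mem_filter.2
                refine ⟨m1, ?_⟩
                rw [← (hclosed C' m1).2]
                have : g C' ∈ S := by simp only [hg, m2]; exact hT
                exact (Finset.mem_filter.1 this).2)
      obtain ⟨l', r', hI⟩ := hres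
      exact ⟨S, l', r', ⟨C0, Finset.mem_filter.2 ⟨hC0R, rfl⟩⟩, hSP, hI⟩
  · -- no ready cycle
    push Not at hR
    have hNR : ∀ (C : ι) (hC : C ∉ P) (C' : ι) (j : ZMod (k C')), C' ∉ P → C' ≠ C → YT M inn C' j →
        ((M ⟨C', j⟩).1 ∈ P ∨ (M ⟨C', j⟩).1 = C) → ((M ⟨C', j+1⟩).1 ∈ P ∨ (M ⟨C', j+1⟩).1 = C) →
        ¬ ((M ⟨C', j⟩).1 ∈ P ∧ (M ⟨C', j+1⟩).1 ∈ P) → Bonus M P r C' j := by
      intro C hC C' j hC'P hC'C hY h1 h2 h3
      have hnb : ¬ ((M ⟨C', j⟩).1 = C ∧ (M ⟨C', j+1⟩).1 = C) := by
        rintro ⟨e1, e2⟩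
        exact hYO2 C' j hY (by rw [e1, e2])
      rcases bonus_or_RD (r := r) hC'P hY (T := fun c => c = C)
        (fun c hc => by rw [hc]; exact hC) h1 h2 h3 hnb with hB | ⟨hRD', hT⟩
      · exact hB
      · exact absurd hRD' (hR C' j)
    -- processing by the word lemma whenever the word is not bad
    have hproc : ∀ C, C ∉ P → ¬ BadW (k C) (wd M inn P l r C) →
        ∃ (S : Finset ι) (l' r' : Vx k → Bool), S.Nonempty ∧ (∀ c ∈ S, c ∉ P) ∧ Inv M inn (P ∪ S) l' r' := by
      intro C hC hbad
      have hW : WOK (k C) (wd M inn P l r C) :=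
        WL (hk C) (valid_wd hinv hfix hnx C) (weight_wd h hinv hfix hnx hinn hC (hO1 C)) hbad
      obtain ⟨l', r', hI⟩ := single_inv h hinv C hC hW (hNR C hC)
      exact ⟨{C}, l', r', ⟨C, Finset.mem_singleton_self C⟩,
        fun c hc => by rw [Finset.mem_singleton.1 hc]; exact hC, hI⟩
    by_cases hgood : ∃ C, C ∉ P ∧ ¬ BadW (k C) (wd M inn P l r C)
    · obtain ⟨C, hC, hb⟩ := hgood
      exact hproc C hC hb
    · push Not at hgood
      -- all remaining words are bad
      have hshape : ∀ C, C ∉ P → ∃ i : ZMod (k C), 4 ≤ k C ∧ k C % 3 ≠ 0 ∧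
          inn ⟨C, i⟩ = true ∧ inn ⟨C, i+1⟩ = true ∧
          (∀ v : Vx k, v.1 = C → v ≠ ⟨C, i⟩ → v ≠ ⟨C, i+1⟩ → inn v = false) ∧
          (∀ v : Vx k, v.1 = C → (M v).1 ≠ C) ∧
          (∀ v : Vx k, v.1 = C → (M v).1 ∈ P → inn v = false ∧ r (M v) = false) := by
        intro C hC
        rcases hgood C hC with ⟨h4, i, b0, b1, b2, b3⟩ | ⟨h5, i, b3, b4, hb⟩
        · rw [wd_unk] at b0 b1
          rw [wd_out] at b2 b3
          have hcov : ∀ m : ZMod (k C), m = i ∨ m = i + 1 ∨ m = i + 2 ∨ m = i + 3 := by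
            clear * - h4
            revert i
            generalize k C = n at h4
            subst h4
            decide
          have hin : ∀ m : ZMod (k C), inn ⟨C, m⟩ = true → (M ⟨C, m⟩).1 ∈ P → r (M ⟨C, m⟩) = true :=
            fun m h1 h2 => h.tail hinv hinn (v := ⟨C, m⟩) hC h2 h1
          have ho2 : inn ⟨C, i+2⟩ = false := by
            by_contra hcon
            have hcon' : inn ⟨C, i+2⟩ = true := by simpa using hcon
            rcases b2.2 with ⟨c1, c2⟩ | ⟨c1, c2⟩
            · rw [hin _ hcon' c1] at c2; exact absurd c2 (by simp)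
            · exact hcon c2
          have ho3 : inn ⟨C, i+3⟩ = false := by
            by_contra hcon
            have hcon' : inn ⟨C, i+3⟩ = true := by simpa using hcon
            rcases b3.2 with ⟨c1, c2⟩ | ⟨c1, c2⟩
            · rw [hin _ hcon' c1] at c2; exact absurd c2 (by simp)
            · exact hcon c2
          refine ⟨i, by omega, by rw [h4]; decide, b0.2.2, b1.2.2, ?_, ?_, ?_⟩
          · intro v hv hv1 hv2
            obtain ⟨m, rfl⟩ := vx_eq hv
            rcases hcov m with rfl | rfl | rfl | rfl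
            · exact absurd rfl hv1
            · exact absurd rfl hv2
            · exact ho2
            · exact ho3
          · intro v hv
            obtain ⟨m, rfl⟩ := vx_eq hv
            rcases hcov m with rfl | rfl | rfl | rfl
            · exact b0.1
            · exact b1.1
            · exact b2.1
            · exact b3.1
          · intro v hv hMP
            obtain ⟨m, rfl⟩ := vx_eq hv
            rcases hcov m with rfl | rfl | rfl | rfl
            · exact absurd hMP b0.2.1
            · exact absurd hMP b1.2.1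
            · rcases b2.2 with ⟨c1, c2⟩ | ⟨c1, c2⟩
              · exact ⟨ho2, c2⟩
              · exact absurd hMP c1
            · rcases b3.2 with ⟨c1, c2⟩ | ⟨c1, c2⟩
              · exact ⟨ho3, c2⟩
              · exact absurd hMP c1
        · have hin : ∀ m : ZMod (k C), inn ⟨C, m⟩ = true → (M ⟨C, m⟩).1 ∈ P → r (M ⟨C, m⟩) = true :=
            fun m h1 h2 => h.tail hinv hinn (v := ⟨C, m⟩) hC h2 h1
          have hout : ∀ m : ZMod (k C), wd M inn P l r C m = .out → (M ⟨C, m⟩).1 ≠ C ∧
              inn ⟨C, m⟩ = false ∧ ((M ⟨C, m⟩).1 ∈ P → r (M ⟨C, m⟩) = false) := by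
            intro m hm
            rw [wd_out] at hm
            refine ⟨hm.1, ?_, ?_⟩
            · by_contra hcon
              have hcon' : inn ⟨C, m⟩ = true := by simpa using hcon
              rcases hm.2 with ⟨c1, c2⟩ | ⟨c1, c2⟩
              · rw [hin _ hcon' c1] at c2; exact absurd c2 (by simp)
              · exact hcon c2
            · intro hMP
              rcases hm.2 with ⟨c1, c2⟩ | ⟨c1, c2⟩
              · exact c2
              · exact absurd hMP c1
          have hcov : ∀ m : ZMod (k C), m = i ∨ m = i + 1 ∨ m = i + 2 ∨ m = i + 3 ∨ m = i + 4 := by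
            clear * - h5
            revert i
            generalize k C = n at h5
            subst h5
            decide
          have o3 := hout _ b3
          have o4 := hout _ b4
          rcases hb with ⟨b2, hb⟩ | ⟨hb1, hb2⟩
          · have o2 := hout _ b2
            have hothers : ∀ v : Vx k, v.1 = C → v ≠ ⟨C, i⟩ → v ≠ ⟨C, i+1⟩ →
                (M v).1 ≠ C ∧ inn v = false ∧ ((M v).1 ∈ P → r (M v) = false) := by
              intro v hv hv1 hv2
              obtain ⟨m, rfl⟩ := vx_eq hv
              rcases hcov m with rfl | rfl | rfl | rfl | rfl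
              · exact absurd rfl hv1
              · exact absurd rfl hv2
              · exact o2
              · exact o3
              · exact o4
            -- both known with different types is impossible
            have hknown : ∀ t t', wd M inn P l r C i = .known t → wd M inn P l r C (i+1) = .known t' →
                t ≠ t' → False := by
              intro t t' k1 k2 htt
              rw [wd_known] at k1 k2
              -- in-ends : at least two, so both
              have hc := hO1 C
              have hsub : Finset.univ.filter (fun m : ZMod (k C) => inn ⟨C, m⟩ = true) ⊆ {i, i+1} := by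
                intro m hm
                rw [Finset.mem_filter] at hm
                rw [Finset.mem_insert, Finset.mem_singleton]
                by_contra hcon
                push Not at hcon
                have := (hothers ⟨C, m⟩ rfl (fun h => hcon.1 (vx_inj h)) (fun h => hcon.2 (vx_inj h))).2.1
                rw [hm.2] at this; exact absurd this (by simp)
              have hfull : Finset.univ.filter (fun m : ZMod (k C) => inn ⟨C, m⟩ = true) = {i, i+1} := by
                apply Finset.eq_of_subset_of_card_le hsub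
                refine (Finset.card_le_two).trans ?_
                have h52 : k C / 2 = 2 := by rw [h5]
                omega
              have hi1 : inn ⟨C, i⟩ = true := by
                have : i ∈ Finset.univ.filter (fun m : ZMod (k C) => inn ⟨C, m⟩ = true) := by
                  rw [hfull]; simp
                exact (Finset.mem_filter.1 this).2
              have hi2 : inn ⟨C, i+1⟩ = true := by
                have : i+1 ∈ Finset.univ.filter (fun m : ZMod (k C) => inn ⟨C, m⟩ = true) := by
                  rw [hfull]; simp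
                exact (Finset.mem_filter.1 this).2
              have hY : YT M inn C i := by
                refine ⟨h5, hi1, hi2, fun v hv hv1 hv2 => (hothers v hv hv1 hv2).2.1, ?_⟩
                intro v hv
                by_cases hv1 : v = ⟨C, i⟩
                · rw [hv1]; exact k1.1
                · by_cases hv2 : v = ⟨C, i+1⟩
                  · rw [hv2]; exact k2.1
                  · exact (hothers v hv hv1 hv2).1
              obtain ⟨v, hv, hv1, hv2, hv3, hv4⟩ := h.i4 C i hC hY k1.2.1 k2.2.1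
                (by rw [k1.2.2.2, k2.2.2.2]; exact htt)
              have := (hothers v hv hv1 hv2).2.2 hv3
              rw [hv4] at this; exact absurd this (by simp)
            rcases hb with ⟨b0, b1⟩ | ⟨b0, b1⟩ | ⟨b0, b1⟩
            · rw [wd_unk] at b0 b1
              refine ⟨i, by omega, by rw [h5]; decide, b0.2.2, b1.2.2,
                fun v hv hv1 hv2 => (hothers v hv hv1 hv2).2.1, ?_, ?_⟩
              · intro v hv
                by_cases hv1 : v = ⟨C, i⟩
                · rw [hv1]; exact b0.1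
                · by_cases hv2 : v = ⟨C, i+1⟩
                  · rw [hv2]; exact b1.1
                  · exact (hothers v hv hv1 hv2).1
              · intro v hv hMP
                by_cases hv1 : v = ⟨C, i⟩
                · rw [hv1] at hMP; exact absurd hMP b0.2.1
                · by_cases hv2 : v = ⟨C, i+1⟩
                  · rw [hv2] at hMP; exact absurd hMP b1.2.1
                  · exact ⟨(hothers v hv hv1 hv2).2.1, (hothers v hv hv1 hv2).2.2 hMP⟩
            · exact absurd (hknown _ _ b0 b1 (by simp)) (fun h => h)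
            · exact absurd (hknown _ _ b0 b1 (by simp)) (fun h => h)
          · exfalso
            rw [wd_chord] at hb1
            rcases hO3 C i h5 hb1 o3.1 o4.1 with hh | hh
            · rw [o3.2.1] at hh; exact absurd hh (by simp)
            · rw [o4.2.1] at hh; exact absurd hh (by simp)
      have hixx : ∀ C, ∃ i : ZMod (k C), C ∉ P → 4 ≤ k C ∧ k C % 3 ≠ 0 ∧
          inn ⟨C, i⟩ = true ∧ inn ⟨C, i+1⟩ = true ∧
          (∀ v : Vx k, v.1 = C → v ≠ ⟨C, i⟩ → v ≠ ⟨C, i+1⟩ → inn v = false) ∧
          (∀ v : Vx k, v.1 = C → (M v).1 ≠ C) ∧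
          (∀ v : Vx k, v.1 = C → (M v).1 ∈ P → inn v = false ∧ r (M v) = false) := by
        intro C
        by_cases hC : C ∉ P
        · obtain ⟨i, hi⟩ := hshape C hC
          exact ⟨i, fun _ => hi⟩
        · exact ⟨0, fun h => absurd h hC⟩
      choose ii hii using hixx
      set S : Finset ι := Finset.univ \ P with hS
      have hmS : ∀ c, c ∈ S ↔ c ∉ P := by intro c; rw [hS, Finset.mem_sdiff]; simp
      have hSP : ∀ c ∈ S, c ∉ P := fun c hc => (hmS c).1 hc
      obtain ⟨l', r', hI⟩ := simul_inv h hinv hinn S hSP ii true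
        (by
          intro C hC
          obtain ⟨a1, a2, a3, a4, a5, a6, a7⟩ := hii C (hSP C hC)
          exact ⟨a1, a2, a3, a4, a5, a6⟩)
        (by
          intro v hv hMv
          obtain ⟨a1, a2, a3, a4, a5, a6, a7⟩ := hii v.1 (hSP v.1 hv)
          obtain ⟨c1, c2⟩ := a7 v rfl hMv
          refine ⟨fun hiv => ?_, fun _ => c2⟩
          rw [c1] at hiv; exact absurd hiv (by simp))
        (by
          intro v hv hiv
          by_cases h1 : (M v).1 ∈ P
          · exact Or.inl h1
          · exact Or.inr ((hmS _).2 h1))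
        (by
          intro C j hC1 hC2
          exact absurd ((hmS C).2 hC1) hC2)
      refine ⟨S, l', r', ?_, hSP, hI⟩
      by_contra hne
      rw [Finset.not_nonempty_iff_eq_empty] at hne
      apply hP
      ext c
      simp only [Finset.mem_univ, iff_true]
      by_contra hc
      have := (hmS c).2 hc
      rw [hne] at this
      exact Finset.notMem_empty c this

theorem exists_inv (hk : ∀ c, 3 ≤ k c) (hinv : ∀ v, M (M v) = v)
    (hfix : ∀ v, M v ≠ v) (hnx : ∀ v, M v ≠ nx v) :
    ∃ inn l r, Inv M inn (Finset.univ : Finset ι) l r := by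
  obtain ⟨inn, hinn, hO1, hO2, hO3⟩ := orient hk M hinv hfix
  have key : ∀ (m : ℕ) (P : Finset ι) (l r : Vx k → Bool), Inv M inn P l r →
      (Finset.univ \ P).card ≤ m → ∃ l r, Inv M inn (Finset.univ : Finset ι) l r := by
    intro m
    induction m with
    | zero =>
      intro P l r hI hc
      have : Finset.univ \ P = ∅ := Finset.card_eq_zero.1 (by omega)
      rw [Finset.sdiff_eq_empty_iff_subset] at this
      have hPu : P = Finset.univ := Finset.univ_subset_iff.1 this
      subst hPu
      exact ⟨l, r, hI⟩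
    | succ m ih =>
      intro P l r hI hc
      by_cases hP : P = Finset.univ
      · subst hP; exact ⟨l, r, hI⟩
      · obtain ⟨S, l', r', hSne, hSP, hI'⟩ := step_lemma hk hI hinv hfix hnx hinn hO1 hO2 hO3 hP
        apply ih (P ∪ S) l' r' hI'
        obtain ⟨c, hc'⟩ := hSne
        have : Finset.univ \ (P ∪ S) ⊂ Finset.univ \ P := by
          rw [Finset.ssubset_iff_of_subset]
          · refine ⟨c, ?_, ?_⟩
            · rw [Finset.mem_sdiff]; exact ⟨Finset.mem_univ _, hSP c hc'⟩
            · rw [Finset.mem_sdiff]; simp [hc']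
          · intro x hx
            rw [Finset.mem_sdiff, Finset.mem_union, not_or] at hx
            rw [Finset.mem_sdiff]
            exact ⟨hx.1, hx.2.1⟩
        have := Finset.card_lt_card this
        omega
  have hempty : Inv M inn (∅ : Finset ι) (fun _ => true) (fun _ => true) := by
    refine ⟨?_, ?_, ?_, ?_, ?_, ?_⟩
    · intro v hv; exact absurd hv (Finset.notMem_empty _)
    · intro v hv; exact absurd hv (Finset.notMem_empty _)
    · intro v hv; exact absurd hv (Finset.notMem_empty _)
    · intro v hv; exact absurd hv (Finset.notMem_empty _)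
    · intro l' r' _ _ c hc; exact absurd hc (Finset.notMem_empty _)
    · intro C i _ _ h1; exact absurd h1 (Finset.notMem_empty _)
  obtain ⟨l, r, hI⟩ := key _ ∅ _ _ hempty le_rfl
  exact ⟨inn, l, r, hI⟩

theorem exists_good (hk : ∀ c, 3 ≤ k c) (hinv : ∀ v, M (M v) = v)
    (hfix : ∀ v, M v ≠ v) (hnx : ∀ v, M v ≠ nx v) : ∃ l r, Good M l r := by
  obtain ⟨inn, l, r, hI⟩ := exists_inv hk hinv hfix hnx
  have hLV : LV M l r := by
    refine ⟨fun v => hI.s2a v (Finset.mem_univ _) (Finset.mem_univ _),
      fun v => hI.s1 v (Finset.mem_univ _), fun v => hI.s2b v (Finset.mem_univ _) (Finset.mem_univ _)⟩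
  exact ⟨l, r, hinv, hLV.1, hLV.2.1, hLV.2.2,
    fun c => hI.s5 l r (fun v _ => ⟨rfl, rfl⟩) hLV c (Finset.mem_univ c)⟩

/-- main core theorem -/
theorem exists_pal (hk : ∀ c, 3 ≤ k c) (hinv : ∀ v, M (M v) = v)
    (hfix : ∀ v, M v ≠ v) (hnx : ∀ v, M v ≠ nx v) : Pal M := by
  obtain ⟨l, r, hG⟩ := exists_good hk hinv hfix hnx
  exact pal_of_good hG hk

end

end Pool.Agent.Helper850.TC
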