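import Mathlib

namespace Pool.Agent.Helper850.TC

/-! generic search along iterates -/

section Hit
variable {V : Type*} (g : V → V) (S : V → Prop)

open Classical in
noncomputable def pos (v : V) : ℕ :=
  if h : ∃ n, S (g^[n] v) then Nat.find h else 0

noncomputable def hit (v : V) : V := g^[pos g S v] v

variable {g S}

theorem pos_of {v : V} (h : S v) : pos g S v = 0 := by
  classical
  unfold pos
  have h' : ∃ n, S (g^[n] v) := ⟨0, h⟩
  rw [dif_pos h']
  exact (Nat.find_eq_zero h').2 h

theorem hit_of {v : V} (h : S v) : hit g S v = v := by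
  unfold hit
  rw [pos_of h]; rfl

theorem hit_spec {v : V} (h : ∃ n, S (g^[n] v)) : S (hit g S v) := by
  classical
  unfold hit pos
  rw [dif_pos h]
  exact Nat.find_spec h

theorem pos_succ {v : V} (hv : ¬ S v) (h : ∃ n, S (g^[n] (g v))) :
    pos g S v = pos g S (g v) + 1 := by
  classical
  have h' : ∃ n, S (g^[n] v) := by
    obtain ⟨n, hn⟩ := h
    exact ⟨n+1, by simpa [Function.iterate_succ_apply] using hn⟩
  unfold pos
  rw [dif_pos h', dif_pos h]
  rw [Nat.find_eq_iff]
  constructor
  · have := Nat.find_spec h
    simpa [Function.iterate_succ_apply] using this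
  · intro n hn
    cases n with
    | zero => simpa using hv
    | succ n =>
      have := Nat.find_min h (m := n) (by omega)
      simpa [Function.iterate_succ_apply] using this

theorem hit_succ {v : V} (hv : ¬ S v) (h : ∃ n, S (g^[n] (g v))) :
    hit g S v = hit g S (g v) := by
  unfold hit
  rw [pos_succ hv h, Function.iterate_succ_apply]

theorem ex_of_ex_succ {v : V} (hv : ¬ S v) (h : ∃ n, S (g^[n] v)) :
    ∃ n, S (g^[n] (g v)) := by
  obtain ⟨n, hn⟩ := h
  cases n with
  | zero => exact absurd hn hv
  | succ n => exact ⟨n, by simpa [Function.iterate_succ_apply] using hn⟩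

/-- backward induction principle -/
theorem hit_induct {P : V → Prop} (hbase : ∀ v, S v → P v)
    (hstep : ∀ v, ¬ S v → P (g v) → P v) {v : V} (h : ∃ n, S (g^[n] v)) : P v := by
  obtain ⟨n, hn⟩ := h
  induction n generalizing v with
  | zero => exact hbase v hn
  | succ n ih =>
    by_cases hv : S v
    · exact hbase v hv
    · exact hstep v hv (ih (by simpa [Function.iterate_succ_apply] using hn))

theorem pos_lt {v : V} {n : ℕ} (hn : n < pos g S v) : ¬ S (g^[n] v) := by
  classical
  unfold pos at hn
  split_ifs at hn with h
  · exact Nat.find_min h hn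
  · omega

end Hit

end Pool.Agent.Helper850.TC
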