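import Pool.Agent.Helper850.TC.SmallDefs

namespace Pool.Agent.Helper850.TC

open Classical

set_option linter.unusedVariables false
set_option linter.unusedSimpArgs false

section
variable {n : ℕ}

theorem val_sub_one {n : ℕ} (hn : 2 ≤ n) {a : ZMod n} (h : a ≠ 0) : (a - 1).val + 1 = a.val := by
  have : NeZero n := ⟨by omega⟩
  have : Fact (1 < n) := ⟨by omega⟩
  have h0 : a.val ≠ 0 := fun h' => h ((ZMod.val_eq_zero a).1 h')
  have h1 : (1 : ZMod n).val = 1 := ZMod.val_one n
  rw [ZMod.val_sub (by rw [h1]; omega), h1]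
  omega

theorem val_neg_one' {n : ℕ} (hn : 2 ≤ n) : (-1 : ZMod n).val = n - 1 := by
  obtain ⟨m, rfl⟩ : ∃ m, n = m + 1 := ⟨n - 1, by omega⟩
  rw [ZMod.val_neg_one]; rfl

/-- labelling with prescribed set of label changes -/
theorem parity_label (hn : 2 ≤ n) (D : Finset (ZMod n)) (hD : Even D.card) (i0 : ZMod n) (b0 : Bool) :
    ∃ l : ZMod n → Bool, (∀ x, l (x-1) ≠ l x ↔ x ∈ D) ∧ l i0 = b0 ∧
      (i0 ∉ D → ∀ x, (l x ≠ b0 ↔ Odd (D.filter (fun j => (j - i0).val ≤ (x - i0).val)).card)) := by
  have : NeZero n := ⟨by omega⟩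
  set F : ZMod n → ℕ := fun x => (D.filter (fun j => (j - i0).val ≤ (x - i0).val)).card with hF
  have hstep : ∀ x, (x ∈ D ↔ ¬ (Odd (F (x-1)) ↔ Odd (F x))) := by
    intro x
    by_cases hx : x = i0
    · subst hx
      have h1 : F (x - 1) = D.card := by
        simp only [hF]
        congr 1
        apply Finset.filter_true_of_mem
        intro j _
        have : x - 1 - x = -1 := by ring
        rw [this, val_neg_one' hn]
        have := ZMod.val_lt (j - x)
        omega
      have h2 : F x = if x ∈ D then 1 else 0 := by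
        simp only [hF, sub_self, ZMod.val_zero, Nat.le_zero, ZMod.val_eq_zero, sub_eq_zero]
        rw [Finset.filter_eq' D x]
        split_ifs <;> simp
      rw [h1, h2]
      have h3 : ¬ Odd D.card := by rwa [Nat.not_odd_iff_even]
      by_cases h4 : x ∈ D <;> simp [h4, h3]
    · have hx' : x - i0 ≠ 0 := sub_ne_zero.2 hx
      have h1 : (x - 1 - i0).val + 1 = (x - i0).val := by
        have := val_sub_one hn hx'
        rwa [show x - i0 - 1 = x - 1 - i0 by ring] at this
      have h2 : F x = F (x-1) + (if x ∈ D then 1 else 0) := by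
        simp only [hF]
        have h3 : D.filter (fun j => (j - i0).val ≤ (x - i0).val) =
            D.filter (fun j => (j - i0).val ≤ (x - 1 - i0).val) ∪ D.filter (fun j => j = x) := by
          ext j
          simp only [Finset.mem_filter, Finset.mem_union]
          constructor
          · rintro ⟨h4, h5⟩
            by_cases h6 : (j - i0).val ≤ (x - 1 - i0).val
            · exact Or.inl ⟨h4, h6⟩
            · right
              refine ⟨h4, ?_⟩
              have h7 : (j - i0).val = (x - i0).val := by omega
              have h8 := ZMod.val_injective n h7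
              exact sub_left_injective h8
          · rintro (⟨h4, h5⟩ | ⟨h4, h5⟩)
            · exact ⟨h4, by omega⟩
            · exact ⟨h4, by rw [h5]⟩
        rw [h3, Finset.card_union_of_disjoint]
        · congr 1
          rw [Finset.filter_eq' D x]
          split_ifs <;> simp
        · rw [Finset.disjoint_left]
          intro j h4 h5
          simp only [Finset.mem_filter] at h4 h5
          rw [h5.2] at h4
          omega
      rw [h2]
      by_cases h4 : x ∈ D
      · simp only [h4, if_true, true_iff]
        rw [Nat.odd_add_one]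
        tauto
      · simp [h4]
  refine ⟨fun x => if (Odd (F x) ↔ Odd (F i0)) then b0 else !b0, ?_, ?_, ?_⟩
  · intro x
    rw [hstep x]
    simp only
    by_cases h1 : Odd (F (x-1)) <;> by_cases h2 : Odd (F x) <;> by_cases h3 : Odd (F i0) <;>
      simp [h1, h2, h3]
  · simp
  · intro hi0 x
    have h0 : F i0 = 0 := by
      simp only [hF, sub_self, ZMod.val_zero, Nat.le_zero, ZMod.val_eq_zero, sub_eq_zero]
      rw [Finset.filter_eq' D i0, if_neg hi0]; simp
    simp only [h0]
    by_cases h1 : Odd (F x)
    · simp only [hF] at h1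
      simp [hF, h1]
    · simp only [hF] at h1
      simp [hF, h1]

/-- with at least four changes, every change has a second one in the same direction -/
theorem two_starts (hn : 2 ≤ n) {D : Finset (ZMod n)} {l : ZMod n → Bool}
    (hD : ∀ x, l (x-1) ≠ l x ↔ x ∈ D) (hcard : 3 ≤ D.card) {x : ZMod n} (hx : x ∈ D) :
    ∃ x', x' ≠ x ∧ l (x'-1) ≠ l x' ∧ l x' = l x := by
  have : NeZero n := ⟨by omega⟩
  by_contra hcon
  push Not at hcon
  have huniq : ∀ y ∈ D, l y = l x → y = x := by
    intro y hy hly
    by_contra hne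
    exact hcon y hne ((hD y).2 hy) hly
  -- forward from y with other label, until x
  have hfwd : ∀ y ∈ D, l y ≠ l x → ∀ j : ℕ, j < (x - y).val → l (y + j) ≠ l x := by
    intro y hy hly j
    induction j with
    | zero => intro _; simpa using hly
    | succ j ih =>
      intro hj
      have h1 := ih (by omega)
      intro h2
      have h3 : y + ((j + 1 : ℕ) : ZMod n) ∈ D := by
        rw [← hD, show y + ((j+1 : ℕ) : ZMod n) - 1 = y + j by push_cast; ring]
        rw [h2]; exact h1
      have h4 := huniq _ h3 h2
      have h5 : x - y = ((j+1 : ℕ) : ZMod n) := by rw [← h4]; ring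
      rw [h5, ZMod.val_natCast] at hj
      have := Nat.mod_le (j+1) n
      omega
  have hother : ∀ y ∈ D, ∀ y' ∈ D, l y ≠ l x → l y' ≠ l x → (x - y).val ≤ (x - y').val → y = y' := by
    intro y hy y' hy' h1 h2 h3
    by_contra hne
    have h4 : (x - y).val ≠ (x - y').val := by
      intro h
      have := ZMod.val_injective n h
      exact hne (sub_right_injective this)
    obtain ⟨d, hd⟩ : ∃ d, (x - y').val = (x - y).val + d + 1 := ⟨(x-y').val - (x-y).val - 1, by omega⟩
    have h5 : y = y' + ((d + 1 : ℕ) : ZMod n) := by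
      have e1 : x - y' = (((x - y').val : ℕ) : ZMod n) := by simp
      have e2 : x - y = (((x - y).val : ℕ) : ZMod n) := by simp
      have e3 : y - y' = (x - y') - (x - y) := by ring
      have e4 : y - y' = ((d + 1 : ℕ) : ZMod n) := by
        rw [e3, e1, e2, hd]; push_cast; ring
      rw [← e4]; ring
    have h6 := hfwd y' hy' h2 d (by omega)
    have h7 : y' + (d : ZMod n) = y - 1 := by rw [h5]; push_cast; ring
    rw [h7] at h6
    have h8 := (hD y).2 hy
    -- Bool: l(y-1) ≠ l x, l y ≠ l x, so equal
    apply h8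
    exact (by decide : ∀ a b c : Bool, a ≠ c → b ≠ c → a = b) _ _ _ h6 h1
  have hsub : D ⊆ insert x (D.filter (fun y => l y ≠ l x)) := by
    intro y hy
    rw [Finset.mem_insert, Finset.mem_filter]
    by_cases h : l y = l x
    · left; exact huniq y hy h
    · right; exact ⟨hy, h⟩
  have hle : (D.filter (fun y => l y ≠ l x)).card ≤ 1 := by
    rw [Finset.card_le_one]
    intro a ha b hb
    rw [Finset.mem_filter] at ha hb
    rcases le_total (x - a).val (x - b).val with h | h
    · exact hother a ha.1 b hb.1 ha.2 hb.2 h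
    · exact (hother b hb.1 a ha.1 hb.2 ha.2 h).symm
  have := Finset.card_le_card hsub
  have := Finset.card_insert_le x (D.filter (fun y => l y ≠ l x))
  omega

/-- assembling a labelling from the set of changes `D` and the exceptional set `E` -/
theorem wok_of_D (hn : 3 ≤ n) {w : ZMod n → Env n} (D E : Finset (ZMod n)) (l : ZMod n → Bool)
    (hD : ∀ x, l (x-1) ≠ l x ↔ x ∈ D) (hcard : 3 ≤ D.card) (hE : ∀ x ∈ E, ∀ y ∈ E, x = y)
    (hdis : ∀ x ∈ E, x ∉ D)
    (h1 : ∀ i, w i = .out → i ∉ D ∧ i ∉ E)
    (h2 : ∀ i t, w i = .known t → i ∈ D ∨ (i ∈ E ∧ l i ≠ t))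
    (h3 : ∀ i, w i = .unk → i ∉ E)
    (h4 : ∀ i j, w i = .chord j → ((i ∈ D ∨ i ∈ E) ↔ ¬ (j ∈ D ∨ j ∈ E)) ∧ (i ∈ E → l i ≠ l j)) :
    WOK n w := by
  have hpure : ∀ x, (l (x-1) = l x ↔ x ∉ D) := by
    intro x; rw [← hD]; tauto
  refine ⟨l, fun i => decide (¬ (i ∈ D ∨ i ∈ E)), ?_, ?_⟩
  · intro i
    unfold LocOK
    cases hw : w i with
    | out =>
      obtain ⟨g1, g2⟩ := h1 i hw
      exact ⟨by simp [g1, g2], (hpure i).2 g1⟩
    | known t =>
      have g := h2 i t hw
      refine ⟨by simp; tauto, fun hp => ?_⟩
      rcases g with g | g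
      · exact absurd g ((hpure i).1 hp)
      · exact g.2
    | unk =>
      have g := h3 i hw
      simp only
      rw [hpure]
      simp [g]
    | chord j =>
      obtain ⟨g1, g2⟩ := h4 i j hw
      refine ⟨?_, ?_, ?_⟩
      · intro h
        simp only [decide_eq_decide] at h
        tauto
      · intro h
        rw [hpure]
        simp only [decide_eq_true_eq] at h
        tauto
      · intro h hp
        rw [hpure] at hp
        simp only [decide_eq_false_iff_not] at h
        apply g2
        tauto
  · intro pt hpt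
    refine ⟨?_, ?_, ?_⟩
    · rintro i j ⟨hi1, hi2⟩ ⟨hj1, hj2⟩
      rw [hpure] at hi2 hj2
      simp only [decide_eq_false_iff_not, not_not] at hi1 hj1
      exact hE i (by tauto) j (by tauto)
    · intro hall
      exfalso
      have hne : D.Nonempty := by rw [← Finset.card_pos]; omega
      obtain ⟨x, hx⟩ := hne
      exact (hpure x).1 (hall x) hx
    · intro x hx
      left
      exact two_starts (by omega) hD hcard ((hD x).1 hx)

end

end Pool.Agent.Helper850.TC
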