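import Pool.Agent.Helper850.TC.Big

namespace Pool.Agent.Helper850.TC

open Classical

set_option linter.unusedVariables false
set_option linter.unusedSectionVars false
set_option linter.unusedSimpArgs false

section
variable {n : ℕ} [NeZero n]

noncomputable def Kc (w : ZMod n → Env n) : Finset (ZMod n) :=
  Finset.univ.filter (fun i => ∃ t, w i = .known t)
noncomputable def Uc (w : ZMod n → Env n) : Finset (ZMod n) :=
  Finset.univ.filter (fun i => w i = .unk)
noncomputable def Cc (w : ZMod n → Env n) : Finset (ZMod n) :=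
  Finset.univ.filter (fun i => ∃ j, w i = .chord j)
noncomputable def Qc (w : ZMod n → Env n) : Finset (ZMod n) :=
  Finset.univ.filter (fun i => ∃ j, w i = .chord j ∧ i.val < j.val)

theorem mem_Kc {w : ZMod n → Env n} {i} : i ∈ Kc w ↔ ∃ t, w i = .known t := by simp [Kc]
theorem mem_Uc {w : ZMod n → Env n} {i} : i ∈ Uc w ↔ w i = .unk := by simp [Uc]
theorem mem_Cc {w : ZMod n → Env n} {i} : i ∈ Cc w ↔ ∃ j, w i = .chord j := by simp [Cc]
theorem mem_Qc {w : ZMod n → Env n} {i} : i ∈ Qc w ↔ ∃ j, w i = .chord j ∧ i.val < j.val := by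
  simp [Qc]

theorem sum_wt (w : ZMod n → Env n) :
    ∑ i, wt (w i) = 2 * (Kc w).card + 2 * (Uc w).card + (Cc w).card := by
  unfold Kc Uc Cc
  rw [Finset.card_filter, Finset.card_filter, Finset.card_filter, Finset.mul_sum, Finset.mul_sum,
    ← Finset.sum_add_distrib, ← Finset.sum_add_distrib]
  apply Finset.sum_congr rfl
  intro i _
  cases h : w i <;> simp [wt]

theorem card_Cc {w : ZMod n → Env n} (hv : ValidW w) : (Cc w).card = 2 * (Qc w).card := by
  have hQC : Qc w ⊆ Cc w := by
    intro i hi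
    rw [mem_Qc] at hi
    rw [mem_Cc]
    obtain ⟨j, hj, _⟩ := hi
    exact ⟨j, hj⟩
  have h1 : (Cc w \ Qc w).card = (Qc w).card := by
    apply Finset.card_bij (fun i _ => par w i)
    · intro i hi
      rw [Finset.mem_sdiff, mem_Cc, mem_Qc] at hi
      obtain ⟨⟨j, hj⟩, h2⟩ := hi
      obtain ⟨h3, h4, _⟩ := hv i j hj
      rw [mem_Qc, par_spec hj]
      refine ⟨i, h3, ?_⟩
      push Not at h2
      have := h2 j hj
      have hne : j.val ≠ i.val := fun h => h4 (ZMod.val_injective n h)
      omega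
    · intro a ha b hb hab
      rw [Finset.mem_sdiff, mem_Cc, mem_Qc] at ha hb
      obtain ⟨⟨j, hj⟩, _⟩ := ha
      obtain ⟨⟨j', hj'⟩, _⟩ := hb
      rw [par_spec hj, par_spec hj'] at hab
      subst hab
      have e1 := (hv a j hj).1
      have e2 := (hv b j hj').1
      rw [e1] at e2
      injection e2
    · intro b hb
      rw [mem_Qc] at hb
      obtain ⟨j, hj, hlt⟩ := hb
      obtain ⟨h3, h4, _⟩ := hv b j hj
      refine ⟨j, ?_, par_spec h3⟩
      rw [Finset.mem_sdiff, mem_Cc, mem_Qc]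
      refine ⟨⟨b, h3⟩, ?_⟩
      rintro ⟨j', hj', hlt'⟩
      rw [h3] at hj'
      injection hj' with e
      rw [← e] at hlt'
      omega
  have h2 := Finset.card_sdiff_add_card_eq_card hQC
  omega

theorem disj_KQ (w : ZMod n → Env n) : Disjoint (Kc w) (Qc w) := by
  rw [Finset.disjoint_left]
  intro i h1 h2
  rw [mem_Kc] at h1
  rw [mem_Qc] at h2
  obtain ⟨t, ht⟩ := h1
  obtain ⟨j, hj, _⟩ := h2
  rw [ht] at hj; cases hj

theorem disj_KQU (w : ZMod n → Env n) : Disjoint (Kc w ∪ Qc w) (Uc w) := by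
  rw [Finset.disjoint_left]
  intro i h1 h2
  rw [Finset.mem_union, mem_Kc, mem_Qc] at h1
  rw [mem_Uc] at h2
  rcases h1 with ⟨t, ht⟩ | ⟨j, hj, _⟩
  · rw [h2] at ht; cases ht
  · rw [h2] at hj; cases hj

/-- case A -/
theorem caseA (hn : 3 ≤ n) {w : ZMod n → Env n} (hv : ValidW w) {U' : Finset (ZMod n)}
    (hU : U' ⊆ Uc w) (heven : Even ((Kc w ∪ Qc w ∪ U').card)) (hcard : 3 ≤ (Kc w ∪ Qc w ∪ U').card) :
    WOK n w := by
  obtain ⟨l, hl, _, _⟩ := parity_label (by omega) _ heven (0 : ZMod n) true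
  apply wok_of_D hn (Kc w ∪ Qc w ∪ U') ∅ l hl hcard
  · intro x hx; exact absurd hx (Finset.notMem_empty x)
  · intro x hx; exact absurd hx (Finset.notMem_empty x)
  · intro i hi
    refine ⟨?_, Finset.notMem_empty i⟩
    rw [Finset.mem_union, Finset.mem_union, mem_Kc, mem_Qc]
    rintro ((⟨t, ht⟩ | ⟨j, hj, _⟩) | h)
    · rw [hi] at ht; cases ht
    · rw [hi] at hj; cases hj
    · have := mem_Uc.1 (hU h)
      rw [hi] at this; cases this
  · intro i t hi
    left
    rw [Finset.mem_union, Finset.mem_union, mem_Kc]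
    exact Or.inl (Or.inl ⟨t, hi⟩)
  · intro i _; exact Finset.notMem_empty i
  · intro i j hi
    have hj := (hv i j hi).1
    have hne := (hv i j hi).2.1
    have hQ : ∀ a b, w a = .chord b → ((a ∈ Kc w ∪ Qc w ∪ U' ∨ a ∈ (∅ : Finset (ZMod n))) ↔ a.val < b.val) := by
      intro a b hab
      rw [Finset.mem_union, Finset.mem_union, mem_Kc, mem_Qc]
      constructor
      · rintro (((⟨t, ht⟩ | ⟨j, hj, hlt⟩) | h) | h)
        · rw [hab] at ht; cases ht
        · rw [hab] at hj; injection hj with e; rw [e]; exact hlt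
        · have := mem_Uc.1 (hU h)
          rw [hab] at this; cases this
        · exact absurd h (Finset.notMem_empty a)
      · intro h; exact Or.inl (Or.inl (Or.inr ⟨b, hab, h⟩))
    refine ⟨?_, fun h => absurd h (Finset.notMem_empty i)⟩
    rw [hQ i j hi, hQ j i hj]
    have : i.val ≠ j.val := fun h => hne (ZMod.val_injective n h).symm
    omega

/-- case B -/
theorem caseB (hn : 3 ≤ n) {w : ZMod n → Env n} (hv : ValidW w) {x : ZMod n} {τ : Bool}
    (hx : w x = .known τ) (hodd : Odd ((Kc w ∪ Qc w).card)) (hcard : 4 ≤ (Kc w ∪ Qc w).card) :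
    WOK n w := by
  have hxK : x ∈ Kc w ∪ Qc w := by rw [Finset.mem_union, mem_Kc]; exact Or.inl ⟨τ, hx⟩
  have hc : ((Kc w ∪ Qc w).erase x).card = (Kc w ∪ Qc w).card - 1 := Finset.card_erase_of_mem hxK
  have heven : Even (((Kc w ∪ Qc w).erase x).card) := by
    rw [hc]
    obtain ⟨m, hm⟩ := hodd
    exact ⟨m, by omega⟩
  obtain ⟨l, hl, hlx, _⟩ := parity_label (by omega) _ heven x (!τ)
  apply wok_of_D hn ((Kc w ∪ Qc w).erase x) {x} l hl (by omega)
  · intro a ha b hb
    rw [Finset.mem_singleton] at ha hb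
    rw [ha, hb]
  · intro a ha
    rw [Finset.mem_singleton] at ha
    rw [ha]; exact Finset.notMem_erase x _
  · intro i hi
    constructor
    · rw [Finset.mem_erase, Finset.mem_union, mem_Kc, mem_Qc]
      rintro ⟨_, ⟨t, ht⟩ | ⟨j, hj, _⟩⟩
      · rw [hi] at ht; cases ht
      · rw [hi] at hj; cases hj
    · rw [Finset.mem_singleton]
      rintro rfl
      rw [hi] at hx; cases hx
  · intro i t hi
    by_cases hix : i = x
    · right
      subst hix
      refine ⟨Finset.mem_singleton_self _, ?_⟩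
      rw [hi] at hx
      injection hx with e
      rw [hlx, e]; cases τ <;> simp
    · left
      rw [Finset.mem_erase, Finset.mem_union, mem_Kc]
      exact ⟨hix, Or.inl ⟨t, hi⟩⟩
  · intro i hi h
    rw [Finset.mem_singleton] at h
    subst h
    rw [hi] at hx; cases hx
  · intro i j hi
    have hj := (hv i j hi).1
    have hne := (hv i j hi).2.1
    have hnx : ∀ a b, w a = .chord b → a ≠ x := by
      rintro a b hab rfl
      rw [hab] at hx; cases hx
    have hQ : ∀ a b, w a = .chord b → ((a ∈ (Kc w ∪ Qc w).erase x ∨ a ∈ ({x} : Finset (ZMod n))) ↔ a.val < b.val) := by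
      intro a b hab
      rw [Finset.mem_erase, Finset.mem_union, mem_Kc, mem_Qc, Finset.mem_singleton]
      constructor
      · rintro (⟨_, ⟨t, ht⟩ | ⟨j, hj, hlt⟩⟩ | h)
        · rw [hab] at ht; cases ht
        · rw [hab] at hj; injection hj with e; rw [e]; exact hlt
        · exact absurd h (hnx a b hab)
      · intro h; exact Or.inl ⟨hnx a b hab, Or.inr ⟨b, hab, h⟩⟩
    refine ⟨?_, fun h => absurd (Finset.mem_singleton.1 h) (hnx i j hi)⟩
    rw [hQ i j hi, hQ j i hj]
    have : i.val ≠ j.val := fun h => hne (ZMod.val_injective n h).symm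
    omega

end

end Pool.Agent.Helper850.TC
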