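import Pool.Agent.Helper850.TC.Big2

namespace Pool.Agent.Helper850.TC

open Classical

set_option linter.unusedVariables false
set_option linter.unusedSimpArgs false
set_option linter.unusedSectionVars false

section
variable {n : ℕ} [NeZero n]

noncomputable def Bc (w : ZMod n → Env n) (i j y q : ZMod n) : Finset (ZMod n) :=
  (Qc w).filter (fun a => a ≠ i ∧ a ≠ j ∧ a ≠ y ∧ a ≠ q)

theorem chord_inj {w : ZMod n → Env n} (hv : ValidW w) {a b c : ZMod n} (h1 : w a = .chord c)
    (h2 : w b = .chord c) : a = b := by
  have e1 := (hv a c h1).1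
  have e2 := (hv b c h2).1
  rw [e1] at e2
  injection e2

/-- exactly one end of a chord is in `Qc` -/
theorem Qc_one {w : ZMod n → Env n} (hv : ValidW w) {i j : ZMod n} (hij : w i = .chord j) :
    (i ∈ Qc w ↔ ¬ j ∈ Qc w) := by
  have hj := (hv i j hij).1
  have hne := (hv i j hij).2.1
  have hne' : i.val ≠ j.val := fun h => hne (ZMod.val_injective n h).symm
  rw [mem_Qc, mem_Qc]
  constructor
  · rintro ⟨a, ha, h1⟩ ⟨b, hb, h2⟩
    rw [hij] at ha; rw [hj] at hb
    injection ha with ea; injection hb with eb
    rw [← ea] at h1; rw [← eb] at h2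
    omega
  · intro h
    refine ⟨j, hij, ?_⟩
    by_contra h2
    exact h ⟨i, hj, by omega⟩

theorem card_Bc {w : ZMod n → Env n} (hv : ValidW w) {i j y q : ZMod n} (hij : w i = .chord j)
    (hyq : w y = .chord q) (h1 : y ≠ i) (h2 : y ≠ j) (h3 : q ≠ i) (h4 : q ≠ j) :
    (Bc w i j y q).card + 2 = (Qc w).card := by
  have a1 := Qc_one hv hij
  have a2 := Qc_one hv hyq
  obtain ⟨c, hc, hcQ, hcne⟩ : ∃ c, (c = i ∨ c = j) ∧ c ∈ Qc w ∧ ∀ a ∈ Qc w, (a = i ∨ a = j) → a = c := by
    by_cases h : i ∈ Qc w
    · refine ⟨i, Or.inl rfl, h, ?_⟩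
      rintro a ha (rfl | rfl)
      · rfl
      · exact absurd ha (a1.1 h)
    · refine ⟨j, Or.inr rfl, by tauto, ?_⟩
      rintro a ha (rfl | rfl)
      · exact absurd ha h
      · rfl
  obtain ⟨d, hd, hdQ, hdne⟩ : ∃ c, (c = y ∨ c = q) ∧ c ∈ Qc w ∧ ∀ a ∈ Qc w, (a = y ∨ a = q) → a = c := by
    by_cases h : y ∈ Qc w
    · refine ⟨y, Or.inl rfl, h, ?_⟩
      rintro a ha (rfl | rfl)
      · rfl
      · exact absurd ha (a2.1 h)
    · refine ⟨q, Or.inr rfl, by tauto, ?_⟩
      rintro a ha (rfl | rfl)
      · exact absurd ha h
      · rfl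
  have hcd : c ≠ d := by
    rcases hc with rfl | rfl <;> rcases hd with rfl | rfl <;> first | exact h1.symm | exact h3.symm | exact h2.symm | exact h4.symm
  have hB : Bc w i j y q = ((Qc w).erase c).erase d := by
    ext a
    unfold Bc
    rw [Finset.mem_filter, Finset.mem_erase, Finset.mem_erase]
    constructor
    · rintro ⟨g1, g2, g3, g4, g5⟩
      refine ⟨?_, ?_, g1⟩
      · rintro rfl; rcases hd with rfl | rfl
        · exact g4 rfl
        · exact g5 rfl
      · rintro rfl; rcases hc with rfl | rfl
        · exact g2 rfl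
        · exact g3 rfl
    · rintro ⟨g1, g2, g3⟩
      refine ⟨g3, ?_, ?_, ?_, ?_⟩
      · rintro rfl; exact g2 (hcne _ g3 (Or.inl rfl))
      · rintro rfl; exact g2 (hcne _ g3 (Or.inr rfl))
      · rintro rfl; exact g1 (hdne _ g3 (Or.inl rfl))
      · rintro rfl; exact g1 (hdne _ g3 (Or.inr rfl))
  rw [hB, Finset.card_erase_of_mem (Finset.mem_erase.2 ⟨hcd.symm, hdQ⟩), Finset.card_erase_of_mem hcQ]
  have h5 : 2 ≤ (Qc w).card := by
    have : ({c, d} : Finset (ZMod n)) ⊆ Qc w := by
      intro a ha
      rw [Finset.mem_insert, Finset.mem_singleton] at ha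
      rcases ha with rfl | rfl
      · exact hcQ
      · exact hdQ
    have h6 := Finset.card_le_card this
    rw [Finset.card_pair hcd] at h6
    exact h6
  omega

theorem caseC_asm (hn : 3 ≤ n) {w : ZMod n → Env n} (hv : ValidW w) (hK : Kc w = ∅) (hU : Uc w = ∅)
    {i j y q : ZMod n} (hij : w i = .chord j) (hyq : w y = .chord q) (h1 : y ≠ i) (h2 : y ≠ j)
    (h3 : q ≠ i) (h4 : q ≠ j) (hodd : Odd (Qc w).card) (hcard : 5 ≤ (Qc w).card)
    (hpar : Odd ((insert y (Bc w i j y q)).filter (fun a => (a - i).val ≤ (j - i).val)).card) :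
    WOK n w := by
  have hB := card_Bc hv hij hyq h1 h2 h3 h4
  have hyB : y ∉ Bc w i j y q := by unfold Bc; simp
  have hqB : q ∉ Bc w i j y q := by unfold Bc; simp
  have hiB : i ∉ Bc w i j y q := by unfold Bc; simp
  have hjB : j ∉ Bc w i j y q := by unfold Bc; simp
  have hyqne : y ≠ q := (hv y q hyq).2.1.symm
  have hijne : i ≠ j := (hv i j hij).2.1.symm
  have hcD : (insert y (Bc w i j y q)).card = (Bc w i j y q).card + 1 := Finset.card_insert_of_notMem hyB
  have heven : Even (insert y (Bc w i j y q)).card := by
    obtain ⟨m, hm⟩ := hodd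
    exact ⟨m, by omega⟩
  have hiD : i ∉ insert y (Bc w i j y q) := by
    rw [Finset.mem_insert]; rintro (h | h)
    · exact h1 h.symm
    · exact hiB h
  have hjD : j ∉ insert y (Bc w i j y q) := by
    rw [Finset.mem_insert]; rintro (h | h)
    · exact h2 h.symm
    · exact hjB h
  have hqD : q ∉ insert y (Bc w i j y q) := by
    rw [Finset.mem_insert]; rintro (h | h)
    · exact hyqne h.symm
    · exact hqB h
  obtain ⟨l, hl, hli, hlx⟩ := parity_label (by omega) _ heven i true
  have hlj : l j ≠ true := (hlx hiD j).2 hpar
  have hBQ : ∀ a, a ∈ Bc w i j y q → a ∈ Qc w := fun a ha => (Finset.mem_filter.1 ha).1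
  apply wok_of_D hn (insert y (Bc w i j y q)) {i} l hl (by omega)
  · intro a ha b hb
    rw [Finset.mem_singleton] at ha hb
    rw [ha, hb]
  · intro a ha
    rw [Finset.mem_singleton] at ha
    rw [ha]; exact hiD
  · intro a ha
    constructor
    · rw [Finset.mem_insert]
      rintro (rfl | h)
      · rw [hyq] at ha; cases ha
      · obtain ⟨b, hb, _⟩ := mem_Qc.1 (hBQ a h)
        rw [ha] at hb; cases hb
    · rw [Finset.mem_singleton]
      rintro rfl
      rw [hij] at ha; cases ha
  · intro a t ha
    exfalso
    have : a ∈ Kc w := mem_Kc.2 ⟨t, ha⟩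
    rw [hK] at this
    exact Finset.notMem_empty a this
  · intro a ha
    exfalso
    have : a ∈ Uc w := mem_Uc.2 ha
    rw [hU] at this
    exact Finset.notMem_empty a this
  · have hji := (hv i j hij).1
    have hqy := (hv y q hyq).1
    intro a b hab
    have hba := (hv a b hab).1
    constructor
    · rw [Finset.mem_singleton, Finset.mem_singleton]
      by_cases ai : a = i
      · subst ai
        rw [hij] at hab; injection hab with e; subst e
        constructor
        · rintro _ (h | h)
          · exact hjD h
          · exact hijne h.symm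
        · intro _; right; rfl
      · by_cases aj : a = j
        · subst aj
          rw [hji] at hab; injection hab with e; subst e
          constructor
          · rintro (h | h) _
            · exact hjD h
            · exact ai h
          · intro h; exact absurd (Or.inr rfl) h
        · by_cases ay : a = y
          · subst ay
            rw [hyq] at hab; injection hab with e; subst e
            constructor
            · rintro _ (h | h)
              · exact hqD h
              · exact h3 h
            · intro _; left; exact Finset.mem_insert_self _ _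
          · by_cases aq : a = q
            · subst aq
              rw [hqy] at hab; injection hab with e; subst e
              constructor
              · rintro (h | h) _
                · exact hqD h
                · exact ai h
              · intro h; exact absurd (Or.inl (Finset.mem_insert_self _ _)) h
            · have bi : b ≠ i := by
                rintro rfl
                exact aj (chord_inj hv hab hji)
              have bj : b ≠ j := by
                rintro rfl
                exact ai (chord_inj hv hab hij)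
              have by' : b ≠ y := by
                rintro rfl
                exact aq (chord_inj hv hab hqy)
              have bq : b ≠ q := by
                rintro rfl
                exact ay (chord_inj hv hab hyq)
              have key : ∀ c, c ≠ i → c ≠ j → c ≠ y → c ≠ q →
                  ((c ∈ insert y (Bc w i j y q) ∨ c = i) ↔ c ∈ Qc w) := by
                intro c c1 c2 c3 c4
                rw [Finset.mem_insert]
                unfold Bc
                rw [Finset.mem_filter]
                tauto
              rw [key a ai aj ay aq, key b bi bj by' bq]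
              exact Qc_one hv hab
    · intro h
      rw [Finset.mem_singleton] at h
      subst h
      rw [hij] at hab; injection hab with e; subst e
      rw [hli]; exact fun h => hlj h.symm

theorem val_sub_of_lt {a b : ZMod n} (h : b.val ≤ a.val) : (a - b).val = a.val - b.val :=
  ZMod.val_sub h

theorem val_sub_of_gt {a b : ZMod n} (h : a.val < b.val) : (a - b).val = a.val + n - b.val := by
  have h1 : (a - b) = -(b - a) := by ring
  have h2 : (b - a).val = b.val - a.val := ZMod.val_sub h.le
  have h3 : b - a ≠ 0 := by
    intro h4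
    rw [h4, ZMod.val_zero] at h2
    omega
  rw [h1, ZMod.neg_val, if_neg h3, h2]
  have := ZMod.val_lt b
  omega

theorem caseC (hn : 3 ≤ n) {w : ZMod n → Env n} (hv : ValidW w) (hK : Kc w = ∅) (hU : Uc w = ∅)
    (hodd : Odd (Qc w).card) (hcard : 5 ≤ (Qc w).card) (hn2 : n ≤ 2 * (Qc w).card + 1) :
    WOK n w := by
  have hfact : Fact (1 < n) := ⟨by omega⟩
  -- at most one out vertex
  have hout : ∀ a b, w a = .out → w b = .out → a = b := by
    intro a b ha hb
    have hcc := card_Cc hv
    have h1 : (Finset.univ \ Cc w).card ≤ 1 := by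
      rw [Finset.card_sdiff_of_subset (Finset.subset_univ _), Finset.card_univ, ZMod.card]
      omega
    rw [Finset.card_le_one] at h1
    apply h1
    · rw [Finset.mem_sdiff, mem_Cc]
      refine ⟨Finset.mem_univ _, ?_⟩
      rintro ⟨j, hj⟩; rw [ha] at hj; cases hj
    · rw [Finset.mem_sdiff, mem_Cc]
      refine ⟨Finset.mem_univ _, ?_⟩
      rintro ⟨j, hj⟩; rw [hb] at hj; cases hj
  have hcls : ∀ a, w a = .out ∨ ∃ b, w a = .chord b := by
    intro a
    cases h : w a with
    | out => left; rfl
    | chord b => right; exact ⟨b, rfl⟩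
    | known t =>
      exfalso
      have : a ∈ Kc w := mem_Kc.2 ⟨t, h⟩
      rw [hK] at this
      exact Finset.notMem_empty a this
    | unk =>
      exfalso
      have : a ∈ Uc w := mem_Uc.2 h
      rw [hU] at this
      exact Finset.notMem_empty a this
  set In : ZMod n → ZMod n → Prop := fun i a => 0 < (a - i).val ∧ (a - i).val < (par w i - i).val with hIn
  set S : Finset (ZMod n) := (Cc w).filter (fun i => ∀ a, In i a → w a ≠ .out) with hS
  have hSne : S.Nonempty := by
    have : (Qc w).Nonempty := by rw [← Finset.card_pos]; omega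
    obtain ⟨i, hi⟩ := this
    obtain ⟨j, hj, _⟩ := mem_Qc.1 hi
    obtain ⟨hji, hne, _⟩ := hv i j hj
    by_cases h : ∀ a, In i a → w a ≠ .out
    · exact ⟨i, Finset.mem_filter.2 ⟨mem_Cc.2 ⟨j, hj⟩, h⟩⟩
    · refine ⟨j, Finset.mem_filter.2 ⟨mem_Cc.2 ⟨i, hji⟩, ?_⟩⟩
      push Not at h
      obtain ⟨z, ⟨hz1, hz2⟩, hz3⟩ := h
      intro a ⟨ha1, ha2⟩ ha3
      have : a = z := hout a z ha3 hz3
      subst this
      rw [par_spec hj] at hz2
      rw [par_spec hji] at ha2
      have e1 : (a - j) = (a - i) - (j - i) := by ring
      rw [e1, val_sub_of_gt hz2] at ha2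
      have e2 : (i - j) = 0 - (j - i) := by ring
      have h0 : (0 : ZMod n).val < (j - i).val := by
        rw [ZMod.val_zero]
        omega
      rw [e2, val_sub_of_gt h0, ZMod.val_zero] at ha2
      have := ZMod.val_lt (j - i)
      omega
  obtain ⟨i, hiS, hmin⟩ := Finset.exists_min_image S (fun i => (par w i - i).val) hSne
  obtain ⟨hiC, hiIn⟩ := Finset.mem_filter.1 hiS
  obtain ⟨j, hij⟩ := mem_Cc.1 hiC
  obtain ⟨hji, hne1, hne2, hne3⟩ := hv i j hij
  have hpi : par w i = j := par_spec hij
  have hv1 : (1 : ZMod n).val = 1 := ZMod.val_one n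
  have hd2 : 2 ≤ (j - i).val := by
    have g1 : (j - i).val ≠ 0 := by
      intro h; apply hne1
      exact sub_eq_zero.1 ((ZMod.val_eq_zero _).1 h)
    have g2 : (j - i).val ≠ 1 := by
      intro h; apply hne2
      have : j - i = 1 := ZMod.val_injective n (by rw [h, hv1])
      rw [← this]; ring
    omega
  set y := i + 1 with hy
  have hyi : (y - i).val = 1 := by rw [hy, add_sub_cancel_left]; exact hv1
  have hInY : In i y := by
    refine ⟨by rw [hyi]; omega, ?_⟩
    rw [hpi, hyi]; omega
  have hyne : y ≠ i := by
    intro h; rw [h, sub_self, ZMod.val_zero] at hyi; omega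
  have hynj : y ≠ j := by
    intro h; rw [h] at hyi; omega
  obtain ⟨q, hyq⟩ : ∃ q, w y = .chord q := by
    rcases hcls y with h | h
    · exact absurd h (hiIn y hInY)
    · exact h
  obtain ⟨hqy, hqy1, hqy2, hqy3⟩ := hv y q hyq
  have hqi : q ≠ i := by
    intro h; apply hqy3; rw [h]
  have hqj : q ≠ j := by
    intro h
    rw [h, hji] at hqy
    injection hqy with e
    exact hyne e.symm
  have hqIn : ¬ (q - i).val < (j - i).val := by
    intro hlt
    have hq0 : (q - i).val ≠ 0 := by
      intro h
      exact hqi (sub_eq_zero.1 ((ZMod.val_eq_zero _).1 h))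
    have hsub : ∀ a, (a - i).val ≠ 0 → (a - y).val + 1 = (a - i).val := by
      intro a ha
      have e : a - y = (a - i) - 1 := by rw [hy]; ring
      rw [e]
      apply val_sub_one (by omega)
      intro h; rw [h, ZMod.val_zero] at ha; exact ha rfl
    have hyS : y ∈ S := by
      apply Finset.mem_filter.2
      refine ⟨mem_Cc.2 ⟨q, hyq⟩, ?_⟩
      intro a ⟨ha1, ha2⟩
      rw [par_spec hyq] at ha2
      apply hiIn
      have hai : (a - i).val = (a - y).val + 1 := by
        have h5 := hsub q hq0
        have e : a - i = (a - y) + 1 := by rw [hy]; ring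
        rw [e, ZMod.val_add, hv1, Nat.mod_eq_of_lt]
        have := ZMod.val_lt (q - i)
        omega
      have h5 := hsub q hq0
      refine ⟨by omega, ?_⟩
      rw [hpi]; omega
    have := hmin y hyS
    rw [hpi, par_spec hyq] at this
    have h5 := hsub q hq0
    omega
  have hqgt : (j - i).val < (q - i).val := by
    have : (q - i).val ≠ (j - i).val := by
      intro h
      have := ZMod.val_injective n h
      exact hqj (sub_left_injective this)
    omega
  -- parity
  have hBsymm : Bc w i j y q = Bc w i j q y := by
    unfold Bc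
    apply Finset.filter_congr
    intro a _
    tauto
  have hyB : y ∉ Bc w i j y q := by unfold Bc; simp
  have c1 : ((insert y (Bc w i j y q)).filter (fun a => (a - i).val ≤ (j - i).val)).card =
      ((Bc w i j y q).filter (fun a => (a - i).val ≤ (j - i).val)).card + 1 := by
    rw [Finset.filter_insert, if_pos (by omega), Finset.card_insert_of_notMem]
    intro h; exact hyB (Finset.mem_filter.1 h).1
  have c2 : ((insert q (Bc w i j q y)).filter (fun a => (a - i).val ≤ (j - i).val)).card =
      ((Bc w i j y q).filter (fun a => (a - i).val ≤ (j - i).val)).card := by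
    rw [Finset.filter_insert, if_neg (by omega), hBsymm]
  rcases Nat.even_or_odd ((Bc w i j y q).filter (fun a => (a - i).val ≤ (j - i).val)).card with h | h
  · apply caseC_asm hn hv hK hU hij hyq hyne hynj hqi hqj hodd hcard
    rw [c1]; exact h.add_one
  · apply caseC_asm hn hv hK hU hij hqy hqi hqj hyne hynj hodd hcard
    rw [c2]; exact h

theorem exists_sub {S : Finset (ZMod n)} {m : ℕ} (h : m ≤ S.card) : ∃ T ⊆ S, T.card = m :=
  Finset.exists_subset_card_eq h

theorem WLbig (hn : 3 ≤ n) {w : ZMod n → Env n} (hv : ValidW w)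
    (hT1 : 2 * (n/2) ≤ ∑ i, wt (w i)) (hT2 : 8 ≤ ∑ i, wt (w i)) : WOK n w := by
  have hs := sum_wt w
  have hC := card_Cc hv
  have hKQ : (Kc w ∪ Qc w).card = (Kc w).card + (Qc w).card := Finset.card_union_of_disjoint (disj_KQ w)
  have hA : ∀ m, m ≤ (Uc w).card → Even ((Kc w).card + (Qc w).card + m) →
      3 ≤ (Kc w).card + (Qc w).card + m → WOK n w := by
    intro m hm h1 h2
    obtain ⟨U', hU', hcU⟩ := exists_sub hm
    have hcard : (Kc w ∪ Qc w ∪ U').card = (Kc w).card + (Qc w).card + m := by
      rw [Finset.card_union_of_disjoint, hKQ, hcU]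
      exact Finset.disjoint_of_subset_right hU' (disj_KQU w)
    apply caseA hn hv hU'
    · rw [hcard]; exact h1
    · rw [hcard]; exact h2
  set X := (Kc w).card + (Qc w).card with hX
  rcases Nat.even_or_odd X with hev | hod
  · -- X even
    by_cases h4 : 4 ≤ X
    · exact hA 0 (by omega) (by simpa using hev) (by omega)
    · apply hA (4 - X) (by omega)
      · rw [show X + (4 - X) = 4 by omega]; decide
      · omega
  · by_cases hu : 1 ≤ (Uc w).card
    · by_cases h4 : 3 ≤ X
      · exact hA 1 hu hod.add_one (by omega)
      · apply hA (4 - X) (by omega)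
        · rw [show X + (4 - X) = 4 by omega]; decide
        · omega
    · have hu0 : (Uc w).card = 0 := by omega
      have hU : Uc w = ∅ := Finset.card_eq_zero.1 hu0
      have h5 : 4 ≤ X := by omega
      by_cases hk : 1 ≤ (Kc w).card
      · have : (Kc w).Nonempty := by rw [← Finset.card_pos]; omega
        obtain ⟨x, hx⟩ := this
        obtain ⟨τ, hτ⟩ := mem_Kc.1 hx
        apply caseB hn hv hτ
        · rw [hKQ]; exact hod
        · rw [hKQ]; exact h5
      · have hk0 : (Kc w).card = 0 := by omega
        have hK : Kc w = ∅ := Finset.card_eq_zero.1 hk0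
        have hodq : Odd (Qc w).card := by
          rw [hX, hk0, zero_add] at hod; exact hod
        have h6 : 5 ≤ (Qc w).card := by
          obtain ⟨m, hm⟩ := hodq
          omega
        exact caseC hn hv hK hU hodq h6 (by omega)

end

end Pool.Agent.Helper850.TC
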