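import Mathlib

namespace Pool.Agent.Helper850.TC

def allB : ℕ → (ℕ → Bool) → Bool
  | 0, _ => true
  | n+1, f => f n && allB n f

def anyB : ℕ → (ℕ → Bool) → Bool
  | 0, _ => false
  | n+1, f => f n || anyB n f

theorem allB_iff (n : ℕ) (f : ℕ → Bool) : allB n f = true ↔ ∀ i < n, f i = true := by
  induction n with
  | zero => simp [allB]
  | succ n ih =>
    simp only [allB, Bool.and_eq_true, ih]
    constructor
    · rintro ⟨h1, h2⟩ i hi
      rcases Nat.lt_succ_iff_lt_or_eq.1 hi with h | h
      · exact h2 i h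
      · rw [h]; exact h1
    · intro h
      exact ⟨h n (by omega), fun i hi => h i (by omega)⟩

theorem anyB_iff (n : ℕ) (f : ℕ → Bool) : anyB n f = true ↔ ∃ i < n, f i = true := by
  induction n with
  | zero => simp [anyB]
  | succ n ih =>
    simp only [anyB, Bool.or_eq_true, ih]
    constructor
    · rintro (h1 | ⟨i, hi, h⟩)
      · exact ⟨n, by omega, h1⟩
      · exact ⟨i, by omega, h⟩
    · rintro ⟨i, hi, h⟩
      rcases Nat.lt_succ_iff_lt_or_eq.1 hi with h' | h'
      · exact Or.inr ⟨i, h', h⟩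
      · left; rw [← h']; exact h

/-- code digit: 0 out, 1 known false, 2 known true, 3 unknown, j+4 chord to j -/
def cd (w i : ℕ) : ℕ := w / 16 ^ i % 16
def bt (l i : ℕ) : Bool := Nat.testBit l i
def pre (n i : ℕ) : ℕ := match i with | 0 => n - 1 | j+1 => j

def pureB (n l i : ℕ) : Bool := bt l (pre n i) == bt l i

def chkPos (n w l : ℕ) (r : ℕ → Bool) (i : ℕ) : Bool :=
  match cd w i with
  | 0 => r i && pureB n l i
  | 1 => !r i && (!pureB n l i || bt l i)
  | 2 => !r i && (!pureB n l i || !bt l i)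
  | 3 => r i == pureB n l i
  | j+4 => (r i != r j) && (!r i || pureB n l i) && (r i || !pureB n l i || (bt l i != bt l j))

/-- run length from x -/
def runL (n l x : ℕ) : ℕ → ℕ → ℕ
  | 0, m => m
  | f+1, m => match (bt l ((x + m) % n) == bt l x) with
    | true => runL n l x f (m+1)
    | false => m

/-- the partner type differs from `b`: certainly not / certainly / unknown, as allowed sets -/
def pd (w l i : ℕ) (b : Bool) (d : ℕ) : Bool :=
  -- is it possible that (if partner type of i is different from b then 1 else 0) = d ?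
  match cd w i with
  | 0 => true
  | 1 => (if b then 1 else 0) == d
  | 2 => (if b then 0 else 1) == d
  | 3 => true
  | j+4 => (if bt l j == b then 0 else 1) == d

def chkStart (n w l : ℕ) (r : ℕ → Bool) (x : ℕ) : Bool :=
  pureB n l x ||
  anyB n (fun y => !(y == x) && !pureB n l y && (bt l y == bt l x)) ||
  anyB n (fun i => !r i && pureB n l i && (bt l i == bt l x)) ||
  anyB n (fun i => r i && (bt l i != bt l x) && Nat.blt (cd w i) 4) ||
  (let m := runL n l x (n-1) 1
   (bt l ((x+m) % n) != bt l x) &&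
   allB 2 (fun d1 => allB 2 (fun d2 =>
    !(pd w l x (bt l x) d1) || !(pd w l ((x+m) % n) (bt l x) d2) || !((m + d1 + d2) % 3 == 2))))

def chkAll (n w l : ℕ) (r : ℕ → Bool) : Bool :=
  allB n (chkPos n w l r) &&
  allB n (fun i => allB n (fun j => (i == j) || r i || r j || !pureB n l i || !pureB n l j)) &&
  (anyB n (fun i => !pureB n l i) ||
    (match anyB n (fun i => !r i) with
      | true => !(n % 3 == 1)
      | false => n % 3 == 0)) &&
  allB n (chkStart n w l r)

def rOf (n w l : ℕ) (b : Bool) (i : ℕ) : Bool :=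
  pureB n l i && (match cd w i with
    | 0 => true
    | 1 => false
    | 2 => false
    | 3 => true
    | j+4 => !pureB n l j || (Nat.blt i j == b))

def cand (n w : ℕ) (b : Bool) : Bool :=
  anyB n (fun x => !(cd w x == 0) && anyB x (fun y => !(cd w y == 0) &&
    (chkAll n w (2^x - 2^y) (rOf n w (2^x - 2^y) b) ||
     chkAll n w (2^n - 1 - (2^x - 2^y)) (rOf n w (2^n - 1 - (2^x - 2^y)) b)))) ||
  chkAll n w 0 (rOf n w 0 b) || chkAll n w (2^n - 1) (rOf n w (2^n - 1) b)

def solve (n w : ℕ) : Bool := cand n w true || cand n w false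

/-- number of letters: known, unknown and chords (twice) -/
def tw (w : ℕ) : ℕ → ℕ
  | 0 => 0
  | i+1 => tw w i + (match cd w i with | 0 => 0 | 1 => 2 | 2 => 2 | 3 => 2 | _+4 => 1)

/-- the digit at place `i` is `0` or a valid chord code relative to the places before -/
def okNew (n w i : ℕ) : Bool :=
  (match cd w i with
   | j+4 => Nat.blt j n && !(j == i) && !(j + 1 == i) && !(i + 1 == j) && !(j == 0 && i + 1 == n) &&
      !(i == 0 && j + 1 == n) && (Nat.blt i j || cd w j == i + 4)
   | _ => true) &&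
  allB i (fun j => !(cd w j == i + 4) || cd w i == j + 4)

def badAt4 (w i : ℕ) : Bool :=
  (cd w i == 3) && (cd w ((i+1)%4) == 3) && (cd w ((i+2)%4) == 0) && (cd w ((i+3)%4) == 0)

def badAt5 (w i : ℕ) : Bool :=
  (cd w ((i+3)%5) == 0) && (cd w ((i+4)%5) == 0) &&
  (((cd w ((i+2)%5) == 0) &&
    (((cd w i == 3) && (cd w ((i+1)%5) == 3)) || ((cd w i == 1) && (cd w ((i+1)%5) == 2)) ||
     ((cd w i == 2) && (cd w ((i+1)%5) == 1)))) ||
   ((cd w i == (i+2)%5 + 4) && (cd w ((i+1)%5) == 3)))

def bad (n w : ℕ) : Bool :=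
  match n with
  | 4 => anyB 4 (badAt4 w)
  | 5 => anyB 5 (badAt5 w)
  | _ => false

def go2 (n : ℕ) : ℕ → ℕ → ℕ → ℕ → Bool
  | 0, _, _, w => Nat.blt (tw w n) (2 * (n/2)) || bad n w || solve n w
  | f+1, i, bgt, w => go2 n f (i+1) bgt w &&
      (match cd w i with
       | 0 => (match bgt with
          | 0 => true
          | b+1 => go2 n f (i+1) b (w + 1 * 16^i) && go2 n f (i+1) b (w + 2 * 16^i) &&
              go2 n f (i+1) b (w + 3 * 16^i))
       | _+1 => true)

def go1 (n : ℕ) : ℕ → ℕ → ℕ → Bool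
  | 0, _, w => go2 n n 0 (3 - tw w n / 2) w
  | f+1, i, w => (!okNew n w i || go1 n f (i+1) w) &&
      allB n (fun j => !okNew n (w + (j+4) * 16^i) i || go1 n f (i+1) (w + (j+4) * 16^i))

end Pool.Agent.Helper850.TC
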