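import Mathlib

namespace Pool.Agent.Helper850.TC

/-- Two edges `e` and `f` of the graph `H` are in conflict: they share an endpoint, or some third
edge `g` of `H` shares an endpoint with each of them. -/
def EdgeConflict {W : Type*} (H : SimpleGraph W) (e f : Sym2 W) : Prop :=
  (∃ x, x ∈ e ∧ x ∈ f) ∨
    ∃ g ∈ H.edgeSet, g ≠ e ∧ g ≠ f ∧ (∃ x, x ∈ e ∧ x ∈ g) ∧ (∃ y, y ∈ g ∧ y ∈ f)

/-- `H` has a strong edge colouring with `n` colours. -/
def StrongColorable {W : Type*} (H : SimpleGraph W) (n : ℕ) : Prop :=
  ∃ c : H.edgeSet → Fin n, ∀ e f : H.edgeSet, e ≠ f → EdgeConflict H e f → c e ≠ c f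

/-- The strong chromatic index: the least number of colours of a strong edge colouring. -/
noncomputable def strongChromaticIndex {W : Type*} (H : SimpleGraph W) : ℕ :=
  sInf {n | StrongColorable H n}

/-- The truncation of `G`. Its vertices are the darts (ordered adjacent pairs) `(v, w)` of `G`:
the vertex `(v, w)` is the corner at `v` taking the edge `vw`. Two corners at the same vertex `v`
are adjacent, and `(v, w)` is adjacent to `(w, v)`. -/
def truncation {V : Type*} (G : SimpleGraph V) : SimpleGraph G.Dart where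
  Adj d e := (d.fst = e.fst ∧ d ≠ e) ∨ e = d.symm
  symm := ⟨by
    rintro d e (h | h)
    · exact Or.inl ⟨h.1.symm, h.2.symm⟩
    · exact Or.inr (by rw [h, SimpleGraph.Dart.symm_symm])⟩
  loopless := ⟨by
    rintro d (h | h)
    · exact h.2 rfl
    · exact (SimpleGraph.Dart.symm_ne d) h.symm⟩

end Pool.Agent.Helper850.TC
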