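import Mathlib

namespace Pool.Agent.Helper850.TC

open SimpleGraph

section
variable {V : Type*}

/-- `G` with all its bridges removed. -/
def nb (G : SimpleGraph V) : SimpleGraph V where
  Adj v w := G.Adj v w ∧ ¬ G.IsBridge s(v, w)
  symm := ⟨by
    intro v w h
    exact ⟨h.1.symm, by rw [Sym2.eq_swap]; exact h.2⟩⟩
  loopless := ⟨by intro v h; exact G.loopless.irrefl v h.1⟩

/-- every edge leaving a vertex set is accompanied by another one -/
def Cut (H : SimpleGraph V) : Prop :=
  ∀ (S : Set V) (v w : V), H.Adj v w → v ∈ S → w ∉ S →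
    ∃ v' w', H.Adj v' w' ∧ v' ∈ S ∧ w' ∉ S ∧ (v', w') ≠ (v, w)

theorem nb_cut (G : SimpleGraph V) : Cut (nb G) := by
  classical
  intro S v w h hv hw
  have h1 : G.Adj v w ∧ (G.deleteEdges {s(v, w)}).Reachable v w := by
    refine ⟨h.1, ?_⟩
    have := h.2
    rw [isBridge_iff, not_not] at this
    exact this
  obtain ⟨u, p, hp, hm⟩ := adj_and_reachable_delete_edges_iff_exists_cycle.1 h1
  have hall : ∀ e ∈ p.edges, e ∈ (nb G).edgeSet := by
    intro e he
    have he1 : e ∈ G.edgeSet := p.edges_subset_edgeSet he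
    induction e with
    | h a b =>
      refine ⟨he1, fun hb => hb.notMem_edges_of_isCycle hp he⟩
  have h2 : (nb G).Adj v w ∧ ((nb G).deleteEdges {s(v, w)}).Reachable v w := by
    apply adj_and_reachable_delete_edges_iff_exists_cycle.2
    exact ⟨u, p.transfer _ hall, hp.transfer hall, by rw [Walk.edges_transfer]; exact hm⟩
  obtain ⟨q, hq⟩ := reachable_deleteEdges_iff_exists_walk.1 h2.2
  obtain ⟨d, hd, hd1, hd2⟩ := q.exists_boundary_dart S hv hw
  refine ⟨d.fst, d.snd, d.adj, hd1, hd2, ?_⟩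
  intro heq
  apply hq
  have : d.edge = s(v, w) := by
    rw [Prod.mk.injEq] at heq
    rw [Dart.edge, ← heq.1, ← heq.2]
  rw [← this]
  exact List.mem_map_of_mem hd

/-- number of neighbours -/
theorem boundary_ge [Fintype V] [DecidableEq V] (H : SimpleGraph V) [DecidableRel H.Adj]
    (hcut : Cut H) (Q : Finset V) (hQ : Odd Q.card) (h3 : ∀ v ∈ Q, H.degree v = 3) :
    3 ≤ ((Finset.univ : Finset (V × V)).filter
      (fun p => p.1 ∉ Q ∧ p.2 ∈ Q ∧ H.Adj p.1 p.2)).card := by
  classical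
  set B := (Finset.univ : Finset (V × V)).filter (fun p => p.1 ∉ Q ∧ p.2 ∈ Q ∧ H.Adj p.1 p.2)
    with hB
  -- parity
  let HQ : SimpleGraph V :=
    { Adj := fun v w => v ∈ Q ∧ w ∈ Q ∧ H.Adj v w
      symm := ⟨fun v w h => ⟨h.2.1, h.1, h.2.2.symm⟩⟩
      loopless := ⟨fun v h => H.loopless.irrefl v h.2.2⟩ }
  have hsum1 : ∑ v, HQ.degree v = 2 * HQ.edgeFinset.card := HQ.sum_degrees_eq_twice_card_edges
  have hdegQ : ∀ v, v ∈ Q → HQ.degree v = (Q.filter (fun w => H.Adj v w)).card := by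
    intro v hv
    rw [← card_neighborFinset_eq_degree]
    congr 1
    ext w
    rw [mem_neighborFinset, Finset.mem_filter]
    exact ⟨fun h => ⟨h.2.1, h.2.2⟩, fun h => ⟨hv, h.1, h.2⟩⟩
  have hdegN : ∀ v, v ∉ Q → HQ.degree v = 0 := by
    intro v hv
    rw [← card_neighborFinset_eq_degree, Finset.card_eq_zero]
    ext w
    rw [mem_neighborFinset]
    simp only [Finset.notMem_empty, iff_false]
    exact fun h => hv h.1
  have hsum2 : ∑ v, HQ.degree v = ∑ v ∈ Q, (Q.filter (fun w => H.Adj v w)).card := by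
    rw [← Finset.sum_subset (Finset.subset_univ Q) (fun v _ hv => hdegN v hv)]
    exact Finset.sum_congr rfl hdegQ
  have hdeg : ∀ v ∈ Q, (Q.filter (fun w => H.Adj v w)).card
      + ((Finset.univ.filter (fun w => w ∉ Q ∧ H.Adj w v))).card = 3 := by
    intro v hv
    rw [← h3 v hv, ← card_neighborFinset_eq_degree]
    rw [← Finset.card_union_of_disjoint]
    · congr 1
      ext w
      rw [Finset.mem_union, Finset.mem_filter, Finset.mem_filter, mem_neighborFinset]
      constructor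
      · rintro (h | h)
        · exact h.2
        · exact h.2.2.symm
      · intro h
        by_cases hw : w ∈ Q
        · exact Or.inl ⟨hw, h⟩
        · exact Or.inr ⟨Finset.mem_univ _, hw, h.symm⟩
    · rw [Finset.disjoint_left]
      intro w h1 h2
      rw [Finset.mem_filter] at h1 h2
      exact h2.2.1 h1.1
  have hBsum : B.card = ∑ v ∈ Q, ((Finset.univ.filter (fun w => w ∉ Q ∧ H.Adj w v))).card := by
    have hBe : B = Q.biUnion (fun v => ((Finset.univ.filter (fun w => w ∉ Q ∧ H.Adj w v))).map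
        ⟨fun w => (w, v), fun a b h => (Prod.mk.inj h).1⟩) := by
      ext ⟨a, b⟩
      rw [hB, Finset.mem_filter, Finset.mem_biUnion]
      constructor
      · rintro ⟨_, h1, h2, h3⟩
        exact ⟨b, h2, Finset.mem_map.2 ⟨a, Finset.mem_filter.2 ⟨Finset.mem_univ _, h1, h3⟩, rfl⟩⟩
      · rintro ⟨v, hv, h⟩
        obtain ⟨w, hw, he⟩ := Finset.mem_map.1 h
        have he' : (w, v) = (a, b) := he
        rw [Prod.mk.injEq] at he'
        obtain ⟨rfl, rfl⟩ := he'
        rw [Finset.mem_filter] at hw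
        exact ⟨Finset.mem_univ _, hw.2.1, hv, hw.2.2⟩
    rw [hBe, Finset.card_biUnion]
    · apply Finset.sum_congr rfl
      intro v _
      rw [Finset.card_map]
    · intro x _ y _ hxy
      rw [Function.onFun, Finset.disjoint_left]
      intro p h1 h2
      obtain ⟨a, _, rfl⟩ := Finset.mem_map.1 h1
      obtain ⟨b, _, hb⟩ := Finset.mem_map.1 h2
      exact hxy (Prod.mk.inj hb).2.symm
  have htot : 2 * HQ.edgeFinset.card + B.card = 3 * Q.card := by
    rw [← hsum1, hsum2, hBsum, ← Finset.sum_add_distrib, Finset.sum_congr rfl hdeg,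
      Finset.sum_const, smul_eq_mul, mul_comm]
  have hodd : Odd B.card := by
    obtain ⟨q, hq⟩ := hQ
    refine Nat.odd_iff.2 ?_
    omega
  -- at least two
  have hpos : 0 < B.card := hodd.pos
  obtain ⟨⟨a, b⟩, hab⟩ := Finset.card_pos.1 hpos
  rw [hB, Finset.mem_filter] at hab
  obtain ⟨_, h1, h2, h3'⟩ := hab
  obtain ⟨b', a', g1, g2, g3, g4⟩ := hcut (Q : Set V) b a h3'.symm (by exact_mod_cast h2)
    (by exact_mod_cast h1)
  have hm1 : (a, b) ∈ B := by rw [hB, Finset.mem_filter]; exact ⟨Finset.mem_univ _, h1, h2, h3'⟩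
  have hm2 : (a', b') ∈ B := by
    rw [hB, Finset.mem_filter]
    exact ⟨Finset.mem_univ _, by exact_mod_cast g3, by exact_mod_cast g2, g1.symm⟩
  have hne : (a', b') ≠ (a, b) := by
    intro h
    rw [Prod.mk.injEq] at h
    exact g4 (by rw [h.1, h.2])
  have htwo : 1 < B.card := Finset.one_lt_card.2 ⟨_, hm2, _, hm1, hne⟩
  obtain ⟨m, hm⟩ := hodd
  omega

end

end Pool.Agent.Helper850.TC
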