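import Pool.Agent.Helper850.TC.Gr1

namespace Pool.Agent.Helper850.TC

open SimpleGraph

set_option linter.unusedVariables false

section
variable {V : Type*}

/-- `H` together with all edges between vertices of degree other than three -/
def KK [Fintype V] (H : SimpleGraph V) [DecidableRel H.Adj] : SimpleGraph V where
  Adj v w := H.Adj v w ∨ (v ≠ w ∧ H.degree v ≠ 3 ∧ H.degree w ≠ 3)
  symm := ⟨fun v w h => h.elim (fun h => Or.inl h.symm) (fun h => Or.inr ⟨h.1.symm, h.2.2, h.2.1⟩)⟩
  loopless := ⟨fun v h => h.elim (H.loopless.irrefl v) (fun h => h.1 rfl)⟩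

theorem no_violator [Fintype V] [DecidableEq V] (H : SimpleGraph V) [DecidableRel H.Adj]
    (hev : Even (Fintype.card V)) (hdeg : ∀ v, H.degree v ≤ 3) (hcut : Cut H) (u : Set V) :
    ¬ (KK H).IsTutteViolator u := by
  classical
  unfold IsTutteViolator
  rw [not_lt]
  set Gu := ((⊤ : (KK H).Subgraph).deleteVerts u).coe with hGu
  have hmem : ∀ v, v ∈ ((⊤ : (KK H).Subgraph).deleteVerts u).verts ↔ v ∉ u := by
    intro v; simp
  have hadj : ∀ a b : ((⊤ : (KK H).Subgraph).deleteVerts u).verts, (KK H).Adj a.1 b.1 →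
      Gu.Adj a b := by
    intro a b h
    rw [hGu, Subgraph.coe_adj, Subgraph.deleteVerts_adj]
    exact ⟨Set.mem_univ _, (hmem _).1 a.2, Set.mem_univ _, (hmem _).1 b.2, h⟩
  -- parity
  have hpar : Odd Gu.oddComponents.ncard ↔ Odd u.ncard := by
    rw [odd_ncard_oddComponents]
    have h1 : Nat.card ((⊤ : (KK H).Subgraph).deleteVerts u).verts + u.ncard = Fintype.card V := by
      have : ((⊤ : (KK H).Subgraph).deleteVerts u).verts = uᶜ := by ext v; rw [hmem]; rfl
      rw [this, ← Nat.card_eq_fintype_card, Nat.card_coe_set_eq]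
      have := Set.ncard_add_ncard_compl u
      omega
    rw [Nat.odd_iff, Nat.odd_iff]
    rw [Nat.even_iff] at hev
    omega
  set O : Finset Gu.ConnectedComponent := (Set.toFinite Gu.oddComponents).toFinset with hO
  have hOc : Gu.oddComponents.ncard = O.card := by
    rw [Set.ncard_eq_toFinset_card _ (Set.toFinite _)]
  rw [hOc] at hpar ⊢
  set O' := O.filter (fun c => ∀ x ∈ c.supp, H.degree x.1 = 3) with hO'
  have hone : (O.filter (fun c => ¬ ∀ x ∈ c.supp, H.degree x.1 = 3)).card ≤ 1 := by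
    rw [Finset.card_le_one]
    intro c hc d hd
    rw [Finset.mem_filter] at hc hd
    obtain ⟨_, hc⟩ := hc
    obtain ⟨_, hd⟩ := hd
    push Not at hc hd
    obtain ⟨x, hx, hx3⟩ := hc
    obtain ⟨y, hy, hy3⟩ := hd
    by_cases hxy : x = y
    · subst hxy
      exact ConnectedComponent.eq_of_common_vertex hx hy
    · have : Gu.Adj x y := hadj x y (Or.inr ⟨fun h => hxy (Subtype.ext h), hx3, hy3⟩)
      exact ConnectedComponent.eq_of_common_vertex ((c.mem_supp_congr_adj this).1 hx) hy
  have hsplit : O'.card + (O.filter (fun c => ¬ ∀ x ∈ c.supp, H.degree x.1 = 3)).card = O.card :=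
    Finset.card_filter_add_card_filter_not _
  -- edges from `u` to the odd components
  let Qf : Gu.ConnectedComponent → Finset V := fun c => Finset.univ.filter (fun v => ∃ h : v ∈ ((⊤ : (KK H).Subgraph).deleteVerts u).verts, (⟨v, h⟩ : ((⊤ : (KK H).Subgraph).deleteVerts u).verts) ∈ c.supp)
  have hQcard : ∀ c, (Qf c).card = c.supp.ncard := by
    intro c
    rw [← Set.ncard_coe_finset]
    have : ((Qf c : Finset V) : Set V) = Subtype.val '' c.supp := by
      ext v
      simp only [Qf, Finset.coe_filter, Finset.mem_univ, true_and, Set.mem_ofPred_eq, Set.mem_image]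
      constructor
      · rintro ⟨h, h2⟩; exact ⟨⟨v, h⟩, h2, rfl⟩
      · rintro ⟨x, hx, rfl⟩; exact ⟨x.2, hx⟩
    rw [this, Set.ncard_image_of_injective _ Subtype.val_injective]
  have hE : ∀ c ∈ O', 3 ≤ ((Finset.univ : Finset (V × V)).filter
      (fun p => p.1 ∈ u ∧ p.2 ∈ Qf c ∧ H.Adj p.1 p.2)).card := by
    intro c hc
    rw [hO', Finset.mem_filter] at hc
    obtain ⟨hc1, hc2⟩ := hc
    have hodd : Odd (Qf c).card := by
      rw [hQcard]
      rw [hO, Set.Finite.mem_toFinset] at hc1
      exact hc1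
    have h3 : ∀ v ∈ Qf c, H.degree v = 3 := by
      intro v hv
      rw [Finset.mem_filter] at hv
      obtain ⟨_, h, h2⟩ := hv
      exact hc2 _ h2
    have := boundary_ge H hcut (Qf c) hodd h3
    refine this.trans (Finset.card_le_card ?_)
    rintro ⟨a, b⟩ hab
    rw [Finset.mem_filter] at hab ⊢
    obtain ⟨_, h1, h2, h3'⟩ := hab
    refine ⟨Finset.mem_univ _, ?_, h2, h3'⟩
    by_contra hau
    apply h1
    rw [Finset.mem_filter] at h2 ⊢
    obtain ⟨_, hb, hb2⟩ := h2
    have ha : a ∈ ((⊤ : (KK H).Subgraph).deleteVerts u).verts := (hmem a).2 hau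
    refine ⟨Finset.mem_univ _, ha, ?_⟩
    have : Gu.Adj ⟨a, ha⟩ ⟨b, hb⟩ := hadj _ _ (Or.inl h3')
    exact (c.mem_supp_congr_adj this).2 hb2
  have hsum : 3 * O'.card ≤ ∑ c ∈ O', ((Finset.univ : Finset (V × V)).filter
      (fun p => p.1 ∈ u ∧ p.2 ∈ Qf c ∧ H.Adj p.1 p.2)).card := by
    have := Finset.card_nsmul_le_sum O' _ 3 hE
    rw [smul_eq_mul, mul_comm] at this
    exact this
  rw [← Finset.card_biUnion] at hsum
  · have hle : (O'.biUnion (fun c => (Finset.univ : Finset (V × V)).filter
        (fun p => p.1 ∈ u ∧ p.2 ∈ Qf c ∧ H.Adj p.1 p.2))).card ≤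
        ∑ s ∈ (Set.toFinite u).toFinset, H.degree s := by
      have : ∑ s ∈ (Set.toFinite u).toFinset, H.degree s =
          ((Set.toFinite u).toFinset.biUnion (fun s => (H.neighborFinset s).map
            ⟨fun w => (s, w), fun a b h => (Prod.mk.inj h).2⟩)).card := by
        rw [Finset.card_biUnion]
        · apply Finset.sum_congr rfl
          intro s _
          rw [Finset.card_map, card_neighborFinset_eq_degree]
        · intro x _ y _ hxy
          rw [Function.onFun, Finset.disjoint_left]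
          intro p h1 h2
          obtain ⟨a, _, rfl⟩ := Finset.mem_map.1 h1
          obtain ⟨b, _, hb⟩ := Finset.mem_map.1 h2
          exact hxy (Prod.mk.inj hb).1.symm
      rw [this]
      apply Finset.card_le_card
      rintro ⟨a, b⟩ hab
      rw [Finset.mem_biUnion] at hab ⊢
      obtain ⟨c, _, hc⟩ := hab
      rw [Finset.mem_filter] at hc
      refine ⟨a, (Set.Finite.mem_toFinset _).2 hc.2.1, Finset.mem_map.2 ⟨b, ?_, rfl⟩⟩
      rw [mem_neighborFinset]
      exact hc.2.2.2
    have hle2 : ∑ s ∈ (Set.toFinite u).toFinset, H.degree s ≤ 3 * u.ncard := by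
      rw [Set.ncard_eq_toFinset_card _ (Set.toFinite _)]
      have := Finset.sum_le_card_nsmul (Set.toFinite u).toFinset (fun s => H.degree s) 3
        (fun s _ => hdeg s)
      rw [smul_eq_mul, mul_comm] at this
      exact this
    have h3 : O'.card ≤ u.ncard := by omega
    rw [Nat.odd_iff, Nat.odd_iff] at hpar
    omega
  · intro c hc d hd hcd
    rw [Function.onFun, Finset.disjoint_left]
    intro p h1 h2
    rw [Finset.mem_filter] at h1 h2
    apply hcd
    have h3 := h1.2.2.1
    have h4 := h2.2.2.1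
    rw [Finset.mem_filter] at h3 h4
    obtain ⟨_, h5, h6⟩ := h3
    obtain ⟨_, h7, h8⟩ := h4
    exact ConnectedComponent.eq_of_common_vertex h6 h8

theorem exists_partner [Fintype V] [DecidableEq V] (H : SimpleGraph V) [DecidableRel H.Adj]
    (hev : Even (Fintype.card V)) (hdeg : ∀ v, H.degree v ≤ 3) (hcut : Cut H) :
    ∃ N : V → V, (∀ v, N (N v) = v) ∧ (∀ v, N v ≠ v) ∧ (∀ v, H.degree v = 3 → H.Adj v (N v)) := by
  classical
  obtain ⟨M, hM1, hM2⟩ := (tutte (G := KK H)).2 (no_violator H hev hdeg hcut)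
  have hex : ∀ v, ∃! w, M.Adj v w := fun v => hM1 (hM2 v)
  choose N hN hNu using hex
  refine ⟨N, ?_, ?_, ?_⟩
  · intro v
    exact (hNu (N v) v (hN v).symm).symm
  · intro v h
    have := (hN v).adj_sub
    rw [h] at this
    exact this.ne rfl
  · intro v hv
    rcases (hN v).adj_sub with h | h
    · exact h
    · exact absurd hv h.2.1

end

end Pool.Agent.Helper850.TC
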