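import Pool.Agent.Helper850.TC.Algo3

namespace Pool.Agent.Helper850.TC

open SimpleGraph

set_option linter.unusedVariables false
set_option linter.unusedSimpArgs false
set_option linter.unusedSectionVars false

theorem exists_cyc {X : Type*} [Finite X] (F : SimpleGraph X)
    (h2 : ∀ x, (F.neighborSet x).ncard = 2) :
    ∃ k : F.ConnectedComponent → ℕ, (∀ c, 3 ≤ k c) ∧ ∃ f : Vx k ≃ X,
      ∀ v, F.Adj (f v) (f (nx v)) := by
  classical
  have hcyc : F.IsCycles := fun v _ => h2 v
  have hex : ∀ c : F.ConnectedComponent, ∃ (u : X) (p : F.Walk u u), p.IsCycle ∧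
      p.toSubgraph.verts = c.supp := by
    intro c
    obtain ⟨u, hu⟩ := c.nonempty_supp
    have hn : (F.neighborSet u).Nonempty := Set.nonempty_of_ncard_ne_zero (by rw [h2]; decide)
    obtain ⟨p, hp, hp2⟩ := hcyc.exists_cycle_toSubgraph_verts_eq_connectedComponentSupp hu hn
    exact ⟨u, p, hp, hp2⟩
  choose u p hp hp2 using hex
  have h3 : ∀ c, 3 ≤ (p c).length := fun c => (hp c).three_le_length
  have hne : ∀ c, NeZero ((p c).length) := fun c => ⟨by have := h3 c; omega⟩
  refine ⟨fun c => (p c).length, h3, ?_⟩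
  let f : Vx (fun c => (p c).length) → X := fun v => (p v.1).getVert v.2.val
  have hsupp : ∀ v, f v ∈ v.1.supp := by
    intro v
    rw [← hp2, Walk.mem_verts_toSubgraph]
    exact Walk.getVert_mem_support _ _
  have hinj : Function.Injective f := by
    intro v w hvw
    have h1 : v.1 = w.1 := by
      apply ConnectedComponent.eq_of_common_vertex (hsupp v)
      rw [hvw]; exact hsupp w
    obtain ⟨c, i⟩ := v
    obtain ⟨d, j⟩ := w
    have h1' : c = d := h1
    subst h1'
    congr 1
    apply ZMod.val_injective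
    have := h3 c
    have hi : i.val < (p c).length := ZMod.val_lt i
    have hj : j.val < (p c).length := ZMod.val_lt j
    apply (hp c).getVert_injOn'
    · show i.val ≤ (p c).length - 1
      omega
    · show j.val ≤ (p c).length - 1
      omega
    · exact hvw
  have hsurj : Function.Surjective f := by
    intro x
    have hx : x ∈ (F.connectedComponentMk x).supp := rfl
    set c := F.connectedComponentMk x with hc
    rw [← hp2, Walk.mem_verts_toSubgraph, Walk.mem_support_iff_exists_getVert] at hx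
    obtain ⟨n, hn, hn2⟩ := hx
    by_cases hn3 : n = (p c).length
    · refine ⟨⟨c, 0⟩, ?_⟩
      show (p c).getVert (ZMod.val (0 : ZMod (p c).length)) = x
      rw [ZMod.val_zero, Walk.getVert_zero, ← hn, hn3, Walk.getVert_length]
    · refine ⟨⟨c, (n : ZMod (p c).length)⟩, ?_⟩
      show (p c).getVert (ZMod.val (n : ZMod (p c).length)) = x
      rw [ZMod.val_natCast, Nat.mod_eq_of_lt (by omega), hn]
  refine ⟨Equiv.ofBijective f ⟨hinj, hsurj⟩, ?_⟩
  rintro ⟨c, i⟩
  show F.Adj ((p c).getVert i.val) ((p c).getVert (i + 1 : ZMod (p c).length).val)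
  have hl := h3 c
  have hi : i.val < (p c).length := ZMod.val_lt i
  have hl1 : (p c).length ≠ 1 := by omega
  have h1 : (i + 1 : ZMod (p c).length).val = (i.val + 1) % (p c).length := by
    have h0 : (1 : ZMod (p c).length).val = 1 := ZMod.val_one'' hl1
    rw [ZMod.val_add, h0]
  have hadj := (p c).adj_getVert_succ hi
  rw [h1]
  by_cases h5 : i.val + 1 = (p c).length
  · rw [h5, Nat.mod_self, Walk.getVert_zero]
    rw [h5, Walk.getVert_length] at hadj
    exact hadj
  · rw [Nat.mod_eq_of_lt (by omega)]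
    exact hadj

/-- a local colouring: `φ` for the edges, `ψ` for the triangle edges opposite to them;
disjointness is asked for along the pairs related by `H` -/
structure VC {V Col : Type*} (G H : V → V → Prop) (φ ψ : V → V → Col) : Prop where
  d1 : ∀ v a b, G v a → G v b → a ≠ b → φ v a ≠ φ v b
  d2 : ∀ v a b, G v a → G v b → a ≠ b → ψ v a ≠ ψ v b
  d3 : ∀ v a b, G v a → G v b → φ v a ≠ ψ v b
  e1 : ∀ v w, H v w → φ v w = φ w v
  e2 : ∀ v w x y, H v w → G v x → x ≠ w → G w y → y ≠ v → ψ v x ≠ ψ w y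

theorem inj6 {α : Type*} {a b c d e f : α}
    (h : Function.Injective (![a, b, c, d, e, f] : Fin 6 → α)) :
    (a ≠ b ∧ a ≠ c ∧ a ≠ d ∧ a ≠ e ∧ a ≠ f) ∧ (b ≠ c ∧ b ≠ d ∧ b ≠ e ∧ b ≠ f) ∧
    (c ≠ d ∧ c ≠ e ∧ c ≠ f) ∧ (d ≠ e ∧ d ≠ f) ∧ e ≠ f := by
  have key : ∀ i j : Fin 6, i ≠ j → (![a, b, c, d, e, f] : Fin 6 → α) i ≠ (![a, b, c, d, e, f] : Fin 6 → α) j :=
    fun i j hij heq => hij (h heq)
  exact ⟨⟨key 0 1 (by decide), key 0 2 (by decide), key 0 3 (by decide), key 0 4 (by decide),
    key 0 5 (by decide)⟩, ⟨key 1 2 (by decide), key 1 3 (by decide), key 1 4 (by decide),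
    key 1 5 (by decide)⟩, ⟨key 2 3 (by decide), key 2 4 (by decide), key 2 5 (by decide)⟩,
    ⟨key 3 4 (by decide), key 3 5 (by decide)⟩, key 4 5 (by decide)⟩

section
variable {ι : Type*} {k : ι → ℕ} [∀ c, NeZero (k c)] [Fintype ι]

theorem nx_ne_pv (hk : ∀ c, 3 ≤ k c) (v : Vx k) : nx v ≠ pv v := by
  intro h
  obtain ⟨c, i⟩ := v
  have h1 : (⟨c, i + 1⟩ : Vx k) = ⟨c, i - 1⟩ := h
  have h2 : i + 1 = i - 1 := vx_inj h1
  have h3 : (2 : ZMod (k c)) = 0 := by
    have : (2 : ZMod (k c)) = (i + 1) - (i - 1) := by ring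
    rw [this, h2]; ring
  have h4 : ((2 : ℕ) : ZMod (k c)) = 0 := by exact_mod_cast h3
  rw [ZMod.natCast_eq_zero_iff] at h4
  have := Nat.le_of_dvd (by decide) h4
  have := hk c
  omega

theorem pal_vc (hk : ∀ c, 3 ≤ k c) {M : Vx k → Vx k} (hinv : ∀ v, M (M v) = v)
    (hnx : ∀ v, M v ≠ nx v) (hP : Pal M) :
    ∃ Φ Ψ : Vx k → Vx k → Bool × ZMod 3,
      VC (fun v w => w = nx v ∨ w = pv v ∨ w = M v) (fun v w => w = nx v ∨ w = pv v ∨ w = M v) Φ Ψ := by
  classical
  obtain ⟨F, Mc, A, B, T, p1, p2, p3, p4⟩ := hP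
  have hpv : ∀ v, M v ≠ pv v := by
    intro v h
    apply hnx (M v)
    rw [hinv, h, nx_pv]
  let Φ : Vx k → Vx k → Bool × ZMod 3 := fun v w => if w = nx v then F v else if w = pv v then F (pv v) else Mc v
  let Ψ : Vx k → Vx k → Bool × ZMod 3 := fun v w => if w = nx v then B v else if w = pv v then A v else T v
  have f1 : ∀ v, Φ v (nx v) = F v := fun v => if_pos rfl
  have f2 : ∀ v, Φ v (pv v) = F (pv v) := fun v => by
    simp only [Φ, if_neg (nx_ne_pv hk v).symm, if_true]
  have f3 : ∀ v, Φ v (M v) = Mc v := fun v => by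
    simp only [Φ, if_neg (hnx v), if_neg (hpv v)]
  have g1 : ∀ v, Ψ v (nx v) = B v := fun v => if_pos rfl
  have g2 : ∀ v, Ψ v (pv v) = A v := fun v => by
    simp only [Ψ, if_neg (nx_ne_pv hk v).symm, if_true]
  have g3 : ∀ v, Ψ v (M v) = T v := fun v => by
    simp only [Ψ, if_neg (hnx v), if_neg (hpv v)]
  refine ⟨Φ, Ψ, ?_, ?_, ?_, ?_, ?_⟩
  · intro v a b ha hb hab
    obtain ⟨⟨q1, q2, q3, q4, q5⟩, ⟨q6, q7, q8, q9⟩, ⟨r1, r2, r3⟩, ⟨r4, r5⟩, r6⟩ := inj6 (p2 v)
    rcases ha with rfl | rfl | rfl <;> rcases hb with rfl | rfl | rfl <;>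
      first
      | exact absurd rfl hab
      | (simp only [f1, f2, f3]; first | assumption | (apply Ne.symm; assumption))
  · intro v a b ha hb hab
    obtain ⟨⟨q1, q2, q3, q4, q5⟩, ⟨q6, q7, q8, q9⟩, ⟨r1, r2, r3⟩, ⟨r4, r5⟩, r6⟩ := inj6 (p2 v)
    rcases ha with rfl | rfl | rfl <;> rcases hb with rfl | rfl | rfl <;>
      first
      | exact absurd rfl hab
      | (simp only [g1, g2, g3]; first | assumption | (apply Ne.symm; assumption))
  · intro v a b ha hb
    obtain ⟨⟨q1, q2, q3, q4, q5⟩, ⟨q6, q7, q8, q9⟩, ⟨r1, r2, r3⟩, ⟨r4, r5⟩, r6⟩ := inj6 (p2 v)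
    rcases ha with rfl | rfl | rfl <;> rcases hb with rfl | rfl | rfl <;>
      (simp only [f1, f2, f3, g1, g2, g3]; assumption)
  · intro v w hw
    rcases hw with rfl | rfl | rfl
    · have := f2 (nx v)
      rw [pv_nx] at this
      rw [f1, this]
    · have := f1 (pv v)
      rw [nx_pv] at this
      rw [f2, this]
    · have := f3 (M v)
      rw [hinv] at this
      rw [f3, this, p1]
  · intro v w x y hw hx hxw hy hyv
    rcases hw with rfl | rfl | rfl
    · obtain ⟨s1, s2, s3, s4⟩ := p3 v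
      have hx' : Ψ v x = A v ∨ Ψ v x = T v := by
        rcases hx with rfl | rfl | rfl
        · exact absurd rfl hxw
        · exact Or.inl (g2 v)
        · exact Or.inr (g3 v)
      have hy' : Ψ (nx v) y = B (nx v) ∨ Ψ (nx v) y = T (nx v) := by
        rcases hy with rfl | rfl | rfl
        · exact Or.inl (g1 _)
        · exact absurd (pv_nx v) hyv
        · exact Or.inr (g3 _)
      rcases hx' with e | e <;> rcases hy' with e' | e' <;> rw [e, e'] <;> assumption
    · obtain ⟨s1, s2, s3, s4⟩ := p3 (pv v)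
      rw [nx_pv] at s1 s2 s3 s4
      have hx' : Ψ v x = B v ∨ Ψ v x = T v := by
        rcases hx with rfl | rfl | rfl
        · exact Or.inl (g1 v)
        · exact absurd rfl hxw
        · exact Or.inr (g3 v)
      have hy' : Ψ (pv v) y = A (pv v) ∨ Ψ (pv v) y = T (pv v) := by
        rcases hy with rfl | rfl | rfl
        · exact absurd (nx_pv v) hyv
        · exact Or.inl (g2 _)
        · exact Or.inr (g3 _)
      rcases hx' with e | e <;> rcases hy' with e' | e' <;> rw [e, e'] <;> apply Ne.symm <;> assumption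
    · obtain ⟨s1, s2, s3, s4⟩ := p4 v
      have hx' : Ψ v x = A v ∨ Ψ v x = B v := by
        rcases hx with rfl | rfl | rfl
        · exact Or.inr (g1 v)
        · exact Or.inl (g2 v)
        · exact absurd rfl hxw
      have hy' : Ψ (M v) y = A (M v) ∨ Ψ (M v) y = B (M v) := by
        rcases hy with rfl | rfl | rfl
        · exact Or.inr (g1 _)
        · exact Or.inl (g2 _)
        · exact absurd (hinv v) hyv
      rcases hx' with e | e <;> rcases hy' with e' | e' <;> rw [e, e'] <;> assumption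

end

theorem exists_DC {X : Type*} [Finite X] (F : SimpleGraph X)
    (h2 : ∀ x, (F.neighborSet x).ncard = 2) (M : X → X) (hM : ∀ x, M (M x) = x)
    (hfix : ∀ x, M x ≠ x) (hMF : ∀ x, ¬ F.Adj x (M x)) :
    ∃ Φ Ψ : X → X → Bool × ZMod 3,
      VC (fun x y => F.Adj x y ∨ y = M x) (fun x y => F.Adj x y ∨ y = M x) Φ Ψ := by
  classical
  obtain ⟨k, hk, f, hf⟩ := exists_cyc F h2
  have : Fintype F.ConnectedComponent := Fintype.ofFinite _
  have : ∀ c, NeZero (k c) := fun c => ⟨by have := hk c; omega⟩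
  let M' : Vx k → Vx k := fun v => f.symm (M (f v))
  have hM' : ∀ v, M' (M' v) = v := by
    intro v; simp only [M', Equiv.apply_symm_apply, hM, Equiv.symm_apply_apply]
  have hfix' : ∀ v, M' v ≠ v := by
    intro v h
    apply hfix (f v)
    have := congrArg f h
    simpa only [M', Equiv.apply_symm_apply] using this
  have hnx' : ∀ v, M' v ≠ nx v := by
    intro v h
    apply hMF (f v)
    have := congrArg f h
    simp only [M', Equiv.apply_symm_apply] at this
    rw [this]; exact hf v
  obtain ⟨Φ, Ψ, hV⟩ := pal_vc hk hM' hnx' (exists_pal hk hM' hfix' hnx')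
  -- neighbours
  have hnb : ∀ x y, F.Adj x y → f.symm y = nx (f.symm x) ∨ f.symm y = pv (f.symm x) := by
    intro x y hxy
    have a1 : F.Adj x (f (nx (f.symm x))) := by
      have := hf (f.symm x)
      rwa [Equiv.apply_symm_apply] at this
    have a2 : F.Adj x (f (pv (f.symm x))) := by
      have := hf (pv (f.symm x))
      rw [nx_pv, Equiv.apply_symm_apply] at this
      exact this.symm
    have hne : f (nx (f.symm x)) ≠ f (pv (f.symm x)) := fun h => nx_ne_pv hk _ (f.injective h)
    have hset : F.neighborSet x = {f (nx (f.symm x)), f (pv (f.symm x))} := by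
      symm
      apply Set.eq_of_subset_of_ncard_le
      · intro z hz
        rcases hz with rfl | hz
        · exact a1
        · rw [Set.mem_singleton_iff] at hz; rw [hz]; exact a2
      · rw [h2, Set.ncard_pair hne]
      · exact Set.toFinite _
    have hy : y ∈ F.neighborSet x := hxy
    rw [hset] at hy
    rcases hy with rfl | hy
    · left; rw [Equiv.symm_apply_apply]
    · rw [Set.mem_singleton_iff] at hy
      right; rw [hy, Equiv.symm_apply_apply]
  have hD : ∀ x y, (F.Adj x y ∨ y = M x) → (f.symm y = nx (f.symm x) ∨ f.symm y = pv (f.symm x) ∨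
      f.symm y = M' (f.symm x)) := by
    intro x y h
    rcases h with h | h
    · rcases hnb x y h with h | h
      · exact Or.inl h
      · exact Or.inr (Or.inl h)
    · right; right
      rw [h]
      simp only [M', Equiv.apply_symm_apply]
  refine ⟨fun x y => Φ (f.symm x) (f.symm y), fun x y => Ψ (f.symm x) (f.symm y), ?_, ?_, ?_, ?_, ?_⟩
  · intro v a b ha hb hab
    exact hV.d1 _ _ _ (hD _ _ ha) (hD _ _ hb) (fun h => hab (f.symm.injective h))
  · intro v a b ha hb hab
    exact hV.d2 _ _ _ (hD _ _ ha) (hD _ _ hb) (fun h => hab (f.symm.injective h))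
  · intro v a b ha hb
    exact hV.d3 _ _ _ (hD _ _ ha) (hD _ _ hb)
  · intro v w h
    exact hV.e1 _ _ (hD _ _ h)
  · intro v w x y h hx hxw hy hyv
    exact hV.e2 _ _ _ _ (hD _ _ h) (hD _ _ hx) (fun h => hxw (f.symm.injective h)) (hD _ _ hy)
      (fun h => hyv (f.symm.injective h))

end Pool.Agent.Helper850.TC
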