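import Pool.Agent.Helper850.TC.Gr2
import Pool.Agent.Helper850.TC.Gr3

namespace Pool.Agent.Helper850.TC

open SimpleGraph

set_option linter.unusedVariables false
set_option linter.unusedSimpArgs false
set_option linter.unusedSectionVars false

section
variable {V : Type*} [Fintype V] [DecidableEq V]

theorem Cut.degree_ne_one {H : SimpleGraph V} [DecidableRel H.Adj] (hcut : Cut H) (v : V) :
    H.degree v ≠ 1 := by
  intro h
  rw [← card_neighborFinset_eq_degree, Finset.card_eq_one] at h
  obtain ⟨w, hw⟩ := h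
  have h1 : H.Adj v w := by
    rw [← mem_neighborFinset, hw]; exact Finset.mem_singleton_self w
  obtain ⟨v', w', a1, a2, a3, a4⟩ := hcut {v} v w h1 rfl (fun h => h1.ne h.symm)
  rw [Set.mem_singleton_iff] at a2
  subst a2
  apply a4
  rw [← mem_neighborFinset, hw, Finset.mem_singleton] at a1
  rw [a1]

abbrev XX (H : SimpleGraph V) := {v : V // ∃ w, H.Adj v w} × Bool

def FF (H : SimpleGraph V) [DecidableRel H.Adj] (N : V → V) (hN : ∀ v, N (N v) = v) :
    SimpleGraph (XX H) where
  Adj x y := (x.2 = y.2 ∧ H.Adj x.1.1 y.1.1 ∧ y.1.1 ≠ N x.1.1) ∨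
    (x.1 = y.1 ∧ x.2 ≠ y.2 ∧ H.degree x.1.1 = 2 ∧ H.Adj x.1.1 (N x.1.1))
  symm := ⟨by
    rintro x y (h | h)
    · refine Or.inl ⟨h.1.symm, h.2.1.symm, fun h2 => h.2.2 ?_⟩
      rw [h2, hN]
    · refine Or.inr ⟨h.1.symm, h.2.1.symm, ?_, ?_⟩
      · rw [← h.1]; exact h.2.2.1
      · rw [← h.1]; exact h.2.2.2⟩
  loopless := ⟨by
    rintro x (h | h)
    · exact H.loopless.irrefl _ h.2.1
    · exact h.2.1 rfl⟩

def MX (H : SimpleGraph V) [DecidableRel H.Adj] (N : V → V) (x : XX H) : XX H :=
  if h : H.Adj x.1.1 (N x.1.1) then (⟨N x.1.1, x.1.1, h.symm⟩, x.2) else (x.1, !x.2)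

variable {H : SimpleGraph V} [DecidableRel H.Adj] {N : V → V}

theorem MX_pos {x : XX H} (h : H.Adj x.1.1 (N x.1.1)) :
    MX H N x = (⟨N x.1.1, x.1.1, h.symm⟩, x.2) := dif_pos h
theorem MX_neg {x : XX H} (h : ¬ H.Adj x.1.1 (N x.1.1)) : MX H N x = (x.1, !x.2) := dif_neg h

theorem MX_MX (hN : ∀ v, N (N v) = v) (x : XX H) : MX H N (MX H N x) = x := by
  by_cases h : H.Adj x.1.1 (N x.1.1)
  · have h1 := MX_pos h
    have h2 : H.Adj (MX H N x).1.1 (N (MX H N x).1.1) := by
      rw [h1]; show H.Adj (N x.1.1) (N (N x.1.1)); rw [hN]; exact h.symm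
    rw [MX_pos h2]
    apply Prod.ext
    · apply Subtype.ext
      show N (MX H N x).1.1 = x.1.1
      rw [h1]; exact hN _
    · show (MX H N x).2 = x.2
      rw [h1]
  · have h1 := MX_neg h
    have h2 : ¬ H.Adj (MX H N x).1.1 (N (MX H N x).1.1) := by rw [h1]; exact h
    rw [MX_neg h2, h1]
    simp

theorem MX_ne (x : XX H) (hf : ∀ v, N v ≠ v) : MX H N x ≠ x := by
  by_cases h : H.Adj x.1.1 (N x.1.1)
  · rw [MX_pos h]
    intro h1
    exact hf x.1.1 (congrArg (fun z : XX H => z.1.1) h1)
  · rw [MX_neg h]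
    intro h1
    have := congrArg (fun z : XX H => z.2) h1
    simp at this

theorem not_FF_MX (hN : ∀ v, N (N v) = v) (x : XX H) : ¬ (FF H N hN).Adj x (MX H N x) := by
  by_cases h : H.Adj x.1.1 (N x.1.1)
  · rw [MX_pos h]
    rintro (h1 | h1)
    · exact h1.2.2 rfl
    · exact h1.2.1 rfl
  · rw [MX_neg h]
    rintro (h1 | h1)
    · exact H.loopless.irrefl _ h1.2.1
    · exact h h1.2.2.2

theorem FF_card (hN : ∀ v, N (N v) = v) (hcut : Cut H) (hdeg : ∀ v, H.degree v ≤ 3)
    (h3 : ∀ v, H.degree v = 3 → H.Adj v (N v)) (x : XX H) :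
    ((FF H N hN).neighborSet x).ncard = 2 := by
  obtain ⟨⟨v, hv⟩, b⟩ := x
  have hpos : 0 < H.degree v := by
    obtain ⟨w, hw⟩ := hv
    rw [← card_neighborFinset_eq_degree]
    exact Finset.card_pos.2 ⟨w, (mem_neighborFinset _ _ _).2 hw⟩
  have hne1 := hcut.degree_ne_one v
  have hle := hdeg v
  set S := (H.neighborFinset v).erase (N v) with hS
  have hmS : ∀ w, w ∈ S ↔ (H.Adj v w ∧ w ≠ N v) := by
    intro w; rw [hS, Finset.mem_erase, mem_neighborFinset, and_comm]
  have two : S.card = 2 → ¬ (H.degree v = 2 ∧ H.Adj v (N v)) →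
      ((FF H N hN).neighborSet (⟨v, hv⟩, b)).ncard = 2 := by
    intro hc hno
    obtain ⟨a, c, hac, he⟩ := Finset.card_eq_two.1 hc
    have ha : H.Adj v a ∧ a ≠ N v := (hmS a).1 (by rw [he]; simp)
    have hcc : H.Adj v c ∧ c ≠ N v := (hmS c).1 (by rw [he]; simp)
    have : (FF H N hN).neighborSet (⟨v, hv⟩, b) =
        {(⟨a, v, ha.1.symm⟩, b), (⟨c, v, hcc.1.symm⟩, b)} := by
      ext ⟨⟨w, hw⟩, d⟩
      rw [mem_neighborSet, Set.mem_insert_iff, Set.mem_singleton_iff]
      constructor
      · rintro (h | h)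
        · have h1 : b = d := h.1
          have h2 : w ∈ S := (hmS w).2 h.2
          rw [he, Finset.mem_insert, Finset.mem_singleton] at h2
          subst h1
          rcases h2 with rfl | rfl
          · left; rfl
          · right; rfl
        · exact absurd h.2.2 hno
      · rintro (h | h)
        · have e1 : w = a := congrArg (fun z : XX H => z.1.1) h
          have e2 : d = b := congrArg (fun z : XX H => z.2) h
          subst e1; subst e2
          exact Or.inl ⟨rfl, ha⟩
        · have e1 : w = c := congrArg (fun z : XX H => z.1.1) h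
          have e2 : d = b := congrArg (fun z : XX H => z.2) h
          subst e1; subst e2
          exact Or.inl ⟨rfl, hcc⟩
    rw [this]
    apply Set.ncard_pair
    intro h
    exact hac (congrArg (fun z : XX H => z.1.1) h)
  by_cases hadj : H.Adj v (N v)
  · have hScard : S.card = H.degree v - 1 := by
      rw [hS, Finset.card_erase_of_mem ((mem_neighborFinset _ _ _).2 hadj),
        card_neighborFinset_eq_degree]
    by_cases hd : H.degree v = 2
    · rw [hd] at hScard
      obtain ⟨a, he⟩ := Finset.card_eq_one.1 hScard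
      have ha : H.Adj v a ∧ a ≠ N v := (hmS a).1 (by rw [he]; simp)
      have : (FF H N hN).neighborSet (⟨v, hv⟩, b) =
          {(⟨a, v, ha.1.symm⟩, b), (⟨v, hv⟩, !b)} := by
        ext ⟨⟨w, hw⟩, d⟩
        rw [mem_neighborSet, Set.mem_insert_iff, Set.mem_singleton_iff]
        constructor
        · rintro (h | h)
          · have h1 : b = d := h.1
            have h2 : w ∈ S := (hmS w).2 h.2
            rw [he, Finset.mem_singleton] at h2
            subst h1; subst h2
            left; rfl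
          · have h1 : v = w := congrArg Subtype.val h.1
            have h2 : b ≠ d := h.2.1
            subst h1
            right
            have : d = !b := by revert h2; cases b <;> cases d <;> simp
            rw [this]
        · rintro (h | h)
          · have e1 : w = a := congrArg (fun z : XX H => z.1.1) h
            have e2 : d = b := congrArg (fun z : XX H => z.2) h
            subst e1; subst e2
            exact Or.inl ⟨rfl, ha⟩
          · have e1 : w = v := congrArg (fun z : XX H => z.1.1) h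
            have e2 : d = !b := congrArg (fun z : XX H => z.2) h
            subst e1; subst e2
            exact Or.inr ⟨rfl, by cases b <;> simp, hd, hadj⟩
      rw [this]
      apply Set.ncard_pair
      intro h
      have := congrArg (fun z : XX H => z.2) h
      simp at this
    · apply two
      · omega
      · exact fun h => hd h.1
  · have hne3 : H.degree v ≠ 3 := fun h => hadj (h3 v h)
    have hScard : S.card = H.degree v := by
      rw [hS, Finset.erase_eq_of_notMem (fun h => hadj ((mem_neighborFinset _ _ _).1 h)),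
        card_neighborFinset_eq_degree]
    apply two
    · omega
    · exact fun h => hadj h.2

theorem D_adj (hN : ∀ v, N (N v) = v) {v w : V} (h : H.Adj v w) (b : Bool) :
    (FF H N hN).Adj (⟨v, w, h⟩, b) (⟨w, v, h.symm⟩, b) ∨
      ((⟨w, v, h.symm⟩, b) : XX H) = MX H N (⟨v, w, h⟩, b) := by
  by_cases hw : w = N v
  · subst hw
    right
    rw [MX_pos (x := (⟨v, N v, h⟩, b)) h]
  · left
    exact Or.inl ⟨rfl, h, hw⟩

theorem D_rung (hN : ∀ v, N (N v) = v) {v : V} (hv : ∃ w, H.Adj v w) (h2 : H.degree v = 2) (b : Bool) :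
    (FF H N hN).Adj (⟨v, hv⟩, b) (⟨v, hv⟩, !b) ∨
      ((⟨v, hv⟩, !b) : XX H) = MX H N (⟨v, hv⟩, b) := by
  by_cases hw : H.Adj v (N v)
  · left
    exact Or.inr ⟨rfl, by cases b <;> simp, h2, hw⟩
  · right
    rw [MX_neg (x := (⟨v, hv⟩, b)) hw]

end

theorem exists_VC_nb {V : Type*} [Fintype V] [DecidableEq V] (G : SimpleGraph V)
    [DecidableRel G.Adj] (hG : ∀ v, G.degree v = 3) :
    ∃ φ ψ : V → V → Bool × ZMod 3, VC G.Adj (nb G).Adj φ ψ := by
  classical
  set H := nb G with hH
  have hHG : ∀ v w, H.Adj v w → G.Adj v w := fun v w h => h.1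
  have hcut : Cut H := nb_cut G
  have hdeg : ∀ v, H.degree v ≤ 3 := by
    intro v
    rw [← hG v]
    exact degree_le_of_le (fun v w h => hHG v w h)
  have hev : Even (Fintype.card V) := by
    have h1 := G.sum_degrees_eq_twice_card_edges
    rw [Finset.sum_congr rfl (fun v _ => hG v), Finset.sum_const, smul_eq_mul,
      Finset.card_univ] at h1
    rw [Nat.even_iff]
    omega
  obtain ⟨N, hN, hNf, hN3⟩ := exists_partner H hev hdeg hcut
  obtain ⟨Φ, Ψ, hV⟩ := exists_DC (FF H N hN) (FF_card hN hcut hdeg hN3) (MX H N) (MX_MX hN)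
    (fun x => MX_ne x hNf) (not_FF_MX hN)
  -- local enumeration of neighbours
  have henum : ∀ v, ∃ e : V → ZMod 3, ∀ a b, G.Adj v a → G.Adj v b → a ≠ b → e a ≠ e b := by
    intro v
    have hc : Fintype.card (G.neighborFinset v) = Fintype.card (ZMod 3) := by
      rw [Fintype.card_coe, card_neighborFinset_eq_degree, hG]; rfl
    let e0 := Fintype.equivOfCardEq hc
    refine ⟨fun w => if h : w ∈ G.neighborFinset v then e0 ⟨w, h⟩ else 0, ?_⟩
    intro a b ha hb hab
    have ha' : a ∈ G.neighborFinset v := (mem_neighborFinset _ _ _).2 ha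
    have hb' : b ∈ G.neighborFinset v := (mem_neighborFinset _ _ _).2 hb
    simp only [dif_pos ha', dif_pos hb']
    intro h
    exact hab (congrArg Subtype.val (e0.injective h))
  choose e he using henum
  let π : (v : V) → (∃ w, H.Adj v w) → V → XX H := fun v hv w =>
    if h : H.Adj v w then (⟨w, v, h.symm⟩, false) else (⟨v, hv⟩, true)
  let φ : V → V → Bool × ZMod 3 := fun v w =>
    if hv : ∃ w, H.Adj v w then Φ (⟨v, hv⟩, false) (π v hv w) else (true, e v w)
  let ψ : V → V → Bool × ZMod 3 := fun v w =>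
    if hv : ∃ w, H.Adj v w then Ψ (⟨v, hv⟩, false) (π v hv w) else (false, e v w)
  have hnonadj : ∀ v, (∃ w, H.Adj v w) → ∀ a, G.Adj v a → ¬ H.Adj v a → H.degree v = 2 ∧
      ∀ b, G.Adj v b → b ≠ a → H.Adj v b := by
    intro v hv a ha hna
    have hsub : H.neighborFinset v ⊆ (G.neighborFinset v).erase a := by
      intro w hw
      rw [mem_neighborFinset] at hw
      rw [Finset.mem_erase, mem_neighborFinset]
      exact ⟨fun h => hna (h ▸ hw), hHG _ _ hw⟩
    have hc1 : ((G.neighborFinset v).erase a).card = 2 := by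
      rw [Finset.card_erase_of_mem ((mem_neighborFinset _ _ _).2 ha), card_neighborFinset_eq_degree, hG]
    have hc2 := Finset.card_le_card hsub
    rw [hc1, card_neighborFinset_eq_degree] at hc2
    have hpos : 0 < H.degree v := by
      obtain ⟨w, hw⟩ := hv
      rw [← card_neighborFinset_eq_degree]
      exact Finset.card_pos.2 ⟨w, (mem_neighborFinset _ _ _).2 hw⟩
    have hne1 := hcut.degree_ne_one v
    have hd2 : H.degree v = 2 := by omega
    refine ⟨hd2, ?_⟩
    intro b hb hba
    have heq : H.neighborFinset v = (G.neighborFinset v).erase a := by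
      apply Finset.eq_of_subset_of_card_le hsub
      rw [hc1, card_neighborFinset_eq_degree, hd2]
    rw [← mem_neighborFinset, heq, Finset.mem_erase, mem_neighborFinset]
    exact ⟨hba, hb⟩
  have hπpos : ∀ v hv w (h : H.Adj v w), π v hv w = (⟨w, v, h.symm⟩, false) :=
    fun v hv w h => dif_pos h
  have hπneg : ∀ v hv w (h : ¬ H.Adj v w), π v hv w = (⟨v, hv⟩, true) :=
    fun v hv w h => dif_neg h
  have hπinj : ∀ v hv a b, G.Adj v a → G.Adj v b → a ≠ b → π v hv a ≠ π v hv b := by
    intro v hv a b ha hb hab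
    by_cases h1 : H.Adj v a
    · by_cases h2 : H.Adj v b
      · rw [hπpos v hv a h1, hπpos v hv b h2]
        intro h
        exact hab (congrArg (fun z : XX H => z.1.1) h)
      · rw [hπpos v hv a h1, hπneg v hv b h2]
        intro h
        have := congrArg (fun z : XX H => z.2) h
        simp at this
    · have h2 : H.Adj v b := (hnonadj v hv a ha h1).2 b hb hab.symm
      rw [hπneg v hv a h1, hπpos v hv b h2]
      intro h
      have := congrArg (fun z : XX H => z.2) h
      simp at this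
  have hπD : ∀ v hv a, G.Adj v a → ((FF H N hN).Adj (⟨v, hv⟩, false) (π v hv a) ∨
      π v hv a = MX H N (⟨v, hv⟩, false)) := by
    intro v hv a ha
    by_cases h1 : H.Adj v a
    · rw [hπpos v hv a h1]
      exact D_adj hN h1 false
    · rw [hπneg v hv a h1]
      exact D_rung hN hv (hnonadj v hv a ha h1).1 false
  have hφpos : ∀ v (hv : ∃ w, H.Adj v w) w, φ v w = Φ (⟨v, hv⟩, false) (π v hv w) :=
    fun v hv w => dif_pos hv
  have hψpos : ∀ v (hv : ∃ w, H.Adj v w) w, ψ v w = Ψ (⟨v, hv⟩, false) (π v hv w) :=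
    fun v hv w => dif_pos hv
  have hφneg : ∀ v (hv : ¬ ∃ w, H.Adj v w) w, φ v w = (true, e v w) :=
    fun v hv w => dif_neg hv
  have hψneg : ∀ v (hv : ¬ ∃ w, H.Adj v w) w, ψ v w = (false, e v w) :=
    fun v hv w => dif_neg hv
  refine ⟨φ, ψ, ?_, ?_, ?_, ?_, ?_⟩
  · intro v a b ha hb hab
    by_cases hv : ∃ w, H.Adj v w
    · rw [hφpos v hv, hφpos v hv]
      exact hV.d1 _ _ _ (hπD v hv a ha) (hπD v hv b hb) (hπinj v hv a b ha hb hab)
    · rw [hφneg v hv, hφneg v hv]
      intro h
      exact he v a b ha hb hab (Prod.mk.inj h).2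
  · intro v a b ha hb hab
    by_cases hv : ∃ w, H.Adj v w
    · rw [hψpos v hv, hψpos v hv]
      exact hV.d2 _ _ _ (hπD v hv a ha) (hπD v hv b hb) (hπinj v hv a b ha hb hab)
    · rw [hψneg v hv, hψneg v hv]
      intro h
      exact he v a b ha hb hab (Prod.mk.inj h).2
  · intro v a b ha hb
    by_cases hv : ∃ w, H.Adj v w
    · rw [hφpos v hv, hψpos v hv]
      exact hV.d3 _ _ _ (hπD v hv a ha) (hπD v hv b hb)
    · rw [hφneg v hv, hψneg v hv]
      intro h
      have := (Prod.mk.inj h).1
      simp at this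
  · intro v w h
    rw [hφpos v ⟨w, h⟩, hφpos w ⟨v, h.symm⟩, hπpos v _ w h, hπpos w _ v h.symm]
    exact hV.e1 _ _ (D_adj hN h false)
  · intro v w x y h hx hxw hy hyv
    rw [hψpos v ⟨w, h⟩, hψpos w ⟨v, h.symm⟩]
    refine hV.e2 _ _ _ _ (D_adj hN h false) (hπD v ⟨w, h⟩ x hx) ?_ (hπD w ⟨v, h.symm⟩ y hy) ?_
    · rw [← hπpos v ⟨w, h⟩ w h]
      exact hπinj v _ x w hx (hHG _ _ h) hxw
    · rw [← hπpos w ⟨v, h.symm⟩ v h.symm]
      exact hπinj w _ y v hy (hHG _ _ h).symm hyv

end Pool.Agent.Helper850.TC
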