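import Pool.Agent.Helper850.TC.Gr4

namespace Pool.Agent.Helper850.TC

open SimpleGraph

set_option linter.unusedVariables false
set_option linter.unusedSimpArgs false
set_option linter.unusedSectionVars false

theorem mk_inj6 {α : Type*} {a b c d e f : α}
    (h1 : a ≠ b ∧ a ≠ c ∧ a ≠ d ∧ a ≠ e ∧ a ≠ f) (h2 : b ≠ c ∧ b ≠ d ∧ b ≠ e ∧ b ≠ f)
    (h3 : c ≠ d ∧ c ≠ e ∧ c ≠ f) (h4 : d ≠ e ∧ d ≠ f) (h5 : e ≠ f) :
    Function.Injective (![a, b, c, d, e, f] : Fin 6 → α) := by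
  obtain ⟨a1, a2, a3, a4, a5⟩ := h1
  obtain ⟨b1, b2, b3, b4⟩ := h2
  obtain ⟨c1, c2, c3⟩ := h3
  obtain ⟨d1, d2⟩ := h4
  intro i j h
  fin_cases i <;> fin_cases j <;> first | rfl | (exfalso; simp at h; first | exact a1 h | exact a2 h | exact a3 h | exact a4 h | exact a5 h | exact b1 h | exact b2 h | exact b3 h | exact b4 h | exact c1 h | exact c2 h | exact c3 h | exact d1 h | exact d2 h | exact h5 h | exact a1 h.symm | exact a2 h.symm | exact a3 h.symm | exact a4 h.symm | exact a5 h.symm | exact b1 h.symm | exact b2 h.symm | exact b3 h.symm | exact b4 h.symm | exact c1 h.symm | exact c2 h.symm | exact c3 h.symm | exact d1 h.symm | exact d2 h.symm | exact h5 h.symm)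

/-- two enumerations of the six colours are related by a permutation -/
theorem exists_perm6 {u w : Fin 6 → Bool × ZMod 3} (hu : Function.Injective u)
    (hw : Function.Injective w) : ∃ π : (Bool × ZMod 3) ≃ (Bool × ZMod 3), ∀ i, π (w i) = u i := by
  have hc : Fintype.card (Fin 6) = Fintype.card (Bool × ZMod 3) := by decide
  have hu' : Function.Bijective u := (Fintype.bijective_iff_injective_and_card u).2 ⟨hu, hc⟩
  have hw' : Function.Bijective w := (Fintype.bijective_iff_injective_and_card w).2 ⟨hw, hc⟩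
  refine ⟨(Equiv.ofBijective w hw').symm.trans (Equiv.ofBijective u hu'), ?_⟩
  intro i
  rw [Equiv.trans_apply]
  have : (Equiv.ofBijective w hw').symm (w i) = i := by
    rw [Equiv.symm_apply_eq]; rfl
  rw [this]; rfl

theorem step_bridge {V : Type*} [Fintype V] [DecidableEq V] (G : SimpleGraph V)
    [DecidableRel G.Adj] (hG : ∀ v, G.degree v = 3) (K : SimpleGraph V) (hK : K ≤ G)
    {φ ψ : V → V → Bool × ZMod 3} (hV : VC G.Adj K.Adj φ ψ) {a b : V} (hab : G.Adj a b)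
    (hr : ¬ K.Reachable a b) : ∃ φ' ψ' : V → V → Bool × ZMod 3, VC G.Adj (K ⊔ edge a b).Adj φ' ψ' := by
  classical
  have htwo : ∀ x y : V, G.Adj x y → ∃ p q, G.Adj x p ∧ G.Adj x q ∧ p ≠ y ∧ q ≠ y ∧ p ≠ q ∧
      ∀ z, G.Adj x z → z ≠ y → z = p ∨ z = q := by
    intro x y hxy
    have hc1 : ((G.neighborFinset x).erase y).card = 2 := by
      rw [Finset.card_erase_of_mem ((mem_neighborFinset _ _ _).2 hxy),
        card_neighborFinset_eq_degree, hG]
    obtain ⟨p, q, hpq, he⟩ := Finset.card_eq_two.1 hc1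
    have hm : ∀ z, z ∈ (G.neighborFinset x).erase y ↔ (z ≠ y ∧ G.Adj x z) := by
      intro z; rw [Finset.mem_erase, mem_neighborFinset]
    have hp := (hm p).1 (by rw [he]; simp)
    have hq := (hm q).1 (by rw [he]; simp)
    refine ⟨p, q, hp.2, hq.2, hp.1, hq.1, hpq, ?_⟩
    intro z hz hzy
    have := (hm z).2 ⟨hzy, hz⟩
    rw [he, Finset.mem_insert, Finset.mem_singleton] at this
    exact this
  obtain ⟨a1, a2, ha1, ha2, hna1, hna2, haa, hacov⟩ := htwo a b hab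
  obtain ⟨b1, b2, hb1, hb2, hnb1, hnb2, hbb, hbcov⟩ := htwo b a hab.symm
  have hba := hab.symm
  have hu : Function.Injective (![φ a b, φ a a1, φ a a2, ψ a b, ψ a a1, ψ a a2] : Fin 6 → _) :=
    mk_inj6 ⟨hV.d1 _ _ _ hab ha1 hna1.symm, hV.d1 _ _ _ hab ha2 hna2.symm, hV.d3 _ _ _ hab hab,
        hV.d3 _ _ _ hab ha1, hV.d3 _ _ _ hab ha2⟩
      ⟨hV.d1 _ _ _ ha1 ha2 haa, hV.d3 _ _ _ ha1 hab, hV.d3 _ _ _ ha1 ha1, hV.d3 _ _ _ ha1 ha2⟩
      ⟨hV.d3 _ _ _ ha2 hab, hV.d3 _ _ _ ha2 ha1, hV.d3 _ _ _ ha2 ha2⟩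
      ⟨hV.d2 _ _ _ hab ha1 hna1.symm, hV.d2 _ _ _ hab ha2 hna2.symm⟩
      (hV.d2 _ _ _ ha1 ha2 haa)
  have hw : Function.Injective (![φ b a, ψ b b1, ψ b b2, ψ b a, φ b b1, φ b b2] : Fin 6 → _) :=
    mk_inj6 ⟨hV.d3 _ _ _ hba hb1, hV.d3 _ _ _ hba hb2, hV.d3 _ _ _ hba hba,
        hV.d1 _ _ _ hba hb1 hnb1.symm, hV.d1 _ _ _ hba hb2 hnb2.symm⟩
      ⟨hV.d2 _ _ _ hb1 hb2 hbb, hV.d2 _ _ _ hb1 hba hnb1, (hV.d3 _ _ _ hb1 hb1).symm,
        (hV.d3 _ _ _ hb2 hb1).symm⟩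
      ⟨hV.d2 _ _ _ hb2 hba hnb2, (hV.d3 _ _ _ hb1 hb2).symm, (hV.d3 _ _ _ hb2 hb2).symm⟩
      ⟨(hV.d3 _ _ _ hb1 hba).symm, (hV.d3 _ _ _ hb2 hba).symm⟩
      (hV.d1 _ _ _ hb1 hb2 hbb)
  obtain ⟨π, hπ⟩ := exists_perm6 hu hw
  have π0 : π (φ b a) = φ a b := hπ 0
  have π1 : π (ψ b b1) = φ a a1 := hπ 1
  have π2 : π (ψ b b2) = φ a a2 := hπ 2
  let φ' : V → V → Bool × ZMod 3 := fun v w => if K.Reachable b v then π (φ v w) else φ v w
  let ψ' : V → V → Bool × ZMod 3 := fun v w => if K.Reachable b v then π (ψ v w) else ψ v w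
  have p1 : ∀ v w, K.Reachable b v → φ' v w = π (φ v w) := fun v w h => if_pos h
  have p2 : ∀ v w, ¬ K.Reachable b v → φ' v w = φ v w := fun v w h => if_neg h
  have p3 : ∀ v w, K.Reachable b v → ψ' v w = π (ψ v w) := fun v w h => if_pos h
  have p4 : ∀ v w, ¬ K.Reachable b v → ψ' v w = ψ v w := fun v w h => if_neg h
  have hnb : ¬ K.Reachable b a := fun h => hr h.symm
  have hbb' : K.Reachable b b := Reachable.refl b
  have hKr : ∀ v w, K.Adj v w → (K.Reachable b v ↔ K.Reachable b w) :=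
    fun v w h => ⟨fun g => g.trans h.reachable, fun g => g.trans h.symm.reachable⟩
  have hcross : ∀ x y, G.Adj a x → x ≠ b → G.Adj b y → y ≠ a → ψ' a x ≠ ψ' b y := by
    intro x y hx hxb hy hya
    rw [p4 _ _ hnb, p3 _ _ hbb']
    rcases hbcov y hy hya with rfl | rfl
    · rw [π1]; exact (hV.d3 _ _ _ ha1 hx).symm
    · rw [π2]; exact (hV.d3 _ _ _ ha2 hx).symm
  have hadj : ∀ v w, (K ⊔ edge a b).Adj v w → K.Adj v w ∨ (v = a ∧ w = b) ∨ (v = b ∧ w = a) := by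
    intro v w h
    rw [sup_adj, edge_adj] at h
    rcases h with h | h
    · exact Or.inl h
    · rcases h.1 with h1 | h1
      · exact Or.inr (Or.inl h1)
      · exact Or.inr (Or.inr h1)
  refine ⟨φ', ψ', ?_, ?_, ?_, ?_, ?_⟩
  · intro v x y hx hy hxy
    by_cases hv : K.Reachable b v
    · rw [p1 _ _ hv, p1 _ _ hv]
      exact fun h => hV.d1 _ _ _ hx hy hxy (π.injective h)
    · rw [p2 _ _ hv, p2 _ _ hv]
      exact hV.d1 _ _ _ hx hy hxy
  · intro v x y hx hy hxy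
    by_cases hv : K.Reachable b v
    · rw [p3 _ _ hv, p3 _ _ hv]
      exact fun h => hV.d2 _ _ _ hx hy hxy (π.injective h)
    · rw [p4 _ _ hv, p4 _ _ hv]
      exact hV.d2 _ _ _ hx hy hxy
  · intro v x y hx hy
    by_cases hv : K.Reachable b v
    · rw [p1 _ _ hv, p3 _ _ hv]
      exact fun h => hV.d3 _ _ _ hx hy (π.injective h)
    · rw [p2 _ _ hv, p4 _ _ hv]
      exact hV.d3 _ _ _ hx hy
  · intro v w h
    rcases hadj v w h with h1 | ⟨rfl, rfl⟩ | ⟨rfl, rfl⟩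
    · by_cases hv : K.Reachable b v
      · rw [p1 _ _ hv, p1 _ _ ((hKr v w h1).1 hv), hV.e1 _ _ h1]
      · rw [p2 _ _ hv, p2 _ _ (fun g => hv ((hKr v w h1).2 g)), hV.e1 _ _ h1]
    · rw [p2 _ _ hnb, p1 _ _ hbb', π0]
    · rw [p2 _ _ hnb, p1 _ _ hbb', π0]
  · intro v w x y h hx hxw hy hyv
    rcases hadj v w h with h1 | ⟨rfl, rfl⟩ | ⟨rfl, rfl⟩
    · by_cases hv : K.Reachable b v
      · rw [p3 _ _ hv, p3 _ _ ((hKr v w h1).1 hv)]
        exact fun g => hV.e2 _ _ _ _ h1 hx hxw hy hyv (π.injective g)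
      · rw [p4 _ _ hv, p4 _ _ (fun g => hv ((hKr v w h1).2 g))]
        exact hV.e2 _ _ _ _ h1 hx hxw hy hyv
    · exact hcross x y hx hxw hy hyv
    · exact (hcross y x hy hyv hx hxw).symm

theorem exists_VC {V : Type*} [Fintype V] [DecidableEq V] (G : SimpleGraph V)
    [DecidableRel G.Adj] (hG : ∀ v, G.degree v = 3) :
    ∃ φ ψ : V → V → Bool × ZMod 3, VC G.Adj G.Adj φ ψ := by
  classical
  obtain ⟨φ0, ψ0, h0⟩ := exists_VC_nb G hG
  let S : Set (SimpleGraph V) := {K | nb G ≤ K ∧ K ≤ G ∧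
    ∃ φ ψ : V → V → Bool × ZMod 3, VC G.Adj K.Adj φ ψ}
  have hS : S.Nonempty := ⟨nb G, le_rfl, fun v w h => h.1, φ0, ψ0, h0⟩
  have hfin : S.Finite := Set.toFinite S
  obtain ⟨K, hK⟩ := hfin.exists_maximal hS
  obtain ⟨⟨hK1, hK2, φ, ψ, hV⟩, hmax⟩ := hK
  by_cases hKG : K = G
  · subst hKG; exact ⟨φ, ψ, hV⟩
  · exfalso
    have : ∃ a b, G.Adj a b ∧ ¬ K.Adj a b := by
      by_contra hcon
      push Not at hcon
      exact hKG (le_antisymm hK2 (fun a b h => hcon a b h))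
    obtain ⟨a, b, hab, hnab⟩ := this
    have hbr : G.IsBridge s(a, b) := by
      by_contra hcon
      exact hnab (hK1 ⟨hab, hcon⟩)
    have hr : ¬ K.Reachable a b := by
      intro h
      rw [isBridge_iff] at hbr
      apply hbr
      apply h.mono
      intro v w hvw
      rw [deleteEdges_adj]
      refine ⟨hK2 hvw, ?_⟩
      rw [Set.mem_singleton_iff]
      intro heq
      rw [Sym2.eq_iff] at heq
      rcases heq with ⟨rfl, rfl⟩ | ⟨rfl, rfl⟩
      · exact hnab hvw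
      · exact hnab hvw.symm
    obtain ⟨φ', ψ', hV'⟩ := step_bridge G hG K hK2 hV hab hr
    have hmem : (K ⊔ edge a b) ∈ S := by
      refine ⟨hK1.trans le_sup_left, ?_, φ', ψ', hV'⟩
      apply sup_le hK2
      intro v w h
      rw [edge_adj] at h
      rcases h.1 with ⟨rfl, rfl⟩ | ⟨rfl, rfl⟩
      · exact hab
      · exact hab.symm
    have := hmax hmem le_sup_left
    apply hnab
    apply this
    rw [sup_adj, edge_adj]
    exact Or.inr ⟨Or.inl ⟨rfl, rfl⟩, hab.ne⟩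

end Pool.Agent.Helper850.TC
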