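import Pool.Agent.Helper850.TC.Gr5
import Pool.Agent.Helper850.TC.Defs

namespace Pool.Agent.Helper850.TC

open SimpleGraph

set_option linter.unusedVariables false
set_option linter.unusedSimpArgs false
set_option linter.unusedSectionVars false

section
variable {V : Type*} [Fintype V] [DecidableEq V] {G : SimpleGraph V} [DecidableRel G.Adj]

theorem dart_ext' {p q : G.Dart} (h1 : p.fst = q.fst) (h2 : p.snd = q.snd) : p = q := by
  apply Dart.ext
  exact Prod.ext h1 h2

/-- the darts at a vertex of degree three -/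
theorem three_darts (hG : ∀ v, G.degree v = 3) (v : V) : ∃ p q r : G.Dart,
    p.fst = v ∧ q.fst = v ∧ r.fst = v ∧ p ≠ q ∧ p ≠ r ∧ q ≠ r := by
  have h := hG v
  rw [← card_neighborFinset_eq_degree, Finset.card_eq_three] at h
  obtain ⟨a, b, c, hab, hac, hbc, he⟩ := h
  have ha : G.Adj v a := (mem_neighborFinset _ _ _).1 (by rw [he]; simp)
  have hb : G.Adj v b := (mem_neighborFinset _ _ _).1 (by rw [he]; simp)
  have hc : G.Adj v c := (mem_neighborFinset _ _ _).1 (by rw [he]; simp)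
  refine ⟨⟨(v, a), ha⟩, ⟨(v, b), hb⟩, ⟨(v, c), hc⟩, rfl, rfl, rfl, ?_, ?_, ?_⟩
  · intro h; exact hab (congrArg (fun d : G.Dart => d.snd) h)
  · intro h; exact hac (congrArg (fun d : G.Dart => d.snd) h)
  · intro h; exact hbc (congrArg (fun d : G.Dart => d.snd) h)

theorem dart_cover (hG : ∀ v, G.degree v = 3) {v : V} {p q r s : G.Dart}
    (hp : p.fst = v) (hq : q.fst = v) (hr : r.fst = v) (hs : s.fst = v)
    (hpq : p ≠ q) (hpr : p ≠ r) (hqr : q ≠ r) : s = p ∨ s = q ∨ s = r := by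
  have h := hG v
  rw [← card_neighborFinset_eq_degree] at h
  have hm : ∀ d : G.Dart, d.fst = v → d.snd ∈ G.neighborFinset v := by
    intro d hd; rw [mem_neighborFinset, ← hd]; exact d.adj
  have hne : ∀ d e : G.Dart, d.fst = v → e.fst = v → d ≠ e → d.snd ≠ e.snd := by
    intro d e hd he hde h; exact hde (dart_ext' (hd.trans he.symm) h)
  have hcard : ({p.snd, q.snd, r.snd} : Finset V).card = 3 := by
    rw [Finset.card_eq_three]
    exact ⟨_, _, _, hne p q hp hq hpq, hne p r hp hr hpr, hne q r hq hr hqr, rfl⟩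
  have hsub : ({p.snd, q.snd, r.snd} : Finset V) ⊆ G.neighborFinset v := by
    intro x hx
    simp only [Finset.mem_insert, Finset.mem_singleton] at hx
    rcases hx with rfl | rfl | rfl
    · exact hm p hp
    · exact hm q hq
    · exact hm r hr
  have heq := Finset.eq_of_subset_of_card_le hsub (by rw [h, hcard])
  have := hm s hs
  rw [← heq] at this
  simp only [Finset.mem_insert, Finset.mem_singleton] at this
  rcases this with h1 | h1 | h1
  · left; exact dart_ext' (hs.trans hp.symm) h1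
  · right; left; exact dart_ext' (hs.trans hq.symm) h1
  · right; right; exact dart_ext' (hs.trans hr.symm) h1

theorem third_dart (hG : ∀ v, G.degree v = 3) {v : V} {p q : G.Dart}
    (hp : p.fst = v) (hq : q.fst = v) (hpq : p ≠ q) : ∃ r : G.Dart, r.fst = v ∧ p ≠ r ∧ q ≠ r := by
  obtain ⟨a, b, c, ha, hb, hc, hab, hac, hbc⟩ := three_darts hG v
  by_contra hcon
  push Not at hcon
  have h1 : a = p ∨ a = q := by
    by_contra h; push Not at h; exact h.2 (hcon a ha h.1.symm).symm
  have h2 : b = p ∨ b = q := by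
    by_contra h; push Not at h; exact h.2 (hcon b hb h.1.symm).symm
  have h3 : c = p ∨ c = q := by
    by_contra h; push Not at h; exact h.2 (hcon c hc h.1.symm).symm
  rcases h1 with rfl | rfl <;> rcases h2 with rfl | rfl <;> rcases h3 with rfl | rfl <;>
    first | exact absurd rfl hab | exact absurd rfl hac | exact absurd rfl hbc

variable (φ ψ : V → V → Bool × ZMod 3)

/-- the edge `e` of the truncation touches the triangle of `v` and has colour `x` -/
def AtV (v : V) (e : Sym2 G.Dart) (x : Bool × ZMod 3) : Prop :=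
  (∃ d : G.Dart, d.fst = v ∧ e = s(d, d.symm) ∧ x = φ v d.snd) ∨
  (∃ p q r : G.Dart, p.fst = v ∧ q.fst = v ∧ r.fst = v ∧ p ≠ q ∧ p ≠ r ∧ q ≠ r ∧ e = s(p, q) ∧
    x = ψ v r.snd)

variable {φ ψ}

theorem exists_col (hG : ∀ v, G.degree v = 3) (hV : VC G.Adj G.Adj φ ψ) (e : Sym2 G.Dart)
    (he : e ∈ (truncation G).edgeSet) : ∃ x, ∀ p ∈ e, AtV φ ψ p.fst e x := by
  induction e with
  | h a b =>
    rcases he with ⟨h1, h2⟩ | h
    · obtain ⟨r, hr, hpr, hqr⟩ := third_dart hG (v := a.fst) rfl h1.symm h2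
      refine ⟨ψ a.fst r.snd, ?_⟩
      intro p hp
      have hpf : p.fst = a.fst := by
        rcases Sym2.mem_iff.1 hp with rfl | rfl
        · rfl
        · exact h1.symm
      rw [hpf]
      exact Or.inr ⟨a, b, r, rfl, h1.symm, hr, h2, hpr, hqr, rfl, rfl⟩
    · have h' : b = a.symm := h
      clear h
      subst h'
      refine ⟨φ a.fst a.snd, ?_⟩
      intro p hp
      rcases Sym2.mem_iff.1 hp with rfl | rfl
      · exact Or.inl ⟨p, rfl, rfl, rfl⟩
      · refine Or.inl ⟨a.symm, rfl, ?_, ?_⟩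
        · rw [Dart.symm_symm, Sym2.eq_swap]
        · exact hV.e1 _ _ a.adj

theorem atV_ne (hG : ∀ v, G.degree v = 3) (hV : VC G.Adj G.Adj φ ψ) {v : V} {e f : Sym2 G.Dart}
    {x y : Bool × ZMod 3} (he : AtV φ ψ v e x) (hf : AtV φ ψ v f y) (hef : e ≠ f) : x ≠ y := by
  have hadj : ∀ d : G.Dart, d.fst = v → G.Adj v d.snd := by
    intro d hd; rw [← hd]; exact d.adj
  have hne : ∀ d e : G.Dart, d.fst = v → e.fst = v → d ≠ e → d.snd ≠ e.snd := by
    intro d e hd he hde h; exact hde (dart_ext' (hd.trans he.symm) h)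
  rcases he with ⟨d, hd, rfl, rfl⟩ | ⟨p, q, r, hp, hq, hr, hpq, hpr, hqr, rfl, rfl⟩ <;>
    rcases hf with ⟨d', hd', rfl, rfl⟩ | ⟨p', q', r', hp', hq', hr', hpq', hpr', hqr', rfl, rfl⟩
  · exact hV.d1 _ _ _ (hadj d hd) (hadj d' hd') (hne _ _ hd hd' (fun h => hef (by rw [h])))
  · exact hV.d3 _ _ _ (hadj d hd) (hadj r' hr')
  · exact (hV.d3 _ _ _ (hadj d' hd') (hadj r hr)).symm
  · apply hV.d2 _ _ _ (hadj r hr) (hadj r' hr') (hne _ _ hr hr' _)
    rintro rfl
    apply hef
    have h1 : p' = p ∨ p' = q := by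
      rcases dart_cover hG hp hq hr hp' hpq hpr hqr with h | h | h
      · exact Or.inl h
      · exact Or.inr h
      · exact absurd h hpr'
    have h2 : q' = p ∨ q' = q := by
      rcases dart_cover hG hp hq hr hq' hpq hpr hqr with h | h | h
      · exact Or.inl h
      · exact Or.inr h
      · exact absurd h hqr'
    rcases h1 with rfl | rfl <;> rcases h2 with rfl | rfl
    · exact absurd rfl hpq'
    · rfl
    · exact Sym2.eq_swap
    · exact absurd rfl hpq'

theorem upper_bound (hG : ∀ v, G.degree v = 3) : StrongColorable (truncation G) 6 := by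
  classical
  obtain ⟨φ, ψ, hV⟩ := exists_VC G hG
  have hcol := fun e : (truncation G).edgeSet => exists_col hG hV e.1 e.2
  choose c hc using hcol
  have hcard : Fintype.card (Bool × ZMod 3) = Fintype.card (Fin 6) := by decide
  let E := Fintype.equivOfCardEq hcard
  refine ⟨fun e => E (c e), ?_⟩
  intro e f hef hconf heq
  have heq' : c e = c f := E.injective heq
  have hef' : e.1 ≠ f.1 := fun h => hef (Subtype.ext h)
  have share : ∀ x y : G.Dart, x ∈ e.1 → y ∈ f.1 → x.fst = y.fst → False := by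
    intro x y hx hy hxy
    have h1 := hc e x hx
    have h2 := hc f y hy
    rw [← hxy] at h2
    exact atV_ne hG hV h1 h2 hef' heq'
  rcases hconf with ⟨x, hx, hy⟩ | ⟨g, hg, hge, hgf, ⟨x, hx, hxg⟩, ⟨y, hyg, hy⟩⟩
  · exact share x x hx hy rfl
  · by_cases hxy : x = y
    · subst hxy; exact share x x hx hy rfl
    · have hgxy : g = s(x, y) := (Sym2.mem_and_mem_iff hxy).1 ⟨hxg, hyg⟩
      subst hgxy
      rcases hg with ⟨h1, _⟩ | h1
      · exact share x y hx hy h1
      · have h1' : y = x.symm := h1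
        clear h1
        subst h1'
        -- both are triangle edges at the two ends
        have key : ∀ (z : G.Dart) (e : Sym2 G.Dart) (w : Bool × ZMod 3), z ∈ e → s(z, z.symm) ≠ e →
            AtV φ ψ z.fst e w → ∃ r : G.Dart, r.fst = z.fst ∧ r ≠ z ∧ w = ψ z.fst r.snd := by
          intro z e w hz hne hat
          rcases hat with ⟨d, hd, rfl, rfl⟩ | ⟨p, q, r, hp, hq, hr, hpq, hpr, hqr, rfl, rfl⟩
          · exfalso
            rcases Sym2.mem_iff.1 hz with rfl | h
            · exact hne rfl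
            · have : d.fst = d.snd := by
                rw [hd, h]; rfl
              exact d.adj.ne this
          · refine ⟨r, hr, ?_, rfl⟩
            rcases Sym2.mem_iff.1 hz with rfl | rfl
            · exact hpr.symm
            · exact hqr.symm
        obtain ⟨r, hr1, hr2, hr3⟩ := key x e.1 (c e) hx hge (hc e x hx)
        have hgf' : s(x.symm, x.symm.symm) ≠ f.1 := by
          rw [Dart.symm_symm, Sym2.eq_swap]; exact hgf
        obtain ⟨t, ht1, ht2, ht3⟩ := key x.symm f.1 (c f) hy hgf' (hc f _ hy)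
        have e2 := hV.e2 x.fst x.snd r.snd t.snd x.adj (by rw [← hr1]; exact r.adj)
          (fun h => hr2 (dart_ext' hr1 h)) (by
            have : t.fst = x.snd := ht1
            rw [← this]; exact t.adj)
          (fun h => ht2 (dart_ext' ht1 h))
        apply e2
        rw [← hr3]
        have : ψ x.snd t.snd = c f := ht3.symm
        rw [this, heq']

theorem lower_bound (hG : ∀ v, G.degree v = 3) [Nonempty V] {n : ℕ}
    (h : StrongColorable (truncation G) n) : 6 ≤ n := by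
  classical
  obtain ⟨c, hc⟩ := h
  obtain ⟨v⟩ := (inferInstance : Nonempty V)
  obtain ⟨p, q, r, hp, hq, hr, hpq, hpr, hqr⟩ := three_darts hG v
  have hconf : ∀ (e f : (truncation G).edgeSet) (x y : G.Dart), x ∈ e.1 → y ∈ f.1 → x.fst = v →
      y.fst = v → e ≠ f → c e ≠ c f := by
    intro e f x y hx hy hxv hyv hef
    apply hc e f hef
    by_cases hxy : x = y
    · subst hxy; exact Or.inl ⟨x, hx, hy⟩
    · have hg : s(x, y) ∈ (truncation G).edgeSet := Or.inl ⟨hxv.trans hyv.symm, hxy⟩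
      by_cases h1 : s(x, y) = e.1
      · left; exact ⟨y, by rw [← h1]; exact Sym2.mem_mk_right _ _, hy⟩
      · by_cases h2 : s(x, y) = f.1
        · left; exact ⟨x, hx, by rw [← h2]; exact Sym2.mem_mk_left _ _⟩
        · right
          exact ⟨s(x, y), hg, h1, h2, ⟨x, hx, Sym2.mem_mk_left _ _⟩, ⟨y, Sym2.mem_mk_right _ _, hy⟩⟩
  have m1 : s(p, q) ∈ (truncation G).edgeSet := Or.inl ⟨hp.trans hq.symm, hpq⟩
  have m2 : s(p, r) ∈ (truncation G).edgeSet := Or.inl ⟨hp.trans hr.symm, hpr⟩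
  have m3 : s(q, r) ∈ (truncation G).edgeSet := Or.inl ⟨hq.trans hr.symm, hqr⟩
  have m4 : ∀ d : G.Dart, s(d, d.symm) ∈ (truncation G).edgeSet := fun d => Or.inr rfl
  have hsv : ∀ d : G.Dart, d.fst = v → d.symm.fst ≠ v := by
    intro d hd h
    have h1 : d.snd = v := h
    exact d.adj.ne (hd.trans h1.symm)
  have n1 : ∀ a b d : G.Dart, a.fst = v → b.fst = v → d.fst = v → s(a, b) ≠ s(d, d.symm) := by
    intro a b d ha hb hd h
    rw [Sym2.eq_iff] at h
    rcases h with ⟨_, h⟩ | ⟨h, _⟩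
    · exact hsv d hd (by rw [← h]; exact hb)
    · exact hsv d hd (by rw [← h]; exact ha)
  have n2 : ∀ a b : G.Dart, a.fst = v → b.fst = v → a ≠ b → s(a, a.symm) ≠ s(b, b.symm) := by
    intro a b ha hb hab h
    rw [Sym2.eq_iff] at h
    rcases h with ⟨h, _⟩ | ⟨h, _⟩
    · exact hab h
    · exact hsv b hb (by rw [← h]; exact ha)
  have n3 : s(p, q) ≠ s(p, r) := by
    intro h; rw [Sym2.eq_iff] at h
    rcases h with ⟨_, h⟩ | ⟨h, _⟩
    · exact hqr h
    · exact hpr h
  have n4 : s(p, q) ≠ s(q, r) := by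
    intro h; rw [Sym2.eq_iff] at h
    rcases h with ⟨h, _⟩ | ⟨h, _⟩
    · exact hpq h
    · exact hpr h
  have n5 : s(p, r) ≠ s(q, r) := by
    intro h; rw [Sym2.eq_iff] at h
    rcases h with ⟨h, _⟩ | ⟨h, _⟩
    · exact hpq h
    · exact hpr h
  have sub : ∀ {a b : Sym2 G.Dart} (ha : a ∈ (truncation G).edgeSet) (hb : b ∈ (truncation G).edgeSet),
      a ≠ b → (⟨a, ha⟩ : (truncation G).edgeSet) ≠ ⟨b, hb⟩ :=
    fun ha hb hab h => hab (congrArg Subtype.val h)
  have hinj : Function.Injective (![c ⟨_, m1⟩, c ⟨_, m2⟩, c ⟨_, m3⟩, c ⟨_, m4 p⟩, c ⟨_, m4 q⟩,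
      c ⟨_, m4 r⟩] : Fin 6 → Fin n) := by
    have pl : ∀ a b : G.Dart, a ∈ s(a, b) := fun a b => Sym2.mem_mk_left _ _
    have pr : ∀ a b : G.Dart, b ∈ s(a, b) := fun a b => Sym2.mem_mk_right _ _
    apply mk_inj6
    · exact ⟨hconf _ _ p p (pl _ _) (pl _ _) hp hp (sub _ _ n3),
        hconf _ _ p q (pl _ _) (pl _ _) hp hq (sub _ _ n4),
        hconf _ _ p p (pl _ _) (pl _ _) hp hp (sub _ _ (n1 _ _ _ hp hq hp)),
        hconf _ _ p q (pl _ _) (pl _ _) hp hq (sub _ _ (n1 _ _ _ hp hq hq)),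
        hconf _ _ p r (pl _ _) (pl _ _) hp hr (sub _ _ (n1 _ _ _ hp hq hr))⟩
    · exact ⟨hconf _ _ p q (pl _ _) (pl _ _) hp hq (sub _ _ n5),
        hconf _ _ p p (pl _ _) (pl _ _) hp hp (sub _ _ (n1 _ _ _ hp hr hp)),
        hconf _ _ p q (pl _ _) (pl _ _) hp hq (sub _ _ (n1 _ _ _ hp hr hq)),
        hconf _ _ p r (pl _ _) (pl _ _) hp hr (sub _ _ (n1 _ _ _ hp hr hr))⟩
    · exact ⟨hconf _ _ q p (pl _ _) (pl _ _) hq hp (sub _ _ (n1 _ _ _ hq hr hp)),
        hconf _ _ q q (pl _ _) (pl _ _) hq hq (sub _ _ (n1 _ _ _ hq hr hq)),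
        hconf _ _ q r (pl _ _) (pl _ _) hq hr (sub _ _ (n1 _ _ _ hq hr hr))⟩
    · exact ⟨hconf _ _ p q (pl _ _) (pl _ _) hp hq (sub _ _ (n2 _ _ hp hq hpq)),
        hconf _ _ p r (pl _ _) (pl _ _) hp hr (sub _ _ (n2 _ _ hp hr hpr))⟩
    · exact hconf _ _ q r (pl _ _) (pl _ _) hq hr (sub _ _ (n2 _ _ hq hr hqr))
  have := Fintype.card_le_of_injective _ hinj
  simpa using this

theorem main_six (hG : ∀ v, G.degree v = 3) [Nonempty V] :
    strongChromaticIndex (truncation G) = 6 := by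
  apply le_antisymm
  · exact Nat.sInf_le (upper_bound hG)
  · apply le_csInf ⟨6, upper_bound hG⟩
    intro n hn
    exact lower_bound hG hn

end

end Pool.Agent.Helper850.TC
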