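import Mathlib

namespace Pool.Agent.Helper850.TC

open Classical

theorem exists_ne_two (a b : ZMod 3) : ∃ c : ZMod 3, c ≠ a ∧ c ≠ b := by
  revert a b; decide

/-- three-colouring lemma for a self map without relevant fixed points -/
theorem katetov {S : Type*} (N : Finset S) (f : S → S) :
    ∃ c : S → ZMod 3, ∀ s ∈ N, f s ∈ N → f s ≠ s → c s ≠ c (f s) := by
  induction hn : N.card generalizing N with
  | zero =>
    refine ⟨fun _ => 0, ?_⟩
    intro s hs
    rw [Finset.card_eq_zero] at hn
    rw [hn] at hs
    exact absurd hs (Finset.notMem_empty s)
  | succ n ih =>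
    -- an element with at most one preimage
    have hne : N.Nonempty := by
      rw [← Finset.card_pos]; omega
    have hex : ∃ x ∈ N, (N.filter (fun y => f y = x)).card ≤ 1 := by
      by_contra hcon
      push Not at hcon
      have h1 : ∑ x ∈ N, (N.filter (fun y => f y = x)).card ≤ N.card := by
        rw [← Finset.card_biUnion]
        · apply Finset.card_le_card
          intro y hy
          rw [Finset.mem_biUnion] at hy
          obtain ⟨x, _, hy⟩ := hy
          exact (Finset.mem_filter.1 hy).1
        · intro x _ y _ hxy
          rw [Function.onFun, Finset.disjoint_left]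
          intro z hz1 hz2
          exact hxy ((Finset.mem_filter.1 hz1).2.symm.trans (Finset.mem_filter.1 hz2).2)
      have h2 : ∑ x ∈ N, 2 ≤ ∑ x ∈ N, (N.filter (fun y => f y = x)).card :=
        Finset.sum_le_sum (fun x hx => hcon x hx)
      rw [Finset.sum_const, smul_eq_mul] at h2
      omega
    obtain ⟨x, hx, hcard⟩ := hex
    obtain ⟨c, hc⟩ := ih (N.erase x) (by rw [Finset.card_erase_of_mem hx]; omega)
    -- unique preimage
    obtain ⟨y, hy⟩ : ∃ y, ∀ z ∈ N, f z = x → z = y := by
      rcases Finset.eq_empty_or_nonempty (N.filter (fun y => f y = x)) with h | ⟨y, hy⟩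
      · refine ⟨x, fun z hz hfz => ?_⟩
        have : z ∈ N.filter (fun y => f y = x) := Finset.mem_filter.2 ⟨hz, hfz⟩
        rw [h] at this
        exact absurd this (Finset.notMem_empty z)
      · refine ⟨y, fun z hz hfz => ?_⟩
        exact Finset.card_le_one.1 hcard z (Finset.mem_filter.2 ⟨hz, hfz⟩) y hy
    obtain ⟨a, ha1, ha2⟩ := exists_ne_two (c (f x)) (c y)
    refine ⟨Function.update c x a, ?_⟩
    intro s hs hfs hne
    by_cases hsx : s = x
    · subst hsx
      rw [Function.update_self, Function.update_of_ne hne]
      exact ha1
    · rw [Function.update_of_ne hsx]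
      by_cases hfx : f s = x
      · rw [hfx, Function.update_self]
        have := hy s hs hfx
        rw [this]; exact ha2.symm
      · rw [Function.update_of_ne hfx]
        exact hc s (Finset.mem_erase.2 ⟨hsx, hs⟩) (Finset.mem_erase.2 ⟨hfx, hfs⟩) hne

theorem sub_ne_zero' {a b : ZMod 3} (h : a ≠ b) : a - b ≠ 0 := sub_ne_zero.2 h

/-- the needy-run lemma -/
theorem needy {S : Type*} (N : Finset S) (f : S → S) (sd : S → Bool)
    (hf : ∀ s ∈ N, f s ≠ s) (base : S → ZMod 3) :
    ∃ L d : S → ZMod 3, (∀ s, d s ≠ 0) ∧
      ∀ s ∈ N, L s = if f s ∈ N then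
        (L (f s) + (if sd s = true then d (f s) else - d (f s))) else base s := by
  induction hn : N.card generalizing N base with
  | zero =>
    rw [Finset.card_eq_zero] at hn
    subst hn
    exact ⟨fun _ => 0, fun _ => 1, fun _ => one_ne_zero, fun s hs => absurd hs (Finset.notMem_empty s)⟩
  | succ n ih =>
    by_cases hA : ∃ s ∈ N, f s ∉ N
    · obtain ⟨s, hs, hfs⟩ := hA
      obtain ⟨L, d, hd, hL⟩ := ih (N.erase s)
        (fun t ht => hf t (Finset.mem_of_mem_erase ht))
        (fun t => if f t = s then base s + (if sd t = true then 1 else -1) else base t)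
        (by rw [Finset.card_erase_of_mem hs]; omega)
      refine ⟨Function.update L s (base s), Function.update d s 1, ?_, ?_⟩
      · intro t
        by_cases ht : t = s
        · subst ht; rw [Function.update_self]; decide
        · rw [Function.update_of_ne ht]; exact hd t
      · intro t ht
        by_cases hts : t = s
        · subst hts
          rw [Function.update_self, if_neg hfs]
        · rw [Function.update_of_ne hts]
          have h1 := hL t (Finset.mem_erase.2 ⟨hts, ht⟩)
          rw [h1]
          by_cases hft : f t = s
          · have h2 : f t ∉ N.erase s := by rw [hft]; exact Finset.notMem_erase s N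
            have h4 : f t ∈ N := by rw [hft]; exact hs
            rw [if_neg h2, if_pos hft, if_pos h4]
            rw [hft, Function.update_self, Function.update_self]
          · rw [if_neg hft]
            by_cases hfN : f t ∈ N
            · rw [if_pos (Finset.mem_erase.2 ⟨hft, hfN⟩), if_pos hfN,
                Function.update_of_ne hft, Function.update_of_ne hft]
            · rw [if_neg (fun h => hfN (Finset.mem_of_mem_erase h)), if_neg hfN]
    · push Not at hA
      by_cases hB : ∃ s ∈ N, ∀ t ∈ N, f t ≠ s
      · obtain ⟨s, hs, hst⟩ := hB
        obtain ⟨L, d, hd, hL⟩ := ih (N.erase s)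
          (fun t ht => hf t (Finset.mem_of_mem_erase ht)) base
          (by rw [Finset.card_erase_of_mem hs]; omega)
        refine ⟨Function.update L s (L (f s) + (if sd s = true then d (f s) else - d (f s))), d,
          hd, ?_⟩
        intro t ht
        rw [if_pos (hA t ht)]
        rw [Function.update_of_ne (hst t ht)]
        by_cases hts : t = s
        · subst hts
          rw [Function.update_self]
        · rw [Function.update_of_ne hts, hL t (Finset.mem_erase.2 ⟨hts, ht⟩),
            if_pos (Finset.mem_erase.2 ⟨hst t ht, hA t ht⟩)]
      · push Not at hB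
        -- f is a bijection on N
        have hinj : Set.InjOn f N := by
          apply Finset.injOn_of_surjOn_of_card_le (s := N) (t := N) f
          · intro x hx; exact hA x hx
          · intro x hx
            obtain ⟨t, ht, hft⟩ := hB x hx
            exact ⟨t, ht, hft⟩
          · exact le_rfl
        obtain ⟨c, hc⟩ := katetov N f
        have hinv : ∀ t : S, ∃ s : S, t ∈ N → (s ∈ N ∧ f s = t) := by
          intro t
          by_cases ht : t ∈ N
          · obtain ⟨s, hs, hfs⟩ := hB t ht
            exact ⟨s, fun _ => ⟨hs, hfs⟩⟩
          · exact ⟨t, fun h => absurd h ht⟩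
        choose g hg using hinv
        refine ⟨c, fun t => if t ∈ N then
          (if sd (g t) = true then c (g t) - c t else c t - c (g t)) else 1, ?_, ?_⟩
        · intro t
          by_cases ht : t ∈ N
          · simp only [if_pos ht]
            obtain ⟨h1, h2⟩ := hg t ht
            have h3 := hc (g t) h1 (by rw [h2]; exact ht) (hf _ h1)
            rw [h2] at h3
            split_ifs
            · exact sub_ne_zero.2 h3
            · exact sub_ne_zero.2 h3.symm
          · simp only [if_neg ht]; decide
        · intro s hs
          rw [if_pos (hA s hs)]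
          obtain ⟨h1, h2⟩ := hg (f s) (hA s hs)
          have h3 : g (f s) = s := hinj h1 hs h2
          simp only [if_pos (hA s hs), h3]
          split_ifs <;> ring

end Pool.Agent.Helper850.TC
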