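import Pool.Agent.Helper850.TC.Struct

namespace Pool.Agent.Helper850.TC

open Classical

set_option linter.unusedSectionVars false

section
variable {ι : Type*} {k : ι → ℕ} [∀ c, NeZero (k c)] (M : Vx k → Vx k) (l r : Vx k → Bool)

def TT (v : Vx k) : Prop := r v = false ∧ l (pv v) = l v

noncomputable def v0 (c : ι) : Vx k :=
  if h : ∃ v : Vx k, v.1 = c ∧ TT l r v then h.choose else ⟨c, 0⟩

variable {l r}

theorem v0_fst (c : ι) : (v0 (k := k) l r c).1 = c := by
  unfold v0
  split_ifs with h
  · exact h.choose_spec.1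
  · rfl

theorem v0_T3 {v : Vx k} (h : TT l r v) : TT l r (v0 l r v.1) := by
  have h' : ∃ w : Vx k, w.1 = v.1 ∧ TT l r w := ⟨v, rfl, h⟩
  unfold v0
  rw [dif_pos h']
  exact h'.choose_spec.2

variable (l r)

def St (v : Vx k) : Prop :=
  l v = true ∧ (l (pv v) = false ∨ ((∀ w : Vx k, w.1 = v.1 → l w = true) ∧ v = v0 l r v.1))

variable {l r}

theorem exSt {v : Vx k} (h : l v = true) : ∃ n, St l r (pv^[n] v) := by
  by_contra hne
  push Not at hne
  have hall : ∀ n, l (pv^[n] v) = true := by
    intro n
    induction n with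
    | zero => simpa using h
    | succ n ih =>
      have h1 := hne n
      rw [Function.iterate_succ_apply']
      by_contra h2
      apply h1
      refine ⟨ih, Or.inl ?_⟩
      simpa using h2
  have hallA : ∀ w : Vx k, w.1 = v.1 → l w = true := by
    intro w hw
    obtain ⟨n, hn⟩ := exists_pv_iter v w hw
    rw [← hn]; exact hall n
  obtain ⟨n, hn⟩ := exists_pv_iter v (v0 l r v.1) (v0_fst v.1)
  apply hne n
  rw [hn]
  refine ⟨?_, Or.inr ⟨?_, ?_⟩⟩
  · rw [← hn]; exact hall n
  · intro w hw
    rw [v0_fst] at hw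
    exact hallA w hw
  · rw [v0_fst]

variable (l r)
noncomputable def src (v : Vx k) : Vx k := hit pv (St l r) v
noncomputable def ps (v : Vx k) : ℕ := pos pv (St l r) v
variable {l r}

theorem src_St {v : Vx k} (h : l v = true) : St l r (src l r v) := hit_spec (exSt h)
theorem src_of_St {v : Vx k} (h : St l r v) : src l r v = v := hit_of h
theorem ps_of_St {v : Vx k} (h : St l r v) : ps l r v = 0 := pos_of h

theorem src_fst (v : Vx k) : (src l r v).1 = v.1 := by
  unfold src hit
  rw [pv_iter]

theorem lpv_of_not_St {v : Vx k} (h : l v = true) (h' : ¬ St l r v) : l (pv v) = true := by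
  by_contra h2
  exact h' ⟨h, Or.inl (by simpa using h2)⟩

theorem src_step {v : Vx k} (h : l v = true) (h' : ¬ St l r v) :
    src l r v = src l r (pv v) :=
  hit_succ h' (exSt (lpv_of_not_St h h'))

theorem ps_step {v : Vx k} (h : l v = true) (h' : ¬ St l r v) :
    ps l r v = ps l r (pv v) + 1 :=
  pos_succ h' (exSt (lpv_of_not_St h h'))

/-- next vertex with label false -/
noncomputable def en (l : Vx k → Bool) (v : Vx k) : Vx k := hit nx (fun u => l u = false) v
noncomputable def ns (l : Vx k → Bool) (v : Vx k) : Vx k := hit nx (fun u => l u = true) v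

theorem ex_nx {l : Vx k → Bool} {b : Bool} {v : Vx k} (h : ∃ w : Vx k, w.1 = v.1 ∧ l w = b) :
    ∃ n, l (nx^[n] v) = b := by
  obtain ⟨w, hw, hb⟩ := h
  obtain ⟨n, hn⟩ := exists_nx_iter v w hw
  exact ⟨n, by rw [hn]; exact hb⟩

theorem en_spec {v : Vx k} (h : ∃ w : Vx k, w.1 = v.1 ∧ l w = false) : l (en l v) = false :=
  hit_spec (S := fun u => l u = false) (ex_nx h)

theorem ns_spec {v : Vx k} (h : ∃ w : Vx k, w.1 = v.1 ∧ l w = true) : l (ns l v) = true :=
  hit_spec (S := fun u => l u = true) (ex_nx h)

theorem en_of {v : Vx k} (h : l v = false) : en l v = v := hit_of (S := fun u => l u = false) h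
theorem ns_of {v : Vx k} (h : l v = true) : ns l v = v := hit_of (S := fun u => l u = true) h

theorem en_fst (v : Vx k) : (en l v).1 = v.1 := by
  unfold en hit; rw [nx_iter]
theorem ns_fst (v : Vx k) : (ns l v).1 = v.1 := by
  unfold ns hit; rw [nx_iter]

theorem en_step {v : Vx k} (h : l v = true) (hf : ∃ w : Vx k, w.1 = v.1 ∧ l w = false) :
    en l v = en l (nx v) :=
  hit_succ (S := fun u => l u = false) (by simp [h]) (ex_nx hf)

theorem ns_step {v : Vx k} (h : l v = false) (hf : ∃ w : Vx k, w.1 = v.1 ∧ l w = true) :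
    ns l v = ns l (nx v) :=
  hit_succ (S := fun u => l u = true) (by simp [h]) (ex_nx hf)

theorem en_src {v : Vx k} (h : l v = true) (hf : ∃ w : Vx k, w.1 = v.1 ∧ l w = false) :
    en l (src l r v) = en l v := by
  have key : ∀ u : Vx k, (∃ n, St l r (pv^[n] u)) → l u = true →
      (∃ w : Vx k, w.1 = u.1 ∧ l w = false) → en l (src l r u) = en l u := by
    intro u hu
    refine hit_induct (g := pv) (S := St l r)
      (P := fun u => l u = true → (∃ w : Vx k, w.1 = u.1 ∧ l w = false) →
        en l (src l r u) = en l u) ?_ ?_ hu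
    · intro v hv _ _
      rw [src_of_St hv]
    · intro v hv ih hlv hf
      have h1 := lpv_of_not_St hlv hv
      rw [src_step hlv hv, ih h1 hf, en_step h1 hf, nx_pv]
  exact key v (exSt h) h hf

/-- the vertex before `en` has label true -/
theorem pv_en {v : Vx k} (h : l v = true) (hf : ∃ w : Vx k, w.1 = v.1 ∧ l w = false) :
    l (pv (en l v)) = true := by
  have key : ∀ u : Vx k, (∃ n, l (nx^[n] u) = false) →
      (∃ w : Vx k, w.1 = u.1 ∧ l w = false) → l u = true →
      l (pv (en l u)) = true := by
    intro u hu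
    refine hit_induct (g := nx) (S := fun u => l u = false)
      (P := fun u => (∃ w : Vx k, w.1 = u.1 ∧ l w = false) →
        l u = true → l (pv (en l u)) = true) ?_ ?_ hu
    · intro v hv _ h2
      rw [hv] at h2; exact absurd h2 (by simp)
    · intro v hv ih hf hlv
      rw [en_step hlv hf]
      by_cases h3 : l (nx v) = true
      · exact ih hf h3
      · have h3' : l (nx v) = false := by simpa using h3
        rw [en_of h3', pv_nx]; exact hlv
  exact key v (ex_nx hf) hf h

/-- the vertex before `ns` has label false -/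
theorem pv_ns {v : Vx k} (h : l v = false) (hf : ∃ w : Vx k, w.1 = v.1 ∧ l w = true) :
    l (pv (ns l v)) = false := by
  have key : ∀ u : Vx k, (∃ n, l (nx^[n] u) = true) →
      (∃ w : Vx k, w.1 = u.1 ∧ l w = true) → l u = false →
      l (pv (ns l u)) = false := by
    intro u hu
    refine hit_induct (g := nx) (S := fun u => l u = true)
      (P := fun u => (∃ w : Vx k, w.1 = u.1 ∧ l w = true) →
        l u = false → l (pv (ns l u)) = false) ?_ ?_ hu
    · intro v hv _ h2
      rw [hv] at h2; exact absurd h2 (by simp)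
    · intro v hv ih hf hlv
      rw [ns_step hlv hf]
      by_cases h3 : l (nx v) = false
      · exact ih hf h3
      · have h3' : l (nx v) = true := by simpa using h3
        rw [ns_of h3', pv_nx]; exact hlv
  exact key v (ex_nx hf) hf h

theorem St_of_edge {s : Vx k} (h1 : l (pv s) = false) (h2 : l s = true) : St l r s :=
  ⟨h2, Or.inl h1⟩

/-- if the next start of `s` is `s` itself, it is the only start -/
theorem uniq_start {s : Vx k} (h1 : l (pv s) = false) (h2 : l s = true)
    (hs : ns l (en l s) = s) {v : Vx k} (hv : v.1 = s.1) :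
    (l v = true → src l r v = s) ∧ (l v = false → ns l v = s) := by
  have hf : ∀ u : Vx k, u.1 = s.1 → ∃ w : Vx k, w.1 = u.1 ∧ l w = false :=
    fun u hu => ⟨pv s, by simp [hu], h1⟩
  have ht : ∀ u : Vx k, u.1 = s.1 → ∃ w : Vx k, w.1 = u.1 ∧ l w = true :=
    fun u hu => ⟨s, by simp [hu], h2⟩
  obtain ⟨n, hn⟩ := exists_nx_iter s v hv
  subst hn
  clear hv
  induction n with
  | zero =>
    refine ⟨fun _ => ?_, fun h => ?_⟩
    · exact src_of_St (St_of_edge h1 h2)
    · simp only [Function.iterate_zero, id] at h
      rw [h] at h2; exact absurd h2 (by simp)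
  | succ n ih =>
    rw [Function.iterate_succ_apply']
    set v := nx^[n] s with hvdef
    have hvf : v.1 = s.1 := nx_iter_fst n s
    obtain ⟨ih1, ih2⟩ := ih
    by_cases hlv : l v = true
    · refine ⟨fun h => ?_, fun h => ?_⟩
      · have hns : ¬ St l r (nx v) := by
          rintro ⟨_, h3 | h3⟩
          · rw [pv_nx] at h3; rw [h3] at hlv; exact absurd hlv (by simp)
          · have := h3.1 (pv s) (by simp [hvf])
            rw [h1] at this; exact absurd this (by simp)
        rw [src_step h hns, pv_nx]; exact ih1 hlv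
      · have e1 : en l v = nx v := by rw [en_step hlv (hf v hvf), en_of h]
        have e2 : en l s = nx v := by
          rw [← e1, ← en_src (r := r) hlv (hf v hvf), ih1 hlv]
        rw [← e2]; exact hs
    · have hlv' : l v = false := by simpa using hlv
      refine ⟨fun h => ?_, fun h => ?_⟩
      · have e1 : nx v = s := by
          rw [← ih2 hlv', ns_step hlv' (ht v hvf), ns_of h]
        rw [e1]
        exact src_of_St (St_of_edge h1 h2)
      · rw [← ns_step hlv' (ht v hvf)]; exact ih2 hlv'

end

end Pool.Agent.Helper850.TC
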