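import Pool.Agent.Helper850.TC.Low1

namespace Pool.Agent.Helper850.TC

open Classical

set_option linter.unusedSectionVars false

section
variable {ι : Type*} {k : ι → ℕ} [∀ c, NeZero (k c)] (M : Vx k → Vx k) (l r : Vx k → Bool)
  (L δ γ : Vx k → ZMod 3)

def SoT (v : Vx k) : Prop := St l r v ∨ TT l r v
def aft (v : Vx k) : Prop := TT l r (hit pv (SoT l r) v)
noncomputable def c0 (s : Vx k) : ZMod 3 := if l (M s) = true then L s else L s + δ s
noncomputable def dd (v : Vx k) : ZMod 3 := δ (src l r v)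
noncomputable def ee (v : Vx k) : ZMod 3 :=
  c0 M l L δ (src l r v) + ((ps l r v : ZMod 3) + 1) * dd l r δ v +
    (if aft l r v then γ (src l r v) else 0)

variable {M l r L δ γ}

theorem exSoT {v : Vx k} (h : l v = true) : ∃ n, SoT l r (pv^[n] v) := by
  obtain ⟨n, hn⟩ := exSt (r := r) h
  exact ⟨n, Or.inl hn⟩

theorem aft_of_TT {v : Vx k} (h : TT l r v) : aft l r v := by
  unfold aft
  rw [hit_of (S := SoT l r) (Or.inr h)]
  exact h

theorem aft_step {v : Vx k} (h : l v = true) (h1 : ¬ St l r v) (h2 : ¬ TT l r v) :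
    aft l r v ↔ aft l r (pv v) := by
  unfold aft
  rw [hit_succ (S := SoT l r) (g := pv) (v := v)]
  · rintro (h3 | h3)
    · exact h1 h3
    · exact h2 h3
  · exact exSoT (lpv_of_not_St h h1)

theorem three_dvd_cast {n : ℕ} (h : n % 3 = 0) : (n : ZMod 3) = 0 := by
  have : 3 ∣ n := Nat.dvd_of_mod_eq_zero h
  exact (ZMod.natCast_eq_zero_iff n 3).2 this

theorem cast_ne_one {n : ℕ} (h : n % 3 ≠ 1) : (n : ZMod 3) ≠ 1 := by
  intro h2
  apply h
  have : ((n : ℕ) : ZMod 3) = ((1 : ℕ) : ZMod 3) := by simpa using h2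
  rw [ZMod.natCast_eq_natCast_iff'] at this
  simpa using this

theorem ps_pv_dvd {v : Vx k} (hall : ∀ w : Vx k, w.1 = v.1 → l w = true)
    (h0 : v = v0 l r v.1) : src l r (pv v) = v ∧ k v.1 ∣ ps l r (pv v) + 1 := by
  have hsrc : src l r (pv v) = v := by
    have h1 : St l r (src l r (pv v)) := src_St (hall (pv v) rfl)
    rcases h1 with ⟨_, h2 | h2⟩
    · have := hall (pv (src l r (pv v))) (by simp [src_fst])
      rw [this] at h2; exact absurd h2 (by simp)
    · rw [h2.2, src_fst, pv_fst]; exact h0.symm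
  refine ⟨hsrc, ?_⟩
  have h3 : pv^[ps l r (pv v)] (pv v) = v := hsrc
  rw [← Function.iterate_succ_apply, pv_iter] at h3
  obtain ⟨c, i⟩ := v
  simp only [Sigma.mk.injEq, heq_eq_eq, true_and] at h3
  rw [sub_eq_self] at h3
  exact (ZMod.natCast_eq_zero_iff _ _).1 h3

theorem ps_pv_lt {v : Vx k} (hv : St l r v) : ps l r (pv v) + 1 ≤ k v.1 := by
  by_contra hcon
  push Not at hcon
  have hpos : 0 < k v.1 := Nat.pos_of_ne_zero (NeZero.ne _)
  have h1 : k v.1 - 1 < ps l r (pv v) := by omega
  have h2 := pos_lt (g := pv) (S := St l r) h1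
  apply h2
  rw [← Function.iterate_succ_apply, pv_iter]
  have : k v.1 - 1 + 1 = k v.1 := by omega
  obtain ⟨c, i⟩ := v
  simp only at this ⊢
  rw [Nat.succ_eq_add_one, this]
  simpa using hv

section F
variable (hG : Good M l r)
include hG

theorem F1 {v : Vx k} (h1 : l (pv v) = true) (h2 : l v = true)
    (h3 : r v = true) : ee M l r L δ γ v = ee M l r L δ γ (pv v) + dd l r δ v ∧
      dd l r δ (pv v) = dd l r δ v := by
  have hTT : ¬ TT l r v := by rintro ⟨h4, _⟩; rw [h3] at h4; exact absurd h4 (by simp)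
  by_cases hS : St l r v
  · -- all true cycle
    obtain ⟨_, h4 | ⟨hall, h0⟩⟩ := hS
    · rw [h1] at h4; exact absurd h4 (by simp)
    obtain ⟨hsrc, hdv⟩ := ps_pv_dvd hall h0
    have hsv : src l r v = v := src_of_St ⟨h2, Or.inr ⟨hall, h0⟩⟩
    have hps : ps l r v = 0 := ps_of_St ⟨h2, Or.inr ⟨hall, h0⟩⟩
    have hnoT : ∀ w : Vx k, w.1 = v.1 → ¬ TT l r w := by
      intro w hw hT
      have := v0_T3 hT
      rw [hw, ← h0] at this
      exact hTT this
    have hk : k v.1 % 3 = 0 := by
      apply ((hG.hc v.1).2.1 _).2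
      · intro i
        by_contra hri
        apply hnoT ⟨v.1, i⟩ rfl
        refine ⟨by simpa using hri, ?_⟩
        exact (hall (pv ⟨v.1, i⟩) rfl).trans (hall ⟨v.1, i⟩ rfl).symm
      · intro i
        show l _ = l _
        rw [hall ⟨v.1, i⟩ rfl, hall ⟨v.1, i - 1⟩ rfl]
    have h5 : ((ps l r (pv v) + 1 : ℕ) : ZMod 3) = 0 := by
      apply three_dvd_cast
      obtain ⟨q, hq⟩ := hdv
      rw [hq, Nat.mul_mod, hk]; simp
    have ha1 : ¬ aft l r v := by
      intro h
      unfold aft at h
      exact hnoT _ (by unfold hit; rw [pv_iter]) h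
    have ha2 : ¬ aft l r (pv v) := by
      intro h
      unfold aft at h
      exact hnoT _ (by unfold hit; rw [pv_iter]; rfl) h
    have hdd : dd l r δ (pv v) = dd l r δ v := by unfold dd; rw [hsrc, hsv]
    refine ⟨?_, hdd⟩
    unfold ee
    rw [if_neg ha1, if_neg ha2, hdd, hsrc, hsv, hps]
    push_cast at h5
    rw [h5]
    ring
  · have hsrc := src_step h2 hS
    have hps := ps_step h2 hS
    have ha := aft_step h2 hS hTT
    have hdd : dd l r δ (pv v) = dd l r δ v := by unfold dd; rw [hsrc]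
    refine ⟨?_, hdd⟩
    unfold ee
    rw [hdd, ← hsrc, hps]
    by_cases h : aft l r v
    · rw [if_pos h, if_pos (ha.1 h)]; push_cast; ring
    · rw [if_neg h, if_neg (fun h' => h (ha.2 h'))]; push_cast; ring

theorem F2 (hδ : ∀ s, δ s ≠ 0) (hγ : ∀ s, δ s + γ s ≠ 0) {v : Vx k}
    (h1 : l (pv v) = true) (h2 : l v = true)
    (h3 : r v = false) : ee M l r L δ γ v ≠ ee M l r L δ γ (pv v) := by
  have hTT : TT l r v := ⟨h3, by rw [h1, h2]⟩
  have ha1 : aft l r v := aft_of_TT hTT
  by_cases hS : St l r v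
  · have hlt := ps_pv_lt hS
    obtain ⟨_, h4 | ⟨hall, h0⟩⟩ := hS
    · rw [h1] at h4; exact absurd h4 (by simp)
    obtain ⟨hsrc, hdv⟩ := ps_pv_dvd hall h0
    have hsv : src l r v = v := src_of_St ⟨h2, Or.inr ⟨hall, h0⟩⟩
    have hps : ps l r v = 0 := ps_of_St ⟨h2, Or.inr ⟨hall, h0⟩⟩
    have hk : k v.1 % 3 ≠ 1 := by
      apply ((hG.hc v.1).2.1 _).1
      · exact ⟨v.2, h3⟩
      · intro i
        show l _ = l _
        rw [hall ⟨v.1, i⟩ rfl, hall ⟨v.1, i - 1⟩ rfl]
    have h5 : ps l r (pv v) + 1 = k v.1 := by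
      apply le_antisymm hlt
      exact Nat.le_of_dvd (by omega) hdv
    have h6 : ((ps l r (pv v) : ZMod 3) + 1) ≠ 1 := by
      have := cast_ne_one hk
      rw [← h5] at this
      push_cast at this
      exact this
    have ha2 : aft l r (pv v) := by
      unfold aft
      have h7 : SoT l r (hit pv (SoT l r) (pv v)) := hit_spec (exSoT (hall _ rfl))
      rcases h7 with h7 | h7
      · have h8 : hit pv (SoT l r) (pv v) = v := by
          rcases h7 with ⟨_, h9 | h9⟩
          · have := hall (pv (hit pv (SoT l r) (pv v))) (by unfold hit; rw [pv_iter]; rfl)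
            rw [this] at h9; exact absurd h9 (by simp)
          · rw [h9.2]
            have : (hit pv (SoT l r) (pv v)).1 = v.1 := by unfold hit; rw [pv_iter]; rfl
            rw [this]; exact h0.symm
        rw [h8]; exact hTT
      · exact h7
    have hdd : dd l r δ (pv v) = dd l r δ v := by unfold dd; rw [hsrc, hsv]
    unfold ee
    rw [if_pos ha1, if_pos ha2, hdd, hsrc, hsv, hps]
    have h7 : dd l r δ v ≠ 0 := hδ _
    intro h8
    have h9 : ((0:ℕ):ZMod 3) + 1 = 1 := by simp
    rw [h9] at h8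
    have h10 : (((ps l r (pv v) : ZMod 3) + 1) - 1) * dd l r δ v = 0 := by
      linear_combination -h8
    rcases mul_eq_zero.1 h10 with h11 | h11
    · exact h6 (by linear_combination h11)
    · exact h7 h11
  · have hsrc := src_step h2 hS
    have hps := ps_step h2 hS
    have hdd : dd l r δ (pv v) = dd l r δ v := by unfold dd; rw [hsrc]
    have h7 : dd l r δ v ≠ 0 := hδ _
    have h8 : dd l r δ v + γ (src l r v) ≠ 0 := hγ _
    unfold ee
    rw [hdd, ← hsrc, hps, if_pos ha1]
    by_cases h : aft l r (pv v)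
    · rw [if_pos h]; push_cast
      intro h9; apply h7; linear_combination h9
    · rw [if_neg h]; push_cast
      intro h9; apply h8; linear_combination h9

end F

theorem F3 {v : Vx k} (h1 : l (pv v) = false) (h2 : l v = true) :
    ee M l r L δ γ v = c0 M l L δ v + δ v ∧ dd l r δ v = δ v := by
  have hS : St l r v := St_of_edge h1 h2
  have hnT : ¬ TT l r v := by
    rintro ⟨_, h⟩; rw [h1, h2] at h; exact absurd h (by simp)
  have ha : ¬ aft l r v := by
    unfold aft
    rw [hit_of (S := SoT l r) (Or.inl hS)]; exact hnT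
  have hdd : dd l r δ v = δ v := by unfold dd; rw [src_of_St hS]
  refine ⟨?_, hdd⟩
  unfold ee
  rw [if_neg ha, hdd, src_of_St hS, ps_of_St hS]
  push_cast; ring

/-- `ee` depends on the parameters only at the source -/
theorem ee_congr {L' δ' γ' : Vx k → ZMod 3} {v : Vx k}
    (h1 : L (src l r v) = L' (src l r v)) (h2 : δ (src l r v) = δ' (src l r v))
    (h3 : γ (src l r v) = γ' (src l r v)) : ee M l r L δ γ v = ee M l r L' δ' γ' v := by
  unfold ee c0 dd
  rw [h1, h2, h3]

end

end Pool.Agent.Helper850.TC
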