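import Pool.Agent.Helper850.TC.Low2
import Pool.Agent.Helper850.TC.Katetov

namespace Pool.Agent.Helper850.TC

open Classical

set_option linter.unusedSectionVars false

section
variable {ι : Type*} {k : ι → ℕ} [∀ c, NeZero (k c)] (M : Vx k → Vx k) (l r : Vx k → Bool)
  (L δ γ : Vx k → ZMod 3)

noncomputable def muA (u : Vx k) : ZMod 3 :=
  if l u = true then
    (if l (pv u) = true then - ee M l r L δ γ (pv u) - ee M l r L δ γ u else c0 M l L δ u)
  else ee M l r L δ γ (pv u) + dd l r δ (pv u)

noncomputable def mm (v : Vx k) : ZMod 3 :=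
  if r v = true then muA M l r L δ γ (M v) else muA M l r L δ γ v

noncomputable def RR (w : Vx k) : ZMod 3 :=
  if l (M w) = true then ee M l r L δ γ (pv w) + dd l r δ (pv w)
  else ee M l r L δ γ (pv w) - dd l r δ (pv w)

noncomputable def mval (s : Vx k) : ℕ :=
  ps l r (pv (en l s)) + 1 + (if l (M s) = true then 0 else 1) +
    (if l (M (en l s)) = true then 0 else 1)

variable {M l r L δ γ}

theorem not_St_nx {v : Vx k} (hv : l v = true) (hf : ∃ w : Vx k, w.1 = v.1 ∧ l w = false) :
    ¬ St l r (nx v) := by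
  rintro ⟨_, h3 | h3⟩
  · rw [pv_nx] at h3; rw [h3] at hv; exact absurd hv (by simp)
  · obtain ⟨w, hw, hlw⟩ := hf
    have := h3.1 w (by simp [hw])
    rw [hlw] at this; exact absurd this (by simp)

theorem src_pv_en {v : Vx k} (h : l v = true) (hf : ∃ w : Vx k, w.1 = v.1 ∧ l w = false) :
    src l r (pv (en l v)) = src l r v := by
  have key : ∀ u : Vx k, (∃ n, l (nx^[n] u) = false) →
      (∃ w : Vx k, w.1 = u.1 ∧ l w = false) → l u = true →
      src l r (pv (en l u)) = src l r u := by
    intro u hu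
    refine hit_induct (g := nx) (S := fun u => l u = false)
      (P := fun u => (∃ w : Vx k, w.1 = u.1 ∧ l w = false) →
        l u = true → src l r (pv (en l u)) = src l r u) ?_ ?_ hu
    · intro v hv _ h2
      rw [hv] at h2; exact absurd h2 (by simp)
    · intro v hv ih hf hlv
      rw [en_step hlv hf]
      by_cases h3 : l (nx v) = true
      · rw [ih hf h3, src_step h3 (not_St_nx hlv hf), pv_nx]
      · have h3' : l (nx v) = false := by simpa using h3
        rw [en_of h3', pv_nx]
  exact key v (ex_nx hf) hf h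

theorem aft_pv_en {v : Vx k} (h : l v = true) (hf : ∃ w : Vx k, w.1 = v.1 ∧ l w = false)
    (ha : aft l r v) : aft l r (pv (en l v)) := by
  have key : ∀ u : Vx k, (∃ n, l (nx^[n] u) = false) →
      (∃ w : Vx k, w.1 = u.1 ∧ l w = false) → l u = true → aft l r u →
      aft l r (pv (en l u)) := by
    intro u hu
    refine hit_induct (g := nx) (S := fun u => l u = false)
      (P := fun u => (∃ w : Vx k, w.1 = u.1 ∧ l w = false) →
        l u = true → aft l r u → aft l r (pv (en l u))) ?_ ?_ hu
    · intro v hv _ h2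
      rw [hv] at h2; exact absurd h2 (by simp)
    · intro v hv ih hf hlv hav
      rw [en_step hlv hf]
      by_cases h3 : l (nx v) = true
      · apply ih hf h3
        by_cases hT : TT l r (nx v)
        · exact aft_of_TT hT
        · rw [aft_step h3 (not_St_nx hlv hf) hT, pv_nx]; exact hav
      · have h3' : l (nx v) = false := by simpa using h3
        rw [en_of h3', pv_nx]; exact hav
  exact key v (ex_nx hf) hf h ha

theorem three_zero : (3 : ZMod 3) = 0 := by decide

theorem RR_eq {s : Vx k} (h1 : l (pv s) = false) (h2 : l s = true) :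
    RR M l r L δ γ (en l s) = L s + ((mval M l r s : ZMod 3) + 1) * δ s +
      (if aft l r (pv (en l s)) then γ s else 0) := by
  have hf : ∃ w : Vx k, w.1 = s.1 ∧ l w = false := ⟨pv s, rfl, h1⟩
  have hS : St l r s := St_of_edge h1 h2
  have hsrc : src l r (pv (en l s)) = s := by rw [src_pv_en h2 hf, src_of_St hS]
  unfold RR ee dd c0 mval
  rw [hsrc]
  have h3 := three_zero
  split_ifs <;> push_cast <;> first | ring1 | linear_combination (-δ s) * h3

theorem param_choice (L0 : Vx k → ZMod 3) {s : Vx k}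
    (h1 : l (pv s) = false) (h2 : l s = true)
    (hL0 : ns l (en l s) ≠ s → L0 s ≠ L0 (ns l (en l s)))
    (hN : ¬ ((∀ x : Vx k, x.1 = s.1 → l (pv x) = false → l x = true → x = s) ∧
      (∀ u : Vx k, u.1 = s.1 → l u = true → ¬ TT l r u) ∧ mval M l r s % 3 = 2)) :
    ∃ d g : ZMod 3, d ≠ 0 ∧ d + g ≠ 0 ∧
      L0 s + ((mval M l r s : ZMod 3) + 1) * d +
      (if aft l r (pv (en l s)) then g else 0) ≠ L0 (ns l (en l s)) := by
  have hf : ∃ w : Vx k, w.1 = s.1 ∧ l w = false := ⟨pv s, rfl, h1⟩
  have hS : St l r s := St_of_edge h1 h2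
  by_cases ha : aft l r (pv (en l s))
  · simp only [if_pos ha]
    by_cases hX : L0 s + ((mval M l r s : ZMod 3) + 1) * 1 + 0 = L0 (ns l (en l s))
    · refine ⟨1, 1, by decide, by decide, ?_⟩
      intro h
      have : (1 : ZMod 3) = 0 := by linear_combination h - hX
      exact absurd this (by decide)
    · exact ⟨1, 0, by decide, by decide, hX⟩
  · simp only [if_neg ha, add_zero]
    by_cases hn : ns l (en l s) = s
    · have hm : mval M l r s % 3 ≠ 2 := by
        intro hm
        apply hN
        refine ⟨?_, ?_, hm⟩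
        · intro x hx hx1 hx2
          have := (uniq_start (r := r) h1 h2 hn hx).1 hx2
          rw [← this]; exact (src_of_St (St_of_edge hx1 hx2)).symm
        · intro u hu hlu hT
          apply ha
          have h3 : src l r u = s := (uniq_start (r := r) h1 h2 hn hu).1 hlu
          have hf' : ∃ w : Vx k, w.1 = u.1 ∧ l w = false := ⟨pv s, by simp [hu], h1⟩
          have h4 : en l s = en l u := by rw [← h3]; exact en_src hlu hf'
          rw [h4]
          exact aft_pv_en hlu hf' (aft_of_TT hT)
      refine ⟨1, 0, by decide, by decide, ?_⟩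
      rw [hn]
      intro h
      apply hm
      have h5 : ((mval M l r s : ℕ) : ZMod 3) = ((2 : ℕ) : ZMod 3) := by
        have h3 := three_zero
        push_cast
        linear_combination h - h3
      rw [ZMod.natCast_eq_natCast_iff'] at h5
      simpa using h5
    · have hX := hL0 hn
      by_cases hq : ((mval M l r s : ZMod 3) + 1) = 0
      · refine ⟨1, 0, by decide, by decide, ?_⟩
        rw [hq]; simpa using hX
      · by_cases h5 : L0 s + ((mval M l r s : ZMod 3) + 1) * 1 = L0 (ns l (en l s))
        · refine ⟨-1, 0, by decide, by decide, ?_⟩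
          intro h6
          have h3 := three_zero
          apply hq
          have : 2 * ((mval M l r s : ZMod 3) + 1) = 0 := by linear_combination h5 - h6
          linear_combination -this + ((mval M l r s : ZMod 3) + 1) * h3
        · exact ⟨1, 0, by decide, by decide, h5⟩

theorem run_lemma {s : Vx k} (h1 : l (pv s) = false) (h2 : l s = true) {m : ℕ} (hm : 0 < m)
    (hj : ∀ j < m, l (nx^[j] s) = true) (hm2 : l (nx^[m] s) = false) :
    en l s = nx^[m] s ∧ ps l r (pv (en l s)) + 1 = m := by
  have hf : ∀ n : ℕ, ∃ w : Vx k, w.1 = (nx^[n] s).1 ∧ l w = false :=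
    fun n => ⟨pv s, by simp [nx_iter_fst], h1⟩
  have hen : ∀ j ≤ m, en l s = en l (nx^[j] s) := by
    intro j hjm
    induction j with
    | zero => rfl
    | succ j ih =>
      rw [ih (by omega), en_step (hj j (by omega)) (hf j), Function.iterate_succ_apply']
  have hps : ∀ j < m, ps l r (nx^[j] s) = j := by
    intro j hjm
    induction j with
    | zero => exact ps_of_St (St_of_edge h1 h2)
    | succ j ih =>
      have h3 : l (nx (nx^[j] s)) = true := by
        rw [← Function.iterate_succ_apply' (f := nx)]; exact hj (j+1) hjm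
      rw [Function.iterate_succ_apply', ps_step h3 (not_St_nx (hj j (by omega)) (hf j)), pv_nx,
        ih (by omega)]
  have e1 : en l s = nx^[m] s := by rw [hen m le_rfl, en_of hm2]
  refine ⟨e1, ?_⟩
  obtain ⟨m', rfl⟩ : ∃ m', m = m' + 1 := ⟨m - 1, by omega⟩
  rw [e1, Function.iterate_succ_apply', pv_nx, hps m' (by omega)]

/-- witness for a needy start -/
theorem needy_witness (hG : Good M l r) {s : Vx k}
    (h1 : l (pv s) = false) (h2 : l s = true)
    (hN1 : ∀ x : Vx k, x.1 = s.1 → l (pv x) = false → l x = true → x = s)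
    (hN2 : ∀ u : Vx k, u.1 = s.1 → l u = true → ¬ TT l r u) (hN3 : mval M l r s % 3 = 2) :
    ∃ w : Vx k, w.1 = s.1 ∧ r w = true ∧ l w = false ∧ (M w).1 ≠ s.1 := by
  have hc := (hG.hc s.1).2.2 s.2 (by
    show l (pv s) ≠ l s
    rw [h1, h2]; simp)
  rcases hc with ⟨x', hx1, hx2, hx3⟩ | ⟨i, hi1, hi2⟩ | ⟨i, hi1, hi2, hi3⟩ | ⟨m, hm1, hm2, hm3, hm4⟩
  · exfalso
    apply hx1
    have hx3' : l ⟨s.1, x'⟩ = true := hx3.trans h2
    have hx2' : l (pv ⟨s.1, x'⟩) ≠ l ⟨s.1, x'⟩ := hx2
    have := hN1 ⟨s.1, x'⟩ rfl (by rw [hx3'] at hx2'; simpa using hx2') hx3'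
    obtain ⟨c, i⟩ := s
    simp only [Sigma.mk.injEq, heq_eq_eq, true_and] at this
    exact this
  · exfalso
    have hi2' : l ⟨s.1, i⟩ = true := hi2.trans h2
    exact hN2 ⟨s.1, i⟩ rfl hi2' hi1
  · refine ⟨⟨s.1, i⟩, rfl, hi1, ?_, ?_⟩
    · have hi2' : l ⟨s.1, i⟩ ≠ l s := hi2
      rw [h2] at hi2'; simpa using hi2'
    · simpa using hi3
  · exfalso
    have hm2' : ∀ j < m, l (nx^[j] s) = true := by
      intro j hj
      rw [nx_iter]; exact (hm2 j hj).trans h2
    have hm3' : l (nx^[m] s) = false := by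
      rw [nx_iter]
      have : l (⟨s.1, s.2 + m⟩ : Vx k) ≠ l s := hm3
      rw [h2] at this; simpa using this
    obtain ⟨e1, e2⟩ := run_lemma (r := r) h1 h2 hm1 hm2' hm3'
    apply hm4
    unfold mval at hN3
    rw [e2, e1] at hN3
    rw [nx_iter] at hN3
    have h2' : l ⟨s.1, s.2⟩ = true := h2
    simp only [h2']
    have a1 : (if l (M ⟨s.1, s.2⟩) ≠ true then 1 else 0) = (if l (M s) = true then 0 else 1) := by
      show (if l (M s) ≠ true then 1 else 0) = _
      by_cases h : l (M s) = true <;> simp [h]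
    have a2 : (if l (M ⟨s.1, s.2 + m⟩) ≠ true then 1 else 0) =
        (if l (M ⟨s.1, s.2 + m⟩) = true then 0 else 1) := by
      by_cases h : l (M ⟨s.1, s.2 + m⟩) = true <;> simp [h]
    rw [a1, a2]
    exact hN3

end

end Pool.Agent.Helper850.TC
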