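import Pool.Agent.Helper850.TC.Low3

namespace Pool.Agent.Helper850.TC

open Classical

set_option linter.unusedSectionVars false
set_option linter.unusedVariables false

section
variable {ι : Type*} {k : ι → ℕ} [∀ c, NeZero (k c)] [Fintype ι] {M : Vx k → Vx k} {l r : Vx k → Bool}

theorem muA_congr (hG : Good M l r) {L δ γ L' δ' γ' : Vx k → ZMod 3} {u : Vx k} (hr : r u = false)
    (hl : l (M u) = false)
    (h1 : L (if l u = true then src l r u else src l r (pv u)) =
      L' (if l u = true then src l r u else src l r (pv u)))
    (h2 : δ (if l u = true then src l r u else src l r (pv u)) =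
      δ' (if l u = true then src l r u else src l r (pv u)))
    (h3 : γ (if l u = true then src l r u else src l r (pv u)) =
      γ' (if l u = true then src l r u else src l r (pv u))) :
    muA M l r L δ γ u = muA M l r L' δ' γ' u := by
  unfold muA
  by_cases hu : l u = true
  · simp only [if_pos hu] at h1 h2 h3 ⊢
    by_cases hp : l (pv u) = true
    · simp only [if_pos hp]
      have hsrc : src l r (pv u) = src l r u := by
        by_cases hS : St l r u
        · rw [src_of_St hS]
          obtain ⟨_, h4 | ⟨hall, h0⟩⟩ := hS
          · rw [hp] at h4; exact absurd h4 (by simp)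
          · exact (ps_pv_dvd hall h0).1
        · exact (src_step hu hS).symm
      have e1 : ee M l r L δ γ u = ee M l r L' δ' γ' u := ee_congr h1 h2 h3
      have e2 : ee M l r L δ γ (pv u) = ee M l r L' δ' γ' (pv u) :=
        ee_congr (by rw [hsrc]; exact h1) (by rw [hsrc]; exact h2) (by rw [hsrc]; exact h3)
      rw [e1, e2]
    · simp only [if_neg hp]
      have hS : St l r u := St_of_edge (by simpa using hp) hu
      rw [src_of_St hS] at h1 h2
      unfold c0
      rw [h1, h2]
  · simp only [if_neg hu] at h1 h2 h3 ⊢
    rw [ee_congr h1 h2 h3]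
    unfold dd
    rw [h2]

theorem exists_params (hG : Good M l r) : ∃ L δ γ : Vx k → ZMod 3, (∀ s, δ s ≠ 0) ∧
    (∀ s, δ s + γ s ≠ 0) ∧
    (∀ s, l (pv s) = false → l s = true →
      RR M l r L δ γ (en l s) ≠ L (ns l (en l s)) ∨
      (ns l (en l s) = s ∧ RR M l r L δ γ (en l s) = L s ∧
        ∃ w : Vx k, w.1 = s.1 ∧ r w = true ∧ l w = false ∧ mm M l r L δ γ w = L s)) := by
  obtain ⟨L0, hL0⟩ := katetov (Finset.univ : Finset (Vx k)) (fun s => ns l (en l s))
  set Nd : Vx k → Prop := fun s => (∀ x : Vx k, x.1 = s.1 → l (pv x) = false → l x = true → x = s) ∧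
      (∀ u : Vx k, u.1 = s.1 → l u = true → ¬ TT l r u) ∧ mval M l r s % 3 = 2 with hNd
  have hpar : ∀ s : Vx k, ∃ d g : ZMod 3, d ≠ 0 ∧ d + g ≠ 0 ∧
      (l (pv s) = false → l s = true → ¬ Nd s → L0 s + ((mval M l r s : ZMod 3) + 1) * d +
      (if aft l r (pv (en l s)) then g else 0) ≠ L0 (ns l (en l s))) := by
    intro s
    by_cases h : l (pv s) = false ∧ l s = true ∧ ¬ Nd s
    · obtain ⟨d, g, h1, h2, h3⟩ := param_choice (M := M) (r := r) L0 h.1 h.2.1
        (fun h4 => hL0 s (Finset.mem_univ _) (Finset.mem_univ _) h4) h.2.2
      exact ⟨d, g, h1, h2, fun _ _ _ => h3⟩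
    · exact ⟨1, 0, by decide, by decide, fun h1 h2 h3 => absurd ⟨h1, h2, h3⟩ h⟩
  choose δ0 γ0 hδ0 hγ0 hpar0 using hpar
  set N : Finset (Vx k) := Finset.univ.filter (fun s => l (pv s) = false ∧ l s = true ∧ Nd s) with hN
  have hmemN : ∀ s, s ∈ N ↔ (l (pv s) = false ∧ l s = true ∧ Nd s) := by
    intro s; rw [hN]; simp
  have hwit : ∀ s : Vx k, ∃ w : Vx k, s ∈ N →
      (w.1 = s.1 ∧ r w = true ∧ l w = false ∧ (M w).1 ≠ s.1) := by
    intro s
    by_cases hs : s ∈ N
    · obtain ⟨h1, h2, h3, h4, h5⟩ := (hmemN s).1 hs
      obtain ⟨w, hw⟩ := needy_witness hG h1 h2 h3 h4 h5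
      exact ⟨w, fun _ => hw⟩
    · exact ⟨s, fun h => absurd h hs⟩
  choose wt hwt using hwit
  set f : Vx k → Vx k := fun s => if l (M (wt s)) = true then src l r (M (wt s)) else
    src l r (pv (M (wt s))) with hf
  have hff : ∀ s, (f s).1 = (M (wt s)).1 := by
    intro s
    simp only [hf]
    split_ifs
    · exact src_fst _
    · rw [src_fst]; rfl
  obtain ⟨Ln, dn, hdn, hLn⟩ := needy N f (fun s => l (M (wt s)))
    (by
      intro s hs h
      apply (hwt s hs).2.2.2
      rw [← hff s, h])
    (fun s => muA M l r L0 δ0 γ0 (M (wt s)))
  refine ⟨fun s => if s ∈ N then Ln s else L0 s, fun s => if s ∈ N then dn s else δ0 s,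
    fun s => if s ∈ N then 0 else γ0 s, ?_, ?_, ?_⟩
  · intro s
    by_cases hs : s ∈ N
    · simp only [if_pos hs]; exact hdn s
    · simp only [if_neg hs]; exact hδ0 s
  · intro s
    by_cases hs : s ∈ N
    · simp only [if_pos hs, add_zero]; exact hdn s
    · simp only [if_neg hs]; exact hγ0 s
  · intro s h1 h2
    have hns1 : l (pv (ns l (en l s))) = false := by
      apply pv_ns
      · apply en_spec; exact ⟨pv s, rfl, h1⟩
      · exact ⟨s, by rw [en_fst], h2⟩
    have hns2 : l (ns l (en l s)) = true := by
      apply ns_spec
      exact ⟨s, by rw [en_fst], h2⟩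
    have hnsf : (ns l (en l s)).1 = s.1 := by rw [ns_fst, en_fst]
    by_cases hs : s ∈ N
    · right
      obtain ⟨_, _, h3, h4, h5⟩ := (hmemN s).1 hs
      refine ⟨h3 _ hnsf hns1 hns2, ?_, wt s, (hwt s hs).1, (hwt s hs).2.1, (hwt s hs).2.2.1, ?_⟩
      · rw [RR_eq h1 h2]
        simp only [if_pos hs]
        have : ((mval M l r s : ZMod 3) + 1) = 0 := by
          have h6 : ((mval M l r s + 1 : ℕ) : ZMod 3) = 0 := by
            apply three_dvd_cast; omega
          push_cast at h6; exact h6
        rw [this]; simp
      · -- the key equation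
        have hu1 : r (M (wt s)) = false := by rw [hG.hr, (hwt s hs).2.1]; rfl
        have hu2 : l (M (M (wt s))) = false := by rw [hG.inv]; exact (hwt s hs).2.2.1
        unfold mm
        rw [if_pos (hwt s hs).2.1]
        simp only [if_pos hs]
        rw [hLn s hs]
        by_cases hfs : f s ∈ N
        · rw [if_pos hfs]
          obtain ⟨g1, g2, g3, g4, g5⟩ := (hmemN (f s)).1 hfs
          set u := M (wt s) with hu
          by_cases hlu : l u = true
          · simp only [if_pos hlu]
            have hfu : f s = src l r u := by simp only [hf]; rw [← hu, if_pos hlu]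
            have hnp : l (pv u) = false := by
              by_contra hcon
              have hcon' : l (pv u) = true := by simpa using hcon
              apply g4 u (by rw [hff]) hlu
              exact ⟨hu1, by rw [hcon', hlu]⟩
            have hSu : St l r u := St_of_edge hnp hlu
            have hfu' : f s = u := by rw [hfu, src_of_St hSu]
            unfold muA c0
            rw [if_pos hlu, if_neg (by rw [hnp]; simp), if_neg (by rw [hu2]; simp)]
            rw [hfu'] at hfs ⊢
            simp only [if_pos hfs]
          · have hlu' : l u = false := by simpa using hlu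
            simp only [if_neg hlu]
            have hfu : f s = src l r (pv u) := by simp only [hf]; rw [← hu, if_neg hlu]
            have hpu : l (pv u) = true := by
              by_contra hcon
              have hcon' : l (pv u) = false := by simpa using hcon
              apply hG.ho u hu1 (by rw [hcon', hlu'])
              rw [hu2, hlu']
            have hen : en l (f s) = u := by
              rw [hfu, en_src hpu ⟨u, by simp, hlu'⟩, en_step hpu ⟨u, by simp, hlu'⟩, nx_pv, en_of hlu']
            have hRR := RR_eq (M := M) (r := r) (L := fun s => if s ∈ N then Ln s else L0 s)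
              (δ := fun s => if s ∈ N then dn s else δ0 s) (γ := fun s => if s ∈ N then 0 else γ0 s)
              g1 g2
            rw [hen] at hRR
            simp only [if_pos hfs] at hRR
            have h7 : ((mval M l r (f s) : ZMod 3) + 1) = 0 := by
              have h6 : ((mval M l r (f s) + 1 : ℕ) : ZMod 3) = 0 := by
                apply three_dvd_cast; omega
              push_cast at h6; exact h6
            rw [h7] at hRR
            simp only [zero_mul, add_zero, ite_self] at hRR
            unfold RR at hRR
            rw [if_neg (by rw [hu2]; simp)] at hRR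
            unfold muA
            rw [if_neg hlu]
            have hdd : dd l r (fun s => if s ∈ N then dn s else δ0 s) (pv u) = dn (f s) := by
              unfold dd; rw [← hfu]; exact if_pos hfs
            rw [hdd] at hRR ⊢
            have h3 := three_zero
            linear_combination hRR + dn (f s) * h3
        · rw [if_neg hfs]
          apply muA_congr hG hu1 hu2
          · show (if f s ∈ N then _ else _) = _
            rw [if_neg hfs]
          · show (if f s ∈ N then _ else _) = _
            rw [if_neg hfs]
          · show (if f s ∈ N then _ else _) = _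
            rw [if_neg hfs]
    · left
      rw [RR_eq h1 h2]
      have hnN : ¬ Nd s := fun h => hs ((hmemN s).2 ⟨h1, h2, h⟩)
      have hq := hpar0 s h1 h2 hnN
      simp only [if_neg hs]
      have hns : ns l (en l s) ∉ N := by
        intro h
        obtain ⟨_, _, h3, h4, h5⟩ := (hmemN _).1 h
        have : s = ns l (en l s) := h3 s hnsf.symm h1 h2
        rw [← this] at h
        exact hs h
      simp only [if_neg hns]
      exact hq

end

end Pool.Agent.Helper850.TC
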