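import Pool.Agent.Helper850.TC.Low4

namespace Pool.Agent.Helper850.TC

open Classical

set_option linter.unusedSectionVars false
set_option linter.unusedVariables false

section
variable {ι : Type*} {k : ι → ℕ} [∀ c, NeZero (k c)] {M : Vx k → Vx k} (l r : Vx k → Bool)
  (L R mc : Vx k → ZMod 3)

noncomputable def v1 (c : ι) : Vx k :=
  if h : ∃ v : Vx k, v.1 = c ∧ r v = true then h.choose else ⟨c, 0⟩

variable {r}
theorem v1_fst (c : ι) : (v1 (k := k) r c).1 = c := by
  unfold v1
  split_ifs with h
  · exact h.choose_spec.1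
  · rfl

theorem v1_r {c : ι} (h : ∃ v : Vx k, v.1 = c ∧ r v = true) : r (v1 r c) = true := by
  unfold v1
  rw [dif_pos h]
  exact h.choose_spec.2

variable (r)

def Em (v : Vx k) : Prop :=
  l v = false ∧ (l (pv v) = true ∨ ((∀ w : Vx k, w.1 = v.1 → l w = false) ∧ v = v1 r v.1))

noncomputable def oth (b X : ZMod 3) : ZMod 3 := (exists_ne_two b X).choose

theorem oth_spec (b X : ZMod 3) : oth b X ≠ b ∧ oth b X ≠ X := (exists_ne_two b X).choose_spec

noncomputable def Xt (v : Vx k) : ZMod 3 :=
  if (∃ w : Vx k, w.1 = v.1 ∧ l w = true) then L (ns l v) else mc (v1 r v.1) + 2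

noncomputable def Rp (v : Vx k) : ZMod 3 := if l (pv v) = true then R v else mc v + 1

noncomputable def stepf (v : Vx k) (y : ZMod 3) : ZMod 3 :=
  if r v = true ∧ y = mc v then oth (mc v) (Xt l r L mc v) else y

noncomputable def tok (w : Vx k) (n : ℕ) : ZMod 3 :=
  Nat.rec (Rp l R mc w) (fun j y => stepf l r L mc (nx^[j+1] w) y) n

noncomputable def xx (v : Vx k) : ZMod 3 :=
  tok l r L R mc (hit pv (Em l r) v) (pos pv (Em l r) v)

variable {l r L R mc}

theorem exEm {v : Vx k} (h : l v = false) : ∃ n, Em l r (pv^[n] v) := by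
  by_contra hne
  push Not at hne
  have hall : ∀ n, l (pv^[n] v) = false := by
    intro n
    induction n with
    | zero => simpa using h
    | succ n ih =>
      have h1 := hne n
      rw [Function.iterate_succ_apply']
      by_contra h2
      apply h1
      refine ⟨ih, Or.inl ?_⟩
      simpa using h2
  have hallB : ∀ w : Vx k, w.1 = v.1 → l w = false := by
    intro w hw
    obtain ⟨n, hn⟩ := exists_pv_iter v w hw
    rw [← hn]; exact hall n
  obtain ⟨n, hn⟩ := exists_pv_iter v (v1 r v.1) (v1_fst v.1)
  apply hne n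
  rw [hn]
  refine ⟨?_, Or.inr ⟨?_, ?_⟩⟩
  · rw [← hn]; exact hall n
  · intro w hw
    rw [v1_fst] at hw
    exact hallB w hw
  · rw [v1_fst]

theorem lpv_of_not_Em {v : Vx k} (h : l v = false) (h' : ¬ Em l r v) : l (pv v) = false := by
  by_contra h2
  exact h' ⟨h, Or.inl (by simpa using h2)⟩

theorem xx_of_Em {v : Vx k} (h : Em l r v) : xx l r L R mc v = Rp l R mc v := by
  unfold xx
  rw [hit_of h, pos_of h]
  rfl

theorem xx_step {v : Vx k} (h : l v = false) (h' : ¬ Em l r v) :
    xx l r L R mc v = stepf l r L mc v (xx l r L R mc (pv v)) := by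
  have hex := exEm (r := r) (lpv_of_not_Em h h')
  have e1 : pos pv (Em l r) v = pos pv (Em l r) (pv v) + 1 := pos_succ h' hex
  have e2 : hit pv (Em l r) v = hit pv (Em l r) (pv v) := hit_succ h' hex
  have e3 : nx^[pos pv (Em l r) (pv v) + 1] (hit pv (Em l r) (pv v)) = v := by
    rw [← e2]
    unfold hit
    rw [← e1]
    exact nx_iter_pv_iter _ _
  unfold xx
  rw [e1, e2]
  show stepf l r L mc (nx^[pos pv (Em l r) (pv v) + 1] (hit pv (Em l r) (pv v))) _ = _
  rw [e3]
  rfl

theorem Xt_step {v : Vx k} (h : l v = false) : Xt l r L mc (nx v) = Xt l r L mc v := by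
  unfold Xt
  by_cases ht : ∃ w : Vx k, w.1 = v.1 ∧ l w = true
  · have ht' : ∃ w : Vx k, w.1 = (nx v).1 ∧ l w = true := ht
    rw [if_pos ht, if_pos ht', ns_step h ht]
  · have ht' : ¬ ∃ w : Vx k, w.1 = (nx v).1 ∧ l w = true := ht
    rw [if_neg ht, if_neg ht']
    rfl

theorem stepf_ne {v : Vx k} {y : ZMod 3} (h : y ≠ Xt l r L mc v) :
    stepf l r L mc v y ≠ Xt l r L mc v := by
  unfold stepf
  split_ifs
  · exact (oth_spec _ _).2
  · exact h

theorem prop_fwd {v : Vx k} (h : l v = false) (ht : ∃ w : Vx k, w.1 = v.1 ∧ l w = true)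
    (hx : xx l r L R mc v ≠ Xt l r L mc v) :
    xx l r L R mc (pv (ns l v)) ≠ L (ns l v) := by
  have key : ∀ u : Vx k, (∃ n, l (nx^[n] u) = true) →
      (∃ w : Vx k, w.1 = u.1 ∧ l w = true) → l u = false →
      xx l r L R mc u ≠ Xt l r L mc u → xx l r L R mc (pv (ns l u)) ≠ L (ns l u) := by
    intro u hu
    refine hit_induct (g := nx) (S := fun u => l u = true)
      (P := fun u => (∃ w : Vx k, w.1 = u.1 ∧ l w = true) → l u = false →
        xx l r L R mc u ≠ Xt l r L mc u → xx l r L R mc (pv (ns l u)) ≠ L (ns l u)) ?_ ?_ hu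
    · intro v hv _ h2
      rw [hv] at h2; exact absurd h2 (by simp)
    · intro v hv ih hf hlv hx
      rw [ns_step hlv hf]
      by_cases h3 : l (nx v) = true
      · rw [ns_of h3, pv_nx]
        unfold Xt at hx
        rw [if_pos hf, ns_step hlv hf, ns_of h3] at hx
        exact hx
      · have h3' : l (nx v) = false := by simpa using h3
        apply ih hf h3'
        have hE : ¬ Em l r (nx v) := by
          rintro ⟨_, h4 | h4⟩
          · rw [pv_nx, hlv] at h4; exact absurd h4 (by simp)
          · obtain ⟨w, hw, hlw⟩ := hf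
            have := h4.1 w (by simp [hw])
            rw [hlw] at this; exact absurd this (by simp)
        rw [xx_step h3' hE, pv_nx]
        apply stepf_ne
        rw [Xt_step hlv]; exact hx
  exact key v (ex_nx ht) ht h hx

theorem ns_hitEm {v : Vx k} (h : l v = false) (ht : ∃ w : Vx k, w.1 = v.1 ∧ l w = true) :
    ns l (hit pv (Em l r) v) = ns l v := by
  have key : ∀ u : Vx k, (∃ n, Em l r (pv^[n] u)) →
      (∃ w : Vx k, w.1 = u.1 ∧ l w = true) → l u = false →
      ns l (hit pv (Em l r) u) = ns l u := by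
    intro u hu
    refine hit_induct (g := pv) (S := Em l r)
      (P := fun u => (∃ w : Vx k, w.1 = u.1 ∧ l w = true) → l u = false →
        ns l (hit pv (Em l r) u) = ns l u) ?_ ?_ hu
    · intro v hv _ _
      rw [hit_of hv]
    · intro v hv ih hf hlv
      have h1 := lpv_of_not_Em hlv hv
      rw [hit_succ hv (exEm h1), ih hf h1, ns_step h1 hf, nx_pv]
  exact key v (exEm h) ht h

theorem tokens (hG : Good M l r) (hk : ∀ c, 2 ≤ k c)
    (H : ∀ s, l (pv s) = false → l s = true → R (en l s) ≠ L (ns l (en l s)) ∨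
      (ns l (en l s) = s ∧ R (en l s) = L s ∧
        ∃ w : Vx k, w.1 = s.1 ∧ r w = true ∧ l w = false ∧ mc w = L s)) :
    ∃ x : Vx k → ZMod 3,
      (∀ v, l v = false → l (nx v) = true → x v ≠ L (nx v)) ∧
      (∀ v, l v = false → l (pv v) = false → r v = true →
        x v ≠ mc v ∧ (x (pv v) = mc v ∨ x (pv v) = x v)) ∧
      (∀ v, l v = false → l (pv v) = false → r v = false → x v = x (pv v)) ∧
      (∀ v, l v = false → l (pv v) = true → x v = R v) := by
  refine ⟨xx l r L R mc, ?_, ?_, ?_, ?_⟩
  · intro v hv hnv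
    have ht : ∃ w : Vx k, w.1 = v.1 ∧ l w = true := ⟨nx v, rfl, hnv⟩
    have hnsv : ns l v = nx v := by rw [ns_step hv ht, ns_of hnv]
    set w := hit pv (Em l r) v with hw
    have hEw : Em l r w := hit_spec (exEm hv)
    have hwf : w.1 = v.1 := by rw [hw]; unfold hit; rw [pv_iter]
    have hpw : l (pv w) = true := by
      rcases hEw with ⟨_, h4 | h4⟩
      · exact h4
      · obtain ⟨z, hz, hlz⟩ := ht
        have := h4.1 z (by rw [hz, hwf])
        rw [hlz] at this; exact absurd this (by simp)
    have hlw : l w = false := hEw.1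
    have hnsw : ns l w = nx v := by rw [hw, ns_hitEm hv ht, hnsv]
    have hff : ∃ z : Vx k, z.1 = (pv w).1 ∧ l z = false := ⟨w, rfl, hlw⟩
    set s := src l r (pv w) with hs
    have hSs : St l r s := src_St hpw
    have hsf : s.1 = w.1 := by rw [hs, src_fst]; rfl
    have hls : l s = true := hSs.1
    have hps : l (pv s) = false := by
      rcases hSs with ⟨_, h4 | h4⟩
      · exact h4
      · have := h4.1 w hsf.symm
        rw [hlw] at this; exact absurd this (by simp)
    have hens : en l s = w := by
      rw [hs, en_src hpw hff, en_step hpw hff, nx_pv, en_of hlw]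
    rcases H s hps hls with h5 | ⟨h5, h6, z, hz1, hz2, hz3, hz4⟩
    · rw [hens, hnsw] at h5
      have h6 : xx l r L R mc w ≠ Xt l r L mc w := by
        rw [xx_of_Em hEw]
        unfold Rp Xt
        rw [if_pos hpw, if_pos (by obtain ⟨z, hz, hlz⟩ := ht; exact ⟨z, by rw [hz, hwf], hlz⟩), hnsw]
        exact h5
      have h7 := prop_fwd hlw (by obtain ⟨z, hz, hlz⟩ := ht; exact ⟨z, by rw [hz, hwf], hlz⟩) h6
      rw [hnsw, pv_nx] at h7
      exact h7
    · have htz : ∃ w : Vx k, w.1 = z.1 ∧ l w = true := ⟨s, hz1.symm, hls⟩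
      have hnsz : ns l z = s := (uniq_start (r := r) hps hls h5 hz1).2 hz3
      have hpz : l (pv z) = false := by rw [hG.hp z hz2]; exact hz3
      have hEz : ¬ Em l r z := by
        rintro ⟨_, h4 | h4⟩
        · rw [hpz] at h4; exact absurd h4 (by simp)
        · have := h4.1 s hz1.symm
          rw [hls] at this; exact absurd this (by simp)
      have hXz : Xt l r L mc z = L s := by
        unfold Xt; rw [if_pos htz, hnsz]
      have h8 : xx l r L R mc z ≠ Xt l r L mc z := by
        rw [xx_step hz3 hEz]
        unfold stepf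
        by_cases h9 : xx l r L R mc (pv z) = mc z
        · rw [if_pos ⟨hz2, h9⟩]; exact (oth_spec _ _).2
        · rw [if_neg (fun h => h9 h.2), hXz, ← hz4]; exact h9
      have h9 := prop_fwd hz3 htz h8
      rw [hnsz] at h9
      have hsn : s = nx v := by
        rw [← hnsw, ← hens, h5]
      rw [hsn, pv_nx] at h9
      exact h9
  · intro v hv hpv hrv
    by_cases hE : Em l r v
    · have hall : ∀ w : Vx k, w.1 = v.1 → l w = false := by
        rcases hE with ⟨_, h4 | h4⟩
        · rw [hpv] at h4; exact absurd h4 (by simp)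
        · exact h4.1
      have hv1 : v = v1 r v.1 := by
        rcases hE with ⟨_, h4 | h4⟩
        · rw [hpv] at h4; exact absurd h4 (by simp)
        · exact h4.2
      have hXX : ∀ u : Vx k, u.1 = v.1 → Xt l r L mc u = mc v + 2 := by
        intro u hu
        unfold Xt
        rw [if_neg, hu, ← hv1]
        rintro ⟨w, hw, hlw⟩
        have := hall w (by rw [hw, hu])
        rw [hlw] at this; exact absurd this (by simp)
      have hne : ∀ u : Vx k, (∃ n, Em l r (pv^[n] u)) → u.1 = v.1 →
          xx l r L R mc u ≠ Xt l r L mc u := by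
        intro u hu
        refine hit_induct (g := pv) (S := Em l r)
          (P := fun u => u.1 = v.1 → xx l r L R mc u ≠ Xt l r L mc u) ?_ ?_ hu
        · intro u hu huf
          rw [xx_of_Em hu, hXX u huf]
          have hlpu : l (pv u) = false := hall _ huf
          have huv : u = v := by
            rcases hu with ⟨_, h4 | h4⟩
            · rw [hlpu] at h4; exact absurd h4 (by simp)
            · rw [h4.2, huf, ← hv1]
          unfold Rp
          rw [if_neg (by rw [hlpu]; simp), huv]
          intro h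
          have : (1 : ZMod 3) = 0 := by linear_combination -h
          exact absurd this (by decide)
        · intro u hu ih huf
          rw [xx_step (hall u huf) hu]
          apply stepf_ne
          have h5 := ih huf
          rw [hXX u huf]
          rw [hXX (pv u) huf] at h5
          exact h5
      have h6 := hne (pv v) (exEm hpv) rfl
      rw [hXX (pv v) rfl] at h6
      have hxv : xx l r L R mc v = mc v + 1 := by
        rw [xx_of_Em hE]; unfold Rp; rw [if_neg (by rw [hpv]; simp)]
      rw [hxv]
      refine ⟨by simp, ?_⟩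
      generalize xx l r L R mc (pv v) = a at h6 ⊢
      generalize mc v = b at h6 ⊢
      revert a b; decide
    · rw [xx_step hv hE]
      unfold stepf
      by_cases h9 : xx l r L R mc (pv v) = mc v
      · rw [if_pos ⟨hrv, h9⟩]
        exact ⟨(oth_spec _ _).1, Or.inl h9⟩
      · rw [if_neg (fun h => h9 h.2)]
        exact ⟨h9, Or.inr rfl⟩
  · intro v hv hpv hrv
    have hE : ¬ Em l r v := by
      rintro ⟨_, h4 | ⟨hall, hv1⟩⟩
      · rw [hpv] at h4; exact absurd h4 (by simp)
      · have hex : ∃ u : Vx k, u.1 = v.1 ∧ r u = true := by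
          by_contra hcon
          push Not at hcon
          have hT := (hG.hc v.1).1 0 1
            ⟨by simpa using hcon ⟨v.1, 0⟩ rfl, by
              show l _ = l _
              rw [hall ⟨v.1, 0⟩ rfl, hall ⟨v.1, 0 - 1⟩ rfl]⟩
            ⟨by simpa using hcon ⟨v.1, 1⟩ rfl, by
              show l _ = l _
              rw [hall ⟨v.1, 1⟩ rfl, hall ⟨v.1, 1 - 1⟩ rfl]⟩
          have hk2 := hk v.1
          have : Fact (1 < k v.1) := ⟨by omega⟩
          exact absurd hT.symm one_ne_zero
        have := v1_r hex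
        rw [← hv1, hrv] at this
        exact absurd this (by simp)
    rw [xx_step hv hE]
    unfold stepf
    rw [if_neg (by rw [hrv]; simp)]
  · intro v hv hpv
    rw [xx_of_Em ⟨hv, Or.inl hpv⟩]
    unfold Rp
    rw [if_pos hpv]

end

end Pool.Agent.Helper850.TC
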