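import Pool.Agent.Helper850.TC.Low5

namespace Pool.Agent.Helper850.TC

open Classical

set_option linter.unusedSectionVars false
set_option linter.unusedVariables false
set_option linter.unusedSimpArgs false
set_option linter.style.haveILetI false

section
variable {ι : Type*} {k : ι → ℕ} [∀ c, NeZero (k c)] [Fintype ι]

def ml (M : Vx k → Vx k) (l r : Vx k → Bool) (v : Vx k) : Bool :=
  if r v = true then !l v else !l (M v)
def al (M : Vx k → Vx k) (l r : Vx k → Bool) (v : Vx k) : Bool :=
  if r v = true then !l v else l (M v)
def tl (M : Vx k → Vx k) (l r : Vx k → Bool) (v : Vx k) : Bool :=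
  if r v = true then l v else if l (pv v) = l v then !l v else !l (M v)

def sl (M : Vx k → Vx k) (l r : Vx k → Bool) (v : Vx k) : Fin 6 → Bool :=
  ![l (pv v), l v, ml M l r v, al M l r v, al M l r v, tl M l r v]
def cl (e m a b t : Vx k → ZMod 3) (v : Vx k) : Fin 6 → ZMod 3 :=
  ![e (pv v), e v, m v, a v, b v, t v]

theorem six_pairs {s : Fin 6 → Bool} {c : Fin 6 → ZMod 3}
    (h01 : s 0 = true → s 1 = true → c 0 ≠ c 1) (h02 : s 0 = true → s 2 = true → c 0 ≠ c 2)
    (h03 : s 0 = true → s 3 = true → c 0 ≠ c 3) (h04 : s 0 = true → s 4 = true → c 0 ≠ c 4)
    (h05 : s 0 = true → s 5 = true → c 0 ≠ c 5) (h12 : s 1 = true → s 2 = true → c 1 ≠ c 2)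
    (h13 : s 1 = true → s 3 = true → c 1 ≠ c 3) (h14 : s 1 = true → s 4 = true → c 1 ≠ c 4)
    (h15 : s 1 = true → s 5 = true → c 1 ≠ c 5) (h23 : s 2 = true → s 3 = true → c 2 ≠ c 3)
    (h24 : s 2 = true → s 4 = true → c 2 ≠ c 4) (h25 : s 2 = true → s 5 = true → c 2 ≠ c 5)
    (h34 : s 3 = true → s 4 = true → c 3 ≠ c 4) (h35 : s 3 = true → s 5 = true → c 3 ≠ c 5)
    (h45 : s 4 = true → s 5 = true → c 4 ≠ c 5) :
    ∀ i j : Fin 6, i ≠ j → s i = true → s j = true → c i ≠ c j := by
  have key : ∀ i j : Fin 6, i < j → s i = true → s j = true → c i ≠ c j := by
    intro i j hij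
    fin_cases i <;> fin_cases j <;> first | (exact absurd hij (by decide)) | assumption
  intro i j hij hi hj
  rcases lt_or_gt_of_ne hij with h | h
  · exact key i j h hi hj
  · exact (key j i h hj hi).symm

theorem z3a (a d : ZMod 3) (hd : d ≠ 0) : a ≠ a + d := by
  intro h; apply hd; linear_combination -h

theorem low_solution {M : Vx k → Vx k} {l r : Vx k → Bool} (hG : Good M l r)
    (hk : ∀ c, 3 ≤ k c) :
    ∃ (e m a b t : Vx k → ZMod 3), (∀ v, m (M v) = m v) ∧
      (∀ v, ∀ i j : Fin 6, i ≠ j → sl M l r v i = true → sl M l r v j = true →
        cl e m a b t v i ≠ cl e m a b t v j) ∧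
      (∀ v, (tl M l r v = true → tl M l r (nx v) = true → t v ≠ t (nx v)) ∧
        (tl M l r v = true → al M l r (nx v) = true → t v ≠ b (nx v)) ∧
        (al M l r v = true → tl M l r (nx v) = true → a v ≠ t (nx v)) ∧
        (al M l r v = true → al M l r (nx v) = true → a v ≠ b (nx v))) := by
  obtain ⟨L, δ, γ, hδ, hγ, H⟩ := exists_params hG
  obtain ⟨x, X5, X6, X7, X8⟩ := tokens hG (fun c => by have := hk c; omega) H
  set e := ee M l r L δ γ with he
  set m := mm M l r L δ γ with hm
  set d := dd l r δ with hd
  have hdne : ∀ v, d v ≠ 0 := fun v => hδ _
  have E1 : ∀ v, l (pv v) = true → l v = true → r v = true → e v = e (pv v) + d v ∧ d (pv v) = d v :=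
    fun v h1 h2 h3 => F1 hG h1 h2 h3
  have E2 : ∀ v, l (pv v) = true → l v = true → r v = false → e v ≠ e (pv v) :=
    fun v h1 h2 h3 => F2 hG hδ hγ h1 h2 h3
  have E3 : ∀ v, l (pv v) = false → l v = true → e v = c0 M l L δ v + δ v ∧ d v = δ v :=
    fun v h1 h2 => F3 h1 h2
  have M1 : ∀ v, m (M v) = m v := by
    intro v
    simp only [hm]
    unfold mm
    rw [hG.hr v]
    by_cases h : r v = true
    · simp [h]
    · have h' : r v = false := by simpa using h
      simp [h', hG.inv]
  -- values of m
  have M2 : ∀ v, r v = false → l v = true → l (pv v) = false → l (M v) = false →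
      m v = L v + δ v := by
    intro v h1 h2 h3 h4
    simp only [hm]
    unfold mm muA c0
    simp [h1, h2, h3, h4]
  have M3 : ∀ v, r v = false → l v = false → m v = e (pv v) + d (pv v) := by
    intro v h1 h2
    simp only [hm]
    unfold mm muA
    simp [h1, h2, he, hd]
  have M4 : ∀ v, r v = false → l v = true → l (pv v) = true → m v = - e (pv v) - e v := by
    intro v h1 h2 h3
    simp only [hm]
    unfold mm muA
    simp [h1, h2, h3, he]
  have X8' : ∀ v, l v = false → l (pv v) = true →
      x v = if l (M v) = true then e (pv v) + d (pv v) else e (pv v) - d (pv v) := by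
    intro v h1 h2
    rw [X8 v h1 h2]; rfl
  set lam : Vx k → ZMod 3 := fun u => if l u = true then L u else - x u - m u with hlam
  set a : Vx k → ZMod 3 := fun v => if l v = true then - L v - e v else
    if l (pv v) = true then e (pv v) + d (pv v) else x v with ha
  set b : Vx k → ZMod 3 := fun v => if l v = true then L v else
    if l (pv v) = true then - e (pv v) - a v else
    if r v = true then - x v - m v else lam (nx v) with hb
  set t : Vx k → ZMod 3 := fun v => if l v = true then
    (if l (pv v) = true then - e (pv v) - e v else - m v - e v) else
    (if l (pv v) = true then - e (pv v) - m v else - x v - lam (nx v)) with ht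
  have h3 := three_zero
  -- lam facts
  have LA : ∀ v, l v = false → r (nx v) = true ∨ l (nx v) = true → x v ≠ lam (nx v) := by
    intro v h1 h2
    simp only [hlam]
    by_cases h4 : l (nx v) = true
    · rw [if_pos h4]; exact X5 v h1 h4
    · rw [if_neg h4]
      have h4' : l (nx v) = false := by simpa using h4
      have h5 : r (nx v) = true := by tauto
      obtain ⟨h6, h7⟩ := X6 (nx v) h4' (by rw [pv_nx]; exact h1) h5
      rw [pv_nx] at h7
      generalize x v = p at h7 ⊢
      generalize x (nx v) = q at h6 h7 ⊢
      generalize m (nx v) = s at h6 h7 ⊢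
      revert p q s; decide
  have noT : ∀ v, ¬ (r v = false ∧ l (pv v) = l v ∧ r (nx v) = false ∧ l v = l (nx v)) := by
    rintro v ⟨h1, h2, h4, h5⟩
    have := (hG.hc v.1).1 v.2 (v.2 + 1) ⟨h1, h2⟩ ⟨h4, by
      show l (pv (nx v)) = l (nx v)
      rw [pv_nx]; exact h5⟩
    have hk2 := hk v.1
    have : Fact (1 < k v.1) := ⟨by omega⟩
    have h6 : (1 : ZMod (k v.1)) = 0 := by
      have h7 : v.2 = v.2 + 1 := by assumption
      simpa using h7.symm
    exact absurd h6 one_ne_zero
  have pureM : ∀ v, r v = false → l (pv v) = l v → l (M v) = !l v := by
    intro v h1 h2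
    exact (by decide : ∀ a b : Bool, a ≠ b → a = !b) _ _ (hG.ho v h1 h2)
  have mixr : ∀ v, l (pv v) ≠ l v → r v = false := by
    intro v h1
    by_contra h2
    exact h1 (hG.hp v (by simpa using h2))
  have C0 : ∀ v, l (pv v) = false → l v = true →
      e v = (if l (M v) = true then L v + d v else L v + d v + d v) := by
    intro v h1 h2
    obtain ⟨f1, f2⟩ := E3 v h1 h2
    rw [f1, f2]
    unfold c0
    split_ifs <;> rfl
  have C1 : ∀ v, l (pv v) = false → l v = true → l (M v) = false → m v = L v + d v := by
    intro v h1 h2 h4
    rw [(E3 v h1 h2).2]
    exact M2 v (mixr v (by rw [h1, h2]; simp)) h2 h1 h4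
  refine ⟨e, m, a, b, t, M1, ?_, ?_⟩
  · intro v
    have hdv := hdne v
    have hdp := hdne (pv v)
    cases h1 : l (pv v)
    · cases h2 : l v
      · cases h4 : r v
        · -- beta3
          have h5 : l (M v) = true := by rw [pureM v h4 (by rw [h1, h2]), h2]; rfl
          have hb' : b v = lam (nx v) := by simp [hb, h1, h2, h4]
          have ha' : a v = x v := by simp [ha, h1, h2]
          have ht' : t v = - x v - lam (nx v) := by simp [ht, h1, h2]
          have h6 : x v ≠ lam (nx v) := by
            apply LA v h2
            by_contra hcon
            push Not at hcon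
            obtain ⟨h7, h8⟩ := hcon
            apply noT v
            refine ⟨h4, by rw [h1, h2], by simpa using h7, ?_⟩
            rw [h2]; symm; simpa using h8
          apply six_pairs <;> simp only [sl, cl, ml, al, tl, h1, h2, h4, h5, Matrix.cons_val, if_true,
            if_false, Bool.not_true, Bool.not_false, Bool.false_eq_true, Bool.true_eq_false, false_implies, implies_true,
            true_implies] <;>
            rw [← sub_ne_zero] <;> simp only [hb', ha', ht'] <;>
            generalize x v = p at h6 ⊢ <;> generalize lam (nx v) = q at h6 ⊢ <;>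
            revert p q <;> decide
        · -- beta1
          have h6 := (X6 v h2 h1 h4).1
          have hb' : b v = - x v - m v := by simp [hb, h1, h2, h4]
          have ha' : a v = x v := by simp [ha, h1, h2]
          apply six_pairs <;> simp only [sl, cl, ml, al, tl, h1, h2, h4, Matrix.cons_val, if_true,
            if_false, Bool.not_true, Bool.not_false, Bool.false_eq_true, Bool.true_eq_false, false_implies, implies_true,
            true_implies] <;>
            (try simp only [hb', ha']) <;>
            generalize x v = p at h6 ⊢ <;> generalize m v = q at h6 ⊢ <;>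
            revert p q <;> decide
      · -- start
        have h4 : r v = false := mixr v (by rw [h1, h2]; simp)
        cases h5 : l (M v)
        · -- alpha2
          have e0 := C0 v h1 h2
          rw [h5, if_neg (by simp)] at e0
          have m0 := C1 v h1 h2 h5
          have ht' : t v = - m v - e v := by simp [ht, h1, h2]
          apply six_pairs <;> simp only [sl, cl, ml, al, tl, h1, h2, h4, h5, Matrix.cons_val, if_true,
            if_false, Bool.not_true, Bool.not_false, Bool.false_eq_true, Bool.true_eq_false, false_implies, implies_true,
            true_implies] <;>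
            (try simp only [ht', m0, e0]) <;>
            generalize L v = p <;> generalize d v = q at hdv ⊢ <;>
            revert p q <;> decide
        · have e0 := C0 v h1 h2
          rw [h5, if_pos rfl] at e0
          have ha' : a v = - L v - e v := by simp [ha, h2]
          have hb' : b v = L v := by simp [hb, h2]
          apply six_pairs <;> simp only [sl, cl, ml, al, tl, h1, h2, h4, h5, Matrix.cons_val, if_true,
            if_false, Bool.not_true, Bool.not_false, Bool.false_eq_true, Bool.true_eq_false, false_implies, implies_true,
            true_implies] <;>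
            (try simp only [ha', hb', e0]) <;>
            generalize L v = p <;> generalize d v = q at hdv ⊢ <;>
            revert p q <;> decide
    · cases h2 : l v
      · -- end
        have h4 : r v = false := mixr v (by rw [h1, h2]; simp)
        have m0 := M3 v h4 h2
        cases h5 : l (M v)
        · have ht' : t v = - e (pv v) - m v := by simp [ht, h1, h2]
          apply six_pairs <;> simp only [sl, cl, ml, al, tl, h1, h2, h4, h5, Matrix.cons_val, if_true,
            if_false, Bool.not_true, Bool.not_false, Bool.false_eq_true, Bool.true_eq_false, false_implies, implies_true,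
            true_implies] <;>
            (try simp only [ht', m0]) <;>
            generalize e (pv v) = p <;> generalize d (pv v) = q at hdp ⊢ <;>
            revert p q <;> decide
        · have ha' : a v = e (pv v) + d (pv v) := by simp [ha, h1, h2]
          have hb' : b v = - e (pv v) - a v := by simp [hb, h1, h2]
          apply six_pairs <;> simp only [sl, cl, ml, al, tl, h1, h2, h4, h5, Matrix.cons_val, if_true,
            if_false, Bool.not_true, Bool.not_false, Bool.false_eq_true, Bool.true_eq_false, false_implies, implies_true,
            true_implies] <;>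
            (try simp only [hb', ha']) <;>
            generalize e (pv v) = p <;> generalize d (pv v) = q at hdp ⊢ <;>
            revert p q <;> decide
      · cases h4 : r v
        · -- alpha3
          have h5 : l (M v) = false := by rw [pureM v h4 (by rw [h1, h2]), h2]; rfl
          have m0 := M4 v h4 h2 h1
          have h6 := E2 v h1 h2 h4
          apply six_pairs <;> simp only [sl, cl, ml, al, tl, h1, h2, h4, h5, Matrix.cons_val, if_true,
            if_false, Bool.not_true, Bool.not_false, Bool.false_eq_true, Bool.true_eq_false, false_implies, implies_true,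
            true_implies] <;>
            (try simp only [m0]) <;>
            generalize e (pv v) = p at h6 ⊢ <;> generalize e v = q at h6 ⊢ <;>
            revert p q <;> decide
        · -- alpha1
          obtain ⟨f1, f2⟩ := E1 v h1 h2 h4
          have ht' : t v = - e (pv v) - e v := by simp [ht, h1, h2]
          apply six_pairs <;> simp only [sl, cl, ml, al, tl, h1, h2, h4, Matrix.cons_val, if_true,
            if_false, Bool.not_true, Bool.not_false, Bool.false_eq_true, Bool.true_eq_false, false_implies, implies_true,
            true_implies] <;>
            (try simp only [ht', f1]) <;>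
            generalize e (pv v) = p <;> generalize d v = q at hdv ⊢ <;>
            revert p q <;> decide
  · have CA : ∀ v, l v = true → (tl M l r v = true → t v = e v + d v) ∧
        (al M l r v = true → a v = e v + d v) := by
      intro v h2
      cases h1 : l (pv v)
      · have h4 : r v = false := mixr v (by rw [h1, h2]; simp)
        cases h5 : l (M v)
        · have e0 := C0 v h1 h2
          rw [h5, if_neg (by simp)] at e0
          have m0 := C1 v h1 h2 h5
          have ht' : t v = - m v - e v := by simp [ht, h1, h2]
          simp only [al, tl, h1, h2, h4, h5, ht', m0, e0]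
          simp only [Bool.false_eq_true, if_false, Bool.not_false, Bool.not_true, true_implies,
            false_implies, and_true]
          linear_combination -(L v + 2 * d v) * h3
        · have e0 := C0 v h1 h2
          rw [h5, if_pos rfl] at e0
          have ha' : a v = - L v - e v := by simp [ha, h2]
          simp only [al, tl, h1, h2, h4, h5, ha', e0]
          simp only [Bool.false_eq_true, if_false, Bool.not_false, Bool.not_true, true_implies,
            false_implies, true_and]
          linear_combination -(L v + d v) * h3
      · cases h4 : r v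
        · have h5 : l (M v) = false := by rw [pureM v h4 (by rw [h1, h2]), h2]; rfl
          simp [al, tl, h1, h2, h4, h5]
        · obtain ⟨f1, f2⟩ := E1 v h1 h2 h4
          have ht' : t v = - e (pv v) - e v := by simp [ht, h1, h2]
          simp only [al, tl, h1, h2, h4, ht', f1]
          simp only [Bool.false_eq_true, if_true, Bool.not_false, Bool.not_true, true_implies,
            false_implies, and_true]
          linear_combination -(e (pv v) + d v) * h3
    have CB : ∀ v, l (pv v) = true → (tl M l r v = true → t v = e (pv v) - d (pv v)) ∧
        (al M l r v = true → b v = e (pv v) - d (pv v)) := by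
      intro v h1
      cases h2 : l v
      · have h4 : r v = false := mixr v (by rw [h1, h2]; simp)
        have m0 := M3 v h4 h2
        cases h5 : l (M v)
        · have ht' : t v = - e (pv v) - m v := by simp [ht, h1, h2]
          simp only [al, tl, h1, h2, h4, h5, ht', m0]
          simp only [Bool.false_eq_true, Bool.true_eq_false, if_false, Bool.not_false, Bool.not_true,
            true_implies, false_implies, and_true]
          linear_combination -(e (pv v)) * h3
        · have ha' : a v = e (pv v) + d (pv v) := by simp [ha, h1, h2]
          have hb' : b v = - e (pv v) - a v := by simp [hb, h1, h2]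
          simp only [al, tl, h1, h2, h4, h5, hb', ha']
          simp only [Bool.false_eq_true, Bool.true_eq_false, if_false, Bool.not_false, Bool.not_true,
            true_implies, false_implies, true_and]
          linear_combination -(e (pv v)) * h3
      · cases h4 : r v
        · have h5 : l (M v) = false := by rw [pureM v h4 (by rw [h1, h2]), h2]; rfl
          simp [al, tl, h1, h2, h4, h5]
        · obtain ⟨f1, f2⟩ := E1 v h1 h2 h4
          have ht' : t v = - e (pv v) - e v := by simp [ht, h1, h2]
          simp only [al, tl, h1, h2, h4, ht', f1, f2]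
          simp only [Bool.false_eq_true, if_true, Bool.not_false, Bool.not_true, true_implies,
            false_implies, and_true]
          linear_combination -(e (pv v)) * h3
    have CC : ∀ v, l v = false → (r v = true ∨ l (pv v) = true) →
        (tl M l r v = true → t v = x v) ∧ (al M l r v = true → a v = x v) := by
      intro v h2 h6
      cases h1 : l (pv v)
      · have h4 : r v = true := by simpa [h1] using h6
        have ha' : a v = x v := by simp [ha, h1, h2]
        simp [al, tl, h2, h4, ha']
      · have h4 : r v = false := mixr v (by rw [h1, h2]; simp)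
        have m0 := M3 v h4 h2
        have x0 := X8' v h2 h1
        cases h5 : l (M v)
        · rw [h5, if_neg (by simp)] at x0
          have ht' : t v = - e (pv v) - m v := by simp [ht, h1, h2]
          simp only [al, tl, h1, h2, h4, h5, ht', m0, x0]
          simp only [Bool.false_eq_true, Bool.true_eq_false, if_false, Bool.not_false, Bool.not_true,
            true_implies, false_implies, and_true]
          linear_combination -(e (pv v)) * h3
        · rw [h5, if_pos rfl] at x0
          have ha' : a v = e (pv v) + d (pv v) := by simp [ha, h1, h2]
          simp [al, tl, h1, h2, h4, h5, ha', x0]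
    have CD : ∀ v, l (pv v) = false → (r v = true ∨ l v = true) →
        (tl M l r v = true → t v = lam v) ∧ (al M l r v = true → b v = lam v) := by
      intro v h1 h6
      cases h2 : l v
      · have h4 : r v = true := by simpa [h2] using h6
        have hb' : b v = - x v - m v := by simp [hb, h1, h2, h4]
        simp [al, tl, h2, h4, hb', hlam]
      · have h4 : r v = false := mixr v (by rw [h1, h2]; simp)
        have hl' : lam v = L v := by simp [hlam, h2]
        cases h5 : l (M v)
        · have e0 := C0 v h1 h2
          rw [h5, if_neg (by simp)] at e0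
          have m0 := C1 v h1 h2 h5
          have ht' : t v = - m v - e v := by simp [ht, h1, h2]
          simp only [al, tl, h1, h2, h4, h5, ht', m0, e0, hl']
          simp only [Bool.false_eq_true, if_false, Bool.not_false, Bool.not_true, true_implies,
            false_implies, and_true]
          linear_combination -(L v + d v) * h3
        · have hb' : b v = L v := by simp [hb, h2]
          simp [al, tl, h1, h2, h4, h5, hb', hl']
    have CE : ∀ v, l (pv v) = false → l v = false → r v = false →
        t v = - x v - lam (nx v) ∧ a v = x v ∧ b v = lam (nx v) ∧ x v ≠ lam (nx v) := by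
      intro v h1 h2 h4
      refine ⟨by simp [ht, h1, h2], by simp [ha, h1, h2], by simp [hb, h1, h2, h4], ?_⟩
      apply LA v h2
      by_contra hcon
      push Not at hcon
      obtain ⟨h7, h8⟩ := hcon
      apply noT v
      refine ⟨h4, by rw [h1, h2], by simpa using h7, ?_⟩
      rw [h2]; symm; simpa using h8
    have Z1 : ∀ p q : ZMod 3, q ≠ 0 → p + q ≠ p - q := by decide
    have Z2 : ∀ p q : ZMod 3, p ≠ q → p ≠ - p - q := by decide
    have Z3 : ∀ p q : ZMod 3, p ≠ q → - p - q ≠ q := by decide
    intro v
    cases h2 : l v
    · -- l v = false
      by_cases h6 : r v = true ∨ l (pv v) = true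
      · obtain ⟨c1, c2⟩ := CC v h2 h6
        by_cases h7 : r (nx v) = true ∨ l (nx v) = true
        · obtain ⟨d1, d2⟩ := CD (nx v) (by rw [pv_nx]; exact h2) h7
          have hne := LA v h2 h7
          refine ⟨fun g1 g2 => ?_, fun g1 g2 => ?_, fun g1 g2 => ?_, fun g1 g2 => ?_⟩
          · rw [c1 g1, d1 g2]; exact hne
          · rw [c1 g1, d2 g2]; exact hne
          · rw [c2 g1, d1 g2]; exact hne
          · rw [c2 g1, d2 g2]; exact hne
        · push Not at h7
          have h8 : r (nx v) = false := by simpa using h7.1
          have h9 : l (nx v) = false := by simpa using h7.2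
          obtain ⟨d1, d2, d3, d4⟩ := CE (nx v) (by rw [pv_nx]; exact h2) h9 h8
          have h10 : x (nx v) = x v := by
            have := X7 (nx v) h9 (by rw [pv_nx]; exact h2) h8
            rw [pv_nx] at this; exact this
          rw [h10] at d1 d2 d4
          refine ⟨fun g1 g2 => ?_, fun g1 g2 => ?_, fun g1 g2 => ?_, fun g1 g2 => ?_⟩
          · rw [c1 g1, d1]; exact Z2 _ _ d4
          · rw [c1 g1, d3]; exact d4
          · rw [c2 g1, d1]; exact Z2 _ _ d4
          · rw [c2 g1, d3]; exact d4
      · push Not at h6
        have h8 : r v = false := by simpa using h6.1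
        have h9 : l (pv v) = false := by simpa using h6.2
        obtain ⟨c1, c2, c3, c4⟩ := CE v h9 h2 h8
        have h7 : r (nx v) = true ∨ l (nx v) = true := by
          by_contra hcon
          push Not at hcon
          obtain ⟨h10, h11⟩ := hcon
          apply noT v
          refine ⟨h8, by rw [h9, h2], by simpa using h10, ?_⟩
          rw [h2]; symm; simpa using h11
        obtain ⟨d1, d2⟩ := CD (nx v) (by rw [pv_nx]; exact h2) h7
        refine ⟨fun g1 g2 => ?_, fun g1 g2 => ?_, fun g1 g2 => ?_, fun g1 g2 => ?_⟩
        · rw [c1, d1 g2]; exact Z3 _ _ c4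
        · rw [c1, d2 g2]; exact Z3 _ _ c4
        · rw [c2, d1 g2]; exact c4
        · rw [c2, d2 g2]; exact c4
    · obtain ⟨c1, c2⟩ := CA v h2
      obtain ⟨d1, d2⟩ := CB (nx v) (by rw [pv_nx]; exact h2)
      rw [pv_nx] at d1 d2
      have hne := Z1 (e v) (d v) (hdne v)
      refine ⟨fun g1 g2 => ?_, fun g1 g2 => ?_, fun g1 g2 => ?_, fun g1 g2 => ?_⟩
      · rw [c1 g1, d1 g2]; exact hne
      · rw [c1 g1, d2 g2]; exact hne
      · rw [c2 g1, d1 g2]; exact hne
      · rw [c2 g1, d2 g2]; exact hne

end

end Pool.Agent.Helper850.TC
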