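import Pool.Agent.Helper850.TC.Struct

namespace Pool.Agent.Helper850.TC

open Classical

set_option linter.unusedVariables false
set_option linter.unusedSimpArgs false
set_option linter.unusedSectionVars false

section
variable {ι : Type*} {k : ι → ℕ} [∀ c, NeZero (k c)] [Fintype ι]

/-- the slots -/
abbrev Slot (k : ι → ℕ) := Σ c : ι, Fin (k c / 2)

def endp (b : ∀ c, ZMod (k c)) (s : Slot k) (e : Bool) : Vx k :=
  ⟨s.1, b s.1 + ((2 * s.2.val + (if e then 1 else 0) : ℕ) : ZMod (k s.1))⟩

theorem endp_inj (b : ∀ c, ZMod (k c)) {s s' : Slot k} {e e' : Bool}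
    (h : endp b s e = endp b s' e') : s = s' ∧ e = e' := by
  obtain ⟨c, j⟩ := s
  obtain ⟨c', j'⟩ := s'
  unfold endp at h
  simp only [Sigma.mk.injEq] at h
  obtain ⟨h1, h2⟩ := h
  subst h1
  simp only [heq_eq_eq, add_right_inj] at h2
  have hj := j.isLt
  have hj' := j'.isLt
  rw [ZMod.natCast_eq_natCast_iff'] at h2
  rw [Nat.mod_eq_of_lt (by split_ifs <;> omega), Nat.mod_eq_of_lt (by split_ifs <;> omega)] at h2
  have h3 : j.val = j'.val ∧ e = e' := by
    cases e <;> cases e' <;> simp at h2 ⊢ <;> omega
  refine ⟨?_, h3.2⟩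
  congr 1
  exact Fin.ext h3.1

theorem hall_orient (M : Vx k → Vx k) (hinv : ∀ v, M (M v) = v) (hfix : ∀ v, M v ≠ v)
    (b : ∀ c, ZMod (k c)) : ∃ inn : Vx k → Bool, (∀ v, inn (M v) = !inn v) ∧
      ∀ s : Slot k, inn (endp b s false) = true ∨ inn (endp b s true) = true := by
  set edg : Vx k → Sym2 (Vx k) := fun v => s(v, M v) with hedg
  have hed : ∀ v w, edg v = edg w → v = w ∨ v = M w := by
    intro v w h
    simp only [hedg, Sym2.eq_iff] at h
    rcases h with h | h
    · exact Or.inl h.1
    · exact Or.inr h.1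
  set t : Slot k → Finset (Sym2 (Vx k)) := fun s => {edg (endp b s false), edg (endp b s true)} with ht
  have hall : ∀ S : Finset (Slot k), S.card ≤ (S.biUnion t).card := by
    intro S
    set E : Finset (Vx k) := (S ×ˢ (Finset.univ : Finset Bool)).image (fun p => endp b p.1 p.2) with hE
    have hEc : E.card = 2 * S.card := by
      rw [hE, Finset.card_image_of_injective, Finset.card_product]
      · simp [mul_comm]
      · rintro ⟨s, e⟩ ⟨s', e'⟩ h
        obtain ⟨h1, h2⟩ := endp_inj b h
        exact Prod.ext h1 h2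
    have himg : E.image edg ⊆ S.biUnion t := by
      intro x hx
      rw [Finset.mem_image] at hx
      obtain ⟨v, hv, rfl⟩ := hx
      rw [hE, Finset.mem_image] at hv
      obtain ⟨⟨s, e⟩, hs, rfl⟩ := hv
      rw [Finset.mem_biUnion]
      refine ⟨s, (Finset.mem_product.1 hs).1, ?_⟩
      simp only [ht, Finset.mem_insert, Finset.mem_singleton]
      cases e
      · left; rfl
      · right; rfl
    have h2 : E.card ≤ 2 * (E.image edg).card := by
      apply Finset.card_le_mul_card_image
      intro x hx
      rw [Finset.mem_image] at hx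
      obtain ⟨v, _, rfl⟩ := hx
      have : (E.filter (fun w => edg w = edg v)) ⊆ {v, M v} := by
        intro w hw
        rw [Finset.mem_filter] at hw
        rw [Finset.mem_insert, Finset.mem_singleton]
        exact hed w v hw.2
      exact (Finset.card_le_card this).trans Finset.card_le_two
    have h3 := Finset.card_le_card himg
    omega
  obtain ⟨f, hf1, hf2⟩ := (Finset.all_card_le_biUnion_card_iff_exists_injective t).1 hall
  have hch : ∀ s, ∃ e, edg (endp b s e) = f s := by
    intro s
    have := hf2 s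
    simp only [ht, Finset.mem_insert, Finset.mem_singleton] at this
    rcases this with h | h
    · exact ⟨false, h.symm⟩
    · exact ⟨true, h.symm⟩
  choose ce hce using hch
  set sel : Vx k → Prop := fun v => ∃ s, endp b s (ce s) = v with hsel
  have hnot : ∀ v, sel v → ¬ sel (M v) := by
    rintro v ⟨s, hs⟩ ⟨s', hs'⟩
    have h1 : f s = f s' := by
      rw [← hce, ← hce, hs, hs']
      simp only [hedg, hinv]
      rw [Sym2.eq_swap]
    have h2 := hf1 h1
    subst h2
    rw [hs] at hs'
    exact hfix v hs'.symm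
  set ix := Fintype.equivFin (Vx k) with hix
  refine ⟨fun v => if sel v then true else if sel (M v) then false else decide (ix v < ix (M v)), ?_, ?_⟩
  · intro v
    simp only [hinv]
    by_cases h1 : sel v
    · have h2 := hnot v h1
      rw [if_neg h2, if_pos h1, if_pos h1]; rfl
    · by_cases h2 : sel (M v)
      · rw [if_pos h2, if_neg h1, if_pos h2]; rfl
      · rw [if_neg h2, if_neg h1, if_neg h1, if_neg h2]
        have h3 : ix v ≠ ix (M v) := fun h => hfix v (ix.injective h).symm
        rcases lt_or_gt_of_ne h3 with h4 | h4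
        · rw [decide_eq_false (not_lt.2 h4.le), decide_eq_true h4]; rfl
        · rw [decide_eq_true h4, decide_eq_false (not_lt.2 h4.le)]; rfl
  · intro s
    cases h : ce s
    · left
      exact if_pos ⟨s, by rw [h]⟩
    · right
      exact if_pos ⟨s, by rw [h]⟩

theorem count_ge (inn : Vx k → Bool) (b : ∀ c, ZMod (k c))
    (h : ∀ s : Slot k, inn (endp b s false) = true ∨ inn (endp b s true) = true) (c : ι) :
    k c / 2 ≤ (Finset.univ.filter (fun i : ZMod (k c) => inn ⟨c, i⟩ = true)).card := by
  have hc : ∀ j : Fin (k c / 2), ∃ e, inn (endp b ⟨c, j⟩ e) = true := by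
    intro j
    rcases h ⟨c, j⟩ with h | h
    · exact ⟨false, h⟩
    · exact ⟨true, h⟩
  choose e he using hc
  have := Finset.card_le_card_of_injOn (s := (Finset.univ : Finset (Fin (k c / 2))))
    (t := Finset.univ.filter (fun i : ZMod (k c) => inn ⟨c, i⟩ = true))
    (fun j => (endp b ⟨c, j⟩ (e j)).2)
    (by
      intro j _
      simp only [Finset.coe_filter, Finset.mem_univ, true_and, Set.mem_ofPred_eq]
      exact he j)
    (by
      intro j _ j' _ hjj
      have h1 : endp b ⟨c, j⟩ (e j) = endp b ⟨c, j'⟩ (e j') := by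
        have h2 : (endp b ⟨c, j⟩ (e j)) = ⟨c, (endp b ⟨c, j⟩ (e j)).2⟩ := rfl
        have h3 : (endp b ⟨c, j'⟩ (e j')) = ⟨c, (endp b ⟨c, j'⟩ (e j')).2⟩ := rfl
        rw [h2, h3]
        simp only at hjj
        rw [hjj]
      have h4 := (endp_inj b h1).1
      simpa using h4)
  simpa using this

end

end Pool.Agent.Helper850.TC
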