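import Pool.Agent.Helper850.TC.Orient

namespace Pool.Agent.Helper850.TC

open Classical

set_option linter.unusedVariables false
set_option linter.unusedSimpArgs false
set_option linter.unusedSectionVars false

theorem z5a {n : ℕ} (h : n = 5) (i b : ZMod n)
    (h1 : b = i ∨ b = i + 1 ∨ b + 1 = i ∨ b + 1 = i + 1)
    (h2 : b + 2 = i ∨ b + 2 = i + 1 ∨ b + 3 = i ∨ b + 3 = i + 1) : i = b + 1 := by
  subst h; revert i b; decide

theorem z5b {n : ℕ} (h : n = 5) (i j : ZMod n) (h1 : j = i ∨ j = i + 2)
    (h2 : j + 1 = i ∨ j + 1 = i + 2) : False := by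
  subst h; revert i j; decide

section
variable {ι : Type*} {k : ι → ℕ} [∀ c, NeZero (k c)] [Fintype ι]

theorem vx_eq {c : ι} {v : Vx k} (h : v.1 = c) : ∃ i, v = ⟨c, i⟩ := by
  obtain ⟨c', i⟩ := v
  simp only at h
  subst h
  exact ⟨i, rfl⟩

theorem vx_inj {c : ι} {i j : ZMod (k c)} (h : (⟨c, i⟩ : Vx k) = ⟨c, j⟩) : i = j := by
  simpa using h

theorem card_fiber (c : ι) : (Finset.univ.filter (fun v : Vx k => v.1 = c)).card = k c := by
  have : Finset.univ.filter (fun v : Vx k => v.1 = c) =
      (Finset.univ : Finset (ZMod (k c))).image (fun i => (⟨c, i⟩ : Vx k)) := by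
    ext v
    simp only [Finset.mem_filter, Finset.mem_univ, true_and, Finset.mem_image]
    constructor
    · intro h
      obtain ⟨i, rfl⟩ := vx_eq h
      exact ⟨i, rfl⟩
    · rintro ⟨i, rfl⟩; rfl
  rw [this, Finset.card_image_of_injective _ (fun i j h => vx_inj h), Finset.card_univ, ZMod.card]

theorem count_fiber (P : Vx k → Bool) (c : ι) :
    (Finset.univ.filter (fun i : ZMod (k c) => P ⟨c, i⟩ = true)).card =
    (Finset.univ.filter (fun v : Vx k => v.1 = c ∧ P v = true)).card := by
  have : Finset.univ.filter (fun v : Vx k => v.1 = c ∧ P v = true) =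
      (Finset.univ.filter (fun i : ZMod (k c) => P ⟨c, i⟩ = true)).image (fun i => (⟨c, i⟩ : Vx k)) := by
    ext v
    simp only [Finset.mem_filter, Finset.mem_univ, true_and, Finset.mem_image]
    constructor
    · rintro ⟨h, h2⟩
      obtain ⟨i, rfl⟩ := vx_eq h
      exact ⟨i, h2, rfl⟩
    · rintro ⟨i, h, rfl⟩; exact ⟨rfl, h⟩
  rw [this, Finset.card_image_of_injective _ (fun i j h => vx_inj h)]

/-- mono five-cycle with in-ends exactly `i, i+1` -/
def BadC (M : Vx k → Vx k) (inn : Vx k → Bool) (c : ι) (i : ZMod (k c)) : Prop :=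
  k c = 5 ∧ (∀ v w : Vx k, v.1 = c → w.1 = c → (M v).1 = (M w).1) ∧
    (∀ v : Vx k, v.1 = c → (M v).1 ≠ c) ∧
    inn ⟨c, i⟩ = true ∧ inn ⟨c, i+1⟩ = true ∧
    (∀ v : Vx k, v.1 = c → v ≠ ⟨c, i⟩ → v ≠ ⟨c, i+1⟩ → inn v = false)

theorem surj5 {M : Vx k → Vx k} (hinv : ∀ v, M (M v) = v) {c u : ι} (hc : k c = 5) (hu : k u = 5)
    (h : ∀ v : Vx k, v.1 = u → (M v).1 = c) (v : Vx k) (hv : v.1 = c) : (M v).1 = u := by
  have hsub : (Finset.univ.filter (fun v : Vx k => v.1 = u)).image M ⊆
      Finset.univ.filter (fun v : Vx k => v.1 = c) := by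
    intro w hw
    rw [Finset.mem_image] at hw
    obtain ⟨x, hx, rfl⟩ := hw
    rw [Finset.mem_filter] at hx ⊢
    exact ⟨Finset.mem_univ _, h x hx.2⟩
  have hinj : Function.Injective M := fun a b hab => by rw [← hinv a, ← hinv b, hab]
  have heq := Finset.eq_of_subset_of_card_le hsub (by
    rw [Finset.card_image_of_injective _ hinj, card_fiber, card_fiber, hc, hu])
  have hv' : v ∈ Finset.univ.filter (fun v : Vx k => v.1 = c) := by simp [hv]
  rw [← heq, Finset.mem_image] at hv'
  obtain ⟨x, hx, rfl⟩ := hv'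
  rw [hinv]
  exact (Finset.mem_filter.1 hx).2

theorem orient (hk : ∀ c, 3 ≤ k c) (M : Vx k → Vx k) (hinv : ∀ v, M (M v) = v)
    (hfix : ∀ v, M v ≠ v) :
    ∃ inn : Vx k → Bool, (∀ v, inn (M v) = !inn v) ∧
      (∀ c, k c / 2 ≤ (Finset.univ.filter (fun i : ZMod (k c) => inn ⟨c, i⟩ = true)).card) ∧
      (∀ (c : ι) (i : ZMod (k c)), k c = 5 → inn ⟨c, i⟩ = true → inn ⟨c, i+1⟩ = true →
        (∀ v : Vx k, v.1 = c → v ≠ ⟨c, i⟩ → v ≠ ⟨c, i+1⟩ → inn v = false) →
        (∀ v : Vx k, v.1 = c → (M v).1 ≠ c) → (M ⟨c, i⟩).1 ≠ (M ⟨c, i+1⟩).1) ∧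
      (∀ (c : ι) (i : ZMod (k c)), k c = 5 → M ⟨c, i⟩ = ⟨c, i+2⟩ → (M ⟨c, i+3⟩).1 ≠ c →
        (M ⟨c, i+4⟩).1 ≠ c → inn ⟨c, i+3⟩ = true ∨ inn ⟨c, i+4⟩ = true) := by
  -- choice of bases
  have hbase : ∀ c : ι, ∃ b : ZMod (k c),
      (∀ i, k c = 5 → M ⟨c, i⟩ = ⟨c, i+2⟩ → (M ⟨c, i+3⟩).1 ≠ c → (M ⟨c, i+4⟩).1 ≠ c → b = i + 3) ∧
      ((∀ v : Vx k, v.1 = c → (M v).1 ≠ c) →
        (M ⟨c, b+1⟩).1 = (M ⟨c, b+2⟩).1 → ∀ b' : ZMod (k c), (M ⟨c, b'+1⟩).1 = (M ⟨c, b'+2⟩).1) := by
    intro c
    by_cases h1 : ∃ i, k c = 5 ∧ M ⟨c, i⟩ = ⟨c, i+2⟩ ∧ (M ⟨c, i+3⟩).1 ≠ c ∧ (M ⟨c, i+4⟩).1 ≠ c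
    · obtain ⟨i, h5, h2, h3, h4⟩ := h1
      refine ⟨i + 3, ?_, ?_⟩
      · intro j _ h2' h3' h4'
        -- uniqueness of the chord
        have hne3 : ∀ a : ZMod (k c), a = i + 3 ∨ a = i + 4 → M ⟨c, a⟩ ≠ ⟨c, a + 2⟩ := by
          rintro a (rfl | rfl) h
          · apply h3; rw [h]
          · apply h4; rw [h]
        have hj2 : M ⟨c, j + 2⟩ = ⟨c, j⟩ := by rw [← h2', hinv]
        have hi2 : M ⟨c, i + 2⟩ = ⟨c, i⟩ := by rw [← h2, hinv]
        have hcases : j = i ∨ j = i + 1 ∨ j = i + 2 ∨ j = i + 3 ∨ j = i + 4 := by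
          clear h2 h3 h4 h2' h3' h4' hne3 hj2 hi2
          revert i j
          generalize k c = n at h5
          subst h5
          decide
        have e5 : (5 : ZMod (k c)) = 0 := by
          have := ZMod.natCast_self (k c)
          rw [h5] at this ⊢
          exact_mod_cast this
        rcases hcases with rfl | rfl | rfl | rfl | rfl
        · rfl
        · -- j = i+1 : chord (i+1, i+3)
          exfalso
          apply h3
          have : M ⟨c, i + 3⟩ = ⟨c, i + 1⟩ := by
            rw [← hj2]; congr 2; ring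
          rw [this]
        · exfalso
          rw [hi2] at h2'
          have := vx_inj h2'
          have h6 : (4 : ZMod (k c)) = 0 := by linear_combination -this
          clear * - h6 h5
          generalize k c = n at h5 h6
          subst h5
          exact absurd h6 (by decide)
        · exact absurd h2' (hne3 _ (Or.inl rfl))
        · exact absurd h2' (hne3 _ (Or.inr rfl))
      · intro hch
        exfalso
        exact hch ⟨c, i⟩ rfl (by rw [h2])
    · by_cases h6 : ∃ b : ZMod (k c), (M ⟨c, b+1⟩).1 ≠ (M ⟨c, b+2⟩).1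
      · obtain ⟨b, hb⟩ := h6
        refine ⟨b, ?_, ?_⟩
        · intro i g1 g2 g3 g4
          exact absurd ⟨i, g1, g2, g3, g4⟩ h1
        · intro _ h; exact absurd h hb
      · push Not at h6
        refine ⟨0, ?_, fun _ _ => h6⟩
        intro i g1 g2 g3 g4
        exact absurd ⟨i, g1, g2, g3, g4⟩ h1
  choose b hb1 hb2 using hbase
  obtain ⟨inn0, hM0, hS0⟩ := hall_orient M hinv hfix b
  set Bd : ι → Prop := fun c => ∃ i, BadC M inn0 c i with hBd
  have hix : ∀ c, ∃ i : ZMod (k c), Bd c → BadC M inn0 c i := by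
    intro c
    by_cases h : Bd c
    · obtain ⟨i, hi⟩ := h
      exact ⟨i, fun _ => hi⟩
    · exact ⟨0, fun h' => absurd h' h⟩
  choose ix hixs using hix
  have hinj : Function.Injective M := fun a b hab => by rw [← hinv a, ← hinv b, hab]
  -- a Bad cycle has no Bad neighbour
  have hBB : ∀ v : Vx k, Bd v.1 → ¬ Bd (M v).1 := by
    intro v h1 h2
    obtain ⟨a1, a2, a3, a4, a5, a6⟩ := hixs v.1 h1
    obtain ⟨c1, c2, c3, c4, c5, c6⟩ := hixs (M v).1 h2
    set c := v.1 with hc
    set i := ix c with hi
    set u := (M v).1 with hu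
    set p := ix u with hp
    have hto : ∀ w : Vx k, w.1 = c → (M w).1 = u := fun w hw => a2 w v hw rfl
    have hout : ∀ j : ZMod (k c), j ≠ i → j ≠ i + 1 →
        M ⟨c, j⟩ = ⟨u, p⟩ ∨ M ⟨c, j⟩ = ⟨u, p + 1⟩ := by
      intro j hj1 hj2
      have g1 : inn0 ⟨c, j⟩ = false := a6 _ rfl (fun h => hj1 (vx_inj h)) (fun h => hj2 (vx_inj h))
      have g2 : inn0 (M ⟨c, j⟩) = true := by rw [hM0, g1]; rfl
      by_contra hcon
      push Not at hcon
      have := c6 (M ⟨c, j⟩) (hto _ rfl) hcon.1 hcon.2
      rw [g2] at this; exact absurd this (by simp)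
    have hd : ∀ x y : ZMod (k c), x ≠ y → M ⟨c, x⟩ ≠ M ⟨c, y⟩ := by
      intro x y hxy h
      exact hxy (vx_inj (hinj h))
    have e1 : i + 2 ≠ i ∧ i + 2 ≠ i + 1 ∧ i + 3 ≠ i ∧ i + 3 ≠ i + 1 ∧ i + 4 ≠ i ∧ i + 4 ≠ i + 1 ∧
        i + 2 ≠ i + 3 ∧ i + 2 ≠ i + 4 ∧ i + 3 ≠ i + 4 := by
      clear * - a1
      clear_value i
      revert i
      generalize k c = n at a1
      subst a1
      decide
    obtain ⟨f1, f2, f3, f4, f5, f6, f7, f8, f9⟩ := e1
    have g2 := hout (i+2) f1 f2
    have g3 := hout (i+3) f3 f4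
    have g4 := hout (i+4) f5 f6
    have d23 := hd _ _ f7
    have d24 := hd _ _ f8
    have d34 := hd _ _ f9
    rcases g2 with g2 | g2 <;> rcases g3 with g3 | g3 <;> rcases g4 with g4 | g4 <;>
      first
      | exact d23 (g2.trans g3.symm)
      | exact d24 (g2.trans g4.symm)
      | exact d34 (g3.trans g4.symm)
  set sw : ι → Vx k → Vx k := fun c => Equiv.swap ⟨c, ix c + 1⟩ ⟨c, ix c + 2⟩ with hsw
  have hsw1 : ∀ c v, v.1 = c → (sw c v).1 = c := by
    intro c v hv
    simp only [hsw, Equiv.swap_apply_def]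
    split_ifs
    · rfl
    · rfl
    · exact hv
  have hsw2 : ∀ c v, sw c (sw c v) = v := by
    intro c v
    simp only [hsw, Equiv.swap_apply_self]
  set pi : Vx k → Vx k := fun v => if Bd v.1 then sw v.1 v else
    if Bd (M v).1 then M (sw (M v).1 (M v)) else v with hpi
  have p1 : ∀ v, (pi v).1 = v.1 := by
    intro v
    simp only [hpi]
    split_ifs with h1 h2
    · exact hsw1 _ _ rfl
    · have := (hixs _ h2).2.1 (sw (M v).1 (M v)) (M v) (hsw1 _ _ rfl) rfl
      rw [this, hinv]
    · rfl
  have p2 : ∀ v, pi (pi v) = v := by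
    intro v
    by_cases h1 : Bd v.1
    · have e1 : pi v = sw v.1 v := by simp only [hpi, if_pos h1]
      have e2 : pi (sw v.1 v) = sw v.1 (sw v.1 v) := by
        simp only [hpi]
        rw [hsw1 v.1 v rfl, if_pos h1]
      rw [e1, e2, hsw2]
    · by_cases h2 : Bd (M v).1
      · have e1 : pi v = M (sw (M v).1 (M v)) := by simp only [hpi, if_neg h1, if_pos h2]
        have e3 : (pi v).1 = v.1 := p1 v
        rw [e1] at e3
        have e2 : pi (M (sw (M v).1 (M v))) = M (sw (M v).1 (sw (M v).1 (M v))) := by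
          simp only [hpi]
          rw [e3, if_neg h1, hinv, hsw1 (M v).1 (M v) rfl, if_pos h2]
        rw [e1, e2, hsw2, hinv]
      · have e1 : pi v = v := by simp only [hpi, if_neg h1, if_neg h2]
        rw [e1, e1]
  have p3 : ∀ v, pi (M v) = M (pi v) := by
    intro v
    by_cases h1 : Bd v.1
    · have h2 := hBB v h1
      have e1 : pi v = sw v.1 v := by simp only [hpi, if_pos h1]
      simp only [hpi]
      rw [if_neg h2, hinv, if_pos h1, if_pos h1]
    · by_cases h2 : Bd (M v).1
      · simp only [hpi]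
        rw [if_pos h2, if_neg h1, if_pos h2, hinv]
      · simp only [hpi]
        rw [if_neg h2, hinv, if_neg h1, if_neg h1, if_neg h2]
  have hnotbd_c : ∀ c : ι, (∃ v : Vx k, v.1 = c ∧ (M v).1 = c) → ¬ Bd c := by
    rintro c ⟨v, hv1, hv2⟩ h
    exact (hixs c h).2.2.1 v hv1 hv2
  refine ⟨fun v => inn0 (pi v), ?_, ?_, ?_, ?_⟩
  · intro v
    simp only
    rw [p3, hM0]
  · intro c
    have h1 := count_ge inn0 b hS0 c
    rw [count_fiber inn0] at h1
    rw [count_fiber (fun v => inn0 (pi v))]
    refine h1.trans (le_of_eq ?_)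
    apply Finset.card_bij (fun v _ => pi v)
    · intro v hv
      rw [Finset.mem_filter] at hv ⊢
      refine ⟨Finset.mem_univ _, by rw [p1]; exact hv.2.1, by rw [p2]; exact hv.2.2⟩
    · intro v _ w _ h
      rw [← p2 v, ← p2 w, h]
    · intro v hv
      rw [Finset.mem_filter] at hv
      refine ⟨pi v, ?_, p2 v⟩
      rw [Finset.mem_filter]
      exact ⟨Finset.mem_univ _, by rw [p1]; exact hv.2.1, hv.2.2⟩
  · -- O2
    intro c i h5 hi1 hi2 hoth hch heq
    simp only at hi1 hi2 hoth
    by_cases hb : Bd c
    · obtain ⟨a1, a2, a3, a4, a5, a6⟩ := hixs c hb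
      set p := ix c with hp
      have key : ∀ j : ZMod (k c), inn0 (pi ⟨c, j⟩) = true → j = p ∨ j = p + 2 := by
        intro j hj
        have e1 : pi ⟨c, j⟩ = sw c ⟨c, j⟩ := by simp only [hpi, if_pos hb]
        rw [e1] at hj
        by_contra hcon
        push Not at hcon
        have : inn0 (sw c ⟨c, j⟩) = false := by
          by_cases hj1 : j = p + 1
          · have e2 : sw c ⟨c, j⟩ = ⟨c, p + 2⟩ := by
              simp only [hsw, ← hp, hj1, Equiv.swap_apply_left]
            rw [e2]
            apply a6 _ rfl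
            · intro h
              have := vx_inj h
              clear * - this a1
              clear_value p
              revert p
              generalize k c = n at a1
              subst a1
              decide
            · intro h
              have := vx_inj h
              clear * - this a1
              clear_value p
              revert p
              generalize k c = n at a1
              subst a1
              decide
          · have e2 : sw c ⟨c, j⟩ = ⟨c, j⟩ := by
              simp only [hsw, ← hp]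
              apply Equiv.swap_apply_of_ne_of_ne
              · exact fun h => hj1 (vx_inj h)
              · exact fun h => hcon.2 (vx_inj h)
            rw [e2]
            exact a6 _ rfl (fun h => hcon.1 (vx_inj h)) (fun h => hj1 (vx_inj h))
        rw [hj] at this; exact absurd this (by simp)
      exact z5b a1 p i (key i hi1) (key (i+1) hi2)
    · by_cases hn : ∃ v : Vx k, v.1 = c ∧ Bd (M v).1
      · -- all ends of c go to a Bad cycle u
        obtain ⟨v, hv1, hv2⟩ := hn
        obtain ⟨a1, a2, a3, a4, a5, a6⟩ := hixs _ hv2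
        set u := (M v).1 with hu
        have hto : ∀ w : Vx k, w.1 = u → (M w).1 = c := by
          intro w hw
          rw [a2 w (M v) hw rfl, hinv, hv1]
        set p := ix u with hp
        have hout : ∀ j : ZMod (k u), j ≠ p → j ≠ p + 2 →
            M ⟨u, j⟩ = ⟨c, i⟩ ∨ M ⟨u, j⟩ = ⟨c, i + 1⟩ := by
          intro j hj1 hj2
          have g1 : inn0 (pi ⟨u, j⟩) = false := by
            have e1 : pi ⟨u, j⟩ = sw u ⟨u, j⟩ := by simp only [hpi, if_pos hv2]
            rw [e1]
            by_cases hj3 : j = p + 1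
            · have e2 : sw u ⟨u, j⟩ = ⟨u, p + 2⟩ := by
                simp only [hsw, ← hp, hj3, Equiv.swap_apply_left]
              rw [e2]
              apply a6 ⟨u, p + 2⟩ rfl
              · intro h
                have := vx_inj h
                clear * - this a1
                clear_value p
                revert p
                generalize k u = n at a1
                subst a1
                decide
              · intro h
                have := vx_inj h
                clear * - this a1
                clear_value p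
                revert p
                generalize k u = n at a1
                subst a1
                decide
            · have e2 : sw u ⟨u, j⟩ = ⟨u, j⟩ := by
                simp only [hsw, ← hp]
                apply Equiv.swap_apply_of_ne_of_ne
                · exact fun h => hj3 (vx_inj h)
                · exact fun h => hj2 (vx_inj h)
              rw [e2]
              exact a6 ⟨u, j⟩ rfl (fun h => hj1 (vx_inj h)) (fun h => hj3 (vx_inj h))
          have g2 : inn0 (pi (M ⟨u, j⟩)) = true := by rw [p3, hM0, g1]; rfl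
          by_contra hcon
          push Not at hcon
          have := hoth (M ⟨u, j⟩) (hto _ rfl) hcon.1 hcon.2
          rw [g2] at this; exact absurd this (by simp)
        have hd : ∀ x y : ZMod (k u), x ≠ y → M ⟨u, x⟩ ≠ M ⟨u, y⟩ := by
          intro x y hxy h
          exact hxy (vx_inj (hinj h))
        have e1 : p + 1 ≠ p ∧ p + 1 ≠ p + 2 ∧ p + 3 ≠ p ∧ p + 3 ≠ p + 2 ∧ p + 4 ≠ p ∧ p + 4 ≠ p + 2 ∧
            p + 1 ≠ p + 3 ∧ p + 1 ≠ p + 4 ∧ p + 3 ≠ p + 4 := by
          clear * - a1
          clear_value p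
          revert p
          generalize k u = n at a1
          subst a1
          decide
        obtain ⟨f1, f2, f3, f4, f5, f6, f7, f8, f9⟩ := e1
        have g2 := hout (p+1) f1 f2
        have g3 := hout (p+3) f3 f4
        have g4 := hout (p+4) f5 f6
        have d23 := hd _ _ f7
        have d24 := hd _ _ f8
        have d34 := hd _ _ f9
        rcases g2 with g2 | g2 <;> rcases g3 with g3 | g3 <;> rcases g4 with g4 | g4 <;>
          first
          | exact d23 (g2.trans g3.symm)
          | exact d24 (g2.trans g4.symm)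
          | exact d34 (g3.trans g4.symm)
      · push Not at hn
        have hpi0 : ∀ v : Vx k, v.1 = c → pi v = v := by
          intro v hv
          simp only [hpi]
          rw [hv, if_neg hb, if_neg (hn v hv)]
        rw [hpi0 _ rfl] at hi1 hi2
        have hoth' : ∀ v : Vx k, v.1 = c → v ≠ ⟨c, i⟩ → v ≠ ⟨c, i+1⟩ → inn0 v = false := by
          intro v hv h1 h2
          have := hoth v hv h1 h2
          rwa [hpi0 v hv] at this
        have hiff : ∀ j : ZMod (k c), inn0 ⟨c, j⟩ = true → j = i ∨ j = i + 1 := by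
          intro j hj
          by_contra hcon
          push Not at hcon
          have := hoth' ⟨c, j⟩ rfl (fun h => hcon.1 (vx_inj h)) (fun h => hcon.2 (vx_inj h))
          rw [hj] at this; exact absurd this (by simp)
        have s0 := hS0 ⟨c, ⟨0, by omega⟩⟩
        have s1 := hS0 ⟨c, ⟨1, by omega⟩⟩
        have hib : i = b c + 1 := by
          apply z5a h5
          · rcases s0 with s0 | s0
            · have := hiff _ s0
              simp only [mul_zero, Bool.false_eq_true, if_false, add_zero, Nat.cast_zero] at this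
              tauto
            · have := hiff _ s0
              simp only [mul_zero, if_true, zero_add, Nat.cast_one] at this
              tauto
          · rcases s1 with s1 | s1
            · have := hiff _ s1
              simp only [mul_one, Bool.false_eq_true, if_false, add_zero, Nat.cast_ofNat] at this
              tauto
            · have := hiff _ s1
              simp only [mul_one, if_true] at this
              norm_num at this
              tauto
        have hi2' : i + 1 = b c + 2 := by rw [hib]; ring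
        rw [hi2', hib] at heq
        have hmono := hb2 c hch heq
        -- c is Bad
        apply hb
        refine ⟨i, h5, ?_, hch, hi1, hi2, hoth'⟩
        have hstep : ∀ j : ZMod (k c), (M ⟨c, j + 1⟩).1 = (M ⟨c, j⟩).1 := by
          intro j
          have := hmono (j - 1)
          rw [show j - 1 + 1 = j by ring, show j - 1 + 2 = j + 1 by ring] at this
          exact this.symm
        have hall : ∀ (m : ℕ) (j : ZMod (k c)), (M ⟨c, j + m⟩).1 = (M ⟨c, j⟩).1 := by
          intro m
          induction m with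
          | zero => intro j; simp
          | succ m ih =>
            intro j
            rw [show j + ((m + 1 : ℕ) : ZMod (k c)) = (j + m) + 1 by push_cast; ring, hstep, ih]
        intro v w hv hw
        obtain ⟨j, rfl⟩ := vx_eq hv
        obtain ⟨j', rfl⟩ := vx_eq hw
        have := hall (j - j').val j'
        rw [ZMod.natCast_zmod_val] at this
        rw [← this]
        congr 2
        congr 1
        ring
  · -- O3
    intro c i h5 h1 h2 h3
    have hbc := hb1 c i h5 h1 h2 h3
    have hb : ¬ Bd c := hnotbd_c c ⟨⟨c, i⟩, rfl, by rw [h1]⟩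
    have hpi0 : ∀ v : Vx k, v.1 = c → pi v = v := by
      intro v hv
      simp only [hpi]
      rw [hv, if_neg hb, if_neg]
      intro h
      obtain ⟨a1, a2, a3, a4, a5, a6⟩ := hixs _ h
      have hto : ∀ w : Vx k, w.1 = (M v).1 → (M w).1 = c := by
        intro w hw
        rw [a2 w (M v) hw rfl, hinv, hv]
      have := surj5 hinv h5 a1 hto ⟨c, i⟩ rfl
      rw [h1] at this
      simp only at this
      rw [← this] at h
      exact hb h
    simp only
    rw [hpi0 _ rfl, hpi0 _ rfl]
    have s0 := hS0 ⟨c, ⟨0, by omega⟩⟩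
    unfold endp at s0
    simp only [mul_zero, Bool.false_eq_true, if_false, add_zero, Nat.cast_zero, if_true, zero_add,
      Nat.cast_one, hbc] at s0
    rw [show i + 3 + 1 = i + 4 by ring] at s0
    exact s0

end

end Pool.Agent.Helper850.TC
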