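import Pool.Agent.Helper850.TC.Base

namespace Pool.Agent.Helper850.TC

/-- vertices of a disjoint union of cycles of lengths `k c` -/
abbrev Vx {ι : Type*} (k : ι → ℕ) := Σ c : ι, ZMod (k c)

section
variable {ι : Type*} {k : ι → ℕ}

def nx (v : Vx k) : Vx k := ⟨v.1, v.2 + 1⟩
def pv (v : Vx k) : Vx k := ⟨v.1, v.2 - 1⟩

@[simp] theorem nx_pv (v : Vx k) : nx (pv v) = v := by
  obtain ⟨c, i⟩ := v
  show (⟨c, i - 1 + 1⟩ : Vx k) = _
  rw [sub_add_cancel]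
@[simp] theorem pv_nx (v : Vx k) : pv (nx v) = v := by
  obtain ⟨c, i⟩ := v
  show (⟨c, i + 1 - 1⟩ : Vx k) = _
  rw [add_sub_cancel_right]
@[simp] theorem nx_fst (v : Vx k) : (nx v).1 = v.1 := rfl
@[simp] theorem pv_fst (v : Vx k) : (pv v).1 = v.1 := rfl

theorem nx_iter (n : ℕ) (v : Vx k) : nx^[n] v = ⟨v.1, v.2 + n⟩ := by
  obtain ⟨c, i⟩ := v
  induction n generalizing i with
  | zero => simp
  | succ n ih =>
    rw [Function.iterate_succ_apply]
    show nx^[n] (⟨c, i + 1⟩ : Vx k) = _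
    rw [ih (i+1)]
    show (⟨c, i + 1 + n⟩ : Vx k) = ⟨c, i + ((n + 1 : ℕ) : ZMod (k c))⟩
    congr 1
    push_cast
    ring

theorem pv_iter (n : ℕ) (v : Vx k) : pv^[n] v = ⟨v.1, v.2 - n⟩ := by
  obtain ⟨c, i⟩ := v
  induction n generalizing i with
  | zero => simp
  | succ n ih =>
    rw [Function.iterate_succ_apply]
    show pv^[n] (⟨c, i - 1⟩ : Vx k) = _
    rw [ih (i-1)]
    show (⟨c, i - 1 - n⟩ : Vx k) = ⟨c, i - ((n + 1 : ℕ) : ZMod (k c))⟩
    congr 1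
    push_cast
    ring

theorem nx_iter_fst (n : ℕ) (v : Vx k) : (nx^[n] v).1 = v.1 := by
  rw [nx_iter]

theorem pv_iter_fst (n : ℕ) (v : Vx k) : (pv^[n] v).1 = v.1 := by
  rw [pv_iter]

theorem exists_nx_iter [∀ c, NeZero (k c)] (v w : Vx k) (h : w.1 = v.1) :
    ∃ n, nx^[n] v = w := by
  obtain ⟨c, i⟩ := v
  obtain ⟨c', j⟩ := w
  simp only at h
  subst h
  refine ⟨(j - i).val, ?_⟩
  rw [nx_iter]
  simp

theorem exists_pv_iter [∀ c, NeZero (k c)] (v w : Vx k) (h : w.1 = v.1) :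
    ∃ n, pv^[n] v = w := by
  obtain ⟨c, i⟩ := v
  obtain ⟨c', j⟩ := w
  simp only at h
  subst h
  refine ⟨(i - j).val, ?_⟩
  rw [pv_iter]
  simp

theorem pv_iter_nx_iter (n : ℕ) (v : Vx k) : pv^[n] (nx^[n] v) = v := by
  rw [pv_iter, nx_iter]; simp

theorem nx_iter_pv_iter (n : ℕ) (v : Vx k) : nx^[n] (pv^[n] v) = v := by
  rw [pv_iter, nx_iter]; simp

end

/-- exceptional vertex: not regular but pure -/
def T3 {n : ℕ} (l r : ZMod n → Bool) (i : ZMod n) : Prop := r i = false ∧ l (i - 1) = l i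

/-- condition on a single cycle -/
def Cond (n : ℕ) (l r pt out : ZMod n → Bool) : Prop :=
  (∀ i j, T3 l r i → T3 l r j → i = j) ∧
  ((∀ i, l (i-1) = l i) → ((∃ i, r i = false) → n % 3 ≠ 1) ∧ ((∀ i, r i = true) → n % 3 = 0)) ∧
  (∀ x, l (x-1) ≠ l x →
     (∃ x', x' ≠ x ∧ l (x'-1) ≠ l x' ∧ l x' = l x) ∨
     (∃ i, T3 l r i ∧ l i = l x) ∨
     (∃ i, r i = true ∧ l i ≠ l x ∧ out i = true) ∨
     (∃ m : ℕ, 0 < m ∧ (∀ j < m, l (x+j) = l x) ∧ l (x+m) ≠ l x ∧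
       (m + (if pt x ≠ l x then 1 else 0) + (if pt (x+m) ≠ l x then 1 else 0)) % 3 ≠ 2))

theorem Cond.not {n : ℕ} {l r pt out : ZMod n → Bool} (h : Cond n l r pt out) :
    Cond n (fun i => !l i) r (fun i => !pt i) out := by
  obtain ⟨h1, h2, h3⟩ := h
  refine ⟨?_, ?_, ?_⟩
  · intro i j hi hj
    apply h1 i j
    · simpa [T3] using hi
    · simpa [T3] using hj
  · intro h
    apply h2
    simpa using h
  · intro x hx
    have := h3 x (by simpa using hx)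
    simpa [T3] using this

section
variable {ι : Type*} {k : ι → ℕ}

/-- a good labelling -/
structure Good (M : Vx k → Vx k) (l r : Vx k → Bool) : Prop where
  inv : ∀ v, M (M v) = v
  hr : ∀ v, r (M v) = !r v
  hp : ∀ v, r v = true → l (pv v) = l v
  ho : ∀ v, r v = false → l (pv v) = l v → l (M v) ≠ l v
  hc : ∀ c, Cond (k c) (fun i => l ⟨c, i⟩) (fun i => r ⟨c, i⟩) (fun i => l (M ⟨c, i⟩))
    (fun i => open Classical in !decide ((M ⟨c, i⟩).1 = c))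

end

end Pool.Agent.Helper850.TC
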