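import Pool.Agent.Helper850.TC.Struct
import Pool.Agent.Helper850.TC.Chk

namespace Pool.Agent.Helper850.TC

set_option linter.unusedVariables false
set_option linter.unusedSimpArgs false

/-- what a vertex of a cycle sees along its third edge -/
inductive Env (n : ℕ) where
  | out : Env n
  | known (t : Bool) : Env n
  | unk : Env n
  | chord (j : ZMod n) : Env n

def code {n : ℕ} : Env n → ℕ
  | .out => 0
  | .known false => 1
  | .known true => 2
  | .unk => 3
  | .chord j => j.val + 4

def isOut {n : ℕ} : Env n → Bool
  | .chord _ => false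
  | _ => true

def LocOK {n : ℕ} (w : ZMod n → Env n) (l r : ZMod n → Bool) (i : ZMod n) : Prop :=
  match w i with
  | .out => r i = true ∧ l (i-1) = l i
  | .known t => r i = false ∧ (l (i-1) = l i → l i ≠ t)
  | .unk => (r i = true ↔ l (i-1) = l i)
  | .chord j => r i ≠ r j ∧ (r i = true → l (i-1) = l i) ∧
      (r i = false → l (i-1) = l i → l i ≠ l j)

def PtOK {n : ℕ} (w : ZMod n → Env n) (l pt : ZMod n → Bool) : Prop :=
  ∀ i, match w i with
  | .known t => pt i = t
  | .chord j => pt i = l j
  | _ => True

def WOK (n : ℕ) (w : ZMod n → Env n) : Prop :=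
  ∃ l r : ZMod n → Bool, (∀ i, LocOK w l r i) ∧
    ∀ pt, PtOK w l pt → Cond n l r pt (fun i => isOut (w i))

theorem pre_val {n : ℕ} (hn : 2 ≤ n) (i : ZMod n) : pre n i.val = (i - 1).val := by
  have : NeZero n := ⟨by omega⟩
  have : Fact (1 < n) := ⟨by omega⟩
  by_cases h : i.val = 0
  · rw [h]
    have h0 : i = 0 := (ZMod.val_eq_zero i).1 h
    subst h0
    obtain ⟨m, rfl⟩ : ∃ m, n = m + 1 := ⟨n - 1, by omega⟩
    rw [zero_sub, ZMod.val_neg_one]
    rfl
  · obtain ⟨j, hj⟩ : ∃ j, i.val = j + 1 := ⟨i.val - 1, by omega⟩
    have h1 : (1 : ZMod n).val = 1 := ZMod.val_one n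
    rw [ZMod.val_sub (by rw [h1]; omega), h1, hj]
    rfl

theorem runL_spec (n l x : ℕ) : ∀ f m0, m0 ≤ runL n l x f m0 ∧
    ∀ j, m0 ≤ j → j < runL n l x f m0 → bt l ((x + j) % n) = bt l x := by
  intro f
  induction f with
  | zero =>
    intro m0
    refine ⟨le_rfl, fun j h1 h2 => ?_⟩
    simp only [runL] at h2
    omega
  | succ f ih =>
    intro m0
    unfold runL
    cases h : (bt l ((x + m0) % n) == bt l x)
    · refine ⟨le_rfl, fun j h1 h2 => ?_⟩
      simp only at h2
      omega
    · obtain ⟨h1, h2⟩ := ih (m0 + 1)
      refine ⟨by simp only; omega, fun j h3 h4 => ?_⟩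
      simp only at h4
      rcases Nat.eq_or_lt_of_le h3 with h5 | h5
      · rw [← h5]; simpa using h
      · exact h2 j h5 h4

theorem pd_true {n : ℕ} [NeZero n] {w : ZMod n → Env n} {W L : ℕ} (hW : ∀ i : ZMod n, cd W i.val = code (w i))
    {pt : ZMod n → Bool} (hpt : PtOK w (fun i => bt L i.val) pt) (i : ZMod n) (b : Bool) :
    pd W L i.val b (if pt i ≠ b then 1 else 0) = true := by
  have h1 := hpt i
  unfold pd
  rw [hW]
  cases hw : w i with
  | out => rfl
  | unk => rfl
  | known t =>
    rw [hw] at h1
    simp only at h1
    rw [h1]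
    cases t <;> cases b <;> rfl
  | chord j =>
    rw [hw] at h1
    simp only at h1
    simp only [code]
    rw [h1]
    cases hb : bt L j.val <;> cases b <;> rfl

theorem wok_of_chk {n : ℕ} (hn : 3 ≤ n) (w : ZMod n → Env n) (W L : ℕ) (r : ℕ → Bool)
    (hW : ∀ i : ZMod n, cd W i.val = code (w i)) (h : chkAll n W L r = true) : WOK n w := by
  have : NeZero n := ⟨by omega⟩
  have : Fact (1 < n) := ⟨by omega⟩
  unfold chkAll at h
  simp only [Bool.and_eq_true] at h
  obtain ⟨⟨⟨h1, h2⟩, h3⟩, h4⟩ := h
  rw [allB_iff] at h1 h2 h4
  have hpure : ∀ i : ZMod n, (pureB n L i.val = true ↔ bt L (i - 1).val = bt L i.val) := by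
    intro i
    unfold pureB
    rw [pre_val (by omega)]
    simp
  have hpure' : ∀ i : ZMod n, (pureB n L i.val = false ↔ bt L (i - 1).val ≠ bt L i.val) := by
    intro i
    rw [← not_iff_not, Bool.not_eq_false, hpure, not_not]
  refine ⟨fun i => bt L i.val, fun i => r i.val, ?_, ?_⟩
  · intro i
    have := h1 i.val (ZMod.val_lt i)
    unfold chkPos at this
    rw [hW] at this
    have hp := hpure i
    have hp' := hpure' i
    unfold LocOK
    cases hw : w i with
    | out =>
      rw [hw] at this
      simp only [code, Bool.and_eq_true] at this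
      exact ⟨this.1, hp.1 this.2⟩
    | unk =>
      rw [hw] at this
      simp only [code, beq_iff_eq] at this
      simp only
      rw [this]
      exact hp
    | known t =>
      rw [hw] at this
      cases t
      · simp only [code, Bool.and_eq_true, Bool.or_eq_true, Bool.not_eq_true'] at this
        refine ⟨this.1, fun hh => ?_⟩
        rcases this.2 with h5 | h5
        · exact absurd hh (hp'.1 h5)
        · simp [h5]
      · simp only [code, Bool.and_eq_true, Bool.or_eq_true, Bool.not_eq_true'] at this
        refine ⟨this.1, fun hh => ?_⟩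
        rcases this.2 with h5 | h5
        · exact absurd hh (hp'.1 h5)
        · simp [h5]
    | chord j =>
      rw [hw] at this
      simp only [code, Bool.and_eq_true, Bool.or_eq_true, Bool.not_eq_true', bne_iff_ne, ne_eq] at this
      obtain ⟨⟨h5, h6⟩, h7⟩ := this
      refine ⟨h5, fun h8 => ?_, fun h8 h9 => ?_⟩
      · have h8' : r i.val = true := h8
        rcases h6 with h6 | h6
        · rw [h8'] at h6; exact absurd h6 (by simp)
        · exact hp.1 h6
      · have h8' : r i.val = false := h8
        rcases h7 with (h7 | h7) | h7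
        · rw [h8'] at h7; exact absurd h7 (by simp)
        · exact absurd h9 (hp'.1 h7)
        · exact h7
  · intro pt hpt
    refine ⟨?_, ?_, ?_⟩
    · rintro i j ⟨hi1, hi2⟩ ⟨hj1, hj2⟩
      have := h2 i.val (ZMod.val_lt i)
      rw [allB_iff] at this
      have := this j.val (ZMod.val_lt j)
      simp only [Bool.or_eq_true, beq_iff_eq, Bool.not_eq_true'] at this
      rcases this with (((h5 | h5) | h5) | h5) | h5
      · exact ZMod.val_injective n h5
      · have hi1' : r i.val = false := hi1
        rw [hi1'] at h5; exact absurd h5 (by simp)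
      · have hj1' : r j.val = false := hj1
        rw [hj1'] at h5; exact absurd h5 (by simp)
      · exact absurd hi2 ((hpure' i).1 h5)
      · exact absurd hj2 ((hpure' j).1 h5)
    · intro hall
      have hnm : anyB n (fun i => !pureB n L i) = false := by
        rw [Bool.eq_false_iff, Ne, anyB_iff]
        rintro ⟨i, hi, h5⟩
        have h6 := (hpure (i : ZMod n)).2 (hall _)
        rw [ZMod.val_natCast, Nat.mod_eq_of_lt hi] at h6
        rw [h6] at h5
        exact absurd h5 (by simp)
      rw [hnm, Bool.false_or] at h3
      constructor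
      · rintro ⟨i, hi⟩
        have h5 : anyB n (fun i => !r i) = true := by
          rw [anyB_iff]
          exact ⟨i.val, ZMod.val_lt i, by simpa using hi⟩
        rw [h5] at h3
        simpa using h3
      · intro hr
        have h5 : anyB n (fun i => !r i) = false := by
          rw [Bool.eq_false_iff, Ne, anyB_iff]
          rintro ⟨i, hi, h6⟩
          have h7 := hr (i : ZMod n)
          simp only [ZMod.val_natCast, Nat.mod_eq_of_lt hi] at h7
          rw [h7] at h6
          exact absurd h6 (by simp)
        rw [h5] at h3
        simpa using h3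
    · intro x hx
      have h5 := h4 x.val (ZMod.val_lt x)
      unfold chkStart at h5
      simp only [Bool.or_eq_true] at h5
      rcases h5 with (((h5 | h5) | h5) | h5) | h5
      · exact absurd ((hpure x).1 h5) hx
      · left
        rw [anyB_iff] at h5
        obtain ⟨y, hy, h6⟩ := h5
        simp only [Bool.and_eq_true, Bool.not_eq_true', beq_iff_eq, beq_eq_false_iff_ne] at h6
        obtain ⟨⟨h6, h7⟩, h8⟩ := h6
        have hyv : ((y : ZMod n)).val = y := by rw [ZMod.val_natCast, Nat.mod_eq_of_lt hy]
        refine ⟨(y : ZMod n), ?_, ?_, ?_⟩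
        · intro h9
          rw [← h9, hyv] at h6
          exact h6 rfl
        · rw [← hyv] at h7
          exact (hpure' _).1 h7
        · simp only
          rw [hyv]; exact h8
      · right; left
        rw [anyB_iff] at h5
        obtain ⟨y, hy, h6⟩ := h5
        simp only [Bool.and_eq_true, Bool.not_eq_true', beq_iff_eq] at h6
        obtain ⟨⟨h6, h7⟩, h8⟩ := h6
        have hyv : ((y : ZMod n)).val = y := by rw [ZMod.val_natCast, Nat.mod_eq_of_lt hy]
        refine ⟨(y : ZMod n), ⟨?_, ?_⟩, ?_⟩
        · simp only
          rw [hyv]; exact h6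
        · rw [← hyv] at h7
          exact (hpure _).1 h7
        · simp only
          rw [hyv]; exact h8
      · right; right; left
        rw [anyB_iff] at h5
        obtain ⟨y, hy, h6⟩ := h5
        simp only [Bool.and_eq_true, bne_iff_ne, ne_eq] at h6
        obtain ⟨⟨h6, h7⟩, h8⟩ := h6
        have hyv : ((y : ZMod n)).val = y := by rw [ZMod.val_natCast, Nat.mod_eq_of_lt hy]
        refine ⟨(y : ZMod n), ?_, ?_, ?_⟩
        · simp only
          rw [hyv]; exact h6
        · simp only
          rw [hyv]; exact h7
        · have h9 := hW (y : ZMod n)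
          rw [hyv] at h9
          rw [h9] at h8
          show isOut (w (y : ZMod n)) = true
          cases hw : w (y : ZMod n) with
          | out => rfl
          | unk => rfl
          | known t => rfl
          | chord j =>
            rw [hw] at h8
            have := Nat.le_of_ble_eq_true h8
            simp only [code] at this
            omega
      · right; right; right
        simp only [Bool.and_eq_true, bne_iff_ne, ne_eq] at h5
        obtain ⟨h6, h7⟩ := h5
        set m := runL n L x.val (n-1) 1 with hm
        obtain ⟨hm1, hm2⟩ := runL_spec n L x.val (n-1) 1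
        rw [← hm] at hm1 hm2
        have hadd : ∀ j : ℕ, (x + (j : ZMod n)).val = (x.val + j) % n := by
          intro j
          rw [ZMod.val_add, ZMod.val_natCast, Nat.add_mod_mod]
        refine ⟨m, by omega, ?_, ?_, ?_⟩
        · intro j hj
          simp only
          rw [hadd]
          rcases Nat.eq_zero_or_pos j with h8 | h8
          · subst h8
            rw [add_zero, Nat.mod_eq_of_lt (ZMod.val_lt x)]
          · exact hm2 j h8 hj
        · simp only
          rw [hadd]; exact h6
        · rw [allB_iff] at h7
          have h8 := h7 (if pt x ≠ bt L x.val then 1 else 0) (by split_ifs <;> omega)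
          rw [allB_iff] at h8
          have h9 := h8 (if pt (x + m) ≠ bt L x.val then 1 else 0) (by split_ifs <;> omega)
          simp only [Bool.or_eq_true, Bool.not_eq_true', beq_eq_false_iff_ne] at h9
          rcases h9 with (h9 | h9) | h9
          · have := pd_true hW hpt x (bt L x.val)
            rw [h9] at this; exact absurd this (by simp)
          · have := pd_true hW hpt (x + m) (bt L x.val)
            rw [hadd] at this
            rw [h9] at this; exact absurd this (by simp)
          · exact h9

end Pool.Agent.Helper850.TC
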